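import Pool.Agent.R640.Len

set_option autoImplicit false

/-! Ascending HNN extensions and their word metrics for the generating set `B ∪ {t}`. -/

namespace Pool.Agent.R640

open Pointwise

/-- A group `G` with a homomorphism `χ` onto `ℤ`, an element `t` with `χ t = 1` and a subgroup
`B` of the kernel of `χ` with `t B t⁻¹ ⊆ B`, whose conjugates `t⁻ᵏ B tᵏ` exhaust the kernel. -/
structure Asc (G : Type*) [Group G] where
  χ : G →* Multiplicative ℤ
  t : G
  B : Subgroup G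
  χt : χ t = Multiplicative.ofAdd 1
  χB : ∀ b ∈ B, χ b = 1
  conj : ∀ b ∈ B, t * b * t⁻¹ ∈ B
  exh : ∀ g, χ g = 1 → ∃ k : ℕ, t ^ k * g * (t ^ k)⁻¹ ∈ B

namespace Asc

variable {G : Type*} [Group G] (A : Asc G)

/-- The exponent of `t` in `g`. -/
def e (g : G) : ℤ := (A.χ g).toAdd

@[simp] theorem e_one : A.e 1 = 0 := by simp [e]
@[simp] theorem e_mul (g h : G) : A.e (g * h) = A.e g + A.e h := by simp [e]
@[simp] theorem e_inv (g : G) : A.e g⁻¹ = -A.e g := by simp [e]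
@[simp] theorem e_t : A.e A.t = 1 := by simp [e, A.χt]
@[simp] theorem e_zpow (g : G) (n : ℤ) : A.e (g ^ n) = n * A.e g := by simp [e]
@[simp] theorem e_pow (g : G) (n : ℕ) : A.e (g ^ n) = n * A.e g := by simp [e]
theorem e_B {b : G} (hb : b ∈ A.B) : A.e b = 0 := by simp [e, A.χB b hb]
theorem chi_of_e {g : G} (h : A.e g = 0) : A.χ g = 1 := by
  apply Multiplicative.toAdd.injective
  simpa [e] using h

/-- The generating set `B ∪ {t}`. -/
def X : Set G := (A.B : Set G) ∪ {A.t}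

theorem conj_pow (k : ℕ) {b : G} (hb : b ∈ A.B) : A.t ^ k * b * (A.t ^ k)⁻¹ ∈ A.B := by
  induction k with
  | zero => simpa using hb
  | succ k ih =>
    have := A.conj _ ih
    have e1 : A.t ^ (k + 1) * b * (A.t ^ (k + 1))⁻¹ =
        A.t * (A.t ^ k * b * (A.t ^ k)⁻¹) * A.t⁻¹ := by
      rw [pow_succ']
      group
    rw [e1]
    exact this

theorem conj_zpow {k : ℤ} (hk : 0 ≤ k) {b : G} (hb : b ∈ A.B) :
    A.t ^ k * b * (A.t ^ k)⁻¹ ∈ A.B := by
  obtain ⟨n, rfl⟩ := Int.eq_ofNat_of_zero_le hk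
  simpa using A.conj_pow n hb

/-- `a` and `b` merge at level `m`. -/
def P (a b : G) (m : ℤ) : Prop :=
  0 ≤ m + A.e a ∧ 0 ≤ m + A.e b ∧ A.t ^ (m + A.e a) * a⁻¹ * b * (A.t ^ (m + A.e b))⁻¹ ∈ A.B

theorem P_mono {a b : G} {m m' : ℤ} (h : A.P a b m) (hm : m ≤ m') : A.P a b m' := by
  obtain ⟨h1, h2, h3⟩ := h
  refine ⟨by omega, by omega, ?_⟩
  have := A.conj_zpow (k := m' - m) (by omega) h3
  have e1 : A.t ^ (m' + A.e a) * a⁻¹ * b * (A.t ^ (m' + A.e b))⁻¹ = A.t ^ (m' - m) *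
      (A.t ^ (m + A.e a) * a⁻¹ * b * (A.t ^ (m + A.e b))⁻¹) * (A.t ^ (m' - m))⁻¹ := by
    have h4 : A.t ^ (m' + A.e a) = A.t ^ (m' - m) * A.t ^ (m + A.e a) := by
      rw [← zpow_add]; congr 1; ring
    have h5 : A.t ^ (m' + A.e b) = A.t ^ (m' - m) * A.t ^ (m + A.e b) := by
      rw [← zpow_add]; congr 1; ring
    rw [h4, h5]
    group
  rw [e1]
  exact this

theorem P_symm {a b : G} {m : ℤ} (h : A.P a b m) : A.P b a m := by
  obtain ⟨h1, h2, h3⟩ := h
  refine ⟨h2, h1, ?_⟩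
  have := A.B.inv_mem h3
  convert this using 1
  group

theorem P_trans {a b c : G} {m : ℤ} (h : A.P a b m) (h' : A.P b c m) : A.P a c m := by
  obtain ⟨h1, h2, h3⟩ := h
  obtain ⟨h4, h5, h6⟩ := h'
  refine ⟨h1, h5, ?_⟩
  have := A.B.mul_mem h3 h6
  convert this using 1
  group

theorem P_exists (a b : G) : ∃ m, A.P a b m := by
  set m0 : ℤ := max (-A.e a) (-A.e b) with hm0
  have h1 : -A.e a ≤ m0 := le_max_left _ _
  have h2 : -A.e b ≤ m0 := le_max_right _ _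
  obtain ⟨k, hk⟩ := A.exh (A.t ^ (m0 + A.e a) * a⁻¹ * b * (A.t ^ (m0 + A.e b))⁻¹) (by
    apply A.chi_of_e
    simp)
  refine ⟨m0 + k, by omega, by omega, ?_⟩
  convert hk using 1
  have h4 : A.t ^ (m0 + k + A.e a) = A.t ^ k * A.t ^ (m0 + A.e a) := by
    rw [← zpow_natCast, ← zpow_add]; congr 1; ring
  have h5 : A.t ^ (m0 + k + A.e b) = A.t ^ k * A.t ^ (m0 + A.e b) := by
    rw [← zpow_natCast, ← zpow_add]; congr 1; ring
  rw [h4, h5]
  group

/-- The level at which `a` and `b` merge. -/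
noncomputable def M (a b : G) : ℤ := sInf {m : ℤ | A.P a b m}

theorem P_bdd (a b : G) : BddBelow {m : ℤ | A.P a b m} :=
  ⟨-A.e a, fun m hm => by have := hm.1; omega⟩

theorem M_spec (a b : G) : A.P a b (A.M a b) :=
  Int.csInf_mem (A.P_exists a b) (A.P_bdd a b)

theorem M_le {a b : G} {m : ℤ} (h : A.P a b m) : A.M a b ≤ m :=
  csInf_le (A.P_bdd a b) h

theorem M_le_iff {a b : G} {m : ℤ} : A.M a b ≤ m ↔ A.P a b m :=
  ⟨fun h => A.P_mono (A.M_spec a b) h, A.M_le⟩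

theorem M_symm (a b : G) : A.M a b = A.M b a :=
  le_antisymm (A.M_le (A.P_symm (A.M_spec b a))) (A.M_le (A.P_symm (A.M_spec a b)))

theorem M_tri (a b c : G) : A.M a c ≤ max (A.M a b) (A.M b c) := by
  apply A.M_le
  exact A.P_trans (A.P_mono (A.M_spec a b) (le_max_left _ _))
    (A.P_mono (A.M_spec b c) (le_max_right _ _))

theorem neg_e_le_left (a b : G) : -A.e a ≤ A.M a b := by
  have := (A.M_spec a b).1; omega

theorem neg_e_le_right (a b : G) : -A.e b ≤ A.M a b := by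
  have := (A.M_spec a b).2.1; omega

theorem P_left (g a b : G) (m : ℤ) : A.P (g * a) (g * b) m ↔ A.P a b (m + A.e g) := by
  unfold P
  have h1 : m + A.e (g * a) = m + A.e g + A.e a := by rw [e_mul]; ring
  have h2 : m + A.e (g * b) = m + A.e g + A.e b := by rw [e_mul]; ring
  rw [h1, h2]
  have h3 : A.t ^ (m + A.e g + A.e a) * (g * a)⁻¹ * (g * b) * (A.t ^ (m + A.e g + A.e b))⁻¹ =
      A.t ^ (m + A.e g + A.e a) * a⁻¹ * b * (A.t ^ (m + A.e g + A.e b))⁻¹ := by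
    group
  rw [h3]

theorem M_left (g a b : G) : A.M (g * a) (g * b) = A.M a b - A.e g := by
  apply le_antisymm
  · apply A.M_le
    rw [P_left]
    have : A.M a b - A.e g + A.e g = A.M a b := by ring
    rw [this]
    exact A.M_spec a b
  · have h := A.M_spec (g * a) (g * b)
    rw [P_left] at h
    have := A.M_le h
    omega

theorem M_self (a : G) : A.M a a = -A.e a := by
  apply le_antisymm
  · apply A.M_le
    refine ⟨by omega, by omega, ?_⟩
    simp
  · exact A.neg_e_le_left a a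

/-- The length function, up to an additive error of one. -/
noncomputable def F (g : G) : ℤ := 2 * A.M 1 g + A.e g

theorem F_diff (a b : G) : A.F (a⁻¹ * b) = 2 * A.M a b + A.e a + A.e b := by
  unfold F
  have h := A.M_left a 1 (a⁻¹ * b)
  rw [mul_one, mul_inv_cancel_left] at h
  rw [e_mul, e_inv]
  omega

theorem M_one_nonneg (g : G) : 0 ≤ A.M 1 g := by
  have := A.neg_e_le_left 1 g
  simpa using this

theorem F_one : A.F 1 = 0 := by
  unfold F
  rw [M_self]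
  simp

theorem P_one_iff (g : G) (m : ℤ) :
    A.P 1 g m ↔ 0 ≤ m ∧ 0 ≤ m + A.e g ∧ A.t ^ m * g * (A.t ^ (m + A.e g))⁻¹ ∈ A.B := by
  unfold P
  simp

theorem F_mul_B (g b : G) (hb : b ∈ A.B) : A.F (g * b) ≤ A.F g := by
  unfold F
  have h1 : A.M 1 (g * b) ≤ A.M 1 g := by
    apply A.M_le
    obtain ⟨h1, h2, h3⟩ := (A.P_one_iff _ _).1 (A.M_spec 1 g)
    rw [P_one_iff, e_mul, A.e_B hb, add_zero]
    refine ⟨h1, h2, ?_⟩
    have h4 := A.B.mul_mem h3 (A.conj_zpow h2 hb)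
    convert h4 using 1
    group
  rw [e_mul, A.e_B hb]
  omega

theorem F_mul_t (g : G) : A.F (g * A.t) ≤ A.F g + 1 := by
  unfold F
  have h1 : A.M 1 (g * A.t) ≤ A.M 1 g := by
    apply A.M_le
    obtain ⟨h1, h2, h3⟩ := (A.P_one_iff _ _).1 (A.M_spec 1 g)
    rw [P_one_iff, e_mul, e_t]
    refine ⟨h1, by omega, ?_⟩
    convert h3 using 1
    rw [← add_assoc, zpow_add_one]
    group
  rw [e_mul, e_t]
  omega

theorem F_mul_t_inv (g : G) : A.F (g * A.t⁻¹) ≤ A.F g + 1 := by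
  unfold F
  have h1 : A.M 1 (g * A.t⁻¹) ≤ A.M 1 g + 1 := by
    apply A.M_le
    obtain ⟨h1, h2, h3⟩ := (A.P_one_iff _ _).1 (A.M_spec 1 g)
    rw [P_one_iff, e_mul, e_inv, e_t]
    refine ⟨by omega, by omega, ?_⟩
    have h4 := A.conj _ h3
    convert h4 using 1
    have h5 : A.M 1 g + 1 + (A.e g + -1) = A.M 1 g + A.e g := by ring
    rw [h5, add_comm (A.M 1 g) 1, zpow_add, zpow_one]
    have h6 : A.t⁻¹ * (A.t ^ (A.M 1 g + A.e g))⁻¹ = (A.t ^ (A.M 1 g + A.e g))⁻¹ * A.t⁻¹ := by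
      group
    simp only [mul_assoc] at h6 ⊢
    rw [h6]
  rw [e_mul, e_inv, e_t]
  omega

theorem mem_B_X {b : G} (hb : b ∈ A.B) : b ∈ A.X := Or.inl hb

theorem t_X : A.t ∈ A.X := Or.inr rfl

theorem repr (g : G) {m : ℤ} (h : A.P 1 g m) :
    ∃ b ∈ A.B, g = (A.t ^ m)⁻¹ * b * A.t ^ (m + A.e g) := by
  obtain ⟨h1, h2, h3⟩ := (A.P_one_iff _ _).1 h
  exact ⟨_, h3, by group⟩

theorem closure_X : Subgroup.closure A.X = ⊤ := by
  rw [eq_top_iff]
  intro g _
  obtain ⟨b, hb, hg⟩ := A.repr g (A.M_spec 1 g)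
  rw [hg]
  have ht := Subgroup.subset_closure (k := A.X) A.t_X
  exact mul_mem (mul_mem (inv_mem (zpow_mem ht _)) (Subgroup.subset_closure (A.mem_B_X hb)))
    (zpow_mem ht _)

theorem F_le_len (g : G) : A.F g ≤ len A.X g := by
  refine le_len_of_lip A.closure_X A.F (le_of_eq A.F_one) ?_ g
  rintro g x ((hx | hx) | (hx | hx))
  · have := A.F_mul_B g x hx; omega
  · rw [Set.mem_singleton_iff] at hx
    rw [hx]
    exact A.F_mul_t g
  · have h1 : x ∈ A.B := by simpa using A.B.inv_mem hx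
    have := A.F_mul_B g x h1; omega
  · rw [Set.mem_singleton_iff] at hx
    have h1 : x = A.t⁻¹ := by rw [← hx, inv_inv]
    rw [h1]
    exact A.F_mul_t_inv g

theorem len_zpow_t (k : ℤ) : len A.X (A.t ^ k) ≤ k.natAbs := by
  have key : ∀ n : ℕ, len A.X (A.t ^ n) ≤ n := by
    intro n
    have := len_pow_le A.closure_X A.t n
    have h1 := len_le_one A.t_X
    nlinarith
  rcases Int.natAbs_eq k with h | h
  · have e1 : A.t ^ k = A.t ^ k.natAbs := by
      conv_lhs => rw [h]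
      rw [zpow_natCast]
    rw [e1]
    exact key _
  · have e1 : A.t ^ k = (A.t ^ k.natAbs)⁻¹ := by
      conv_lhs => rw [h]
      rw [zpow_neg, zpow_natCast]
    rw [e1, len_inv A.closure_X]
    exact key _

theorem len_le_of_P {g : G} {m : ℤ} (h : A.P 1 g m) : (len A.X g : ℤ) ≤ 2 * m + A.e g + 1 := by
  obtain ⟨b, hb, hg⟩ := A.repr g h
  obtain ⟨h1, h2, -⟩ := (A.P_one_iff _ _).1 h
  have h3 : len A.X g ≤ len A.X ((A.t ^ m)⁻¹) + len A.X b + len A.X (A.t ^ (m + A.e g)) := by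
    conv_lhs => rw [hg]
    exact (len_mul_le A.closure_X _ _).trans
      (Nat.add_le_add_right (len_mul_le A.closure_X _ _) _)
  rw [len_inv A.closure_X] at h3
  have h4 := A.len_zpow_t m
  have h5 := A.len_zpow_t (m + A.e g)
  have h6 := len_le_one (A.mem_B_X hb)
  omega

theorem len_le_F (g : G) : (len A.X g : ℤ) ≤ A.F g + 1 := A.len_le_of_P (A.M_spec 1 g)

/-- The Gromov product up to a bounded error. -/
noncomputable def Q (a b : G) : ℤ := A.M 1 a + A.M 1 b - A.M a b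

theorem gp_le (a b : G) : gp A.X a b ≤ A.Q a b + 1 := by
  have h1 := A.len_le_F a
  have h2 := A.len_le_F b
  have h3 := A.F_le_len (a⁻¹ * b)
  rw [F_diff] at h3
  unfold F at h1 h2
  have h4 : (len A.X a : ℤ) + len A.X b - len A.X (a⁻¹ * b) ≤ 2 * (A.Q a b + 1) := by
    unfold Q; omega
  have h5 : (len A.X a : ℝ) + len A.X b - len A.X (a⁻¹ * b) ≤ 2 * (A.Q a b + 1) := by
    exact_mod_cast h4
  unfold gp
  linarith

theorem le_gp (a b : G) : (A.Q a b : ℝ) - 1 ≤ gp A.X a b := by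
  have h1 := A.F_le_len a
  have h2 := A.F_le_len b
  have h3 := A.len_le_F (a⁻¹ * b)
  rw [F_diff] at h3
  unfold F at h1 h2
  have h4 : 2 * (A.Q a b - 1) ≤ (len A.X a : ℤ) + len A.X b - len A.X (a⁻¹ * b) := by
    unfold Q; omega
  have h5 : (2 * (A.Q a b - 1) : ℝ) ≤ (len A.X a : ℝ) + len A.X b - len A.X (a⁻¹ * b) := by
    exact_mod_cast h4
  unfold gp
  linarith

theorem Q_hyp (x y z : G) : min (A.Q x y) (A.Q y z) ≤ A.Q x z := by
  unfold Q
  have h1 := A.M_tri x y z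
  have h2 := A.M_tri x 1 z
  have h3 := A.M_tri 1 x y
  have h4 := A.M_tri 1 z y
  have e1 := A.M_symm x 1
  have e2 := A.M_symm z y
  omega

theorem hyp : ∃ δ : ℝ, ∀ x y z : G,
    min (gp A.X x y) (gp A.X y z) - δ ≤ gp A.X x z := by
  refine ⟨2, fun x y z => ?_⟩
  have h1 := A.Q_hyp x y z
  have h2 : min (A.Q x y : ℝ) (A.Q y z) ≤ A.Q x z := by exact_mod_cast h1
  have h3 := A.gp_le x y
  have h4 := A.gp_le y z
  have h5 := A.le_gp x z
  rcases le_total (A.Q x y : ℝ) (A.Q y z) with h | h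
  · rw [min_eq_left h] at h2
    have := min_le_left (gp A.X x y) (gp A.X y z)
    linarith
  · rw [min_eq_right h] at h2
    have := min_le_right (gp A.X x y) (gp A.X y z)
    linarith

theorem abs_e_le_len (g : G) : |A.e g| ≤ len A.X g := by
  have h1 := A.F_le_len g
  have h2 := A.M_one_nonneg g
  have h3 := A.neg_e_le_right 1 g
  unfold F at h1
  rw [abs_le]
  constructor <;> omega

theorem lox_of_ne {g : G} (h : A.e g ≠ 0) (n : ℕ) : n ≤ len A.X (g ^ n) := by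
  have h1 := A.abs_e_le_len (g ^ n)
  rw [e_pow, abs_mul] at h1
  have h2 : 1 ≤ |A.e g| := Int.one_le_abs h
  have h3 : (n : ℤ) ≤ len A.X (g ^ n) := by
    refine le_trans ?_ h1
    rw [Nat.abs_cast]
    nlinarith
  exact_mod_cast h3

theorem bounded_of_e_zero {g : G} (h : A.e g = 0) : ∃ C : ℕ, ∀ n : ℕ, len A.X (g ^ n) ≤ C := by
  obtain ⟨h1, h2, h3⟩ := (A.P_one_iff _ _).1 (A.M_spec 1 g)
  set m := A.M 1 g with hm
  refine ⟨(2 * m + 1).toNat, fun n => ?_⟩
  have h4 : A.P 1 (g ^ n) m := by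
    rw [P_one_iff, e_pow, h, mul_zero, add_zero]
    refine ⟨h1, h1, ?_⟩
    rw [h, add_zero] at h3
    have h5 := pow_mem h3 n
    have h6 : (A.t ^ m * g * (A.t ^ m)⁻¹) ^ n = A.t ^ m * g ^ n * (A.t ^ m)⁻¹ := by
      rw [_root_.conj_pow]
    rw [← h6]
    exact h5
  have h5 := A.len_le_of_P h4
  rw [e_pow, h] at h5
  omega

/-- Sequences `u`, `v` with `χ → -∞` converge to the same point. -/
theorem same_of_neg {u v : G} {n : ℤ} (hu : A.e u ≤ -n) (hv : A.e v ≤ -n) :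
    (n : ℝ) - 1 ≤ gp A.X u v := by
  have h1 := A.neg_e_le_right 1 u
  have h2 := A.neg_e_le_right 1 v
  have h3 := A.M_tri u 1 v
  rw [A.M_symm u 1] at h3
  have h4 : n ≤ A.Q u v := by unfold Q; omega
  have h5 := A.le_gp u v
  have h6 : (n : ℝ) ≤ A.Q u v := by exact_mod_cast h4
  linarith

end Asc

end Pool.Agent.R640
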