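import Mathlib

set_option autoImplicit false

/-! Splitting words of a context-free language. -/

namespace Pool.Agent.R640.CF

variable {T : Type*}

/-- Derivations as trees. -/
inductive Der (g : ContextFreeGrammar T) : List (Symbol T g.NT) → List T → Prop
  | nil : Der g [] []
  | term (a : T) (s : List (Symbol T g.NT)) (w : List T) : Der g s w →
      Der g (Symbol.terminal a :: s) (a :: w)
  | nt (r : ContextFreeRule T g.NT) (s : List (Symbol T g.NT)) (w₁ w₂ : List T) :
      r ∈ g.rules → Der g r.output w₁ → Der g s w₂ →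
      Der g (Symbol.nonterminal r.input :: s) (w₁ ++ w₂)

variable {g : ContextFreeGrammar T}

theorem Der.append {s s' : List (Symbol T g.NT)} {w w' : List T} (h : Der g s w)
    (h' : Der g s' w') : Der g (s ++ s') (w ++ w') := by
  induction h with
  | nil => exact h'
  | term a s w _ ih => exact Der.term a _ _ ih
  | nt r s w₁ w₂ hr h1 _ _ ih =>
    rw [List.append_assoc]
    exact Der.nt r _ _ _ hr h1 ih

theorem Der.split {s s' : List (Symbol T g.NT)} : ∀ {w : List T}, Der g (s ++ s') w →
    ∃ w₁ w₂, w = w₁ ++ w₂ ∧ Der g s w₁ ∧ Der g s' w₂ := by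
  induction s with
  | nil =>
    intro w h
    exact ⟨[], w, rfl, Der.nil, h⟩
  | cons y s ih =>
    intro w h
    rw [List.cons_append] at h
    cases h with
    | term a _ w h =>
      obtain ⟨w₁, w₂, rfl, h1, h2⟩ := ih h
      exact ⟨a :: w₁, w₂, rfl, Der.term a _ _ h1, h2⟩
    | nt r _ v₁ v₂ hr h1 h2 =>
      obtain ⟨w₁, w₂, rfl, h3, h4⟩ := ih h2
      exact ⟨v₁ ++ w₁, w₂, by rw [List.append_assoc], Der.nt r _ _ _ hr h1 h3, h4⟩

theorem der_map (w : List T) : Der g (w.map Symbol.terminal) w := by
  induction w with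
  | nil => exact Der.nil
  | cons a w ih => exact Der.term a _ _ ih

theorem Der.of_produces {u v : List (Symbol T g.NT)} {w : List T} (h : g.Produces u v)
    (hw : Der g v w) : Der g u w := by
  obtain ⟨r, hr, h⟩ := h
  obtain ⟨p, q, rfl, rfl⟩ := h.exists_parts
  obtain ⟨w₁, w₂, rfl, h1, h2⟩ := hw.split
  obtain ⟨w₃, w₄, rfl, h3, h4⟩ := h1.split
  rw [List.append_assoc, List.append_assoc]
  exact h3.append (Der.nt r _ _ _ hr h4 h2)

theorem Der.of_derives {u : List (Symbol T g.NT)} {w : List T}
    (h : g.Derives u (w.map Symbol.terminal)) : Der g u w := by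
  induction h using Relation.ReflTransGen.head_induction_on with
  | refl => exact der_map w
  | head h1 _ ih => exact Der.of_produces h1 ih

theorem Der.to_derives {s : List (Symbol T g.NT)} {w : List T} (h : Der g s w) :
    g.Derives s (w.map Symbol.terminal) := by
  induction h with
  | nil => exact Relation.ReflTransGen.refl
  | term a s w _ ih => exact ih.append_left [Symbol.terminal a]
  | nt r s w₁ w₂ hr _ _ ih1 ih2 =>
    have h1 : g.Produces (Symbol.nonterminal r.input :: s) (r.output ++ s) :=
      ⟨r, hr, ContextFreeRule.Rewrites.head s⟩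
    rw [List.map_append]
    exact h1.trans_derives ((ih1.append_right s).trans (ih2.append_left _))

theorem mem_iff {w : List T} : w ∈ g.language ↔ Der g [Symbol.nonterminal g.initial] w :=
  ⟨fun h => Der.of_derives h, fun h => h.to_derives⟩

/-- The derivable words can be replaced by short ones. -/
def Bd (g : ContextFreeGrammar T) (K : ℕ) (s : List (Symbol T g.NT)) : Prop :=
  ∀ w, Der g s w → ∃ w', w'.length ≤ K ∧ Der g s w'

theorem exists_bd (g : ContextFreeGrammar T) : ∃ K : ℕ, ∀ r ∈ g.rules, ∀ i,
    Bd g K (r.output.drop i) ∧ Bd g K ((r.output.drop i).take 1) := by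
  classical
  let m : List (Symbol T g.NT) → ℕ := fun s => if h : ∃ w, Der g s w then h.choose.length else 0
  have hm : ∀ s, ∀ K, m s ≤ K → Bd g K s := by
    intro s K hK w hw
    have h : ∃ w, Der g s w := ⟨w, hw⟩
    refine ⟨h.choose, ?_, h.choose_spec⟩
    have h1 : m s = h.choose.length := dif_pos h
    omega
  refine ⟨g.rules.sup fun r => (Finset.range (r.output.length + 1)).sup fun i =>
    max (m (r.output.drop i)) (m ((r.output.drop i).take 1)), fun r hr i => ?_⟩
  have key : ∀ i ≤ r.output.length, max (m (r.output.drop i)) (m ((r.output.drop i).take 1)) ≤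
      g.rules.sup fun r => (Finset.range (r.output.length + 1)).sup fun i =>
      max (m (r.output.drop i)) (m ((r.output.drop i).take 1)) := by
    intro i hi
    refine le_trans ?_ (Finset.le_sup (f := fun r : ContextFreeRule T g.NT =>
      (Finset.range (r.output.length + 1)).sup fun i =>
      max (m (r.output.drop i)) (m ((r.output.drop i).take 1))) hr)
    exact Finset.le_sup (f := fun i => max (m (r.output.drop i)) (m ((r.output.drop i).take 1)))
      (Finset.mem_range.2 (by omega))
  by_cases hi : i ≤ r.output.length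
  · exact ⟨hm _ _ ((le_max_left _ _).trans (key i hi)), hm _ _ ((le_max_right _ _).trans (key i hi))⟩
  · have h1 : r.output.drop i = [] := List.drop_eq_nil_of_le (by omega)
    rw [h1]
    have h2 : ∀ K, Bd g K [] := fun K w _ => ⟨[], Nat.zero_le _, Der.nil⟩
    exact ⟨h2 _, h2 _⟩

/-- The conclusion of the splitting lemma. -/
def Concl (g : ContextFreeGrammar T) (K : ℕ) (u : List T) (a b : ℕ) : Prop :=
  ∃ α x y β, u = α ++ (x ++ (y ++ β)) ∧ α.length ≤ a ∧ a ≤ α.length + x.length ∧
    α.length + x.length ≤ b ∧ b ≤ α.length + x.length + y.length ∧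
    (∃ x' : List T, x'.length ≤ K ∧ α ++ (x' ++ (y ++ β)) ∈ g.language) ∧
    (∃ y' : List T, y'.length ≤ K ∧ α ++ (x ++ (y' ++ β)) ∈ g.language)

theorem split_aux (K : ℕ) (hK : ∀ r ∈ g.rules, ∀ i,
    Bd g K (r.output.drop i) ∧ Bd g K ((r.output.drop i).take 1))
    {s : List (Symbol T g.NT)} {x : List T} (h : Der g s x) :
    ∀ α β, (∀ x', Der g s x' → α ++ (x' ++ β) ∈ g.language) →
    (∀ i, Bd g K (s.drop i) ∧ Bd g K ((s.drop i).take 1)) →
    ∀ a b, α.length ≤ a → a < b → b ≤ α.length + x.length → Concl g K (α ++ (x ++ β)) a b := by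
  induction h with
  | nil =>
    intro α β _ _ a b h1 h2 h3
    simp at h3
    omega
  | term c s w hsw ih =>
    intro α β hl hb a b h1 h2 h3
    by_cases ha : α.length + 1 ≤ a
    · have h4 := ih (α ++ [c]) β (fun x' hx' => by
        have := hl (c :: x') (Der.term c _ _ hx')
        simpa using this) (fun i => hb (i + 1)) a b (by simpa using ha) h2 (by
        simp only [List.length_append, List.length_cons, List.length_nil] at h3 ⊢
        omega)
      simpa using h4
    · have ha' : α.length = a := by omega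
      have h4 := Der.term c s w hsw
      obtain ⟨y', h5, h6⟩ := (hb 0).1 _ h4
      refine ⟨α, [], c :: w, β, rfl, by omega, by simp; omega, by simp; omega, by simpa using h3,
        ⟨[], Nat.zero_le _, hl _ h4⟩, ⟨y', h5, hl _ h6⟩⟩
  | nt r s w₁ w₂ hr hw₁ hw₂ ih1 ih2 =>
    intro α β hl hb a b h1 h2 h3
    rw [List.length_append] at h3
    by_cases hc : b ≤ α.length + w₁.length
    · have h4 := ih1 α (w₂ ++ β) (fun x' hx' => by
        have := hl (x' ++ w₂) (Der.nt r _ _ _ hr hx' hw₂)
        rwa [List.append_assoc] at this) (hK r hr) a b h1 h2 hc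
      rwa [← List.append_assoc w₁] at h4
    · by_cases hc' : α.length + w₁.length ≤ a
      · have h4 := ih2 (α ++ w₁) β (fun x' hx' => by
          have := hl (w₁ ++ x') (Der.nt r _ _ _ hr hw₁ hx')
          rwa [List.append_assoc, ← List.append_assoc α] at this) (fun i => hb (i + 1)) a b
          (by simpa using hc') h2 (by rw [List.length_append]; omega)
        rwa [List.append_assoc, ← List.append_assoc w₁] at h4
      · push Not at hc hc'
        have hnt : Der g [Symbol.nonterminal r.input] w₁ := by
          have := Der.nt r [] w₁ [] hr hw₁ Der.nil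
          rwa [List.append_nil] at this
        obtain ⟨x', h4, h5⟩ := (hb 0).2 w₁ hnt
        obtain ⟨y', h6, h7⟩ := (hb 1).1 w₂ hw₂
        refine ⟨α, w₁, w₂, β, by rw [List.append_assoc], h1, hc'.le, hc.le, by omega,
          ⟨x', h4, ?_⟩, ⟨y', h6, ?_⟩⟩
        · have h8 : Der g ([Symbol.nonterminal r.input] ++ s) (x' ++ w₂) := Der.append h5 hw₂
          have := hl _ h8
          rwa [List.append_assoc] at this
        · have := hl _ (Der.nt r _ _ _ hr hw₁ h7)
          rwa [List.append_assoc] at this

theorem Der.root {n : g.NT} {u : List T} (h : Der g [Symbol.nonterminal n] u) :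
    ∃ r ∈ g.rules, r.input = n ∧ Der g r.output u := by
  generalize hs : [Symbol.nonterminal n] = s at h
  cases h with
  | nil => simp at hs
  | term a s w h => simp at hs
  | nt r s w₁ w₂ hr hw₁ hw₂ =>
    simp only [List.cons.injEq, Symbol.nonterminal.injEq] at hs
    obtain ⟨h1, rfl⟩ := hs
    cases hw₂
    rw [List.append_nil]
    exact ⟨r, hr, h1.symm, hw₁⟩

theorem split_lang (L : Language T) (hL : L.IsContextFree) : ∃ K : ℕ, ∀ u ∈ L, ∀ a b, a ≤ b →
    b ≤ u.length → ∃ α x y β, u = α ++ (x ++ (y ++ β)) ∧ α.length ≤ a ∧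
    a ≤ α.length + x.length ∧ α.length + x.length ≤ b ∧ b ≤ α.length + x.length + y.length ∧
    (∃ x' : List T, x'.length ≤ K ∧ α ++ (x' ++ (y ++ β)) ∈ L) ∧
    (∃ y' : List T, y'.length ≤ K ∧ α ++ (x ++ (y' ++ β)) ∈ L) := by
  obtain ⟨g, rfl⟩ := hL
  obtain ⟨K, hK⟩ := exists_bd g
  refine ⟨K, fun u hu a b hab hb => ?_⟩
  rcases hab.eq_or_lt with rfl | hlt
  · refine ⟨u.take a, [], [], u.drop a, by simp, by simp, by simp; omega, by simp, by simp; omega,
      ⟨[], Nat.zero_le _, by simpa using hu⟩, ⟨[], Nat.zero_le _, by simpa using hu⟩⟩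
  · obtain ⟨r, hr, hri, hw⟩ := (mem_iff.1 hu).root
    have h2 := split_aux K hK hw [] [] (fun x' hx' => by
      rw [mem_iff, ← hri]
      have := Der.nt r [] x' [] hr hx' Der.nil
      simpa using this) (hK r hr) a b (Nat.zero_le _) hlt (by simpa using hb)
    simpa [Concl] using h2

end Pool.Agent.R640.CF
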