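import Pool.Agent.R640.InvLem
import Pool.Agent.R640.CFG

set_option autoImplicit false

/-! Inverse monoids with context-free Schützenberger automata are tree-like. -/

namespace Pool.Agent.R640.IM

variable {A : Type} {R : Set (List (A × Bool) × List (A × Bool))} {w : List (A × Bool)}

/-- The inverse of an idempotent. -/
theorem idem_inv {φ : List (A × Bool)} (h : val R φ * val R φ = val R φ) :
    val R (inv φ) = val R φ := by
  set f := val R φ with hf
  set g := val R (inv φ) with hg
  have h1 : f * g * f = f := val_reg φ
  have h2 : g * f * g = g := val_reg' φ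
  have h3 : g * f * (f * g) = f * g * (g * f) := by
    have := val_comm (R := R) (inv φ) φ
    rwa [inv_inv] at this
  have h4 : g = f * g * (g * f) := by
    calc g = g * f * g := h2.symm
      _ = g * (f * f) * g := by rw [h]
      _ = g * f * (f * g) := by simp only [mul_assoc]
      _ = f * g * (g * f) := h3
  calc g = f * g * (g * f) := h4
    _ = (f * f) * g * (g * (f * f)) := by rw [h]
    _ = f * (f * g * (g * f)) * f := by simp only [mul_assoc]
    _ = f * g * f := by rw [← h4]
    _ = f := h1

theorem mem_lang_base {u : List (A × Bool)} :
    u ∈ lang R (w ++ inv w) ↔ val R (w ++ inv w) * val R u = val R (w ++ inv w) := by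
  constructor
  · rintro ⟨f, hf, h⟩
    obtain ⟨φ, rfl⟩ := val_surj f
    set e := val R (w ++ inv w) with he
    have hee : e * e = e := val_idem w
    have h1 : val R (inv φ) = val R φ := idem_inv hf
    have h2 : val R (inv u) * val R φ = e := by
      have h3 : val R (φ ++ u) = e := by rw [val_append, h]
      have h4 : val R (inv (φ ++ u)) = val R (φ ++ u) := idem_inv (by rw [h3, hee])
      rwa [inv_append, val_append, h1, h3] at h4
    have h3 : e = val R φ * (val R u * val R (inv u)) := by
      have h5 := val_comm (R := R) φ u
      rw [h1, hf] at h5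
      calc e = e * e := hee.symm
        _ = (val R φ * val R u) * (val R (inv u) * val R φ) := by rw [h2, ← h]
        _ = val R φ * (val R u * val R (inv u) * val R φ) := by simp only [mul_assoc]
        _ = val R φ * (val R φ * (val R u * val R (inv u))) := by rw [h5]
        _ = val R φ * val R φ * (val R u * val R (inv u)) := by simp only [mul_assoc]
        _ = _ := by rw [hf]
    calc e * val R u = val R φ * (val R u * val R (inv u)) * val R u := by rw [← h3]
      _ = val R φ * (val R u * val R (inv u) * val R u) := by simp only [mul_assoc]
      _ = val R φ * val R u := by rw [val_reg]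
      _ = e := h.symm
  · intro h
    exact ⟨val R (w ++ inv w), val_idem w, h.symm⟩

/-- Two loops at the base vertex which differ in a factor. -/
theorem same_end {α x x' β : List (A × Bool)}
    (h : val R (w ++ inv w) * val R (α ++ (x ++ β)) = val R (w ++ inv w))
    (h' : val R (w ++ inv w) * val R (α ++ (x' ++ β)) = val R (w ++ inv w)) :
    val R (w ++ inv w) * val R (α ++ x) = val R (w ++ inv w) * val R (α ++ x') := by
  have key : ∀ x, val R (w ++ inv w) * val R (α ++ (x ++ β)) = val R (w ++ inv w) →
      val R (w ++ inv w) * val R (α ++ x) = val R (w ++ inv w) * val R (inv β) := by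
    intro x h
    rw [← List.append_assoc, val_append (α ++ x), ← mul_assoc] at h
    let z : Vert R w := ⟨val R (w ++ inv w) * val R (α ++ x),
      vert_of_between (x := base R w) (y := base R w) h⟩
    have h1 : z.1 * val R β = (base R w).1 := h
    exact (back_vert h1).symm
  rw [key x h, key x' h']

theorem qiTree_of_cf (h : (lang R (w ++ inv w)).IsContextFree) : QITree (schutz R w) := by
  obtain ⟨K, hK⟩ := CF.split_lang _ h
  have hG : (schutz R w).Connected := connected
  refine qiTree_of hG (base R w) (6 * K) ?_
  intro n x y p hp
  obtain ⟨p₁, hp₁⟩ := hG.exists_walk_length_eq_dist (base R w) x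
  obtain ⟨p₃, hp₃⟩ := hG.exists_walk_length_eq_dist y (base R w)
  set q := p₁.append (p.append p₃) with hq
  obtain ⟨u, hu, hu'⟩ := exists_word q
  have hql : q.length = p₁.length + (p.length + p₃.length) := by
    rw [hq, SimpleGraph.Walk.length_append, SimpleGraph.Walk.length_append]
  have hmem : u ∈ lang R (w ++ inv w) := by
    rw [mem_lang_base]
    have h1 := hu' u.length
    rw [List.take_length, hu, SimpleGraph.Walk.getVert_length] at h1
    exact h1
  obtain ⟨α, a, b, β, huu, h1, h2, h3, h4, ⟨a', ha', ha''⟩, ⟨b', hb', hb''⟩⟩ :=
    hK u hmem p₁.length (p₁.length + p.length) (Nat.le_add_right _ _) (by omega)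
  rw [mem_lang_base] at hmem ha'' hb''
  have hlen : u.length = α.length + (a.length + (b.length + β.length)) := by
    rw [huu]
    simp
  -- the three vertices
  have v1 : (base R w).1 * val R α = (q.getVert α.length).1 := by
    rw [← hu', huu, List.take_left]
  have v2 : (base R w).1 * val R (α ++ a) = (q.getVert (α.length + a.length)).1 := by
    rw [← hu', huu, ← List.append_assoc, ← List.length_append, List.take_left]
  have v3 : (base R w).1 * val R (α ++ (a ++ b)) =
      (q.getVert (α.length + a.length + b.length)).1 := by
    rw [← hu', huu]
    have e1 : α ++ (a ++ (b ++ β)) = (α ++ (a ++ b)) ++ β := by simp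
    have e2 : α.length + a.length + b.length = (α ++ (a ++ b)).length := by
      simp
      omega
    rw [e1, e2, List.take_left]
  have d1 : (schutz R w).dist (q.getVert α.length) (q.getVert (α.length + a.length)) ≤ K := by
    refine (dist_le (u := a') ?_).trans ha'
    rw [← v1, ← v2, mul_assoc, ← val_append]
    rw [huu] at hmem
    exact (same_end hmem ha'').symm
  have d2 : (schutz R w).dist (q.getVert (α.length + a.length))
      (q.getVert (α.length + a.length + b.length)) ≤ K := by
    refine (dist_le (u := b') ?_).trans hb'
    rw [← v2, ← v3, mul_assoc, ← val_append]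
    rw [huu] at hmem
    have e1 : α ++ (a ++ (b ++ β)) = (α ++ a) ++ (b ++ β) := by simp
    have e2 : α ++ (a ++ (b' ++ β)) = (α ++ a) ++ (b' ++ β) := by simp
    rw [e1] at hmem
    rw [e2] at hb''
    have := (same_end hmem hb'').symm
    have e3 : α ++ (a ++ b) = (α ++ a) ++ b := by simp
    rw [e3]
    exact this
  set z₁ := q.getVert α.length
  set z₂ := q.getVert (α.length + a.length)
  set z₃ := q.getVert (α.length + a.length + b.length)
  -- the first vertex is on the first geodesic
  have g1 : (schutz R w).dist (base R w) z₁ + (schutz R w).dist z₁ x ≤ p₁.length := by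
    have e1 : z₁ = p₁.getVert α.length := by
      change q.getVert α.length = _
      rw [hq, SimpleGraph.Walk.getVert_append]
      split_ifs with hlt
      · rfl
      · have e2 : α.length = p₁.length := by omega
        rw [e2, Nat.sub_self, SimpleGraph.Walk.getVert_zero, SimpleGraph.Walk.getVert_length]
    have t1 := SimpleGraph.dist_le (p₁.take α.length)
    have t2 := SimpleGraph.dist_le (p₁.drop α.length)
    rw [SimpleGraph.Walk.take_length] at t1
    rw [SimpleGraph.Walk.drop_length] at t2
    rw [e1]
    omega
  -- the second one on the path
  have g2 : n ≤ (schutz R w).dist (base R w) z₂ := by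
    apply hp
    have e1 : z₂ = p.getVert (α.length + a.length - p₁.length) := by
      change q.getVert (α.length + a.length) = _
      rw [hq, SimpleGraph.Walk.getVert_append, if_neg (by omega),
        SimpleGraph.Walk.getVert_append]
      split_ifs with hlt
      · rfl
      · have e2 : α.length + a.length - p₁.length = p.length := by omega
        rw [e2, Nat.sub_self, SimpleGraph.Walk.getVert_zero, SimpleGraph.Walk.getVert_length]
    rw [e1]
    exact SimpleGraph.Walk.getVert_mem_support _ _
  -- the third one on the second geodesic
  have g3 : (schutz R w).dist y z₃ + (schutz R w).dist z₃ (base R w) ≤ p₃.length := by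
    have e1 : z₃ = p₃.getVert (α.length + a.length + b.length - p₁.length - p.length) := by
      change q.getVert (α.length + a.length + b.length) = _
      rw [hq, SimpleGraph.Walk.getVert_append, if_neg (by omega),
        SimpleGraph.Walk.getVert_append, if_neg (by omega)]
    have t1 := SimpleGraph.dist_le (p₃.take (α.length + a.length + b.length - p₁.length - p.length))
    have t2 := SimpleGraph.dist_le (p₃.drop (α.length + a.length + b.length - p₁.length - p.length))
    rw [SimpleGraph.Walk.take_length] at t1
    rw [SimpleGraph.Walk.drop_length] at t2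
    rw [e1]
    omega
  have c1 := hG.dist_triangle (u := base R w) (v := z₁) (w := z₂)
  have c2 := hG.dist_triangle (u := z₃) (v := z₂) (w := z₁)
  have c3 := hG.dist_triangle (u := base R w) (v := z₃) (w := z₁)
  have c4 := hG.dist_triangle (u := x) (v := z₁) (w := y)
  have c5 := hG.dist_triangle (u := z₁) (v := z₃) (w := y)
  have s1 := SimpleGraph.dist_comm (G := schutz R w) (u := z₁) (v := z₂)
  have s2 := SimpleGraph.dist_comm (G := schutz R w) (u := z₃) (v := z₂)
  have s3 := SimpleGraph.dist_comm (G := schutz R w) (u := z₃) (v := base R w)
  have s4 := SimpleGraph.dist_comm (G := schutz R w) (u := z₁) (v := x)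
  have s5 := SimpleGraph.dist_comm (G := schutz R w) (u := y) (v := z₃)
  have s6 := SimpleGraph.dist_comm (G := schutz R w) (u := z₁) (v := z₃)
  have s7 := SimpleGraph.dist_comm (G := schutz R w) (u := y) (v := base R w)
  omega

theorem treeLike_of_cf (h : ∀ w, (lang R w).IsContextFree) : TreeLike R :=
  fun w => qiTree_of_cf (h (w ++ inv w))

end Pool.Agent.R640.IM
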