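import Mathlib

set_option autoImplicit false

/-! Groups all of whose elements are products of boundedly many commutators with a fixed element,
and length functions on products of such groups. -/

namespace Pool.Agent.R640.Tr

/-- The commutator. -/
def cm {H : Type*} [Group H] (x s : H) : H := x * s * x⁻¹ * s⁻¹

theorem map_cm {H K E : Type*} [Group H] [Group K] [FunLike E H K] [MonoidHomClass E H K]
    (f : E) (x s : H) :
    f (cm x s) = cm (f x) (f s) := by
  simp [cm]

/-- Every element of `H` is a product of five commutators with a fixed element. -/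
def EE (H : Type*) [Group H] : Prop :=
  ∃ s : H, ∀ a : H, ∃ x : Fin 5 → H,
    a = cm (x 0) (s) * cm (x 1) (s) * cm (x 2) (s) * cm (x 3) (s) * cm (x 4) (s)

theorem EE.congr {H K : Type*} [Group H] [Group K] (e : H ≃* K) (h : EE H) : EE K := by
  obtain ⟨s, hs⟩ := h
  refine ⟨e s, fun a => ?_⟩
  obtain ⟨x, hx⟩ := hs (e.symm a)
  refine ⟨fun i => e (x i), ?_⟩
  have h1 := congrArg e hx
  rw [MulEquiv.apply_symm_apply] at h1
  rw [h1]
  simp only [map_mul, map_cm]

section

variable {Γ : Type*} [Group Γ] (L : Γ → ℕ) (hmul : ∀ a b, L (a * b) ≤ L a + L b)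
  (hinv : ∀ a, L a⁻¹ ≤ L a)

include hmul hinv in
theorem L_comm (x s : Γ) : L (cm x s) ≤ 2 * L x + 2 * L s := by
  rw [cm]
  have h1 := hmul (x * s * x⁻¹) s⁻¹
  have h2 := hmul (x * s) x⁻¹
  have h3 := hmul x s
  have h4 := hinv x
  have h5 := hinv s
  omega

include hmul hinv in
/-- The diagonal argument. -/
theorem diag {I : Type*} (H : I → Type*) [∀ i, Group (H i)] (hE : ∀ i, EE (H i))
    (Φ : (∀ i, H i) →* Γ) (ν : I → ℕ) :
    ∃ n C : ℕ, ∀ f : ∀ i, H i, (∀ i, ν i ≠ n → f i = 1) → L (Φ f) ≤ C := by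
  classical
  by_contra hcon
  push Not at hcon
  choose s hs using hE
  choose f hf hfL using fun n => hcon n (n + 10 * L (Φ (fun i => if ν i = n then s i else 1)))
  choose x hx using fun i => hs i (f (ν i) i)
  set N := 2 * (L (Φ fun i => x i 0) + L (Φ fun i => x i 1) + L (Φ fun i => x i 2) +
    L (Φ fun i => x i 3) + L (Φ fun i => x i 4)) with hN
  have h1 := hfL N
  set σ : ∀ i, H i := fun i => if ν i = N then s i else 1 with hσ
  have h2 : f N = cm (fun i => x i 0) (σ) * cm (fun i => x i 1) (σ) * cm (fun i => x i 2) (σ) *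
      cm (fun i => x i 3) (σ) * cm (fun i => x i 4) (σ) := by
    funext i
    by_cases hi : ν i = N
    · have h3 := hx i
      rw [hi] at h3
      rw [h3]
      have h4 : σ i = s i := if_pos hi
      simp only [Pi.mul_apply, cm, Pi.inv_apply, h4]
    · rw [hf N i hi]
      have h4 : σ i = 1 := if_neg hi
      simp [cm, h4]
  rw [h2] at h1
  simp only [map_mul, map_cm] at h1
  have k0 := L_comm L hmul hinv (Φ fun i => x i 0) (Φ σ)
  have k1 := L_comm L hmul hinv (Φ fun i => x i 1) (Φ σ)
  have k2 := L_comm L hmul hinv (Φ fun i => x i 2) (Φ σ)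
  have k3 := L_comm L hmul hinv (Φ fun i => x i 3) (Φ σ)
  have k4 := L_comm L hmul hinv (Φ fun i => x i 4) (Φ σ)
  have m1 := hmul (cm (Φ fun i => x i 0) (Φ σ) * cm (Φ fun i => x i 1) (Φ σ) * cm (Φ fun i => x i 2) (Φ σ) *
      cm (Φ fun i => x i 3) (Φ σ)) (cm (Φ fun i => x i 4) (Φ σ))
  have m2 := hmul (cm (Φ fun i => x i 0) (Φ σ) * cm (Φ fun i => x i 1) (Φ σ) * cm (Φ fun i => x i 2) (Φ σ))
      (cm (Φ fun i => x i 3) (Φ σ))
  have m3 := hmul (cm (Φ fun i => x i 0) (Φ σ) * cm (Φ fun i => x i 1) (Φ σ)) (cm (Φ fun i => x i 2) (Φ σ))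
  have m4 := hmul (cm (Φ fun i => x i 0) (Φ σ)) (cm (Φ fun i => x i 1) (Φ σ))
  omega

end

/-- Functions on a group can be integrated along an element of infinite order. -/
theorem cocycle {P W : Type*} [Group P] [Group W] (d : P) (hd : ∀ n : ℤ, d ^ n = 1 → n = 0)
    (F : P → W) : ∃ w : P → W, ∀ i, w (d * i) = F i * w i := by
  classical
  let σ : Equiv.Perm (P × W) :=
    { toFun := fun p => (d * p.1, F p.1 * p.2)
      invFun := fun p => (d⁻¹ * p.1, (F (d⁻¹ * p.1))⁻¹ * p.2)
      left_inv := fun p => by simp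
      right_inv := fun p => by simp }
  have hσ : ∀ (p : P × W) (n : ℤ), ((σ ^ n) p).1 = d ^ n * p.1 := by
    intro p n
    induction n with
    | zero => simp
    | succ n ih =>
      rw [add_comm, zpow_add, zpow_one, Equiv.Perm.mul_apply]
      change d * ((σ ^ (n : ℤ)) p).1 = _
      rw [ih, zpow_add, zpow_one, mul_assoc]
    | pred n ih =>
      rw [sub_eq_neg_add, zpow_add, zpow_neg_one, Equiv.Perm.mul_apply]
      change d⁻¹ * ((σ ^ (-n : ℤ)) p).1 = _
      rw [ih, zpow_add, zpow_neg_one, mul_assoc]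
  let r : P → P := fun i => (Quotient.mk (QuotientGroup.rightRel (Subgroup.zpowers d)) i).out
  have hr : ∀ i, ∃ n : ℤ, d ^ n = i * (r i)⁻¹ := by
    intro i
    have h1 : (QuotientGroup.rightRel (Subgroup.zpowers d)) (r i) i := Quotient.mk_out i
    rw [QuotientGroup.rightRel_apply] at h1
    exact Subgroup.mem_zpowers_iff.1 h1
  choose m hm using hr
  have hr' : ∀ i, r (d * i) = r i := by
    intro i
    have : Quotient.mk (QuotientGroup.rightRel (Subgroup.zpowers d)) (d * i) =
        Quotient.mk (QuotientGroup.rightRel (Subgroup.zpowers d)) i := by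
      apply Quotient.sound
      change (QuotientGroup.rightRel (Subgroup.zpowers d)) (d * i) i
      rw [QuotientGroup.rightRel_apply]
      rw [mul_inv_rev, mul_inv_cancel_left]
      exact inv_mem (Subgroup.mem_zpowers d)
    simp only [r, this]
  have hm' : ∀ i, m (d * i) = 1 + m i := by
    intro i
    have h1 := hm (d * i)
    rw [hr', mul_assoc, ← hm i, ← zpow_one_add] at h1
    have h2 : d ^ (m (d * i) - (1 + m i)) = 1 := by
      rw [zpow_sub, h1, mul_inv_cancel]
    have := hd _ h2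
    omega
  refine ⟨fun i => ((σ ^ m i) (r i, 1)).2, fun i => ?_⟩
  change ((σ ^ m (d * i)) (r (d * i), 1)).2 = F i * ((σ ^ m i) (r i, 1)).2
  rw [hm', hr', zpow_add, zpow_one, Equiv.Perm.mul_apply]
  change F ((σ ^ m i) (r i, 1)).1 * _ = _
  rw [hσ, hm, inv_mul_cancel_right]

end Pool.Agent.R640.Tr
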