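import Pool.Agent.R640.InvMon

set_option autoImplicit false

/-! E-unitary monoids and virtually free groups. -/

namespace Pool.Agent.R640.IM

/-- The least congruence on `M` whose quotient is a group, as the infimum of all congruences
whose quotient is a group. -/
def groupCon (M : Type) [Monoid M] : Con M := sInf {c | ∀ s, ∃ t, c (s * t) 1 ∧ c (t * s) 1}

/-- `M` is `E`-unitary: the class of `1` is the set of idempotents. -/
def EUnitary (M : Type) [Monoid M] : Prop := ∀ s : M, groupCon M s 1 ↔ s * s = s

/-- `G` has a free subgroup of finite index. -/
def VirtuallyFree (G : Type) [Group G] : Prop :=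
  ∃ H : Subgroup G, H.FiniteIndex ∧ IsFreeGroup H

end Pool.Agent.R640.IM
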