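import Pool.Agent.R640.ETree
import Pool.Agent.R640.EDefs

set_option autoImplicit false

/-! Finitely presented `E`-unitary inverse monoids over virtually free groups are tree-like. -/

namespace Pool.Agent.R640.IM

theorem treeLike_of_virtuallyFree {A : Type} [Finite A]
    {R : Set (List (A × Bool) × List (A × Bool))} (hR : R.Finite) (hE : EUnitary (InvMon R))
    {G : Type} [Group G] (e : (groupCon (InvMon R)).Quotient ≃* G) (hG : VirtuallyFree G) :
    TreeLike R := by
  obtain ⟨H, hH, hfree⟩ := hG
  let ν : InvMon R →* G := e.toMonoidHom.comp (groupCon (InvMon R)).mk'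
  have hν : Function.Surjective ν := e.surjective.comp (groupCon (InvMon R)).mk'_surjective
  have hE' : ∀ s : InvMon R, ν s = 1 → s * s = s := by
    intro s hs
    rw [← hE s]
    have h1 : (groupCon (InvMon R)).mk' s = 1 := by
      apply e.injective
      rw [map_one]
      exact hs
    exact (Con.eq (groupCon (InvMon R))).1 h1
  have hFG : Group.FG G := by
    rw [Group.fg_iff]
    refine ⟨Set.range fun a : A × Bool => ν (val R [a]), ?_, Set.finite_range _⟩
    rw [eq_top_iff]
    intro g _
    obtain ⟨s, rfl⟩ := hν g
    obtain ⟨u, rfl⟩ := val_surj s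
    rename_i hmem
    clear hmem
    induction u with
    | nil =>
      rw [val_nil, map_one]
      exact one_mem _
    | cons a u ih =>
      rw [nu_cons]
      exact mul_mem (Subgroup.subset_closure ⟨a, rfl⟩) ih
  obtain ⟨X, hX, ⟨F⟩⟩ := VFr.exists_VF G hFG H
  intro w
  exact qiTree_of_virtuallyFree hR hE' F

end Pool.Agent.R640.IM
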