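import Pool.Agent.R640.EUn

set_option autoImplicit false

/-! Schützenberger graphs of E-unitary inverse monoids over virtually free groups. -/

namespace Pool.Agent.R640.IM

open FreeGroup hiding map_mul map_one
open VFr

variable {A : Type} {R : Set (List (A × Bool) × List (A × Bool))} {w : List (A × Bool)}
  {G : Type} [Group G] {ν : InvMon R →* G} {X : Type} [DecidableEq X] (F : VF G X)

theorem rd_iff {E : Set (G × (A × Bool))} : ∀ (u : List (A × Bool)) (g : G),
    Rd ν E g u ↔ ∀ v a v', u = v ++ a :: v' → (g * ν (val R v), a) ∈ E := by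
  intro u
  induction u with
  | nil =>
    intro g
    simp [Rd]
  | cons b u ih =>
    intro g
    simp only [Rd]
    rw [ih]
    constructor
    · rintro ⟨h1, h2⟩ v a v' h
      cases v with
      | nil =>
        simp only [List.nil_append, List.cons.injEq] at h
        rw [← h.1, val_nil, map_one, mul_one]
        exact h1
      | cons c v =>
        simp only [List.cons_append, List.cons.injEq] at h
        have h3 := h2 v a v' h.2
        rw [nu_cons c v, ← h.1, ← mul_assoc]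
        exact h3
    · intro h
      refine ⟨?_, fun v a v' hu => ?_⟩
      · have := h [] b u rfl
        rwa [val_nil, map_one, mul_one] at this
      · have := h (b :: v) a v' (by rw [hu]; rfl)
        rwa [nu_cons b v, ← mul_assoc] at this

/-- The cone of `l`. -/
def Cone (l : List (X × Bool)) : Set G := {g | l <:+ (F.P g).toWord}

/-- The ball at the top of the cone of `l`. -/
def Nb (l : List (X × Bool)) (ρ : ℕ) : Set G := {g | norm (F.P g * (mk l)⁻¹) ≤ ρ}

theorem depth {l : List (X × Bool)} {g : G} (h : g ∈ Cone F l) :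
    norm (F.P g * (mk l)⁻¹) + l.length ≤ norm (F.P g) := by
  obtain ⟨t, ht⟩ := h
  have h1 : F.P g * (mk l)⁻¹ = mk t := by
    have h2 : F.P g = mk t * mk l := by
      rw [mul_mk, ht, mk_toWord]
    rw [h2, mul_inv_cancel_right]
  rw [h1]
  have h3 : norm (F.P g) = t.length + l.length := by
    unfold FreeGroup.norm
    rw [← ht, List.length_append]
  rw [h3]
  have := norm_mk_le (L₁ := t)
  omega

theorem exit_cone {l : List (X × Bool)} {g g' : G} (h : g ∈ Cone F l) (h' : g' ∉ Cone F l) :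
    norm (F.P g * (mk l)⁻¹) ≤ norm (F.P g' * (F.P g)⁻¹) := by
  have h1 := depth F h
  by_contra hlt
  push Not at hlt
  apply h'
  have h2 := suffix_mul (F.P g' * (F.P g)⁻¹) (F.P g)
  rw [inv_mul_cancel_right] at h2
  refine List.IsSuffix.trans ?_ h2
  apply List.suffix_of_suffix_length_le h (List.drop_suffix _ _)
  rw [List.length_drop]
  unfold FreeGroup.norm at h1 hlt ⊢
  omega

theorem norm_symm (a b : FreeGroup X) : norm (a * b⁻¹) = norm (b * a⁻¹) := by
  rw [← norm_inv_eq (x := a * b⁻¹)]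
  congr 1
  group

variable {D : ℕ} (hD : ∀ g (a : A × Bool), norm (F.P (g * ν (val R [a])) * (F.P g)⁻¹) ≤ D)

include hD in
theorem step_word (g : G) (u : List (A × Bool)) :
    norm (F.P (g * ν (val R u)) * (F.P g)⁻¹) ≤ D * u.length := by
  induction u generalizing g with
  | nil =>
    rw [val_nil, map_one, mul_one, mul_inv_cancel, FreeGroup.norm_one]
    exact Nat.zero_le _
  | cons a u ih =>
    have h1 := ih (g * ν (val R [a]))
    have h2 := hD g a
    rw [nu_cons a u, ← mul_assoc]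
    have h3 := norm_mul_le (F.P (g * ν (val R [a]) * ν (val R u)) * (F.P (g * ν (val R [a])))⁻¹)
      (F.P (g * ν (val R [a])) * (F.P g)⁻¹)
    have h4 : F.P (g * ν (val R [a]) * ν (val R u)) * (F.P (g * ν (val R [a])))⁻¹ *
      (F.P (g * ν (val R [a])) * (F.P g)⁻¹) =
      F.P (g * ν (val R [a]) * ν (val R u)) * (F.P g)⁻¹ := by group
    rw [h4] at h3
    rw [List.length_cons, Nat.mul_succ]
    omega

theorem nu_letter (a : A × Bool) : ν (val R [(a.1, !a.2)]) = (ν (val R [a]))⁻¹ :=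
  nu_inv ν [a]

variable (hE : ∀ s : InvMon R, ν s = 1 → s * s = s)

section Transfer

variable {LM ρ : ℕ} (hLM : ∀ r s, (r, s) ∈ R → r.length ≤ LM ∧ s.length ≤ LM)
  (hρ : 2 * D * LM + D ≤ ρ) {l₁ : List (X × Bool)} {τ : G} (hl₁ : D * w.length < l₁.length)
  (hM1 : ∀ g ∈ Nb F l₁ ρ, g ∈ VY ν w → τ * g ∈ VY ν w)
  (hM2 : ∀ g ∈ Nb F l₁ ρ, ∀ a, (g, a) ∈ EY ν w → (τ * g, a) ∈ EY ν w)

/-- The region of the cone. -/
def Reg (l : List (X × Bool)) (ρ : ℕ) : Set G := Cone F l ∪ Nb F l ρ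

theorem reg_near {l : List (X × Bool)} {ρ : ℕ} {g g' : G} (h : g ∈ Reg F l ρ)
    (h' : g' ∉ Reg F l ρ) (hn : norm (F.P g' * (F.P g)⁻¹) ≤ ρ) : g ∈ Nb F l ρ := by
  rcases h with h | h
  · exact (exit_cone F h (fun hc => h' (Or.inl hc))).trans hn
  · exact h

include hD hE hLM hρ hM1 hM2 in
theorem closed_Z : Closed ν {g | g ∈ VY ν w ∧ (g ∈ Reg F l₁ ρ → τ * g ∈ VY ν w)}
    {p : G × (A × Bool) | p ∈ EY ν w ∧ (p.1 ∈ Reg F l₁ ρ → p.1 * ν (val R [p.2]) ∈ Reg F l₁ ρ →
      (τ * p.1, p.2) ∈ EY ν w)} := by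
  have hY := closed_Y (w := w) hE
  have hDρ : D ≤ ρ := by omega
  constructor
  · rintro g a ⟨h1, h2⟩
    simp only at h1 h2
    obtain ⟨h3, h4, h5⟩ := hY.edge g a h1
    refine ⟨⟨h3, fun hg => ?_⟩, ⟨h4, fun hg => ?_⟩, h5, ?_⟩
    · by_cases hg' : g * ν (val R [a]) ∈ Reg F l₁ ρ
      · exact (hY.edge _ _ (h2 hg hg')).1
      · exact hM1 g (reg_near F hg hg' ((hD g a).trans hDρ)) h3
    · by_cases hg' : g ∈ Reg F l₁ ρ
      · rw [← mul_assoc]
        exact (hY.edge _ _ (h2 hg' hg)).2.1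
      · apply hM1 _ _ h4
        apply reg_near F hg hg'
        rw [norm_symm]
        exact (hD g a).trans hDρ
    · intro h6 h7
      simp only [nu_letter, mul_inv_cancel_right] at h7
      rw [← mul_assoc]
      exact (hY.edge _ _ (h2 h7 h6)).2.2
  · have aux : ∀ r s : List (A × Bool), r.length ≤ LM → s.length ≤ LM →
        (∀ h ∈ VY ν w, Rd ν (EY ν w) h r → Rd ν (EY ν w) h s) →
        ∀ g, g ∈ VY ν w → (g ∈ Reg F l₁ ρ → τ * g ∈ VY ν w) →
        Rd ν {p : G × (A × Bool) | p ∈ EY ν w ∧ (p.1 ∈ Reg F l₁ ρ →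
          p.1 * ν (val R [p.2]) ∈ Reg F l₁ ρ → (τ * p.1, p.2) ∈ EY ν w)} g r →
        Rd ν {p : G × (A × Bool) | p ∈ EY ν w ∧ (p.1 ∈ Reg F l₁ ρ →
          p.1 * ν (val R [p.2]) ∈ Reg F l₁ ρ → (τ * p.1, p.2) ∈ EY ν w)} g s := by
      intro r s hr hs himp g hg hg' hrd
      rw [rd_iff] at hrd ⊢
      have h1 : Rd ν (EY ν w) g r := by
        rw [rd_iff]
        exact fun v a v' h => (hrd v a v' h).1
      have h2 := himp g hg h1
      rw [rd_iff] at h2
      intro v a v' hv
      refine ⟨h2 v a v' hv, fun h3 h4 => ?_⟩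
      simp only at h3 h4 ⊢
      by_cases hall : ∀ v v', r = v ++ v' → g * ν (val R v) ∈ Reg F l₁ ρ
      · have hgR : g ∈ Reg F l₁ ρ := by
          have := hall [] r rfl
          rwa [val_nil, map_one, mul_one] at this
        have h5 : Rd ν (EY ν w) (τ * g) r := by
          rw [rd_iff]
          intro v b v' hvv
          have h6 := (hrd v b v' hvv).2 (hall v _ hvv) (by
            have := hall (v ++ [b]) v' (by rw [hvv]; simp)
            rw [val_append v [b], map_mul, ← mul_assoc] at this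
            exact this)
          simp only at h6
          rwa [← mul_assoc] at h6
        have h6 := himp _ (hg' hgR) h5
        rw [rd_iff] at h6
        have h7 := h6 v a v' hv
        rwa [mul_assoc] at h7
      · push Not at hall
        obtain ⟨v₀, v₀', hv₀, h5⟩ := hall
        apply hM2 _ _ _ (h2 v a v' hv)
        apply reg_near F h3 h5
        have h6 := step_word F hD g v₀
        have h7 := step_word F hD g v
        have h8 := norm_mul_le (F.P (g * ν (val R v₀)) * (F.P g)⁻¹)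
          (F.P g * (F.P (g * ν (val R v)))⁻¹)
        have h9 : F.P (g * ν (val R v₀)) * (F.P g)⁻¹ * (F.P g * (F.P (g * ν (val R v)))⁻¹) =
          F.P (g * ν (val R v₀)) * (F.P (g * ν (val R v)))⁻¹ := by group
        rw [h9, norm_symm (F.P g)] at h8
        have h10 : v₀.length ≤ LM := by
          have := congrArg List.length hv₀
          simp at this
          omega
        have h11 : v.length ≤ LM := by
          have := congrArg List.length hv
          simp at this
          omega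
        have h12 : D * v₀.length ≤ D * LM := Nat.mul_le_mul_left _ h10
        have h13 : D * v.length ≤ D * LM := Nat.mul_le_mul_left _ h11
        have h14 : 2 * D * LM = D * LM + D * LM := by ring
        omega
    rintro r s hrs g ⟨hg, hg'⟩
    obtain ⟨hr, hs⟩ := hLM r s hrs
    constructor
    · exact aux r s hr hs (fun h hh => (hY.rule r s hrs h hh).1) g hg hg'
    · exact aux s r hs hr (fun h hh => (hY.rule r s hrs h hh).2) g hg hg'

include hD hE hLM hρ hl₁ hM1 hM2 in
theorem transfer_edge {x y : Vert R w} {a : A × Bool} (h : x.1 * val R [a] = y.1)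
    (hx : ν x.1 ∈ Cone F l₁) (hy : ν y.1 ∈ Cone F l₁) : (τ * ν x.1, a) ∈ EY ν w := by
  have hZ := closed_Z F hD hE hLM hρ hM1 hM2
  have hw := rd_w (w := w) hE
  have hnc : ∀ v v' : List (A × Bool), w = v ++ v' → ν (val R v) ∈ Reg F l₁ ρ →
      ν (val R v) ∈ Nb F l₁ ρ := by
    intro v v' hv h1
    rcases h1 with h1 | h1
    · exfalso
      have h2 := depth F h1
      have h3 := step_word F hD 1 v
      rw [one_mul, F.P1, inv_one, mul_one] at h3
      have h4 : v.length ≤ w.length := by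
        rw [hv]
        simp
      have h5 : D * v.length ≤ D * w.length := Nat.mul_le_mul_left _ h4
      omega
    · exact h1
  have h1 : (1 : G) ∈ {g | g ∈ VY ν w ∧ (g ∈ Reg F l₁ ρ → τ * g ∈ VY ν w)} := by
    refine ⟨one_mem_VY, fun h1 => ?_⟩
    apply hM1 _ _ one_mem_VY
    have h2 := hnc [] w rfl
    rw [val_nil, map_one] at h2
    exact h2 h1
  have h2 : Rd ν {p : G × (A × Bool) | p ∈ EY ν w ∧ (p.1 ∈ Reg F l₁ ρ →
      p.1 * ν (val R [p.2]) ∈ Reg F l₁ ρ → (τ * p.1, p.2) ∈ EY ν w)} 1 w := by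
    rw [rd_iff] at hw ⊢
    intro v b v' hv
    refine ⟨hw v b v' hv, fun h3 _ => ?_⟩
    simp only [one_mul] at h3 ⊢
    apply hM2 _ (hnc v _ hv h3)
    have := hw v b v' hv
    rwa [one_mul] at this
  have h3 := (hZ.edge_mem h1 h2 h).2
  simp only at h3
  rw [← map_mul, h] at h3
  exact h3 (Or.inl hx) (Or.inl hy)

include hD hE hLM hρ hl₁ hM1 hM2 in
theorem transfer_walk {x y : Vert R w} (p : (schutz R w).Walk x y)
    (hp : ∀ v ∈ p.support, ν v.1 ∈ Cone F l₁) : ∀ x' : Vert R w, ν x'.1 = τ * ν x.1 →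
    ∃ y' : Vert R w, ν y'.1 = τ * ν y.1 ∧ (schutz R w).dist x' y' ≤ p.length := by
  induction p with
  | nil =>
    intro x' hx'
    exact ⟨x', hx', by simp⟩
  | @cons x z y hadj p ih =>
    intro x' hx'
    obtain ⟨-, a, ha⟩ := adj_iff.1 hadj
    have h1 := transfer_edge F hD hE hLM hρ hl₁ hM1 hM2 ha (hp x (by simp))
      (hp z (by simp))
    obtain ⟨x'', z', h2, h3⟩ := h1
    simp only at h2 h3
    have h4 : x'' = x' := nu_inj ν hE (h2.trans hx'.symm)
    subst h4
    have h5 : ν z'.1 = τ * ν z.1 := by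
      rw [← h3, map_mul, h2, ← ha, map_mul, mul_assoc]
    obtain ⟨y', h6, h7⟩ := ih (fun v hv => hp v (by simp [hv])) z' h5
    refine ⟨y', h6, ?_⟩
    have h8 := dist_le h3
    have h9 := (connected (R := R) (w := w)).dist_triangle (u := x'') (v := z') (w := y')
    rw [SimpleGraph.Walk.length_cons]
    simp only [List.length_cons, List.length_nil] at h8
    omega

end Transfer

theorem exists_bound {I K : Type*} [Finite K] (κ : I → K) (f : I → ℕ)
    (h : ∀ j, ∃ N, ∀ i, κ i = κ j → f i ≤ N) : ∃ C, ∀ i, f i ≤ C := by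
  classical
  choose N hN using h
  let M : K → ℕ := fun k => if hk : ∃ j, κ j = k then N hk.choose else 0
  obtain ⟨C, hC⟩ := (Set.finite_range M).bddAbove
  refine ⟨C, fun i => ?_⟩
  have h1 : ∃ j, κ j = κ i := ⟨i, rfl⟩
  have h2 : M (κ i) = N h1.choose := dif_pos h1
  have h3 := hN h1.choose i h1.choose_spec.symm
  have h4 := hC ⟨κ i, rfl⟩
  omega

/-- Triples of a long cone and two points near its top which are joined inside of the cone. -/
structure Item (F : VF G X) (ν : InvMon R →* G) (w : List (A × Bool)) (N₀ ρ' : ℕ) where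
  /-- the cone -/
  l : List (X × Bool)
  /-- the first point -/
  x : Vert R w
  /-- the second point -/
  y : Vert R w
  hx : ν x.1 ∈ Nb F l ρ'
  hy : ν y.1 ∈ Nb F l ρ'
  hp : ∃ p : (schutz R w).Walk x y, ∀ v ∈ p.support, ν v.1 ∈ Cone F l
  hl : N₀ < l.length

/-- The type of a cone. -/
def ty (F : VF G X) (ν : InvMon R →* G) (w : List (A × Bool)) (ρ : ℕ) (l : List (X × Bool)) :
    Set {g : G // FreeGroup.norm (F.P g) ≤ ρ} ×
      Set ({g : G // FreeGroup.norm (F.P g) ≤ ρ} × (A × Bool)) :=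
  ({g | F.ι (mk l)⁻¹ * g.1 ∈ VY ν w}, {p | (F.ι (mk l)⁻¹ * p.1.1, p.2) ∈ EY ν w})

theorem P_nb {F : VF G X} {l : List (X × Bool)} {ρ : ℕ} {g : G} (h : g ∈ Nb F l ρ) :
    FreeGroup.norm (F.P (F.ι (mk l) * g)) ≤ ρ := by
  rw [F.Pι]
  exact h

theorem ty_match {F : VF G X} {ρ : ℕ} {l₁ l₂ : List (X × Bool)}
    (h : ty F ν w ρ l₁ = ty F ν w ρ l₂) :
    (∀ g ∈ Nb F l₁ ρ, g ∈ VY ν w → F.ι ((mk l₂)⁻¹ * mk l₁) * g ∈ VY ν w) ∧
    (∀ g ∈ Nb F l₁ ρ, ∀ a, (g, a) ∈ EY ν w →
      (F.ι ((mk l₂)⁻¹ * mk l₁) * g, a) ∈ EY ν w) := by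
  have h1 := congrArg Prod.fst h
  have h2 := congrArg Prod.snd h
  have e1 : ∀ g, F.ι (mk l₁)⁻¹ * (F.ι (mk l₁) * g) = g := by
    intro g
    rw [← mul_assoc, ← map_mul, inv_mul_cancel, map_one, one_mul]
  have e2 : ∀ g, F.ι (mk l₂)⁻¹ * (F.ι (mk l₁) * g) = F.ι ((mk l₂)⁻¹ * mk l₁) * g := by
    intro g
    rw [← mul_assoc, ← map_mul]
  constructor
  · intro g hg hgY
    have h3 : (⟨F.ι (mk l₁) * g, P_nb hg⟩ : {g : G // FreeGroup.norm (F.P g) ≤ ρ}) ∈
        (ty F ν w ρ l₁).1 := by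
      change F.ι (mk l₁)⁻¹ * (F.ι (mk l₁) * g) ∈ VY ν w
      rwa [e1]
    rw [h1] at h3
    change F.ι (mk l₂)⁻¹ * (F.ι (mk l₁) * g) ∈ VY ν w at h3
    rwa [e2] at h3
  · intro g hg a hgY
    have h3 : ((⟨F.ι (mk l₁) * g, P_nb hg⟩ : {g : G // FreeGroup.norm (F.P g) ≤ ρ}), a) ∈
        (ty F ν w ρ l₁).2 := by
      change (F.ι (mk l₁)⁻¹ * (F.ι (mk l₁) * g), a) ∈ EY ν w
      rwa [e1]
    rw [h2] at h3
    change (F.ι (mk l₂)⁻¹ * (F.ι (mk l₁) * g), a) ∈ EY ν w at h3
    rwa [e2] at h3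

theorem frontier [Finite A] (hE : ∀ s : InvMon R, ν s = 1 → s * s = s) (F : VF G X) {D : ℕ}
    (hD : ∀ g (a : A × Bool), FreeGroup.norm (F.P (g * ν (val R [a])) * (F.P g)⁻¹) ≤ D)
    {LM : ℕ} (hLM : ∀ r s, (r, s) ∈ R → r.length ≤ LM ∧ s.length ≤ LM) (ρ' : ℕ) :
    ∃ C : ℕ, ∀ (l : List (X × Bool)) (x y : Vert R w), ν x.1 ∈ Nb F l ρ' → ν y.1 ∈ Nb F l ρ' →
      (∃ p : (schutz R w).Walk x y, ∀ v ∈ p.support, ν v.1 ∈ Cone F l) →
      (schutz R w).dist x y ≤ C := by
  set ρ := 2 * D * LM + D with hρ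
  set N₀ := D * w.length with hN₀
  have hfin : ∀ n, Finite {g : G // FreeGroup.norm (F.P g) ≤ n} := fun n => F.fin n
  -- long cones
  obtain ⟨C₁, h1⟩ : ∃ C₁, ∀ i : Item F ν w N₀ ρ', (schutz R w).dist i.x i.y ≤ C₁ := by
    have := hfin ρ
    have := hfin ρ'
    apply exists_bound (K := (Set {g : G // FreeGroup.norm (F.P g) ≤ ρ} ×
      Set ({g : G // FreeGroup.norm (F.P g) ≤ ρ} × (A × Bool))) ×
      {g : G // FreeGroup.norm (F.P g) ≤ ρ'} × {g : G // FreeGroup.norm (F.P g) ≤ ρ'})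
      (fun i => (ty F ν w ρ i.l, ⟨F.ι (mk i.l) * ν i.x.1, P_nb i.hx⟩,
        ⟨F.ι (mk i.l) * ν i.y.1, P_nb i.hy⟩))
    intro j
    obtain ⟨p, hp⟩ := j.hp
    refine ⟨p.length, fun i hi => ?_⟩
    simp only [Prod.mk.injEq, Subtype.mk.injEq] at hi
    obtain ⟨hty, hix, hiy⟩ := hi
    obtain ⟨hM1, hM2⟩ := ty_match hty.symm
    have key : ∀ g g' : G, F.ι (mk i.l) * g = F.ι (mk j.l) * g' →
        g = F.ι ((mk i.l)⁻¹ * mk j.l) * g' := by
      intro g g' h
      rw [map_mul, mul_assoc, ← h, ← mul_assoc, ← map_mul, inv_mul_cancel, map_one, one_mul]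
    obtain ⟨y', h2, h3⟩ := transfer_walk F hD hE hLM hρ.ge j.hl hM1 hM2 p hp i.x (key _ _ hix)
    have h4 : y' = i.y := nu_inj ν hE (by rw [h2, key _ _ hiy])
    rwa [h4] at h3
  -- short cones
  have hS : {x : Vert R w | FreeGroup.norm (F.P (ν x.1)) ≤ ρ' + N₀}.Finite :=
    Set.Finite.preimage (f := fun x : Vert R w => ν x.1) (fun x _ y _ h => nu_inj ν hE h)
      (F.fin (ρ' + N₀))
  obtain ⟨C₂, h2⟩ := ((hS.prod hS).image
    (fun p : Vert R w × Vert R w => (schutz R w).dist p.1 p.2)).bddAbove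
  refine ⟨max C₁ C₂, fun l x y hx hy hp => ?_⟩
  by_cases hl : N₀ < l.length
  · exact (h1 ⟨l, x, y, hx, hy, hp, hl⟩).trans (le_max_left _ _)
  · have key : ∀ g : G, g ∈ Nb F l ρ' → FreeGroup.norm (F.P g) ≤ ρ' + N₀ := by
      intro g hg
      have h3 := FreeGroup.norm_mul_le (F.P g * (mk l)⁻¹) (mk l)
      rw [inv_mul_cancel_right] at h3
      have h4 := FreeGroup.norm_mk_le (L₁ := l)
      have h5 : FreeGroup.norm (F.P g * (mk l)⁻¹) ≤ ρ' := hg
      omega
    refine le_trans ?_ (le_max_right _ _)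
    exact h2 ⟨(x, y), ⟨key _ hx, key _ hy⟩, rfl⟩

/-- Leaving a cone. -/
theorem exit_walk {F : VF G X} {D : ℕ}
    (hD : ∀ g (a : A × Bool), FreeGroup.norm (F.P (g * ν (val R [a])) * (F.P g)⁻¹) ≤ D)
    {l : List (X × Bool)} {x y : Vert R w} (p : (schutz R w).Walk x y)
    (hx : ν x.1 ∈ Cone F l) (hp : ¬ ∀ v ∈ p.support, ν v.1 ∈ Cone F l) :
    ∃ r ∈ p.support, ν r.1 ∈ Nb F l D ∧
      ∃ q : (schutz R w).Walk x r, ∀ v ∈ q.support, ν v.1 ∈ Cone F l := by
  induction p with
  | nil =>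
    exfalso
    apply hp
    intro v hv
    rw [SimpleGraph.Walk.support_nil, List.mem_singleton] at hv
    rwa [hv]
  | @cons x z y hadj p ih =>
    by_cases hz : ν z.1 ∈ Cone F l
    · obtain ⟨r, hr, h1, q, hq⟩ := ih hz (by
        intro h
        apply hp
        intro v hv
        rw [SimpleGraph.Walk.support_cons, List.mem_cons] at hv
        rcases hv with hv | hv
        · rwa [hv]
        · exact h v hv)
      refine ⟨r, by simp [hr], h1, SimpleGraph.Walk.cons hadj q, fun v hv => ?_⟩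
      rw [SimpleGraph.Walk.support_cons, List.mem_cons] at hv
      rcases hv with hv | hv
      · rwa [hv]
      · exact hq v hv
    · refine ⟨x, by simp, ?_, SimpleGraph.Walk.nil, fun v hv => ?_⟩
      · obtain ⟨-, a, ha⟩ := adj_iff.1 hadj
        have h1 := exit_cone F hx hz
        have h2 := hD (ν x.1) a
        rw [← map_mul, ha] at h2
        exact h1.trans h2
      · rw [SimpleGraph.Walk.support_nil, List.mem_singleton] at hv
        rwa [hv]

theorem cone_mono {F : VF G X} {l l' : List (X × Bool)} (h : l <:+ l') {g : G}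
    (hg : g ∈ Cone F l') : g ∈ Cone F l := h.trans hg

theorem nb_cons {F : VF G X} {l : List (X × Bool)} {a : X × Bool} {n : ℕ} {g : G}
    (h : g ∈ Nb F (a :: l) n) : g ∈ Nb F l (n + 1) := by
  change FreeGroup.norm (F.P g * (mk l)⁻¹) ≤ n + 1
  have h1 : FreeGroup.norm (F.P g * (mk (a :: l))⁻¹) ≤ n := h
  have h2 : F.P g * (mk l)⁻¹ = F.P g * (mk (a :: l))⁻¹ * mk [a] := by
    have : mk (a :: l) = mk [a] * mk l := by rw [mul_mk]; rfl
    rw [this]
    group
  rw [h2]
  have h3 := FreeGroup.norm_mul_le (F.P g * (mk (a :: l))⁻¹) (mk [a])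
  have h4 := FreeGroup.norm_mk_le (L₁ := [a])
  simp only [List.length_cons, List.length_nil] at h4
  omega

theorem nb_self {F : VF G X} {g : G} {n : ℕ} : g ∈ Nb F (F.P g).toWord n := by
  change FreeGroup.norm (F.P g * (mk (F.P g).toWord)⁻¹) ≤ n
  rw [mk_toWord, mul_inv_cancel, FreeGroup.norm_one]
  exact Nat.zero_le _

/-- Points of a path near the top of a maximal common cone. -/
theorem exists_near {F : VF G X} {D : ℕ}
    (hD : ∀ g (a : A × Bool), FreeGroup.norm (F.P (g * ν (val R [a])) * (F.P g)⁻¹) ≤ D)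
    {l : List (X × Bool)} {x y : Vert R w} (p : (schutz R w).Walk x y)
    (hx : ν x.1 ∈ Cone F l)
    (hp : ∀ a, (a :: l) <:+ (F.P (ν x.1)).toWord →
      ¬ ∀ v ∈ p.support, ν v.1 ∈ Cone F (a :: l)) :
    ∃ r ∈ p.support, ν r.1 ∈ Nb F l (D + 1) ∧
      ∃ q : (schutz R w).Walk x r, ∀ v ∈ q.support, ν v.1 ∈ Cone F l := by
  obtain ⟨t, ht⟩ := hx
  rcases List.eq_nil_or_concat t with rfl | ⟨t, a, rfl⟩
  · rw [List.nil_append] at ht
    refine ⟨x, by simp, ?_, SimpleGraph.Walk.nil, fun v hv => ?_⟩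
    · rw [ht]
      exact nb_self
    · rw [SimpleGraph.Walk.support_nil, List.mem_singleton] at hv
      rw [hv]
      exact ⟨[], by rw [List.nil_append, ht]⟩
  · have h1 : (a :: l) <:+ (F.P (ν x.1)).toWord := ⟨t, by rw [← ht]; simp⟩
    obtain ⟨r, hr, h2, q, hq⟩ := exit_walk hD p h1 (hp a h1)
    exact ⟨r, hr, nb_cons h2, q, fun v hv => cone_mono (List.suffix_cons _ _) (hq v hv)⟩

theorem walk_mid {V : Type*} {G : SimpleGraph V} {x y r : V} (p : G.Walk x y)
    (hr : r ∈ p.support) : G.dist x r + G.dist r y ≤ p.length := by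
  classical
  have h1 := SimpleGraph.dist_le (p.takeUntil r hr)
  have h2 := SimpleGraph.dist_le (p.dropUntil r hr)
  have h3 := congrArg SimpleGraph.Walk.length (p.take_spec hr)
  rw [SimpleGraph.Walk.length_append] at h3
  omega

theorem qiTree_of_virtuallyFree [Finite A] (hR : R.Finite)
    (hE : ∀ s : InvMon R, ν s = 1 → s * s = s) (F : VF G X) : QITree (schutz R w) := by
  classical
  obtain ⟨D, hD⟩ : ∃ D, ∀ g (a : A × Bool),
      FreeGroup.norm (F.P (g * ν (val R [a])) * (F.P g)⁻¹) ≤ D := by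
    choose d hd using fun a : A × Bool => F.step (ν (val R [a]))
    obtain ⟨D, hD⟩ := (Set.finite_range d).bddAbove
    exact ⟨D, fun g a => (hd a g).trans (hD ⟨a, rfl⟩)⟩
  obtain ⟨LM, hLM⟩ : ∃ LM, ∀ r s, (r, s) ∈ R → r.length ≤ LM ∧ s.length ≤ LM := by
    obtain ⟨LM, hLM⟩ := (hR.image fun p => max p.1.length p.2.length).bddAbove
    refine ⟨LM, fun r s h => ?_⟩
    have := hLM ⟨(r, s), h, rfl⟩
    exact ⟨(le_max_left _ _).trans this, (le_max_right _ _).trans this⟩
  obtain ⟨C, hC⟩ := frontier (w := w) hE F hD hLM (D + 1)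
  have hG : (schutz R w).Connected := connected
  refine qiTree_of hG (base R w) (4 * C) ?_
  intro n x y p hp
  -- the maximal common cone
  let Good : List (X × Bool) → Prop := fun l => l <:+ (F.P (ν x.1)).toWord ∧
    ∃ q : (schutz R w).Walk x y, ∀ v ∈ q.support, ν v.1 ∈ Cone F l
  have hGood0 : ∃ l, Good l ∧ l.length = 0 :=
    ⟨[], ⟨List.nil_suffix, p, fun v _ => List.nil_suffix⟩, rfl⟩
  have hspec := Nat.findGreatest_spec (P := fun m => ∃ l, Good l ∧ l.length = m)
    (Nat.zero_le (F.P (ν x.1)).toWord.length) hGood0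
  obtain ⟨l, hl, hlen⟩ := hspec
  have hmax : ∀ l', Good l' → l'.length ≤ l.length := by
    intro l' hl'
    rw [hlen]
    exact Nat.le_findGreatest hl'.1.length_le ⟨l', hl', rfl⟩
  obtain ⟨hlx, q, hq⟩ := hl
  have hxC : ν x.1 ∈ Cone F l := hlx
  have hyC : ν y.1 ∈ Cone F l := hq y (by simp)
  -- the three points
  obtain ⟨r, hr, hr1, qr, hqr⟩ := exists_near hD p hxC (fun a ha h => by
    have := hmax (a :: l) ⟨ha, p, h⟩
    simp at this)
  have hbase : ∀ (a : X × Bool) (x : Vert R w) (p : (schutz R w).Walk x (base R w)),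
      ¬ ∀ v ∈ p.support, ν v.1 ∈ Cone F (a :: l) := by
    intro a x p h
    have h1 := h (base R w) (by simp)
    have h2 : ν (base R w).1 = 1 := nu_base
    have h3 : (a :: l) <:+ (F.P (ν (base R w).1)).toWord := h1
    rw [h2, F.P1, FreeGroup.toWord_one] at h3
    have := h3.length_le
    simp at this
  obtain ⟨px, hpx⟩ := hG.exists_walk_length_eq_dist x (base R w)
  obtain ⟨py, hpy⟩ := hG.exists_walk_length_eq_dist y (base R w)
  obtain ⟨a, ha, ha1, qa, hqa⟩ := exists_near hD px hxC (fun c _ => hbase c x px)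
  obtain ⟨b, hb, hb1, qb, hqb⟩ := exists_near hD py hyC (fun c _ => hbase c y py)
  have d1 : (schutz R w).dist a r ≤ C := by
    apply hC l a r ha1 hr1
    refine ⟨qa.reverse.append qr, fun v hv => ?_⟩
    rw [SimpleGraph.Walk.mem_support_append_iff, SimpleGraph.Walk.support_reverse,
      List.mem_reverse] at hv
    rcases hv with hv | hv
    · exact hqa v hv
    · exact hqr v hv
  have d2 : (schutz R w).dist a b ≤ C := by
    apply hC l a b ha1 hb1
    refine ⟨(qa.reverse.append q).append qb, fun v hv => ?_⟩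
    rw [SimpleGraph.Walk.mem_support_append_iff, SimpleGraph.Walk.mem_support_append_iff,
      SimpleGraph.Walk.support_reverse, List.mem_reverse] at hv
    rcases hv with (hv | hv) | hv
    · exact hqa v hv
    · exact hq v hv
    · exact hqb v hv
  have m1 := walk_mid px ha
  have m2 := walk_mid py hb
  have m3 := hp r hr
  have c1 := hG.dist_triangle (u := base R w) (v := a) (w := r)
  have c2 := hG.dist_triangle (u := x) (v := a) (w := y)
  have c3 := hG.dist_triangle (u := a) (v := b) (w := y)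
  have c4 := hG.dist_triangle (u := a) (v := b) (w := base R w)
  have s1 := SimpleGraph.dist_comm (G := schutz R w) (u := base R w) (v := a)
  have s2 := SimpleGraph.dist_comm (G := schutz R w) (u := base R w) (v := b)
  have s3 := SimpleGraph.dist_comm (G := schutz R w) (u := base R w) (v := x)
  have s4 := SimpleGraph.dist_comm (G := schutz R w) (u := base R w) (v := y)
  have s5 := SimpleGraph.dist_comm (G := schutz R w) (u := b) (v := y)
  omega

end Pool.Agent.R640.IM
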