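import Mathlib

set_option autoImplicit false

/-! Coordinates in virtually free groups. -/

namespace Pool.Agent.R640.VFr

open FreeGroup

/-- The basis of a finitely generated free group is finite. -/
theorem finite_of_fg {X : Type} (h : Group.FG (FreeGroup X)) : Finite X := by
  classical
  let φ : FreeGroup X →* Multiplicative (X →₀ ℤ) :=
    FreeGroup.lift fun x => Multiplicative.ofAdd (Finsupp.single x 1)
  have hφ : Function.Surjective φ := by
    intro f
    have key : ∀ f : X →₀ ℤ, Multiplicative.ofAdd f ∈ φ.range := by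
      intro f
      induction f using Finsupp.induction_linear with
      | zero => exact one_mem _
      | add f g hf hg => exact mul_mem hf hg
      | single x n =>
        have h1 : Multiplicative.ofAdd (Finsupp.single x n) =
            (φ (FreeGroup.of x)) ^ n := by
          simp only [φ, FreeGroup.lift_apply_of]
          rw [← ofAdd_zsmul, Finsupp.smul_single, smul_eq_mul, mul_one]
        rw [h1]
        exact zpow_mem (MonoidHom.mem_range.2 ⟨_, rfl⟩) n
    exact key f.toAdd
  have h1 : Group.FG (Multiplicative (X →₀ ℤ)) := Group.fg_of_surjective hφ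
  have h2 : AddGroup.FG (X →₀ ℤ) := by
    rw [AddGroup.fg_iff_mul_fg]
    exact h1
  have h3 : Module.Finite ℤ (X →₀ ℤ) := by
    rw [Module.Finite.iff_addGroup_fg]
    exact h2
  exact Module.Finite.finite_basis (Finsupp.basisSingleOne (R := ℤ) (ι := X))

/-- The coordinate of an element of a virtually free group in the free subgroup. -/
structure VF (G : Type) [Group G] (X : Type) [DecidableEq X] where
  /-- the coordinate -/
  P : G → FreeGroup X
  /-- the inclusion of the free group -/
  ι : FreeGroup X →* G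
  Pι : ∀ f g, P (ι f * g) = P g * f⁻¹
  P1 : P 1 = 1
  step : ∀ s : G, ∃ D : ℕ, ∀ g, norm (P (g * s) * (P g)⁻¹) ≤ D
  fin : ∀ n : ℕ, {g | norm (P g) ≤ n}.Finite

theorem finite_ball {X : Type} [DecidableEq X] [Finite X] (n : ℕ) :
    {f : FreeGroup X | norm f ≤ n}.Finite := by
  have h1 : {l : List (X × Bool) | l.length ≤ n}.Finite := List.finite_length_le _ n
  exact Set.Finite.preimage (f := FreeGroup.toWord) (FreeGroup.toWord_injective.injOn) h1

theorem exists_VF (G : Type) [Group G] (hG : Group.FG G) (H : Subgroup G) [H.FiniteIndex]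
    [IsFreeGroup H] : ∃ (X : Type) (_ : DecidableEq X), Nonempty (VF G X) := by
  classical
  have e : H ≃* FreeGroup (IsFreeGroup.Generators H) := IsFreeGroup.toFreeGroup H
  set X := IsFreeGroup.Generators H with hX
  have hH : Group.FG H := Subgroup.fg_of_index_ne_zero H
  have hF : Group.FG (FreeGroup X) := Group.fg_of_surjective (f := e.toMonoidHom) e.surjective
  have hfin : Finite X := finite_of_fg hF
  let Q := Quotient (QuotientGroup.rightRel H)
  let q : G → Q := fun g => Quotient.mk (QuotientGroup.rightRel H) g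
  let c : G → G := fun g => (q g).out
  have hQ : Finite Q := by
    have h1 : Finite (G ⧸ H) := Subgroup.finite_quotient_of_finiteIndex
    exact Finite.of_equiv _ (QuotientGroup.quotientRightRelEquivQuotientLeftRel H).symm
  have hc : ∀ g, g * (c g)⁻¹ ∈ H := by
    intro g
    have h1 : (QuotientGroup.rightRel H) (c g) g := Quotient.mk_out g
    rwa [QuotientGroup.rightRel_apply] at h1
  let ι : FreeGroup X →* G := H.subtype.comp e.symm.toMonoidHom
  have hι : ∀ f, ι f ∈ H := fun f => (e.symm f).2
  have hq : ∀ f g, q (ι f * g) = q g := by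
    intro f g
    apply Quotient.sound
    change (QuotientGroup.rightRel H) (ι f * g) g
    rw [QuotientGroup.rightRel_apply, mul_inv_rev, mul_inv_cancel_left]
    exact H.inv_mem (hι f)
  let P₀ : G → FreeGroup X := fun g => (e ⟨g * (c g)⁻¹, hc g⟩)⁻¹
  have hP₀ : ∀ f g, P₀ (ι f * g) = P₀ g * f⁻¹ := by
    intro f g
    have h1 : c (ι f * g) = c g := by simp only [c, hq]
    have h2 : (⟨ι f * g * (c (ι f * g))⁻¹, hc (ι f * g)⟩ : H) =
        e.symm f * ⟨g * (c g)⁻¹, hc g⟩ := by
      apply Subtype.ext
      change ι f * g * (c (ι f * g))⁻¹ = ι f * (g * (c g)⁻¹)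
      rw [h1, mul_assoc]
    change (e ⟨ι f * g * (c (ι f * g))⁻¹, hc (ι f * g)⟩)⁻¹ = (e ⟨g * (c g)⁻¹, hc g⟩)⁻¹ * f⁻¹
    rw [h2, _root_.map_mul, MulEquiv.apply_symm_apply, mul_inv_rev]
  have hdec : ∀ g, ∃ f, g = ι f * c g := by
    intro g
    refine ⟨e ⟨g * (c g)⁻¹, hc g⟩, ?_⟩
    change g = (e.symm (e ⟨g * (c g)⁻¹, hc g⟩)).1 * c g
    rw [MulEquiv.symm_apply_apply]
    group
  let k : FreeGroup X := (P₀ 1)⁻¹
  refine ⟨X, inferInstance, ⟨⟨fun g => k * P₀ g, ι, ?_, ?_, ?_, ?_⟩⟩⟩
  · intro f g
    change k * P₀ (ι f * g) = k * P₀ g * f⁻¹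
    rw [hP₀, mul_assoc]
  · change (P₀ 1)⁻¹ * P₀ 1 = 1
    exact inv_mul_cancel _
  · intro s
    have h1 : (Set.range fun x : Q => norm (k * P₀ (x.out * s) * (k * P₀ x.out)⁻¹)).Finite :=
      Set.finite_range _
    obtain ⟨D, hD⟩ := h1.bddAbove
    refine ⟨D, fun g => ?_⟩
    obtain ⟨f, hf⟩ := hdec g
    have h2 : k * P₀ (g * s) * (k * P₀ g)⁻¹ = k * P₀ ((q g).out * s) * (k * P₀ (q g).out)⁻¹ := by
      have h3 : P₀ (g * s) = P₀ ((q g).out * s) * f⁻¹ := by
        conv_lhs => rw [hf, mul_assoc]
        rw [hP₀]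
      have h4 : P₀ g = P₀ (q g).out * f⁻¹ := by
        conv_lhs => rw [hf]
        rw [hP₀]
      rw [h3, h4]
      group
    rw [h2]
    exact hD ⟨q g, rfl⟩
  · intro n
    have h1 : {g : G | norm (k * P₀ g) ≤ n} ⊆
        (fun g => ((k * P₀ g, q g) : FreeGroup X × Q)) ⁻¹'
          ({f : FreeGroup X | norm f ≤ n} ×ˢ Set.univ) := by
      intro g hg
      exact ⟨hg, trivial⟩
    refine Set.Finite.subset (Set.Finite.preimage ?_ ((finite_ball n).prod Set.finite_univ)) h1
    intro g _ g' _ h
    simp only [Prod.mk.injEq] at h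
    obtain ⟨h2, h3⟩ := h
    have h4 : c g = c g' := by simp only [c, h3]
    have h5 := e.injective (inv_injective (mul_left_cancel h2))
    have h6 : g * (c g)⁻¹ = g' * (c g')⁻¹ := congrArg Subtype.val h5
    rw [h4] at h6
    exact mul_right_cancel h6

section

variable {X : Type} [DecidableEq X]

theorem suffix_mk_mul (k : FreeGroup X) : ∀ L : List (X × Bool),
    k.toWord.drop L.length <:+ (mk L * k).toWord := by
  intro L
  induction L with
  | nil =>
    have : (mk ([] : List (X × Bool))) * k = k := one_mul k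
    rw [this]
    exact List.suffix_refl _
  | cons a L ih =>
    have e1 : mk (a :: L) * k = mk [a] * (mk L * k) := by
      rw [← mul_assoc, mul_mk]
      rfl
    have e2 : (mk [a] * (mk L * k)).toWord = reduce (a :: (mk L * k).toWord) := by
      have : mk [a] * (mk L * k) = mk (a :: (mk L * k).toWord) := by
        conv_lhs => rw [← mk_toWord (x := mk L * k)]
        rw [mul_mk]
        rfl
      rw [this, toWord_mk]
    have h1 : ∀ l₁ l₂ : List (X × Bool), l₁ <:+ l₂ → l₁.drop 1 <:+ l₂.drop 1 := by
      rintro l₁ l₂ ⟨t, rfl⟩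
      cases t with
      | nil => exact List.suffix_refl _
      | cons b t =>
        simp only [List.cons_append, List.drop_succ_cons, List.drop_zero]
        exact (List.drop_suffix _ _).trans (List.suffix_append _ _)
    have h2 := h1 _ _ ih
    rw [List.drop_drop] at h2
    rw [e1, e2, reduce.cons, reduce_toWord, List.length_cons]
    refine h2.trans ?_
    generalize (mk L * k).toWord = l
    cases l with
    | nil => simp
    | cons b l =>
      simp only [List.drop_succ_cons, List.drop_zero]
      split_ifs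
      · exact List.suffix_refl _
      · exact ⟨[a, b], rfl⟩

theorem suffix_mul (δ k : FreeGroup X) : k.toWord.drop (norm δ) <:+ (δ * k).toWord := by
  have := suffix_mk_mul k δ.toWord
  rwa [mk_toWord] at this

end

end Pool.Agent.R640.VFr
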