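import Pool.Agent.R640.CFTree
import Pool.Agent.R640.Virt

set_option autoImplicit false

/-! Schützenberger graphs of E-unitary inverse monoids as closed subgraphs. -/

namespace Pool.Agent.R640.IM

variable {A : Type} {R : Set (List (A × Bool) × List (A × Bool))} {w : List (A × Bool)}

variable {G : Type} [Group G] (ν : InvMon R →* G)

theorem nu_inv (u : List (A × Bool)) : ν (val R (inv u)) = (ν (val R u))⁻¹ := by
  have h1 := congrArg ν (val_reg (R := R) u)
  rw [map_mul, map_mul] at h1
  have h2 : ν (val R u) * ν (val R (inv u)) = 1 := by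
    have : ν (val R u) * ν (val R (inv u)) * ν (val R u) = 1 * ν (val R u) := by rw [h1, one_mul]
    exact mul_right_cancel this
  exact eq_inv_of_mul_eq_one_right h2

theorem idem_comm {s t : InvMon R} (hs : s * s = s) (ht : t * t = t) : s * t = t * s := by
  obtain ⟨φ, rfl⟩ := val_surj s
  obtain ⟨ψ, rfl⟩ := val_surj t
  have h := val_comm (R := R) φ ψ
  rwa [idem_inv hs, idem_inv ht, hs, ht] at h

variable (hE : ∀ s : InvMon R, ν s = 1 → s * s = s)

include hE in
theorem nu_inj {x y : Vert R w} (h : ν x.1 = ν y.1) : x = y := by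
  have key : ∀ x y : Vert R w, ν x.1 = ν y.1 → ∃ t, t * t = t ∧ x.1 * t = y.1 ∧ y.1 * t = y.1 := by
    intro x y h
    obtain ⟨α, hα⟩ := val_surj x.1
    obtain ⟨m, hm⟩ := x.2.2
    have h1 : ν (val R (inv α) * y.1) = 1 := by
      rw [map_mul, nu_inv, hα, h, inv_mul_cancel]
    have h2 := hE _ h1
    have h3 : x.1 * (val R (inv α) * y.1) = y.1 := by
      have h4 : x.1 * val R (inv α) * x.1 = x.1 := by
        rw [← hα]
        exact val_reg α
      calc x.1 * (val R (inv α) * y.1) = x.1 * val R (inv α) * (val R (w ++ inv w) * y.1) := by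
            rw [base_mul, mul_assoc]
        _ = x.1 * val R (inv α) * (x.1 * m * y.1) := by rw [hm]
        _ = x.1 * val R (inv α) * x.1 * m * y.1 := by simp only [mul_assoc]
        _ = x.1 * m * y.1 := by rw [h4]
        _ = y.1 := by rw [hm, base_mul]
    obtain ⟨t, ht⟩ : ∃ t, t = val R (inv α) * y.1 := ⟨_, rfl⟩
    rw [← ht] at h2 h3
    refine ⟨t, h2, h3, ?_⟩
    have h5 : x.1 * t * t = x.1 * t := by rw [mul_assoc, h2]
    rwa [h3] at h5
  obtain ⟨t, ht, h1, h2⟩ := key x y h
  obtain ⟨t', ht', h3, h4⟩ := key y x h.symm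
  apply Subtype.ext
  calc x.1 = y.1 * t' := h3.symm
    _ = x.1 * t * t' := by rw [h1]
    _ = x.1 * (t' * t) := by rw [mul_assoc, idem_comm ht ht']
    _ = x.1 * t' * t := by rw [mul_assoc]
    _ = y.1 := by rw [h4, h1]

/-- The word `u` can be read from `g` in the graph with edges `E`. -/
def Rd (E : Set (G × (A × Bool))) : G → List (A × Bool) → Prop
  | _, [] => True
  | g, a :: u => (g, a) ∈ E ∧ Rd E (g * ν (val R [a])) u

/-- The subgraph is closed under the relations. -/
structure Closed (V : Set G) (E : Set (G × (A × Bool))) : Prop where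
  edge : ∀ g a, (g, a) ∈ E → g ∈ V ∧ g * ν (val R [a]) ∈ V ∧
    (g * ν (val R [a]), (a.1, !a.2)) ∈ E
  rule : ∀ r s, (r, s) ∈ R → ∀ g ∈ V, (Rd ν E g r ↔ Rd ν E g s)

variable {ν}

theorem nu_cons (a : A × Bool) (u : List (A × Bool)) :
    ν (val R (a :: u)) = ν (val R [a]) * ν (val R u) := by
  rw [← map_mul, ← val_append]
  rfl

theorem rd_append {E : Set (G × (A × Bool))} : ∀ (u v : List (A × Bool)) (g : G),
    Rd ν E g (u ++ v) ↔ Rd ν E g u ∧ Rd ν E (g * ν (val R u)) v := by
  intro u
  induction u with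
  | nil =>
    intro v g
    simp [Rd, val_nil]
  | cons a u ih =>
    intro v g
    rw [List.cons_append]
    simp only [Rd]
    rw [ih, nu_cons a u, and_assoc, mul_assoc]

theorem Closed.rd_mem {V : Set G} {E : Set (G × (A × Bool))} (hC : Closed ν V E) :
    ∀ (u : List (A × Bool)) (g : G), g ∈ V → Rd ν E g u → g * ν (val R u) ∈ V := by
  intro u
  induction u with
  | nil =>
    intro g hg _
    rwa [val_nil, map_one, mul_one]
  | cons a u ih =>
    intro g hg h
    rw [nu_cons, ← mul_assoc]
    exact ih _ (hC.edge g a h.1).2.1 h.2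

theorem Closed.rd_inv {V : Set G} {E : Set (G × (A × Bool))} (hC : Closed ν V E) :
    ∀ (u : List (A × Bool)) (g : G), Rd ν E g u → Rd ν E (g * ν (val R u)) (inv u) := by
  intro u
  induction u with
  | nil => intro g _; trivial
  | cons a u ih =>
    intro g h
    have e1 : inv (a :: u) = inv u ++ [(a.1, !a.2)] := by
      simp [inv]
    rw [e1, rd_append, nu_cons, ← mul_assoc]
    refine ⟨ih _ h.2, ?_, trivial⟩
    rw [nu_inv, mul_inv_cancel_right]
    exact (hC.edge g a h.1).2.2

theorem Closed.rd_congr {V : Set G} {E : Set (G × (A × Bool))} (hC : Closed ν V E)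
    {u v : List (A × Bool)} (h : val R u = val R v) {g : G} (hg : g ∈ V) :
    Rd ν E g u ↔ Rd ν E g v := by
  let c : Con (FreeMonoid (A × Bool)) :=
    { r := fun u v => ν (val R u.toList) = ν (val R v.toList) ∧
        ∀ g ∈ V, (Rd ν E g u.toList ↔ Rd ν E g v.toList)
      iseqv := {
        refl := fun _ => ⟨rfl, fun _ _ => Iff.rfl⟩
        symm := fun h => ⟨h.1.symm, fun g hg => (h.2 g hg).symm⟩
        trans := fun h h' => ⟨h.1.trans h'.1, fun g hg => (h.2 g hg).trans (h'.2 g hg)⟩ }
      mul' := by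
        rintro a b c d ⟨h1, h2⟩ ⟨h3, h4⟩
        refine ⟨?_, fun g hg => ?_⟩
        · rw [FreeMonoid.toList_mul, FreeMonoid.toList_mul, val_append, val_append, map_mul,
            map_mul, h1, h3]
        · rw [FreeMonoid.toList_mul, FreeMonoid.toList_mul, rd_append, rd_append]
          constructor
          · rintro ⟨h5, h6⟩
            refine ⟨(h2 g hg).1 h5, ?_⟩
            rw [← h1]
            exact (h4 _ (hC.rd_mem _ _ hg h5)).1 h6
          · rintro ⟨h5, h6⟩
            have h7 := (h2 g hg).2 h5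
            refine ⟨h7, ?_⟩
            rw [← h1] at h6
            exact (h4 _ (hC.rd_mem _ _ hg h7)).2 h6 }
  have hc : conGen (Rel R) ≤ c := by
    rw [Con.conGen_le]
    intro x y hxy
    cases hxy with
    | regular u =>
      refine ⟨?_, fun g _ => ?_⟩
      · change ν (val R (u ++ inv u ++ u)) = ν (val R u)
        rw [val_append, val_append, val_reg]
      · change Rd ν E g (u ++ inv u ++ u) ↔ Rd ν E g u
        rw [rd_append, rd_append, val_append, map_mul, nu_inv, mul_inv_cancel, mul_one]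
        exact ⟨fun h => h.2, fun h => ⟨⟨h, hC.rd_inv _ _ h⟩, h⟩⟩
    | commute u v =>
      refine ⟨?_, fun g _ => ?_⟩
      · change ν (val R (u ++ inv u ++ (v ++ inv v))) = ν (val R (v ++ inv v ++ (u ++ inv u)))
        rw [val_append, val_append (v ++ inv v), map_mul, map_mul, val_append, val_append, map_mul,
          map_mul, nu_inv, nu_inv, mul_inv_cancel, mul_inv_cancel]
      · change Rd ν E g (u ++ inv u ++ (v ++ inv v)) ↔ Rd ν E g (v ++ inv v ++ (u ++ inv u))
        have key : ∀ u : List (A × Bool), Rd ν E g (u ++ inv u) ↔ Rd ν E g u := by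
          intro u
          rw [rd_append]
          exact ⟨fun h => h.1, fun h => ⟨h, hC.rd_inv _ _ h⟩⟩
        have key' : ∀ u : List (A × Bool), g * ν (val R (u ++ inv u)) = g := by
          intro u
          rw [val_append, map_mul, nu_inv, mul_inv_cancel, mul_one]
        rw [rd_append, rd_append (v ++ inv v), key', key', key, key]
        exact and_comm
    | rel r s h =>
      refine ⟨?_, fun g hg => hC.rule r s h g hg⟩
      change ν (val R r) = ν (val R s)
      rw [val_rel h]
  have h1 : conGen (Rel R) (FreeMonoid.ofList u) (FreeMonoid.ofList v) :=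
    PresentedMonoid.mk_eq_mk_iff.1 h
  exact (hc h1).2 g hg

section

variable {V : Set G} {E : Set (G × (A × Bool))} (hC : Closed ν V E) (h1 : (1 : G) ∈ V)
  (hw : Rd ν E 1 w)

include hC h1 hw in
theorem Closed.path {x : Vert R w} {u : List (A × Bool)}
    (hx : val R (w ++ inv w) * val R u = x.1) : Rd ν E 1 u := by
  obtain ⟨m, hm⟩ := x.2.2
  obtain ⟨v, rfl⟩ := val_surj m
  have h2 : val R (w ++ inv w ++ (u ++ v)) = val R (w ++ inv w) := by
    rw [val_append, val_append u, ← mul_assoc, hx, hm]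
  have h3 : Rd ν E 1 (w ++ inv w) := by
    rw [rd_append]
    exact ⟨hw, hC.rd_inv _ _ hw⟩
  have h4 := (hC.rd_congr h2 h1).2 h3
  rw [rd_append (w ++ inv w), rd_append u] at h4
  have h5 := h4.2.1
  rwa [val_append, map_mul, nu_inv, mul_inv_cancel, mul_one] at h5

theorem nu_base : ν (val R (w ++ inv w)) = 1 := by
  rw [val_append, map_mul, nu_inv, mul_inv_cancel]

include hC h1 hw in
theorem Closed.vert (x : Vert R w) : ν x.1 ∈ V := by
  obtain ⟨m, hm⟩ := x.2.1
  obtain ⟨u, rfl⟩ := val_surj m
  have h2 := hC.rd_mem _ _ h1 (hC.path h1 hw hm)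
  rw [one_mul] at h2
  rwa [← hm, map_mul, nu_base, one_mul]

include hC h1 hw in
theorem Closed.edge_mem {x y : Vert R w} {a : A × Bool} (h : x.1 * val R [a] = y.1) :
    (ν x.1, a) ∈ E := by
  obtain ⟨m, hm⟩ := x.2.1
  obtain ⟨u, rfl⟩ := val_surj m
  have h2 : val R (w ++ inv w) * val R (u ++ [a]) = y.1 := by
    rw [val_append u [a], ← mul_assoc, hm, h]
  have h3 := hC.path h1 hw h2
  rw [rd_append] at h3
  have h4 := h3.2.1
  rwa [one_mul, ← one_mul (ν (val R u)), ← nu_base (w := w) (ν := ν), ← map_mul, hm] at h4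

end

/-- The vertices of the Schützenberger graph in the group. -/
def VY (ν : InvMon R →* G) (w : List (A × Bool)) : Set G := {g | ∃ x : Vert R w, ν x.1 = g}

/-- The edges of the Schützenberger graph in the group. -/
def EY (ν : InvMon R →* G) (w : List (A × Bool)) : Set (G × (A × Bool)) :=
  {p | ∃ x y : Vert R w, ν x.1 = p.1 ∧ x.1 * val R [p.2] = y.1}

include hE in
theorem rd_EY {u : List (A × Bool)} : ∀ {x : Vert R w}, Rd ν (EY ν w) (ν x.1) u ↔
    ∃ y : Vert R w, x.1 * val R u = y.1 := by
  induction u with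
  | nil =>
    intro x
    simp only [Rd, true_iff]
    exact ⟨x, by rw [val_nil, mul_one]⟩
  | cons a u ih =>
    intro x
    have e1 : val R (a :: u) = val R [a] * val R u := val_append [a] u
    simp only [Rd]
    rw [e1]
    constructor
    · rintro ⟨⟨x', z, h1, h2⟩, h3⟩
      have hx : x' = x := nu_inj ν hE h1
      subst hx
      simp only at h2
      rw [← map_mul, h2, ih] at h3
      obtain ⟨y, hy⟩ := h3
      exact ⟨y, by rw [← mul_assoc, h2, hy]⟩
    · rintro ⟨y, hy⟩
      rw [← mul_assoc] at hy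
      let z : Vert R w := ⟨x.1 * val R [a], vert_of_between hy⟩
      refine ⟨⟨x, z, rfl, rfl⟩, ?_⟩
      rw [← map_mul]
      exact (ih (x := z)).2 ⟨y, hy⟩

include hE in
theorem closed_Y : Closed ν (VY ν w) (EY ν w) := by
  constructor
  · rintro g a ⟨x, y, h1, h2⟩
    simp only at h1 h2
    subst h1
    refine ⟨⟨x, rfl⟩, ⟨y, by rw [← h2, map_mul]⟩, ⟨y, x, by rw [← h2, map_mul], ?_⟩⟩
    exact back_vert h2
  · rintro r s hrs g ⟨x, rfl⟩
    rw [rd_EY hE, rd_EY hE, val_rel hrs]

include hE in
theorem rd_w : Rd ν (EY ν w) 1 w := by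
  have h1 : Rd ν (EY ν w) (ν (base R w).1) w := by
    rw [rd_EY hE]
    refine ⟨⟨val R w, ?_, ?_⟩, ?_⟩
    · refine ⟨val R w, ?_⟩
      rw [val_append, val_reg]
    · exact ⟨val R (inv w), by rw [val_append]⟩
    · change val R (w ++ inv w) * val R w = val R w
      rw [val_append, val_reg]
  have h2 : ν (base R w).1 = 1 := nu_base
  rwa [h2] at h1

theorem one_mem_VY : (1 : G) ∈ VY ν w := ⟨base R w, nu_base⟩

end Pool.Agent.R640.IM
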