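import Mathlib

set_option autoImplicit false

/-! Hyperbolic graphs and graphs which contain the hyperbolic plane. -/

namespace Pool.Agent.R640.Horo

/-- The four point condition of hyperbolicity with the constant `δ` for the path metric of the
graph `G` on its vertices. -/
def FourPt {V : Type} (G : SimpleGraph V) (δ : ℝ) : Prop :=
  ∀ p q r s : V, (G.dist p q : ℝ) + G.dist r s ≤
    max ((G.dist p r : ℝ) + G.dist q s) (G.dist p s + G.dist q r) + 2 * δ

open UpperHalfPlane in
/-- The graph `G` contains a quasi-isometric image of the hyperbolic plane. -/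
def ContainsH2 {V : Type} (G : SimpleGraph V) : Prop :=
  ∃ (f : ℍ → V) (k K c : ℝ), 0 < k ∧ 0 < K ∧
    ∀ x y : ℍ, k * dist x y - c ≤ G.dist (f x) (f y) ∧ (G.dist (f x) (f y) : ℝ) ≤ K * dist x y + c

end Pool.Agent.R640.Horo
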