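import Pool.Agent.R640.Horo4

set_option autoImplicit false

/-! The hyperbolic plane has no quasi-isometric embedding into a horoball-like graph. -/

namespace Pool.Agent.R640.Horo

open SimpleGraph UpperHalfPlane

/-- Points on a vertical geodesic. -/
noncomputable def vp (t : ℝ) : ℍ := ⟨⟨0, Real.exp t⟩, Real.exp_pos t⟩

theorem dist_vp (s t : ℝ) : dist (vp s) (vp t) = |s - t| := by
  have h : (vp s).re = (vp t).re := rfl
  rw [UpperHalfPlane.dist_of_re_eq h]
  have h1 : ∀ s, (vp s).im = Real.exp s := fun s => rfl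
  rw [h1, h1, Real.log_exp, Real.log_exp, Real.dist_eq]

/-- Points on a horocycle. -/
noncomputable def hp (t : ℝ) : ℍ := ⟨⟨t, 1⟩, one_pos⟩

theorem dist_hp (s t : ℝ) : dist (hp s) (hp t) = 2 * Real.arsinh (|s - t| / 2) := by
  rw [UpperHalfPlane.dist_eq]
  have h1 : ∀ s, (hp s).im = 1 := fun s => rfl
  have h2 : dist ((hp s : ℍ) : ℂ) (hp t) = |s - t| := by
    have h3 : ∀ s : ℝ, ((hp s : ℍ) : ℂ) = ⟨s, 1⟩ := fun s => rfl
    rw [h3, h3]
    have h4 := Complex.dist_of_im_eq (z := ⟨s, 1⟩) (w := ⟨t, 1⟩) rfl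
    rw [h4, Real.dist_eq]
  rw [h1, h1, h2]
  simp

theorem arsinh_le {x : ℝ} (hx : 0 ≤ x) : Real.arsinh x ≤ Real.log (2 * x + 1) := by
  rw [Real.arsinh]
  apply Real.log_le_log (by positivity)
  have : √(1 + x ^ 2) ≤ 1 + x := by
    rw [Real.sqrt_le_left (by linarith)]
    nlinarith
  linarith

theorem le_arsinh {x : ℝ} (hx : 0 < x) : Real.log (2 * x) ≤ Real.arsinh x := by
  rw [Real.arsinh]
  apply Real.log_le_log (by positivity)
  have : x ≤ √(1 + x ^ 2) := by
    apply Real.le_sqrt_of_sq_le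
    linarith
  linarith

variable {V : Type} {G : SimpleGraph V} {X : V → ℤ} {H : V → ℕ}

theorem no_h2_of_subsingleton [Subsingleton V] : ¬ ContainsH2 G := by
  rintro ⟨f, k, K, c, hk, -, hf⟩
  have h1 := (hf (vp 0) (vp ((c + 1) / k))).1
  rw [dist_vp, Subsingleton.elim (f (vp 0)) (f (vp ((c + 1) / k))), SimpleGraph.dist_self,
    Nat.cast_zero, zero_sub, abs_neg] at h1
  have h2 := le_abs_self ((c + 1) / k)
  have h3 : k * ((c + 1) / k) = c + 1 := by field_simp
  nlinarith

variable (hG : HB G X H)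

include hG in
theorem no_h2_unbounded (hunb : ∀ N, ∃ u, N ≤ H u) : ¬ ContainsH2 G := by
  rintro ⟨f, k, K, c, hk, hK, hf⟩
  obtain ⟨L, hL⟩ := exists_nat_ge (K + c)
  refine no_line hG hunb (fun n : ℤ => f (vp n)) k c L hk ?_ ?_
  · intro m n
    have := (hf (vp m) (vp n)).1
    rwa [dist_vp] at this
  · intro i
    have := (hf (vp i) (vp ((i + 1 : ℤ) : ℝ))).2
    rw [dist_vp] at this
    push_cast at this
    have e : |(i : ℝ) - (i + 1)| = 1 := by norm_num
    rw [e, mul_one] at this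
    have h2 : (G.dist (f (vp i)) (f (vp ((i + 1 : ℤ) : ℝ))) : ℝ) ≤ L := by
      push_cast
      linarith
    exact_mod_cast h2

include hG in
theorem no_h2_bounded (B : ℕ) (hB : ∀ u, H u ≤ B) : ¬ ContainsH2 G := by
  rintro ⟨f, k, K, c, hk, hK, hf⟩
  have hc : 0 ≤ c := by
    have := (hf (vp 0) (vp 0)).1
    rw [_root_.dist_self, SimpleGraph.dist_self, Nat.cast_zero, mul_zero] at this
    linarith
  -- separation
  obtain ⟨N, hN1, hN⟩ : ∃ N : ℕ, 1 ≤ N ∧ c < k * (2 * Real.log N) := by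
    obtain ⟨N, hN⟩ := exists_nat_gt (Real.exp (c / (2 * k)))
    have h0 : (0 : ℝ) < N := (Real.exp_pos _).trans hN
    refine ⟨N, by exact_mod_cast h0, ?_⟩
    have h1 : c / (2 * k) < Real.log N := (Real.lt_log_iff_exp_lt h0).2 hN
    rw [div_lt_iff₀ (by positivity)] at h1
    linarith
  have hN0 : (0 : ℝ) < N := by exact_mod_cast hN1
  let g : ℕ → V := fun j => f (hp ((N : ℝ) * j))
  have hdist : ∀ i j : ℕ, dist (hp ((N : ℝ) * i)) (hp ((N : ℝ) * j)) =
      2 * Real.arsinh (N * |(i : ℝ) - j| / 2) := by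
    intro i j
    rw [dist_hp, ← mul_sub, abs_mul, abs_of_pos hN0]
  have hinj : ∀ i j : ℕ, i ≠ j → g i ≠ g j := by
    intro i j hij he
    have h1 := (hf (hp ((N : ℝ) * i)) (hp ((N : ℝ) * j))).1
    have he' : f (hp ((N : ℝ) * i)) = f (hp ((N : ℝ) * j)) := he
    rw [he', SimpleGraph.dist_self, Nat.cast_zero, hdist] at h1
    have h2 : (1 : ℝ) ≤ |(i : ℝ) - j| := by
      have h3 : (1 : ℤ) ≤ |(i : ℤ) - j| := by
        have : (i : ℤ) - j ≠ 0 := by omega
        exact Int.one_le_abs this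
      exact_mod_cast h3
    have h3 : Real.log N ≤ Real.arsinh (N * |(i : ℝ) - j| / 2) := by
      refine le_trans ?_ (le_arsinh (by positivity))
      apply Real.log_le_log hN0
      have : (N : ℝ) * 1 ≤ N * |(i : ℝ) - j| := mul_le_mul_of_nonneg_left h2 hN0.le
      linarith
    nlinarith
  have hup : ∀ (t j : ℕ), j ≤ 2 ^ t → (G.dist (g 0) (g j) : ℝ) ≤
      K * (2 * (Real.log (N + 1) + t * Real.log 2)) + c := by
    intro t j hj
    have h1 := (hf (hp ((N : ℝ) * (0 : ℕ))) (hp ((N : ℝ) * j))).2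
    refine h1.trans ?_
    rw [hdist]
    have h2 : Real.arsinh (N * |((0 : ℕ) : ℝ) - j| / 2) ≤ Real.log (N + 1) + t * Real.log 2 := by
      refine (arsinh_le (by positivity)).trans ?_
      rw [← Real.log_pow, ← Real.log_mul (by positivity) (by positivity)]
      apply Real.log_le_log (by positivity)
      have h3 : |((0 : ℕ) : ℝ) - j| = j := by simp
      rw [h3]
      have h4 : (j : ℝ) ≤ 2 ^ t := by exact_mod_cast hj
      have h5 : (1 : ℝ) ≤ 2 ^ t := one_le_pow₀ (by norm_num)
      have h6 : (N : ℝ) * j ≤ N * 2 ^ t := mul_le_mul_of_nonneg_left h4 hN0.le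
      linarith
    have h7 : K * (2 * Real.arsinh (N * |((0 : ℕ) : ℝ) - j| / 2)) ≤
        K * (2 * (Real.log (N + 1) + t * Real.log 2)) :=
      mul_le_mul_of_nonneg_left (by linarith) hK.le
    linarith
  -- growth
  have hgrow : ∀ (r : ℕ) (v v' : V), G.dist v v' ≤ r → |X v - X v'| ≤ r * 2 ^ B := by
    intro r v v' h
    obtain ⟨p, hp⟩ := hG.conn.exists_walk_length_eq_dist v v'
    have h1 : |X v - X v'| ≤ p.length * 2 ^ B := by
      clear hp h
      induction p with
      | nil => simp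
      | @cons a b c h p ih =>
        have h2 := adj_X hG h
        have h3 : (2 : ℤ) ^ H a ≤ 2 ^ B := pow_le_pow_right₀ (by norm_num) (hB a)
        have tri : |X a - X c| ≤ |X a - X b| + |X b - X c| := abs_sub_le _ _ _
        rw [Walk.length_cons]
        push_cast
        linarith
    have h2 : (p.length : ℤ) ≤ r := by
      rw [hp]
      exact_mod_cast h
    have h3 : (0 : ℤ) < 2 ^ B := by positivity
    nlinarith
  have hcount : ∀ t r : ℕ, (∀ j ≤ 2 ^ t, G.dist (g 0) (g j) ≤ r) →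
      2 ^ t ≤ (2 * (r * 2 ^ B) + 1) * (B + 1) := by
    intro t r h
    let S : Finset (ℤ × ℕ) := Finset.Icc (-((r * 2 ^ B : ℕ) : ℤ)) ((r * 2 ^ B : ℕ) : ℤ) ×ˢ
      Finset.range (B + 1)
    have h1 : (Finset.range (2 ^ t)).card ≤ S.card := by
      refine Finset.card_le_card_of_injOn (fun j => (X (g 0) - X (g j), H (g j))) ?_ ?_
      · intro j hj
        have hj' : j < 2 ^ t := by simpa using hj
        have h2 := hgrow r _ _ (h j hj'.le)
        rw [abs_le] at h2
        simp only [S, Finset.coe_product, Set.mem_prod, Finset.mem_coe, Finset.mem_Icc,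
          Finset.mem_range]
        refine ⟨⟨?_, ?_⟩, ?_⟩
        · push_cast
          exact h2.1
        · push_cast
          exact h2.2
        · have := hB (g j)
          omega
      · intro i _ j _ hij
        by_contra hne
        refine hinj i j hne (hG.inj _ _ ?_ ?_)
        · have := congrArg Prod.fst hij
          simp only at this
          linarith
        · exact congrArg Prod.snd hij
    have h2 : S.card = (2 * (r * 2 ^ B) + 1) * (B + 1) := by
      simp only [S, Finset.card_product, Finset.card_range, Int.card_Icc]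
      congr 1
      omega
    rwa [Finset.card_range, h2] at h1
  obtain ⟨t, ht⟩ := exists_big (2 * (K * (2 * Real.log 2)) * 2 ^ B * (B + 1))
    ((2 * (K * (2 * Real.log (N + 1)) + c + 1) * 2 ^ B + 1) * (B + 1)) 1 one_pos
  have h1 := ht t le_rfl
  obtain ⟨r, hr1, hr2⟩ : ∃ r : ℕ, K * (2 * (Real.log (N + 1) + t * Real.log 2)) + c ≤ r ∧
      (r : ℝ) ≤ K * (2 * (Real.log (N + 1) + t * Real.log 2)) + c + 1 := by
    have h0 : 0 ≤ K * (2 * (Real.log (N + 1) + t * Real.log 2)) + c := by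
      have : 0 ≤ Real.log (N + 1) := Real.log_nonneg (by linarith)
      have : 0 ≤ Real.log 2 := Real.log_nonneg (by norm_num)
      positivity
    exact ⟨_, Nat.le_ceil _, (Nat.ceil_lt_add_one h0).le⟩
  have h2 := hcount t r fun j hj => by
    have := (hup t j hj).trans hr1
    exact_mod_cast this
  have h3 : (2 : ℝ) ^ t ≤ (2 * (r * 2 ^ B) + 1) * (B + 1) := by exact_mod_cast h2
  have p1 : (0 : ℝ) < 2 ^ B := by positivity
  have p2 : (0 : ℝ) < (B : ℝ) + 1 := by positivity
  have h4 : (2 * ((r : ℝ) * 2 ^ B) + 1) * (B + 1) ≤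
      (2 * ((K * (2 * (Real.log (N + 1) + t * Real.log 2)) + c + 1) * 2 ^ B) + 1) * (B + 1) := by
    apply mul_le_mul_of_nonneg_right _ p2.le
    have := mul_le_mul_of_nonneg_right hr2 p1.le
    linarith
  have h5 : (2 * ((K * (2 * (Real.log (N + 1) + t * Real.log 2)) + c + 1) * 2 ^ B) + 1) *
      ((B : ℝ) + 1) = 2 * (K * (2 * Real.log 2)) * 2 ^ B * (B + 1) * t +
        (2 * (K * (2 * Real.log (N + 1)) + c + 1) * 2 ^ B + 1) * (B + 1) := by ring
  rw [h5] at h4
  linarith

include hG in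
/-- A horoball-like graph contains no quasi-isometric image of the hyperbolic plane. -/
theorem no_h2 : ¬ ContainsH2 G := by
  by_cases h : ∃ B, ∀ u, H u ≤ B
  · obtain ⟨B, hB⟩ := h
    exact no_h2_bounded hG B hB
  · push Not at h
    exact no_h2_unbounded hG fun N => by
      obtain ⟨u, hu⟩ := h N
      exact ⟨u, hu.le⟩

end Pool.Agent.R640.Horo
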