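import Pool.Agent.R640.MemGraph
import Pool.Agent.R640.Horo5

set_option autoImplicit false

/-! A finitely presented inverse monoid whose Schützenberger graphs are horoball-like. -/

namespace Pool.Agent.R640.IM

namespace HM

/-- The generators. -/
inductive Gn
  | a
  | t
  | s
  | b
  | z
  deriving DecidableEq

instance : Finite Gn := by
  refine Finite.of_injective (fun g : Gn => match g with
    | .a => (0 : Fin 5)
    | .t => 1
    | .s => 2
    | .b => 3
    | .z => 4) ?_
  intro x y h
  cases x <;> cases y <;> simp_all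

/-- A letter. -/
abbrev Lr := Gn × Bool

/-- The defining relations besides those which say that `z` is a zero. -/
inductive R0 : List Lr → List Lr → Prop
  | a1 : R0 [(.a, true), (.a, false)] []
  | a2 : R0 [(.a, false), (.a, true)] []
  | s : R0 [(.s, true)] [(.a, false), (.t, true)]
  | ta : R0 [(.t, true), (.a, true)] [(.a, true), (.a, true), (.t, true)]
  | b1 : R0 [(.b, true)] [(.b, true), (.b, false), (.t, true)]
  | b2 : R0 [(.b, true), (.b, false)] [(.b, true), (.b, true), (.b, false), (.b, false)]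

/-- The relations which say that `z` is a zero and that `t t⁻¹ a t` is the zero. -/
inductive R1 : List Lr → List Lr → Prop
  | tat : R1 [(.t, true), (.t, false), (.a, true), (.t, true)] [(.z, true)]
  | zr (g : Lr) : R1 [(.z, true), g] [(.z, true)]
  | zl (g : Lr) : R1 [g, (.z, true)] [(.z, true)]

/-- The set of relations. -/
def RR : Set (List Lr × List Lr) := {p | R0 p.1 p.2 ∨ R1 p.1 p.2}

theorem RR_finite : RR.Finite := by
  have h0 : {p : List Lr × List Lr | R0 p.1 p.2}.Finite := by
    refine Set.Finite.subset (s := {([(.a, true), (.a, false)], []),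
      ([(.a, false), (.a, true)], []), ([(.s, true)], [(.a, false), (.t, true)]),
      ([(.t, true), (.a, true)], [(.a, true), (.a, true), (.t, true)]),
      ([(.b, true)], [(.b, true), (.b, false), (.t, true)]),
      ([(.b, true), (.b, false)], [(.b, true), (.b, true), (.b, false), (.b, false)])}) ?_ ?_
    · exact Set.toFinite _
    · rintro ⟨r, s⟩ h
      rcases h with _ | _ | _ | _ | _ | _ <;> simp
  have h1 : {p : List Lr × List Lr | R1 p.1 p.2}.Finite := by
    refine Set.Finite.subset (s := {([(.t, true), (.t, false), (.a, true), (.t, true)],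
      [(.z, true)])} ∪ (Set.range (fun g : Lr => ([(.z, true), g], [(.z, true)])) ∪
        Set.range (fun g : Lr => ([g, (.z, true)], [(.z, true)])))) ?_ ?_
    · exact (Set.finite_singleton _).union ((Set.finite_range _).union (Set.finite_range _))
    · rintro ⟨r, s⟩ h
      rcases h with _ | g | g
      · left; rfl
      · right; left; exact ⟨g, rfl⟩
      · right; right; exact ⟨g, rfl⟩
  exact h0.union h1

/-- The zero. -/
def zz : InvMon RR := val RR [(.z, true)]

theorem zz_mul (s : InvMon RR) : zz * s = zz := by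
  obtain ⟨u, rfl⟩ := val_surj s
  induction u with
  | nil => rw [val_nil, mul_one]
  | cons g u ih =>
    have h : val RR (g :: u) = val RR [g] * val RR u := by
      rw [← val_append]; rfl
    have h1 : val RR [(.z, true), g] = zz := val_rel (Or.inr (R1.zr g))
    have h2 : val RR [(.z, true), g] = zz * val RR [g] := by
      unfold zz
      rw [← val_append]; rfl
    rw [h, ← mul_assoc, ← h2, h1, ih]

theorem mul_zz (s : InvMon RR) : s * zz = zz := by
  obtain ⟨u, rfl⟩ := val_surj s
  induction u with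
  | nil => rw [val_nil, one_mul]
  | cons g u ih =>
    have h : val RR (g :: u) = val RR [g] * val RR u := by
      rw [← val_append]; rfl
    have h1 : val RR [g, (.z, true)] = zz := val_rel (Or.inr (R1.zl g))
    have h2 : val RR [g, (.z, true)] = val RR [g] * zz := by
      unfold zz
      rw [← val_append]; rfl
    rw [h, mul_assoc, ih, ← h2, h1]

section general

variable {A : Type} {R : Set (List (A × Bool) × List (A × Bool))} {w : List (A × Bool)}

/-- The labelled edges of a Schützenberger graph. -/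
def Ve (x : Vert R w) (a : A × Bool) (y : Vert R w) : Prop := x.1 * val R [a] = y.1

theorem ve_ig : IG (Ve (R := R) (w := w)) := by
  constructor
  · intro x a b y h
    exact back_vert h
  · intro x a y z h h'
    exact Subtype.ext (h.symm.trans h')

theorem pa_ve : ∀ (u : List (A × Bool)) (x y : Vert R w),
    Pa Ve x u y ↔ x.1 * val R u = y.1
  | [], x, y => by
    rw [val_nil, mul_one]
    exact Subtype.ext_iff
  | a :: u, x, y => by
    have e : val R (a :: u) = val R [a] * val R u := by
      rw [← val_append]; rfl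
    rw [e, ← mul_assoc]
    constructor
    · rintro ⟨z, h, h'⟩
      have h : x.1 * val R [a] = z.1 := h
      rw [h]
      exact (pa_ve u z y).1 h'
    · intro h
      exact ⟨⟨x.1 * val R [a], vert_of_between h⟩, rfl, (pa_ve u _ y).2 h⟩

/-- The product of two labelled graphs. -/
def Pr {V W : Type} (E : V → A × Bool → V → Prop) (F : W → A × Bool → W → Prop) (x : V × W)
    (a : A × Bool) (y : V × W) : Prop := E x.1 a y.1 ∧ F x.2 a y.2

theorem pr_ig {V W : Type} {E : V → A × Bool → V → Prop} {F : W → A × Bool → W → Prop}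
    (hE : IG E) (hF : IG F) : IG (Pr E F) := by
  constructor
  · rintro x a b y ⟨h, h'⟩
    exact ⟨hE.symm _ _ _ _ h, hF.symm _ _ _ _ h'⟩
  · rintro x a y z ⟨h, h'⟩ ⟨g, g'⟩
    exact Prod.ext (hE.det _ _ _ _ h g) (hF.det _ _ _ _ h' g')

theorem pa_pr {V W : Type} {E : V → A × Bool → V → Prop} {F : W → A × Bool → W → Prop} :
    ∀ (u : List (A × Bool)) (x y : V × W), Pa (Pr E F) x u y ↔ Pa E x.1 u y.1 ∧ Pa F x.2 u y.2
  | [], x, y => Prod.ext_iff
  | a :: u, x, y => by
    constructor
    · rintro ⟨z, ⟨h1, h2⟩, h3⟩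
      obtain ⟨h4, h5⟩ := (pa_pr u z y).1 h3
      exact ⟨⟨z.1, h1, h4⟩, ⟨z.2, h2, h5⟩⟩
    · rintro ⟨⟨z, h1, h4⟩, ⟨z', h2, h5⟩⟩
      exact ⟨(z, z'), ⟨h1, h2⟩, (pa_pr u (z, z') y).2 ⟨h4, h5⟩⟩

end general

/-- The positive edges of the graph of positions and heights. -/
def Fd (p : ℤ × ℕ) (g : Gn) (q : ℤ × ℕ) : Prop :=
  match g with
  | .a => q.1 = p.1 + 2 ^ p.2 ∧ q.2 = p.2
  | .t => q.1 = p.1 ∧ q.2 = p.2 + 1
  | .s => q.1 = p.1 - 2 ^ p.2 ∧ q.2 = p.2 + 1
  | .b => q.1 = p.1 ∧ q.2 = p.2 + 1
  | .z => False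

/-- The edges of the graph of positions and heights. -/
def Ed (p : ℤ × ℕ) (g : Lr) (q : ℤ × ℕ) : Prop :=
  match g.2 with
  | true => Fd p g.1 q
  | false => Fd q g.1 p

theorem ed_ig : IG Ed := by
  constructor
  · rintro p g (_ | _) q h
    · exact h
    · exact h
  · rintro p ⟨g, (_ | _)⟩ q q' h h'
    · simp only [Ed] at h h'
      cases g <;> simp only [Fd] at h h'
      · obtain ⟨h1, h2⟩ := h
        obtain ⟨h3, h4⟩ := h'
        have e : q.2 = q'.2 := by omega
        rw [e] at h1
        exact Prod.ext (by linarith) e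
      · exact Prod.ext (by omega) (by omega)
      · obtain ⟨h1, h2⟩ := h
        obtain ⟨h3, h4⟩ := h'
        have e : q.2 = q'.2 := by omega
        rw [e] at h1
        exact Prod.ext (by linarith) e
      · exact Prod.ext (by omega) (by omega)
    · simp only [Ed] at h h'
      cases g <;> simp only [Fd] at h h'
      · exact Prod.ext (by omega) (by omega)
      · exact Prod.ext (by omega) (by omega)
      · exact Prod.ext (by omega) (by omega)
      · exact Prod.ext (by omega) (by omega)

theorem ed_R0 {r s : List Lr} (h : R0 r s) (p q : ℤ × ℕ) : Pa Ed p r q ↔ Pa Ed p s q := by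
  have ht : ∀ p q : ℤ × ℕ, Ed p (.t, true) q ↔ q = (p.1, p.2 + 1) := fun p q =>
    ⟨fun h => Prod.ext h.1 h.2, fun h => by rw [h]; exact ⟨rfl, rfl⟩⟩
  have ha : ∀ p q : ℤ × ℕ, Ed p (.a, true) q ↔ q = (p.1 + 2 ^ p.2, p.2) := fun p q =>
    ⟨fun h => Prod.ext h.1 h.2, fun h => by rw [h]; exact ⟨rfl, rfl⟩⟩
  have ha' : ∀ p q : ℤ × ℕ, Ed p (.a, false) q ↔ q = (p.1 - 2 ^ p.2, p.2) := fun p q =>
    ⟨fun h => by
      obtain ⟨h1, h2⟩ := h
      refine Prod.ext ?_ h2.symm
      rw [h2]
      simp only
      linarith, fun h => by rw [h]; exact ⟨by simp, rfl⟩⟩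
  have hs : ∀ p q : ℤ × ℕ, Ed p (.s, true) q ↔ q = (p.1 - 2 ^ p.2, p.2 + 1) := fun p q =>
    ⟨fun h => Prod.ext h.1 h.2, fun h => by rw [h]; exact ⟨rfl, rfl⟩⟩
  have hb : ∀ p q : ℤ × ℕ, Ed p (.b, true) q ↔ q = (p.1, p.2 + 1) := fun p q =>
    ⟨fun h => Prod.ext h.1 h.2, fun h => by rw [h]; exact ⟨rfl, rfl⟩⟩
  have hb' : ∀ p q : ℤ × ℕ, Ed (p.1, p.2 + 1) (.b, false) q ↔ q = p := fun p q =>
    ⟨fun h => by
      obtain ⟨h1, h2⟩ := h
      simp only at h1 h2
      exact Prod.ext h1.symm (by omega), fun h => by rw [h]; exact ⟨rfl, rfl⟩⟩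
  rcases h with _ | _ | _ | _ | _ | _
  · simp only [Pa, ha, ha', exists_eq_left]
    constructor
    · intro h
      rw [← h]
      simp
    · intro h
      rw [← h]
      simp
  · simp only [Pa, ha, ha', exists_eq_left]
    constructor
    · intro h
      rw [← h]
      simp
    · intro h
      rw [← h]
      simp
  · simp only [Pa, ha', ht, hs, exists_eq_left]
  · simp only [Pa, ha, ht, exists_eq_left]
    have e : p.1 + 2 ^ (p.2 + 1) = p.1 + 2 ^ p.2 + 2 ^ p.2 := by ring
    rw [e]
  · simp only [Pa, hb, hb', ht, exists_eq_left]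
  · have hb'' : Ed ((p.1, p.2 + 1).1, (p.1, p.2 + 1).2 + 1) (.b, false) =
        fun q => Ed (p.1, p.2 + 1 + 1) (.b, false) q := rfl
    simp only [Pa, hb, exists_eq_left]
    have h2 : ∀ q : ℤ × ℕ, Ed (p.1, p.2 + 1 + 1) (.b, false) q ↔ q = (p.1, p.2 + 1) :=
      fun q => hb' (p.1, p.2 + 1) q
    simp only [h2, hb', exists_eq_left]

end HM

end Pool.Agent.R640.IM
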