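import Pool.Agent.R640.HMon

set_option autoImplicit false

/-! The Schützenberger graphs of the inverse monoid are horoball-like. -/

namespace Pool.Agent.R640.IM

namespace HM

/-- The positive edges of the horoball. -/
def Fh (p : ℤ × ℕ) (g : Gn) (q : ℤ × ℕ) : Prop :=
  match g with
  | .a => q.1 = p.1 + 1 ∧ q.2 = p.2
  | .t => p.1 = 2 * q.1 ∧ q.2 = p.2 + 1
  | .s => p.1 = 2 * q.1 + 1 ∧ q.2 = p.2 + 1
  | .b => p.1 = 0 ∧ q.1 = 0 ∧ q.2 = p.2 + 1
  | .z => False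

/-- The edges of the horoball. -/
def Eh (p : ℤ × ℕ) (g : Lr) (q : ℤ × ℕ) : Prop :=
  match g.2 with
  | true => Fh p g.1 q
  | false => Fh q g.1 p

theorem eh_ig : IG Eh := by
  constructor
  · rintro p g (_ | _) q h
    · exact h
    · exact h
  · rintro ⟨p1, p2⟩ ⟨g, (_ | _)⟩ ⟨q1, q2⟩ ⟨r1, r2⟩ h h'
    · simp only [Eh] at h h'
      cases g <;> simp only [Fh] at h h' <;> rw [Prod.mk.injEq] <;> omega
    · simp only [Eh] at h h'
      cases g <;> simp only [Fh] at h h' <;> rw [Prod.mk.injEq] <;> omega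

theorem eh_R (r s : List Lr) (h : (r, s) ∈ RR) (p q : ℤ × ℕ) : Pa Eh p r q ↔ Pa Eh p s q := by
  obtain ⟨p1, p2⟩ := p
  obtain ⟨q1, q2⟩ := q
  rcases h with h | h
  · simp only at h
    rcases h with _ | _ | _ | _ | _ | _
    · simp only [Pa, Eh, Fh, Prod.exists, Prod.mk.injEq]
      constructor
      · rintro ⟨a, b, h1, c, d, h2, h3⟩
        omega
      · rintro ⟨rfl, rfl⟩
        exact ⟨p1 + 1, p2, ⟨rfl, rfl⟩, p1, p2, ⟨rfl, rfl⟩, rfl, rfl⟩
    · simp only [Pa, Eh, Fh, Prod.exists, Prod.mk.injEq]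
      constructor
      · rintro ⟨a, b, h1, c, d, h2, h3⟩
        omega
      · rintro ⟨rfl, rfl⟩
        exact ⟨p1 - 1, p2, ⟨by ring, rfl⟩, p1, p2, ⟨by ring, rfl⟩, rfl, rfl⟩
    · simp only [Pa, Eh, Fh, Prod.exists, Prod.mk.injEq]
      constructor
      · rintro ⟨a, b, h1, h2⟩
        exact ⟨p1 - 1, p2, by omega, q1, q2, by omega, rfl, rfl⟩
      · rintro ⟨a, b, h1, c, d, h2, h3⟩
        exact ⟨q1, q2, by omega, rfl, rfl⟩
    · simp only [Pa, Eh, Fh, Prod.exists, Prod.mk.injEq]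
      constructor
      · rintro ⟨a, b, h1, c, d, h2, h3⟩
        exact ⟨p1 + 1, p2, ⟨rfl, rfl⟩, p1 + 1 + 1, p2, ⟨rfl, rfl⟩, q1, q2, by omega, rfl, rfl⟩
      · rintro ⟨a, b, h1, c, d, h2, e, f, h3, h4⟩
        exact ⟨q1 - 1, q2, by omega, q1, q2, by omega, rfl, rfl⟩
    · simp only [Pa, Eh, Fh, Prod.exists, Prod.mk.injEq]
      constructor
      · rintro ⟨a, b, h1, h2⟩
        exact ⟨0, p2 + 1, by omega, p1, p2, by omega, q1, q2, by omega, rfl, rfl⟩
      · rintro ⟨a, b, h1, c, d, h2, e, f, h3, h4⟩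
        exact ⟨q1, q2, by omega, rfl, rfl⟩
    · simp only [Pa, Eh, Fh, Prod.exists, Prod.mk.injEq]
      constructor
      · rintro ⟨a, b, h1, c, d, h2, h3⟩
        exact ⟨0, p2 + 1, by omega, 0, p2 + 1 + 1, by omega, 0, p2 + 1, by omega, q1, q2, by omega,
          rfl, rfl⟩
      · rintro ⟨a, b, h1, c, d, h2, e, f, h3, g, i, h4, h5⟩
        exact ⟨0, p2 + 1, by omega, q1, q2, by omega, rfl, rfl⟩
  · have hz : ∀ p q : ℤ × ℕ, ¬ Eh p (.z, true) q := fun p q h => h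
    simp only at h
    rcases h with _ | g | g
    · constructor
      · rintro ⟨⟨a, b⟩, h1, ⟨c, d⟩, h2, ⟨e, f⟩, h3, ⟨g, i⟩, h4, h5⟩
        simp only [Eh, Fh] at h1 h2 h3 h4
        omega
      · rintro ⟨a, h, -⟩
        exact absurd h (hz _ _)
    · constructor
      · rintro ⟨a, h, -⟩
        exact absurd h (hz _ _)
      · rintro ⟨a, h, -⟩
        exact absurd h (hz _ _)
    · constructor
      · rintro ⟨a, -, b, h, -⟩
        exact absurd h (hz _ _)
      · rintro ⟨a, h, -⟩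
        exact absurd h (hz _ _)

theorem bb_ne : val RR [(.b, true), (.b, false)] ≠ zz := by
  intro h
  have h1 : Pa Eh (0, 0) [(.b, true), (.b, false)] (0, 0) :=
    ⟨(0, 1), ⟨rfl, rfl, rfl⟩, (0, 0), ⟨rfl, rfl, rfl⟩, rfl⟩
  obtain ⟨a, h2, -⟩ := (pa_congr eh_ig eh_R h _ _).1 h1
  exact h2

variable {w : List Lr}

section coord

variable (hw : val RR (w ++ inv w) ≠ zz)

include hw in
theorem vert_ne (x : Vert RR w) : x.1 ≠ zz := by
  intro h
  obtain ⟨m, hm⟩ := x.2.2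
  rw [h, zz_mul] at hm
  exact hw hm.symm

include hw in
theorem pr_R (r s : List Lr) (h : (r, s) ∈ RR) (x y : Vert RR w × (ℤ × ℕ)) :
    Pa (Pr Ve Ed) x r y ↔ Pa (Pr Ve Ed) x s y := by
  rw [pa_pr, pa_pr, pa_ve, pa_ve]
  rcases h with h0 | h1
  · rw [ed_R0 h0, val_rel (R := RR) (Or.inl h0 : (r, s) ∈ RR)]
  · have e1 : val RR r = val RR s := val_rel (Or.inr h1)
    have e2 : val RR s = zz := by
      simp only at h1
      rcases h1 with _ | g | g <;> rfl
    rw [e1, e2, mul_zz]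
    constructor
    · rintro ⟨h, -⟩
      exact absurd h.symm (vert_ne hw _)
    · rintro ⟨h, -⟩
      exact absurd h.symm (vert_ne hw _)

include hw in
/-- The word `w` can be read in the graph of positions and heights. -/
theorem ed_path : ∀ (u : List Lr) (v : List Lr), (∃ v0, w = v0 ++ u ++ v) → ∀ p : ℤ × ℕ,
    u.length ≤ p.2 → ∃ q, Pa Ed p u q
  | [], v, _, p, _ => ⟨p, rfl⟩
  | (g, β) :: u, v, h, p, hp => by
    have hz : g ≠ .z := by
      rintro rfl
      obtain ⟨v0, h⟩ := h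
      apply hw
      have e1 : ∀ β, val RR [(Gn.z, β)] = zz := by
        intro β
        cases β
        · have h1 := val_reg' (R := RR) [(.z, true)]
          have h2 : inv [(Gn.z, true)] = [(Gn.z, false)] := rfl
          rw [h2] at h1
          change _ * zz * _ = _ at h1
          rw [mul_zz, zz_mul] at h1
          exact h1.symm
        · rfl
      have e2 : w ++ inv w = v0 ++ [(Gn.z, β)] ++ (u ++ v ++ inv w) := by
        conv_lhs => rw [h]
        simp [h]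
      rw [e2, val_append, val_append, e1, mul_zz, zz_mul]
    have hnext : ∃ q, Ed p (g, β) q ∧ p.2 ≤ q.2 + 1 := by
      cases β
      · cases g
        · refine ⟨(p.1 - 2 ^ p.2, p.2), ⟨by simp, rfl⟩, by simp⟩
        · simp only [List.length_cons] at hp
          refine ⟨(p.1, p.2 - 1), ⟨rfl, by simp only; omega⟩, by simp only; omega⟩
        · simp only [List.length_cons] at hp
          refine ⟨(p.1 + 2 ^ (p.2 - 1), p.2 - 1), ⟨by simp, by simp only; omega⟩,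
            by simp only; omega⟩
        · simp only [List.length_cons] at hp
          refine ⟨(p.1, p.2 - 1), ⟨rfl, by simp only; omega⟩, by simp only; omega⟩
        · exact absurd rfl hz
      · cases g
        · exact ⟨(p.1 + 2 ^ p.2, p.2), ⟨rfl, rfl⟩, by simp⟩
        · exact ⟨(p.1, p.2 + 1), ⟨rfl, rfl⟩, by simp only; omega⟩
        · exact ⟨(p.1 - 2 ^ p.2, p.2 + 1), ⟨rfl, rfl⟩, by simp only; omega⟩
        · exact ⟨(p.1, p.2 + 1), ⟨rfl, rfl⟩, by simp only; omega⟩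
        · exact absurd rfl hz
    obtain ⟨q, hq, hq'⟩ := hnext
    obtain ⟨q', h'⟩ := ed_path u v (by
      obtain ⟨v0, h⟩ := h
      exact ⟨v0 ++ [(g, β)], by rw [h]; simp⟩) q (by
        simp only [List.length_cons] at hp
        omega)
    exact ⟨q', q, hq, h'⟩

/-- The base vertex with its coordinates. -/
def bs (w : List Lr) : Vert RR w × (ℤ × ℕ) := (base RR w, (0, w.length))

include hw in
theorem bs_loop : Pa (Pr Ve Ed) (bs w) (w ++ inv w) (bs w) := by
  rw [pa_reg (pr_ig ve_ig ed_ig)]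
  refine ⟨rfl, ?_⟩
  obtain ⟨q, hq⟩ := ed_path hw w [] ⟨[], by simp⟩ (0, w.length) le_rfl
  have h1 : (base RR w).1 * val RR w * val RR (inv w) = (base RR w).1 := by
    change val RR (w ++ inv w) * val RR w * val RR (inv w) = val RR (w ++ inv w)
    rw [mul_assoc, ← val_append, val_idem]
  refine ⟨(⟨(base RR w).1 * val RR w, vert_of_between h1⟩, q), ?_⟩
  rw [pa_pr, pa_ve]
  exact ⟨rfl, hq⟩

/-- The vertex `v` has the coordinates `p`. -/
def Kp (v : Vert RR w) (p : ℤ × ℕ) : Prop := ∃ u, Pa (Pr Ve Ed) (bs w) u (v, p)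

include hw in
theorem kp_path {v v' : Vert RR w} {p : ℤ × ℕ} (h : Kp v p) {u : List Lr}
    (hu : v.1 * val RR u = v'.1) : ∃ q, Pa Ed p u q ∧ Kp v' q := by
  obtain ⟨u0, h0⟩ := h
  obtain ⟨m, hm⟩ := v'.2.2
  obtain ⟨u1, rfl⟩ := val_surj m
  have h1 := (pa_pr _ _ _).1 h0
  rw [pa_ve] at h1
  have h2 : (base RR w).1 * val RR u0 = v.1 := h1.1
  have h3 : val RR (w ++ inv w ++ (u0 ++ (u ++ u1))) = val RR (w ++ inv w) := by
    rw [val_append, val_append u0, val_append u, ← mul_assoc, ← mul_assoc]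
    change (base RR w).1 * val RR u0 * val RR u * val RR u1 = _
    rw [h2, hu, hm]
  have h4 := (pa_congr (pr_ig ve_ig ed_ig) (pr_R hw) h3 (bs w) (bs w)).2 (bs_loop hw)
  rw [pa_append] at h4
  obtain ⟨c1, h5, h6⟩ := h4
  obtain rfl := pa_det (pr_ig ve_ig ed_ig) _ _ _ _ (bs_loop hw) h5
  rw [pa_append] at h6
  obtain ⟨c2, h7, h8⟩ := h6
  obtain rfl := pa_det (pr_ig ve_ig ed_ig) _ _ _ _ h0 h7
  rw [pa_append] at h8
  obtain ⟨⟨c3, q⟩, h9, -⟩ := h8
  have h10 := (pa_pr _ _ _).1 h9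
  rw [pa_ve] at h10
  have h11 : c3 = v' := Subtype.ext (h10.1.symm.trans hu)
  subst h11
  exact ⟨q, h10.2, u0 ++ u, (pa_append _ _ _ _).2 ⟨_, h0, h9⟩⟩

include hw in
theorem kp_det {v : Vert RR w} {p q : ℤ × ℕ} (h : Kp v p) (h' : Kp v q) : p = q := by
  obtain ⟨u, hu⟩ := h
  obtain ⟨u', hu'⟩ := h'
  have h1 := (pa_pr _ _ _).1 hu
  have h2 := (pa_pr _ _ _).1 hu'
  rw [pa_ve] at h1 h2
  have h3 : val RR (w ++ inv w ++ u) = val RR (w ++ inv w ++ u') := by
    rw [val_append _ u, val_append _ u']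
    exact h1.1.trans h2.1.symm
  have h4 := (pa_congr (pr_ig ve_ig ed_ig) (pr_R hw) h3 (bs w) (v, p)).1
    ((pa_append _ _ _ _).2 ⟨_, bs_loop hw, hu⟩)
  have h5 : Pa (Pr Ve Ed) (bs w) (w ++ inv w ++ u') (v, q) :=
    (pa_append _ _ _ _).2 ⟨_, bs_loop hw, hu'⟩
  exact congrArg Prod.snd (pa_det (pr_ig ve_ig ed_ig) _ _ _ _ h4 h5)

include hw in
theorem kp_exists (v : Vert RR w) : ∃ p, Kp v p := by
  obtain ⟨m, hm⟩ := v.2.1
  obtain ⟨u, rfl⟩ := val_surj m
  obtain ⟨q, -, h⟩ := kp_path hw (v := base RR w) (v' := v) (p := (0, w.length)) ⟨[], rfl⟩ hm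
  exact ⟨q, h⟩

include hw in
/-- The existence of coordinates. -/
theorem exists_coord : ∃ κ : Vert RR w → ℤ × ℕ, ∀ (v v' : Vert RR w) (g : Lr),
    v.1 * val RR [g] = v'.1 → Ed (κ v) g (κ v') := by
  choose κ hκ using kp_exists hw
  refine ⟨κ, fun v v' g h => ?_⟩
  obtain ⟨q, h1, h2⟩ := kp_path hw (hκ v) h
  have := kp_det hw h2 (hκ v')
  subst this
  obtain ⟨r, h3, h4⟩ := h1
  have h4 : r = κ v' := h4
  rw [← h4]
  exact h3

end coord

end HM

end Pool.Agent.R640.IM
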