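import Pool.Agent.R640.HMon2

set_option autoImplicit false

/-! The Schützenberger graphs of the inverse monoid are horoball-like. -/

namespace Pool.Agent.R640.IM

namespace HM

open Pool.Agent.R640.Horo

/-- The element of a generator. -/
def el (g : Gn) (β : Bool) : InvMon RR := val RR [(g, β)]

theorem val2 (x y : Lr) : val RR [x, y] = val RR [x] * val RR [y] := by
  rw [← val_append]; rfl

theorem val3 (x y z : Lr) : val RR [x, y, z] = val RR [x] * val RR [y] * val RR [z] := by
  rw [← val_append, ← val_append]; rfl

theorem val4 (x y z u : Lr) :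
    val RR [x, y, z, u] = val RR [x] * val RR [y] * val RR [z] * val RR [u] := by
  rw [← val_append, ← val_append, ← val_append]; rfl

/-- The unit given by `a`. -/
def au : (InvMon RR)ˣ where
  val := el .a true
  inv := el .a false
  val_inv := by
    have := val_rel (R := RR) (Or.inl R0.a1 : ([(.a, true), (.a, false)], []) ∈ RR)
    rw [val2, val_nil] at this
    exact this
  inv_val := by
    have := val_rel (R := RR) (Or.inl R0.a2 : ([(.a, false), (.a, true)], []) ∈ RR)
    rw [val2, val_nil] at this
    exact this

theorem au_val : (au : InvMon RR) = el .a true := rfl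

theorem au_inv : ((au⁻¹ : (InvMon RR)ˣ) : InvMon RR) = el .a false := rfl

theorem el_s : el .s true = ((au⁻¹ : (InvMon RR)ˣ) : InvMon RR) * el .t true := by
  have := val_rel (R := RR) (Or.inl R0.s : ([(.s, true)], [(.a, false), (.t, true)]) ∈ RR)
  rw [val2] at this
  exact this

theorem el_ta : el .t true * au = au * au * el .t true := by
  have := val_rel (R := RR) (Or.inl R0.ta :
    ([(.t, true), (.a, true)], [(.a, true), (.a, true), (.t, true)]) ∈ RR)
  rw [val2, val3] at this
  exact this

theorem el_b : el .b true = el .b true * el .b false * el .t true := by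
  have := val_rel (R := RR) (Or.inl R0.b1 :
    ([(.b, true)], [(.b, true), (.b, false), (.t, true)]) ∈ RR)
  rw [val3] at this
  exact this

theorem el_bb : el .b true * el .b false =
    el .b true * el .b true * el .b false * el .b false := by
  have := val_rel (R := RR) (Or.inl R0.b2 :
    ([(.b, true), (.b, false)], [(.b, true), (.b, true), (.b, false), (.b, false)]) ∈ RR)
  rw [val2, val4] at this
  exact this

theorem el_tat : el .t true * el .t false * el .a true * el .t true = zz := by
  have := val_rel (R := RR) (Or.inr R1.tat :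
    ([(.t, true), (.t, false), (.a, true), (.t, true)], [(.z, true)]) ∈ RR)
  rw [val4] at this
  exact this

theorem semi (m : ℤ) : el .t true * ((au ^ m : (InvMon RR)ˣ) : InvMon RR) =
    ((au ^ (2 * m) : (InvMon RR)ˣ) : InvMon RR) * el .t true := by
  have h : SemiconjBy (el .t true) (au : InvMon RR) ((au ^ (2 : ℤ) : (InvMon RR)ˣ) : InvMon RR) := by
    change _ * _ = _ * _
    rw [el_ta]
    congr 1
  have h1 := h.units_zpow_right m
  rw [← zpow_mul] at h1
  exact h1

theorem semi' (j : ℕ) : ∀ m : ℤ, el .t true ^ j * ((au ^ m : (InvMon RR)ˣ) : InvMon RR) =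
    ((au ^ (2 ^ j * m) : (InvMon RR)ˣ) : InvMon RR) * el .t true ^ j := by
  induction j with
  | zero => intro m; simp
  | succ j ih =>
    intro m
    rw [pow_succ, mul_assoc, semi, ← mul_assoc, ih, mul_assoc, ← pow_succ]
    congr 3
    rw [pow_succ]
    ring

variable {w : List Lr}

/-- The element is a vertex. -/
def InV (w : List Lr) (m : InvMon RR) : Prop :=
  (∃ n, val RR (w ++ inv w) * n = m) ∧ ∃ n, m * n = val RR (w ++ inv w)

theorem InV.pre {x y k : InvMon RR} (hx : InV w x) (h : InV w (x * y * k)) : InV w (x * y) := by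
  obtain ⟨n, hn⟩ := hx.1
  obtain ⟨n', hn'⟩ := h.2
  exact ⟨⟨n * y, by rw [← mul_assoc, hn]⟩, ⟨k * n', by rw [← mul_assoc, hn']⟩⟩

theorem InV.unit {x : InvMon RR} (hx : InV w x) (u : (InvMon RR)ˣ) : InV w (x * u) := by
  obtain ⟨n, hn⟩ := hx.1
  obtain ⟨n', hn'⟩ := hx.2
  refine ⟨⟨n * u, by rw [← mul_assoc, hn]⟩, ⟨(u⁻¹ : (InvMon RR)ˣ) * n', ?_⟩⟩
  rw [mul_assoc, ← mul_assoc (u : InvMon RR), Units.mul_inv, one_mul, hn']

/-- Going back along a generator. -/
theorem back_el {x : InvMon RR} (g : Gn) (β : Bool) (hx : InV w x) (h : InV w (x * el g β)) :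
    x * el g β * el g (!β) = x :=
  back_vert (x := ⟨x, hx⟩) (y := ⟨x * el g β, h⟩) rfl

section nf

variable (hw : val RR (w ++ inv w) ≠ zz) (g : Vert RR w)

/-- The vertex with the normal form `m`, `j`. -/
def nf (g : Vert RR w) (m : ℤ) (j : ℕ) : InvMon RR :=
  g.1 * ((au ^ m : (InvMon RR)ˣ) : InvMon RR) * el .t true ^ j

theorem nf_unit (m k : ℤ) (j : ℕ) : nf g m j * ((au ^ k : (InvMon RR)ˣ) : InvMon RR) =
    nf g (m + 2 ^ j * k) j := by
  unfold nf
  rw [mul_assoc, semi', ← mul_assoc, mul_assoc g.1, ← Units.val_mul, ← zpow_add]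

theorem nf_succ (m : ℤ) (j : ℕ) : nf g m j * el .t true = nf g m (j + 1) := by
  unfold nf
  rw [mul_assoc, ← pow_succ]

theorem nf_zero (m : ℤ) : InV w (nf g m 0) := by
  unfold nf
  rw [pow_zero, mul_one]
  exact InV.unit g.2 _

theorem nf_pred {m : ℤ} {j : ℕ} (h : InV w (nf g m (j + 1))) : InV w (nf g m j) := by
  induction j with
  | zero => exact nf_zero g m
  | succ j ih =>
    rw [← nf_succ g m (j + 1), ← nf_succ] at h
    rw [← nf_succ]
    have h0 : InV w (nf g m j) := by
      obtain ⟨n, hn⟩ := h.2
      have hx := (nf_zero g m).1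
      obtain ⟨n0, hn0⟩ := hx
      have e : nf g m j = nf g m 0 * el .t true ^ j := by
        unfold nf
        rw [pow_zero, mul_one]
      refine ⟨⟨n0 * el .t true ^ j, by rw [← mul_assoc, hn0, e]⟩,
        ⟨el .t true * el .t true * n, ?_⟩⟩
      simp only [← mul_assoc]
      exact hn
    exact h0.pre h

include hw in
/-- Vertices with an edge `t` are not adjacent in a line. -/
theorem conflict {x : InvMon RR} (hx : InV w x) (h : InV w (x * el .t true))
    (h' : InV w (x * el .a true * el .t true)) : False := by
  have h1 : x * (el .t true * el .t false * el .a true * el .t true) =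
      x * el .a true * el .t true := by
    have := back_el .t true hx h
    simp only [Bool.not_true] at this
    calc x * (el .t true * el .t false * el .a true * el .t true)
        = (x * el .t true * el .t false) * el .a true * el .t true := by
          simp only [mul_assoc]
      _ = _ := by rw [this]
  rw [el_tat, mul_zz] at h1
  rw [← h1] at h'
  exact vert_ne hw ⟨zz, h'⟩ rfl

include hw in
theorem nf_cls : ∀ (j : ℕ) (m m' : ℤ), InV w (nf g m j) → InV w (nf g m' j) →
    (2 : ℤ) ^ j ∣ m - m'
  | 0, m, m', _, _ => by simp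
  | j + 1, m, m', h, h' => by
    obtain ⟨q, hq⟩ := nf_cls j m m' (nf_pred g h) (nf_pred g h')
    rcases Int.even_or_odd' q with ⟨i, rfl | rfl⟩
    · exact ⟨i, by rw [hq, pow_succ]; ring⟩
    · exfalso
      have h1 : InV w (nf g (m' + 2 ^ j * (2 * i)) j) := by
        rw [← nf_unit]
        exact (nf_pred g h').unit _
      refine conflict hw h1 ?_ ?_
      · rw [nf_succ]
        have e : m' + 2 ^ j * (2 * i) = m' + 2 ^ (j + 1) * i := by rw [pow_succ]; ring
        rw [e, ← nf_unit]
        exact h'.unit _
      · have e : nf g (m' + 2 ^ j * (2 * i)) j * el .a true = nf g m j := by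
          have h2 := nf_unit g (m' + 2 ^ j * (2 * i)) 1 j
          rw [zpow_one] at h2
          rw [← au_val, h2]
          congr 1
          linarith
        rw [e, nf_succ]
        exact h

variable (κ : Vert RR w → ℤ × ℕ)
  (hκ : ∀ (v v' : Vert RR w) (g : Lr), v.1 * val RR [g] = v'.1 → Ed (κ v) g (κ v'))

include hκ in
/-- The coordinates of a normal form. -/
theorem kappa_nf : ∀ (j : ℕ) (m : ℤ) (v : Vert RR w), v.1 = nf g m j →
    κ v = ((κ g).1 + m * 2 ^ (κ g).2, (κ g).2 + j)
  | 0, m, v, h => by
    have key : ∀ (n : ℕ) (v v' : Vert RR w),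
        v'.1 = v.1 * ((au ^ n : (InvMon RR)ˣ) : InvMon RR) →
          κ v' = ((κ v).1 + n * 2 ^ (κ v).2, (κ v).2) := by
      intro n
      induction n with
      | zero =>
        intro v v' h
        rw [pow_zero, Units.val_one, mul_one] at h
        rw [Subtype.ext h]
        simp
      | succ n ih =>
        intro v v' h
        let v1 : Vert RR w := ⟨v.1 * ((au ^ n : (InvMon RR)ˣ) : InvMon RR), InV.unit v.2 _⟩
        have h1 := ih v v1 rfl
        have h2 : v1.1 * val RR [(.a, true)] = v'.1 := by
          rw [h, pow_succ, Units.val_mul, ← mul_assoc]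
          rfl
        obtain ⟨h3, h4⟩ := hκ v1 v' _ h2
        rw [h1] at h3 h4
        simp only at h3 h4
        refine Prod.ext ?_ h4
        rw [h3]
        push_cast
        ring
    rcases le_total 0 m with h0 | h0
    · obtain ⟨n, rfl⟩ := Int.eq_ofNat_of_zero_le h0
      have h1 := key n g v (by rw [h]; unfold nf; rw [pow_zero, mul_one, zpow_natCast])
      rw [h1]
      simp
    · obtain ⟨n, hn⟩ := Int.eq_ofNat_of_zero_le (neg_nonneg.2 h0)
      have hm : m = -n := by omega
      subst hm
      have h1 := key n v g (by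
        rw [h]
        unfold nf
        rw [pow_zero, mul_one, zpow_neg, zpow_natCast, mul_assoc, Units.inv_mul, mul_one])
      rw [h1]
      simp
  | j + 1, m, v, h => by
    have hv : InV w (nf g m (j + 1)) := by
      rw [← h]
      exact v.2
    let v1 : Vert RR w := ⟨nf g m j, nf_pred g hv⟩
    have h1 := kappa_nf j m v1 rfl
    have h2 : v1.1 * val RR [(.t, true)] = v.1 := by
      rw [h, ← nf_succ]
      rfl
    obtain ⟨h3, h4⟩ := hκ v1 v _ h2
    rw [h1] at h3 h4
    simp only at h3 h4
    refine Prod.ext h3 ?_
    rw [h4]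
    simp only
    omega

include hκ in
/-- Every vertex has a normal form. -/
theorem exists_nf (hg : ∀ v, (κ g).2 ≤ (κ v).2) (v : Vert RR w) : ∃ m j, v.1 = nf g m j := by
  have hstep : ∀ (x y : Vert RR w) (c : Gn) (β : Bool), (∃ m j, x.1 = nf g m j) →
      x.1 * el c β = y.1 → ∃ m j, y.1 = nf g m j := by
    have ht : ∀ (x y : Vert RR w), (∃ m j, x.1 = nf g m j) → x.1 * el .t false = y.1 →
        ∃ m j, y.1 = nf g m j := by
      rintro x y ⟨m, j, hx⟩ h
      rcases j with _ | j
      · exfalso
        have h1 := kappa_nf g κ hκ 0 m x hx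
        obtain ⟨-, h3⟩ := hκ x y _ h
        have := hg y
        rw [h1] at h3
        simp only at h3
        omega
      · have hv : InV w (nf g m (j + 1)) := by
          rw [← hx]
          exact x.2
        refine ⟨m, j, ?_⟩
        have h1 := back_el .t true (nf_pred g hv) (by rw [nf_succ]; exact hv)
        rw [nf_succ, ← hx, Bool.not_true, h] at h1
        exact h1
    have ha : ∀ (x y : Vert RR w) (k : ℤ), (∃ m j, x.1 = nf g m j) →
        x.1 * ((au ^ k : (InvMon RR)ˣ) : InvMon RR) = y.1 → ∃ m j, y.1 = nf g m j := by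
      rintro x y k ⟨m, j, hx⟩ h
      exact ⟨m + 2 ^ j * k, j, by rw [← nf_unit, ← hx, h]⟩
    have ht' : ∀ (x y : Vert RR w), (∃ m j, x.1 = nf g m j) → x.1 * el .t true = y.1 →
        ∃ m j, y.1 = nf g m j := by
      rintro x y ⟨m, j, hx⟩ h
      exact ⟨m, j + 1, by rw [← nf_succ, ← hx, h]⟩
    have hbt : ∀ (x y : Vert RR w), x.1 * el .b true = y.1 → x.1 * el .t true = y.1 := by
      intro x y h
      have h1 : x.1 * el .b true * el .b false = x.1 := by
        have := back_el .b true x.2 (by rw [h]; exact y.2)
        exact this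
      calc x.1 * el .t true = x.1 * el .b true * el .b false * el .t true := by rw [h1]
        _ = x.1 * (el .b true * el .b false * el .t true) := by simp only [mul_assoc]
        _ = x.1 * el .b true := by rw [← el_b]
        _ = y.1 := h
    intro x y c β hx h
    cases β
    · cases c
      · exact ha x y (-1) hx (by rw [zpow_neg_one]; exact h)
      · exact ht x y hx h
      · have h1 : y.1 * el .s true = x.1 := by
          have := back_el .s false x.2 (by rw [h]; exact y.2)
          rw [h] at this
          exact this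
        rw [el_s, ← mul_assoc] at h1
        let y1 : Vert RR w := ⟨y.1 * ((au⁻¹ : (InvMon RR)ˣ) : InvMon RR), InV.unit y.2 _⟩
        have h2 : x.1 * el .t false = y1.1 := by
          have := back_el .t true y1.2 (by
            change InV w (y.1 * ((au⁻¹ : (InvMon RR)ˣ) : InvMon RR) * el .t true)
            rw [h1]
            exact x.2)
          change y.1 * ((au⁻¹ : (InvMon RR)ˣ) : InvMon RR) * el .t true * el .t false = _ at this
          rw [h1] at this
          exact this
        refine ha y1 y 1 (ht x y1 hx h2) ?_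
        rw [zpow_one]
        change y.1 * ((au⁻¹ : (InvMon RR)ˣ) : InvMon RR) * (au : InvMon RR) = _
        rw [mul_assoc, Units.inv_mul, mul_one]
      · have h1 : y.1 * el .b true = x.1 := by
          have := back_el .b false x.2 (by rw [h]; exact y.2)
          rw [h] at this
          exact this
        have h2 := hbt y x h1
        refine ht x y hx ?_
        have := back_el .t true y.2 (by rw [h2]; exact x.2)
        rw [h2] at this
        exact this
      · exfalso
        obtain h1 := hκ x y _ h
        exact h1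
    · cases c
      · exact ha x y 1 hx (by rw [zpow_one]; exact h)
      · exact ht' x y hx h
      · rw [el_s, ← mul_assoc] at h
        let y1 : Vert RR w := ⟨x.1 * ((au⁻¹ : (InvMon RR)ˣ) : InvMon RR), InV.unit x.2 _⟩
        exact ht' y1 y (ha x y1 (-1) hx (by rw [zpow_neg_one])) h
      · exact ht' x y hx (hbt x y h)
      · exfalso
        obtain h1 := hκ x y _ h
        exact h1
  obtain ⟨p⟩ := (connected (R := RR) (w := w)).preconnected g v
  obtain ⟨u, hlen, hu0⟩ := exists_word p
  have hu : g.1 * val RR u = v.1 := by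
    have h1 := hu0 u.length
    rw [List.take_length, hlen, SimpleGraph.Walk.getVert_length] at h1
    exact h1
  have : ∀ (u : List Lr) (x y : Vert RR w), (∃ m j, x.1 = nf g m j) →
      x.1 * val RR u = y.1 → ∃ m j, y.1 = nf g m j := by
    intro u
    induction u with
    | nil =>
      intro x y hx h
      rw [val_nil, mul_one] at h
      rw [← h]
      exact hx
    | cons c u ih =>
      intro x y hx h
      have e : val RR (c :: u) = val RR [c] * val RR u := by
        rw [← val_append]; rfl
      rw [e, ← mul_assoc] at h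
      let x1 : Vert RR w := ⟨x.1 * val RR [c], vert_of_between h⟩
      exact ih x1 y (hstep x x1 c.1 c.2 hx rfl) h
  refine this u g v ⟨0, 0, ?_⟩ hu
  unfold nf
  simp

end nf

end HM

end Pool.Agent.R640.IM
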