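import Pool.Agent.R640.HMon3

set_option autoImplicit false

/-! The Schützenberger graphs of the inverse monoid are horoball-like: conclusion. -/

namespace Pool.Agent.R640.IM

namespace HM

open Pool.Agent.R640.Horo

variable {w : List Lr}

theorem exists_HB (hw : val RR (w ++ inv w) ≠ zz) :
    ∃ (X : Vert RR w → ℤ) (H : Vert RR w → ℕ), HB (schutz RR w) X H ∧
      ∀ v v' : Vert RR w, v.1 * el .b true = v'.1 → H v' = H v + 1 := by
  classical
  obtain ⟨κ, hκ⟩ := exists_coord hw
  obtain ⟨g, hg⟩ : ∃ g : Vert RR w, ∀ v, (κ g).2 ≤ (κ v).2 := by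
    have hne : ∃ n : ℕ, ∃ v : Vert RR w, (κ v).2 = n := ⟨_, base RR w, rfl⟩
    obtain ⟨g, hg⟩ := Nat.find_spec hne
    exact ⟨g, fun v => by
      rw [hg]
      exact Nat.find_min' hne ⟨v, rfl⟩⟩
  have hnf := exists_nf g κ hκ hg
  have hk := kappa_nf g κ hκ
  have hp : ∀ n : ℕ, (0 : ℤ) < 2 ^ n := fun n => by positivity
  have hadj : ∀ (v v' : Vert RR w) (c : Gn) (β : Bool), v.1 * el c β = v'.1 → κ v ≠ κ v' →
      (schutz RR w).Adj v v' := by
    intro v v' c β h hne
    exact adj_iff.2 ⟨fun e => hne (by rw [e]), (c, β), h⟩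
  refine ⟨fun v => (κ v).1, fun v => (κ v).2, ⟨connected, ?_, ?_, ?_, ?_, ?_, ?_⟩, ?_⟩
  · -- injectivity
    intro v v' h1 h2
    obtain ⟨m, j, hv⟩ := hnf v
    obtain ⟨m', j', hv'⟩ := hnf v'
    have e1 := hk j m v hv
    have e2 := hk j' m' v' hv'
    rw [e1, e2] at h1 h2
    simp only at h1 h2
    have hj : j = j' := by omega
    have hm : m = m' := by
      have h3 : m * 2 ^ (κ g).2 = m' * 2 ^ (κ g).2 := by linarith
      exact mul_right_cancel₀ (hp _).ne' h3
    apply Subtype.ext
    rw [hv, hv', hj, hm]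
  · -- adjacency
    have key : ∀ (v v' : Vert RR w) (c : Gn), Fd (κ v) c (κ v') →
        ((κ v).2 = (κ v').2 ∧ |(κ v).1 - (κ v').1| = 2 ^ (κ v).2) ∨
        ((κ v').2 = (κ v).2 + 1 ∧ ((κ v').1 = (κ v).1 ∨ (κ v').1 = (κ v).1 - 2 ^ (κ v).2)) := by
      intro v v' c h
      cases c
      · left
        obtain ⟨h1, h2⟩ := h
        refine ⟨h2.symm, ?_⟩
        rw [h1, sub_add_cancel_left, abs_neg, abs_of_pos (hp _)]
      · right
        exact ⟨h.2, Or.inl h.1⟩
      · right
        exact ⟨h.2, Or.inr h.1⟩
      · right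
        exact ⟨h.2, Or.inl h.1⟩
      · exact absurd h id
    intro v v' h
    obtain ⟨-, ⟨c, β⟩, h1⟩ := adj_iff.1 h
    have h2 := hκ v v' _ h1
    cases β
    · have h3 : Fd (κ v') c (κ v) := h2
      rcases key v' v c h3 with h4 | h4
      · left
        refine ⟨h4.1.symm, ?_⟩
        rw [abs_sub_comm, h4.2, h4.1]
      · right; right
        exact h4
    · have h3 : Fd (κ v) c (κ v') := h2
      rcases key v v' c h3 with h4 | h4
      · exact Or.inl h4
      · exact Or.inr (Or.inl h4)
  · -- right neighbour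
    intro v
    let v' : Vert RR w := ⟨v.1 * (au : InvMon RR), InV.unit v.2 _⟩
    have h1 : Fd (κ v) .a (κ v') := hκ v v' (.a, true) rfl
    refine ⟨v', hadj v v' .a true rfl ?_, h1.2, h1.1⟩
    intro e
    have h2 := h1.1
    rw [← e] at h2
    have := hp (κ v).2
    linarith
  · -- left neighbour
    intro v
    let v' : Vert RR w := ⟨v.1 * ((au⁻¹ : (InvMon RR)ˣ) : InvMon RR), InV.unit v.2 _⟩
    have h1 : Fd (κ v') .a (κ v) := hκ v v' (.a, false) rfl
    obtain ⟨h2, h3⟩ := h1
    refine ⟨v', hadj v v' .a false rfl ?_, h3.symm, ?_⟩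
    · intro e
      rw [← e] at h2
      have := hp (κ v).2
      linarith
    · rw [h3]
      linarith
  · -- up
    intro v u h
    obtain ⟨m, j, hv⟩ := hnf v
    obtain ⟨m', j', hu⟩ := hnf u
    have e1 := hk j m v hv
    have e2 := hk j' m' u hu
    have hjj : j < j' := by
      rw [e1, e2] at h
      simp only at h
      omega
    have hpre : ∀ i, InV w (nf g m' (j + 1 + i)) → InV w (nf g m' (j + 1)) := by
      intro i
      induction i with
      | zero => exact id
      | succ i ih => exact fun h => ih (nf_pred g h)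
    have h1 : InV w (nf g m' (j + 1)) := by
      apply hpre (j' - (j + 1))
      have : j + 1 + (j' - (j + 1)) = j' := by omega
      rw [this, ← hu]
      exact u.2
    have h2 : InV w (nf g m' j) := nf_pred g h1
    have h3 : InV w (nf g m j) := by rw [← hv]; exact v.2
    obtain ⟨q, hq⟩ := nf_cls hw g j m m' h3 h2
    have hm : m = m' + 2 ^ j * q := by linarith
    have huse : ∀ i : ℤ, InV w (nf g (m' + 2 ^ j * (2 * i)) (j + 1)) := by
      intro i
      have e : m' + 2 ^ j * (2 * i) = m' + 2 ^ (j + 1) * i := by rw [pow_succ]; ring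
      rw [e, ← nf_unit]
      exact h1.unit _
    rcases Int.even_or_odd' q with ⟨i, rfl | rfl⟩
    · have h4 : InV w (v.1 * el .t true) := by
        rw [hv, nf_succ, hm]
        exact huse i
      have h5 : Fd (κ v) .t (κ ⟨v.1 * el .t true, h4⟩) := hκ v ⟨_, h4⟩ (.t, true) rfl
      refine ⟨⟨v.1 * el .t true, h4⟩, hadj _ _ .t true rfl ?_, h5.2, Or.inl h5.1⟩
      intro e
      have := h5.2
      rw [← e] at this
      omega
    · have h4 : InV w (v.1 * el .s true) := by
        have e : v.1 * el .s true = nf g (m' + 2 ^ j * (2 * i)) (j + 1) := by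
          rw [el_s, ← mul_assoc, hv]
          have := nf_unit g m (-1) j
          rw [zpow_neg_one] at this
          rw [this, nf_succ, hm]
          congr 1
          ring
        rw [e]
        exact huse i
      have h5 : Fd (κ v) .s (κ ⟨v.1 * el .s true, h4⟩) := hκ v ⟨_, h4⟩ (.s, true) rfl
      refine ⟨⟨v.1 * el .s true, h4⟩, hadj _ _ .s true rfl ?_, h5.2, Or.inr h5.1⟩
      intro e
      have := h5.2
      rw [← e] at this
      omega
  · -- classes
    intro v v' h
    obtain ⟨m, j, hv⟩ := hnf v
    obtain ⟨m', j', hv'⟩ := hnf v'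
    have e1 := hk j m v hv
    have e2 := hk j' m' v' hv'
    rw [e1, e2] at h ⊢
    simp only at h ⊢
    have hj : j = j' := by omega
    subst hj
    obtain ⟨q, hq⟩ := nf_cls hw g j m m' (by rw [← hv]; exact v.2) (by rw [← hv']; exact v'.2)
    refine ⟨q, ?_⟩
    have : (κ g).1 + m * 2 ^ (κ g).2 - ((κ g).1 + m' * 2 ^ (κ g).2) =
        (m - m') * 2 ^ (κ g).2 := by ring
    rw [this, hq, pow_add]
    ring
  · intro v v' h
    have h1 : Fd (κ v) .b (κ v') := hκ v v' (.b, true) h
    exact h1.2

theorem subsing (hw : val RR (w ++ inv w) = zz) : Subsingleton (Vert RR w) := by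
  constructor
  intro x y
  apply Subtype.ext
  obtain ⟨m, hm⟩ := x.2.1
  obtain ⟨m', hm'⟩ := y.2.1
  rw [← hm, ← hm', hw, zz_mul, zz_mul]

/-- All Schützenberger graphs are hyperbolic with the same constant. -/
theorem four (w : List Lr) : FourPt (schutz RR w) 9 := by
  by_cases hw : val RR (w ++ inv w) = zz
  · have := subsing hw
    intro p q r s
    rw [Subsingleton.elim q p, Subsingleton.elim r p, Subsingleton.elim s p]
    simp
  · obtain ⟨X, H, hG, -⟩ := exists_HB hw
    exact hb_four hG

/-- No Schützenberger graph contains a quasi-isometric image of the hyperbolic plane. -/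
theorem noH2 (w : List Lr) : ¬ ContainsH2 (schutz RR w) := by
  by_cases hw : val RR (w ++ inv w) = zz
  · have := subsing hw
    exact no_h2_of_subsingleton
  · obtain ⟨X, H, hG, -⟩ := exists_HB hw
    exact no_h2 hG

theorem pow_b (n : ℕ) : el .b true ^ (n + 1) * el .b false ^ (n + 1) =
    el .b true * el .b false := by
  induction n with
  | zero => simp
  | succ n ih =>
    calc el .b true ^ (n + 1 + 1) * el .b false ^ (n + 1 + 1)
        = el .b true ^ n * (el .b true * el .b true * el .b false * el .b false) *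
            el .b false ^ n := by
          rw [pow_succ, pow_succ, pow_succ' (el .b false), pow_succ' (el .b false)]
          simp only [mul_assoc]
      _ = el .b true ^ n * (el .b true * el .b false) * el .b false ^ n := by rw [← el_bb]
      _ = el .b true ^ (n + 1) * el .b false ^ (n + 1) := by
          rw [pow_succ, pow_succ']
          simp only [mul_assoc]
      _ = _ := ih

theorem not_treeLike : ¬ TreeLike RR := by
  intro h
  have hi : inv [((Gn.b, true) : Lr)] = [(.b, false)] := rfl
  have hw : val RR ([(.b, true)] ++ inv [(.b, true)]) ≠ zz := bb_ne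
  obtain ⟨X, H, hG, hH⟩ := exists_HB hw
  obtain ⟨-, T, τ, φ, k, K, c, h1, h2, h3, h4, -⟩ := h [(.b, true)]
  have hbase : (base RR [(Gn.b, true)]).1 = el .b true * el .b false := val2 _ _
  have hidem : el .b true * el .b false * (el .b true * el .b false) =
      el .b true * el .b false := by
    have := val_idem (R := RR) [((Gn.b, true) : Lr)]
    change (base RR [(Gn.b, true)]).1 * (base RR [(Gn.b, true)]).1 = _ at this
    rw [hbase] at this
    exact this
  have hbb : ∀ n : ℕ, el .b true * el .b false * (el .b true ^ n * el .b false ^ n) =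
      el .b true * el .b false := by
    intro n
    rcases n with _ | n
    · simp
    · rw [pow_b, hidem]
  have hv : ∀ n : ℕ, InV [(Gn.b, true)] (el .b true * el .b false * el .b true ^ n) := by
    intro n
    refine ⟨⟨el .b true ^ n, ?_⟩, ⟨el .b false ^ n, ?_⟩⟩
    · rw [← hbase]
      rfl
    · rw [mul_assoc, hbb, ← hbase]
      rfl
  have hunb : ∀ n : ℕ, n ≤ H ⟨_, hv n⟩ := by
    intro n
    induction n with
    | zero => exact Nat.zero_le _
    | succ n ih =>
      have := hH ⟨_, hv n⟩ ⟨_, hv (n + 1)⟩ (by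
        simp only
        rw [pow_succ]
        simp only [mul_assoc])
      omega
  exact not_qi_tree hG (fun N => ⟨_, hunb N⟩) h1 φ k K c h2 h3 h4

end HM

end Pool.Agent.R640.IM
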