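import Mathlib

set_option autoImplicit false

/-! Graphs which look like a horoball, possibly truncated at some height. -/

namespace Pool.Agent.R640.Horo

/-- A graph with horizontal position `X` and height `H` which looks like a horoball over a line,
possibly truncated at some height. -/
structure HB {V : Type} (G : SimpleGraph V) (X : V → ℤ) (H : V → ℕ) : Prop where
  conn : G.Connected
  inj : ∀ v v', X v = X v' → H v = H v' → v = v'
  adj : ∀ v v', G.Adj v v' → (H v = H v' ∧ |X v - X v'| = 2 ^ H v) ∨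
    (H v' = H v + 1 ∧ (X v' = X v ∨ X v' = X v - 2 ^ H v)) ∨
    (H v = H v' + 1 ∧ (X v = X v' ∨ X v = X v' - 2 ^ H v'))
  hor : ∀ v, ∃ v', G.Adj v v' ∧ H v' = H v ∧ X v' = X v + 2 ^ H v
  hor' : ∀ v, ∃ v', G.Adj v v' ∧ H v' = H v ∧ X v' = X v - 2 ^ H v
  up : ∀ v u, H v < H u → ∃ v', G.Adj v v' ∧ H v' = H v + 1 ∧
    (X v' = X v ∨ X v' = X v - 2 ^ H v)
  cls : ∀ v v', H v = H v' → (2 : ℤ) ^ H v ∣ X v - X v'

variable {V : Type} {G : SimpleGraph V} {X : V → ℤ} {H : V → ℕ} (hG : HB G X H)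

theorem dist_adj {v v' u : V} (hc : G.Connected) (h : G.Adj v v') :
    G.dist v u ≤ G.dist v' u + 1 := by
  have h1 := hc.dist_triangle (u := v) (v := v') (w := u)
  have h2 : G.dist v v' = 1 := SimpleGraph.dist_eq_one_iff_adj.2 h
  omega

include hG in
/-- Going up. -/
theorem up_walk : ∀ (i : ℕ) (v u : V), H v + i ≤ H u → ∃ v', H v' = H v + i ∧
    G.dist v v' ≤ i ∧ 0 ≤ X v - X v' ∧ X v - X v' ≤ 2 ^ (H v + i) - 2 ^ H v
  | 0, v, u, _ => ⟨v, rfl, by simp, by simp, by simp⟩
  | i + 1, v, u, h => by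
    obtain ⟨v', h1, h2, h3⟩ := hG.up v u (by omega)
    obtain ⟨v'', g1, g2, g3, g4⟩ := up_walk i v' u (by omega)
    have h4 := dist_adj (u := v'') hG.conn h1
    refine ⟨v'', by omega, by omega, ?_, ?_⟩
    · rcases h3 with h3 | h3
      · rw [h3] at g3; exact g3
      · rw [h3] at g3
        have : (0 : ℤ) < 2 ^ H v := by positivity
        linarith
    · have e1 : H v' + i = H v + (i + 1) := by omega
      rw [e1, h2] at g4
      have e2 : (2 : ℤ) ^ (H v + 1) = 2 ^ H v + 2 ^ H v := by ring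
      rw [e2] at g4
      have : (0 : ℤ) < 2 ^ H v := by positivity
      rcases h3 with h3 | h3 <;> rw [h3] at g4 <;> linarith

include hG in
/-- Horizontal paths. -/
theorem hor_walk : ∀ (n : ℕ) (v v' : V), H v = H v' →
    (X v' = X v + n * 2 ^ H v ∨ X v' = X v - n * 2 ^ H v) → G.dist v v' ≤ n
  | 0, v, v', h, h' => by
    have : v = v' := by
      apply hG.inj
      · rcases h' with h' | h' <;> · rw [h']; simp
      · exact h
    rw [this]
    simp
  | n + 1, v, v', h, h' => by
    rcases h' with h' | h'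
    · obtain ⟨u, h1, h2, h3⟩ := hG.hor v
      have := hor_walk n u v' (by omega) (Or.inl (by rw [h2, h3, h']; push_cast; ring))
      have := dist_adj (u := v') hG.conn h1
      omega
    · obtain ⟨u, h1, h2, h3⟩ := hG.hor' v
      have := hor_walk n u v' (by omega) (Or.inr (by rw [h2, h3, h']; push_cast; ring))
      have := dist_adj (u := v') hG.conn h1
      omega

include hG in
theorem hor_dist (v v' : V) (h : H v = H v') : (G.dist v v' : ℤ) * 2 ^ H v ≤ |X v - X v'| := by
  obtain ⟨c, hc⟩ := hG.cls v v' h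
  have h1 := hor_walk hG c.natAbs v v' h (by
    rcases Int.natAbs_eq c with h2 | h2
    · right
      rw [← h2]
      linarith
    · left
      have h3 : (c.natAbs : ℤ) = - c := by omega
      rw [h3]
      linarith)
  have h2 : |X v - X v'| = 2 ^ H v * (c.natAbs : ℤ) := by
    rw [hc, abs_mul, abs_of_pos (by positivity : (0 : ℤ) < 2 ^ H v), Int.natCast_natAbs]
  rw [h2, mul_comm]
  have h3 : (G.dist v v' : ℤ) ≤ c.natAbs := by exact_mod_cast h1
  exact mul_le_mul_of_nonneg_left h3 (by positivity)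

include hG in
/-- The upper bound for the distance. -/
theorem dist_upper (v v' u : V) (m : ℕ) (h : H v ≤ m) (h' : H v' ≤ m) (hu : m ≤ H u) :
    (G.dist v v' : ℤ) * 2 ^ m ≤ (2 * m - H v - H v' + 1) * 2 ^ m + |X v - X v'| := by
  obtain ⟨v1, a1, a2, a3, a4⟩ := up_walk hG (m - H v) v u (by omega)
  obtain ⟨v2, b1, b2, b3, b4⟩ := up_walk hG (m - H v') v' u (by omega)
  have e1 : H v + (m - H v) = m := by omega
  have e2 : H v' + (m - H v') = m := by omega
  rw [e1] at a1 a4
  rw [e2] at b1 b4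
  have h1 := hor_dist hG v1 v2 (by omega)
  rw [a1] at h1
  have h2 : |X v1 - X v2| ≤ |X v - X v'| + 2 ^ m := by
    have p1 : (0 : ℤ) < 2 ^ H v := by positivity
    have p2 : (0 : ℤ) < 2 ^ H v' := by positivity
    have h3 : X v1 - X v2 = (X v - X v') + ((X v' - X v2) - (X v - X v1)) := by ring
    rw [h3]
    refine (abs_add_le _ _).trans ?_
    have : |(X v' - X v2) - (X v - X v1)| ≤ 2 ^ m := by
      rw [abs_le]
      constructor <;> linarith
    linarith
  have h3 : G.dist v v' ≤ (m - H v) + G.dist v1 v2 + (m - H v') := by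
    have t1 := hG.conn.dist_triangle (u := v) (v := v1) (w := v')
    have t2 := hG.conn.dist_triangle (u := v1) (v := v2) (w := v')
    rw [SimpleGraph.dist_comm (u := v2)] at t2
    omega
  have h4 : (G.dist v v' : ℤ) ≤ (m - H v) + G.dist v1 v2 + (m - H v') := by
    have : ((G.dist v v' : ℕ) : ℤ) ≤ (((m - H v) + G.dist v1 v2 + (m - H v') : ℕ) : ℤ) := by
      exact_mod_cast h3
    rw [Nat.cast_add, Nat.cast_add, Nat.cast_sub h, Nat.cast_sub h'] at this
    exact this
  have p : (0 : ℤ) < 2 ^ m := by positivity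
  calc (G.dist v v' : ℤ) * 2 ^ m ≤ ((m - H v) + G.dist v1 v2 + (m - H v')) * 2 ^ m :=
        mul_le_mul_of_nonneg_right h4 p.le
    _ = (2 * m - H v - H v') * 2 ^ m + G.dist v1 v2 * 2 ^ m := by ring
    _ ≤ (2 * m - H v - H v') * 2 ^ m + (|X v - X v'| + 2 ^ m) := by linarith
    _ = _ := by ring

include hG in
/-- The lower bound for a path to a highest vertex. -/
theorem walk_lower (m : ℕ) : ∀ {q z : V} (p : G.Walk q z), H z = m → (∀ x ∈ p.support, H x ≤ m) →
    ((m : ℤ) - H q) * 2 ^ m + |X q - X z| + 2 ^ H q ≤ (p.length + 1) * 2 ^ m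
  | _, _, .nil, hz, _ => by
    subst hz
    simp
  | q, z, .cons (v := q') h p, hz, hm => by
    have ih := walk_lower m p hz fun x hx => hm x (by simp [hx])
    have hq : H q ≤ m := hm q (by simp)
    have hq' : H q' ≤ m := hm q' (by simp)
    have p1 : (2 : ℤ) ^ H q ≤ 2 ^ m := pow_le_pow_right₀ (by norm_num) hq
    have p2 : (2 : ℤ) ^ H q' ≤ 2 ^ m := pow_le_pow_right₀ (by norm_num) hq'
    have p3 : (0 : ℤ) < 2 ^ H q := by positivity
    have p4 : (0 : ℤ) < 2 ^ H q' := by positivity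
    have tri : |X q - X z| ≤ |X q - X q'| + |X q' - X z| := abs_sub_le _ _ _
    rw [SimpleGraph.Walk.length_cons]
    push_cast
    rcases hG.adj q q' h with ⟨h1, h2⟩ | ⟨h1, h2⟩ | ⟨h1, h2⟩
    · rw [h1] at h2 ⊢
      nlinarith
    · have h3 : |X q - X q'| ≤ 2 ^ H q := by
        rcases h2 with h2 | h2 <;> rw [h2]
        · simp
        · rw [sub_sub_cancel, abs_of_pos p3]
      have e1 : (2 : ℤ) ^ H q' = 2 * 2 ^ H q := by rw [h1]; ring
      have e2 : (H q' : ℤ) = H q + 1 := by rw [h1]; push_cast; ring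
      rw [e1, e2] at ih
      have e3 : ((m : ℤ) - (H q + 1)) * 2 ^ m = ((m : ℤ) - H q) * 2 ^ m - 2 ^ m := by ring
      rw [e3] at ih
      have e4 : ((p.length : ℤ) + 1 + 1) * 2 ^ m = (p.length + 1) * 2 ^ m + 2 ^ m := by ring
      rw [e4]
      linarith
    · have h3 : |X q - X q'| ≤ 2 ^ H q' := by
        rcases h2 with h2 | h2 <;> rw [h2]
        · simp
        · rw [sub_sub_cancel_left, abs_neg, abs_of_pos p4]
      have e1 : (2 : ℤ) ^ H q = 2 * 2 ^ H q' := by rw [h1]; ring
      have e2 : (H q : ℤ) = H q' + 1 := by rw [h1]; push_cast; ring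
      rw [e1] at p1 ⊢
      rw [e2]
      have e3 : ((m : ℤ) - (H q' + 1)) * 2 ^ m = ((m : ℤ) - H q') * 2 ^ m - 2 ^ m := by ring
      rw [e3]
      have e4 : ((p.length : ℤ) + 1 + 1) * 2 ^ m = (p.length + 1) * 2 ^ m + 2 ^ m := by ring
      rw [e4]
      linarith

include hG in
/-- The lower bound for the distance. -/
theorem dist_lower (v v' : V) : ∃ m : ℕ, H v ≤ m ∧ H v' ≤ m ∧ (∃ u, H u = m) ∧
    (2 * m - H v - H v' : ℤ) * 2 ^ m + |X v - X v'| ≤ (G.dist v v' + 2) * 2 ^ m := by
  classical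
  obtain ⟨p, hp⟩ := hG.conn.exists_walk_length_eq_dist v v'
  obtain ⟨z, hz, hmax⟩ : ∃ z ∈ p.support, ∀ x ∈ p.support, H x ≤ H z := by
    have hne : (p.support.toFinset).Nonempty := ⟨v, by simp⟩
    obtain ⟨z, hz, hmax⟩ := Finset.exists_max_image p.support.toFinset H hne
    exact ⟨z, by simpa using hz, fun x hx => hmax x (by simpa using hx)⟩
  refine ⟨H z, hmax v (by simp), hmax v' (by simp), ⟨z, rfl⟩, ?_⟩
  have h1 := walk_lower hG (H z) (p.takeUntil z hz) rfl fun x hx =>
    hmax x (p.support_takeUntil_subset_support hz hx)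
  have h2 := walk_lower hG (H z) (p.dropUntil z hz).reverse rfl fun x hx =>
    hmax x (p.support_dropUntil_subset_support hz (by simpa using hx))
  have h3 : (p.takeUntil z hz).length + (p.dropUntil z hz).length = p.length := by
    rw [← SimpleGraph.Walk.length_append, SimpleGraph.Walk.take_spec]
  rw [SimpleGraph.Walk.length_reverse] at h2
  rw [← hp, ← h3]
  push_cast
  have p3 : (0 : ℤ) < 2 ^ H v := by positivity
  have p4 : (0 : ℤ) < 2 ^ H v' := by positivity
  have tri : |X v - X v'| ≤ |X v - X z| + |X v' - X z| := by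
    rw [abs_sub_comm (X v')]
    exact abs_sub_le _ _ _
  nlinarith

end Pool.Agent.R640.Horo
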