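import Pool.Agent.R640.Horo
import Pool.Agent.R640.HDefs

set_option autoImplicit false

/-! Horoball-like graphs are uniformly hyperbolic. -/

namespace Pool.Agent.R640.Horo

variable {V : Type} {G : SimpleGraph V} {X : V → ℤ} {H : V → ℕ} (hG : HB G X H)

/-- The height at which a geodesic turns. -/
def U (X : V → ℤ) (H : V → ℕ) (N : ℕ) (v v' : V) : ℕ :=
  max (max (H v) (H v')) (min N (Nat.log 2 (X v - X v').natAbs))

theorem U_comm (N : ℕ) (v v' : V) : U X H N v v' = U X H N v' v := by
  unfold U
  rw [max_comm (H v), ← Int.natAbs_neg (X v - X v'), neg_sub]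

theorem U_le {N : ℕ} {v v' : V} (h : H v ≤ N) (h' : H v' ≤ N) : U X H N v v' ≤ N := by
  unfold U
  omega

theorem le_U (N : ℕ) (v v' : V) : H v ≤ U X H N v v' ∧ H v' ≤ U X H N v v' := by
  unfold U
  omega

/-- The horizontal distance. -/
noncomputable def D (X : V → ℤ) (v v' : V) : ℝ := ((X v - X v').natAbs : ℝ)

theorem D_eq (v v' : V) : D X v v' = ((|X v - X v'| : ℤ) : ℝ) := by
  unfold D
  rw [Nat.cast_natAbs]

theorem D_comm (v v' : V) : D X v v' = D X v' v := by
  unfold D
  rw [← Int.natAbs_neg (X v - X v'), neg_sub]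

theorem D_nonneg (v v' : V) : 0 ≤ D X v v' := Nat.cast_nonneg _

theorem D_tri (u v w : V) : D X u w ≤ D X u v + D X v w := by
  unfold D
  have : (X u - X w).natAbs ≤ (X u - X v).natAbs + (X v - X w).natAbs := by omega
  exact_mod_cast this

theorem D_four (p q r s : V) : D X p q + D X r s ≤ D X p r + D X q s ∨
    D X p q + D X r s ≤ D X p s + D X q r := by
  unfold D
  have : (X p - X q).natAbs + (X r - X s).natAbs ≤ (X p - X r).natAbs + (X q - X s).natAbs ∨
      (X p - X q).natAbs + (X r - X s).natAbs ≤ (X p - X s).natAbs + (X q - X r).natAbs := by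
    omega
  rcases this with h | h
  · left; exact_mod_cast h
  · right; exact_mod_cast h

theorem U_tri (N : ℕ) (u v w : V) :
    U X H N u w ≤ max (U X H N u v) (U X H N v w) + 1 := by
  have h1 : Nat.log 2 (X u - X w).natAbs ≤
      max (Nat.log 2 (X u - X v).natAbs) (Nat.log 2 (X v - X w).natAbs) + 1 := by
    have h2 : (X u - X w).natAbs ≤ (X u - X v).natAbs + (X v - X w).natAbs := by omega
    set a := (X u - X v).natAbs
    set b := (X v - X w).natAbs
    set m := max (Nat.log 2 a) (Nat.log 2 b)
    have ha : a < 2 ^ (m + 1) := (Nat.lt_pow_succ_log_self (by norm_num) a).trans_le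
      (Nat.pow_le_pow_right (by norm_num) (by omega))
    have hb : b < 2 ^ (m + 1) := (Nat.lt_pow_succ_log_self (by norm_num) b).trans_le
      (Nat.pow_le_pow_right (by norm_num) (by omega))
    have h3 : (X u - X w).natAbs < 2 ^ (m + 1 + 1) := by
      rw [pow_succ]; omega
    have h4 := Nat.log_lt_of_lt_pow' (by omega) h3
    omega
  unfold U
  omega

theorem D_lt {N : ℕ} {v v' : V} (h : U X H N v v' < N) : D X v v' / 2 ^ N < 1 := by
  have h1 : Nat.log 2 (X v - X v').natAbs < N := by
    unfold U at h
    omega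
  have h2 : (X v - X v').natAbs < 2 ^ N := (Nat.lt_pow_succ_log_self (by norm_num) _).trans_le
    (Nat.pow_le_pow_right (by norm_num) (by omega))
  rw [div_lt_one (by positivity)]
  unfold D
  exact_mod_cast h2

include hG in
/-- The distance up to a constant. -/
theorem approx {N : ℕ} {v v' : V} (h : H v ≤ N) (h' : H v' ≤ N) (hu : ∃ u, N ≤ H u)
    (hb : (∀ u, H u ≤ N) ∨ D X v v' < 2 ^ N) :
    (G.dist v v' : ℝ) ≤ 2 * U X H N v v' + D X v v' / 2 ^ N - H v - H v' + 3 ∧
      2 * U X H N v v' + D X v v' / 2 ^ N - H v - H v' - 3 ≤ (G.dist v v' : ℝ) := by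
  have hUN := U_le (X := X) h h'
  obtain ⟨hU1, hU2⟩ := le_U (X := X) (H := H) N v v'
  have hUd : U X H N v v' = max (max (H v) (H v')) (min N (Nat.log 2 (X v - X v').natAbs)) := rfl
  set u := U X H N v v' with hu_def
  have hDe := D_eq (X := X) v v'
  have hD0 := D_nonneg (X := X) v v'
  have hDn : D X v v' = ((X v - X v').natAbs : ℝ) := rfl
  set d := D X v v' with hd_def
  set n := (X v - X v').natAbs with hn_def
  constructor
  · obtain ⟨w, hw⟩ := hu
    have h1 := dist_upper hG v v' w u hU1 hU2 (hUN.trans hw)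
    have h2 : (G.dist v v' : ℝ) * 2 ^ u ≤ (2 * u - H v - H v' + 1) * 2 ^ u + d := by
      rw [hDe]
      exact_mod_cast h1
    have p : (0 : ℝ) < 2 ^ u := by positivity
    have h3 : (G.dist v v' : ℝ) ≤ (2 * u - H v - H v' + 1) + d / 2 ^ u := by
      have : (G.dist v v' : ℝ) * 2 ^ u ≤ ((2 * u - H v - H v' + 1) + d / 2 ^ u) * 2 ^ u := by
        rw [add_mul, div_mul_cancel₀ _ p.ne']
        exact h2
      exact le_of_mul_le_mul_right this p
    have h4 : d / 2 ^ u ≤ 2 + d / 2 ^ N := by
      by_cases hc : Nat.log 2 n ≤ u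
      · have h5 : n < 2 ^ (u + 1) := (Nat.lt_pow_succ_log_self (by norm_num) n).trans_le
          (Nat.pow_le_pow_right (by norm_num) (by omega))
        have h6 : d < 2 ^ (u + 1) := by
          rw [hDn]
          exact_mod_cast h5
        have h7 : d / 2 ^ u < 2 := by
          rw [div_lt_iff₀ p]
          rw [pow_succ] at h6
          linarith
        have h8 : 0 ≤ d / 2 ^ N := by positivity
        linarith
      · have h5 : u = N := by omega
        rw [h5]
        linarith
    linarith
  · obtain ⟨m, g1, g2, ⟨w, hw⟩, g3⟩ := dist_lower hG v v'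
    have g4 : (2 * m - H v - H v' : ℝ) * 2 ^ m + d ≤ (G.dist v v' + 2) * 2 ^ m := by
      rw [hDe]
      exact_mod_cast g3
    have p : (0 : ℝ) < 2 ^ m := by positivity
    have g5 : (2 * m - H v - H v' : ℝ) + d / 2 ^ m ≤ G.dist v v' + 2 := by
      have : ((2 * m - H v - H v' : ℝ) + d / 2 ^ m) * 2 ^ m ≤ (G.dist v v' + 2) * 2 ^ m := by
        rw [add_mul, div_mul_cancel₀ _ p.ne']
        exact g4
      exact le_of_mul_le_mul_right this p
    have h8 : 0 ≤ d / 2 ^ m := by positivity
    by_cases hmN : m ≤ N
    · by_cases hum : u ≤ m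
      · have h6 : d / 2 ^ N ≤ d / 2 ^ m :=
          div_le_div_of_nonneg_left hD0 p (pow_le_pow_right₀ (by norm_num) hmN)
        have h7 : (u : ℝ) ≤ m := by exact_mod_cast hum
        linarith
      · obtain ⟨i, hi⟩ : ∃ i, u = m + i + 1 := ⟨u - m - 1, by omega⟩
        have h6 : u ≤ Nat.log 2 n := by omega
        have h7 : 2 ^ u ≤ n := by
          refine Nat.pow_le_of_le_log ?_ h6
          intro h0
          rw [h0] at h6
          simp at h6
          omega
        have h9 : (2 : ℝ) ^ u ≤ d := by
          rw [hDn]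
          exact_mod_cast h7
        have pu : (0 : ℝ) < 2 ^ u := by positivity
        have h10 : 1 ≤ d / 2 ^ u := by rw [le_div_iff₀ pu]; linarith
        have h11 : d / 2 ^ N ≤ d / 2 ^ u :=
          div_le_div_of_nonneg_left hD0 pu (pow_le_pow_right₀ (by norm_num) hUN)
        have h12 : d / 2 ^ m = 2 ^ (i + 1) * (d / 2 ^ u) := by
          rw [hi]
          field_simp
          ring
        have h13 : (2 : ℝ) ^ (i + 1) ≥ 2 * (i + 1) := by
          have : ∀ i : ℕ, 2 * (i + 1) ≤ 2 ^ (i + 1) := by
            intro i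
            induction i with
            | zero => norm_num
            | succ i ih => rw [pow_succ]; omega
          exact_mod_cast this i
        have h14 : (u : ℝ) = m + i + 1 := by exact_mod_cast hi
        have h15 : 2 ^ (i + 1) * (d / 2 ^ u) ≥ d / 2 ^ u + (2 ^ (i + 1) - 1) := by
          nlinarith
        linarith
    · have h6 : d < 2 ^ N := by
        rcases hb with hb | hb
        · have := hb w
          omega
        · exact hb
      have h7 : d / 2 ^ N < 1 := by
        rw [div_lt_one (by positivity)]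
        exact h6
      have h9 : (u : ℝ) + 1 ≤ m := by
        have : u + 1 ≤ m := by omega
        exact_mod_cast this
      linarith

/-- The arithmetic of the four point condition. -/
theorem four_arith {N a b c d e f : ℕ} {la lb lc ld le lf : ℝ} (haN : a ≤ N) (hbN : b ≤ N)
    (hcN : c ≤ N) (hdN : d ≤ N) (heN : e ≤ N) (hfN : f ≤ N)
    (h1 : a ≤ max c f + 1) (h2 : a ≤ max e d + 1) (h3 : b ≤ max c e + 1) (h4 : b ≤ max f d + 1)
    (la0 : 0 ≤ la) (lb0 : 0 ≤ lb) (lc0 : 0 ≤ lc) (ld0 : 0 ≤ ld) (le0 : 0 ≤ le) (lf0 : 0 ≤ lf)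
    (hla : a < N → la < 1) (hlb : b < N → lb < 1) (hlc : c < N → lc < 1) (hld : d < N → ld < 1)
    (hle : e < N → le < 1) (hlf : f < N → lf < 1)
    (t1 : la ≤ lc + lf) (t2 : la ≤ le + ld) (t3 : lb ≤ lc + le) (t4 : lb ≤ lf + ld)
    (s1 : lf ≤ lb + ld) (s2 : ld ≤ lb + lf) (s3 : lc ≤ lb + le) (s4 : le ≤ lb + lc)
    (r1 : lf ≤ la + lc) (r2 : lc ≤ la + lf) (r3 : ld ≤ la + le) (r4 : le ≤ la + ld)
    (hf : la + lb ≤ lc + ld ∨ la + lb ≤ le + lf) :
    (2 * a + la) + (2 * b + lb) ≤ max ((2 * c + lc) + (2 * d + ld))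
      ((2 * e + le) + (2 * f + lf)) + 6 := by
  have hab : a + b ≤ max (c + d) (e + f) + 2 := by omega
  rcases Nat.lt_or_ge a N with ha | ha
  · rcases Nat.lt_or_ge b N with hb | hb
    · have g1 := hla ha
      have g2 := hlb hb
      rcases le_total (c + d) (e + f) with hc | hc
      · rw [max_eq_right hc] at hab
        have g3 : (a : ℝ) + b ≤ e + f + 2 := by exact_mod_cast hab
        refine le_trans ?_ (add_le_add_left (le_max_right _ _) 6)
        linarith
      · rw [max_eq_left hc] at hab
        have g3 : (a : ℝ) + b ≤ c + d + 2 := by exact_mod_cast hab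
        refine le_trans ?_ (add_le_add_left (le_max_left _ _) 6)
        linarith
    · have g1 := hla ha
      rcases le_total (c + d) (e + f) with hc | hc
      · rw [max_eq_right hc] at hab
        have g3 : (a : ℝ) + b ≤ e + f + 2 := by exact_mod_cast hab
        refine le_trans ?_ (add_le_add_left (le_max_right _ _) 6)
        linarith
      · rw [max_eq_left hc] at hab
        have g3 : (a : ℝ) + b ≤ c + d + 2 := by exact_mod_cast hab
        refine le_trans ?_ (add_le_add_left (le_max_left _ _) 6)
        linarith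
  · rcases Nat.lt_or_ge b N with hb | hb
    · have g1 := hlb hb
      rcases le_total (c + d) (e + f) with hc | hc
      · rw [max_eq_right hc] at hab
        have g3 : (a : ℝ) + b ≤ e + f + 2 := by exact_mod_cast hab
        refine le_trans ?_ (add_le_add_left (le_max_right _ _) 6)
        linarith
      · rw [max_eq_left hc] at hab
        have g3 : (a : ℝ) + b ≤ c + d + 2 := by exact_mod_cast hab
        refine le_trans ?_ (add_le_add_left (le_max_left _ _) 6)
        linarith
    · have ha' : a = N := le_antisymm haN ha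
      have hb' : b = N := le_antisymm hbN hb
      by_cases hE : e + 1 < N ∨ f + 1 < N
      · -- then `c` and `d` are large
        have hc1 : N ≤ c + 1 := by omega
        have hd1 : N ≤ d + 1 := by omega
        have gc : (N : ℝ) ≤ c + 1 := by exact_mod_cast hc1
        have gd : (N : ℝ) ≤ d + 1 := by exact_mod_cast hd1
        refine le_trans ?_ (add_le_add_left (le_max_left _ _) 6)
        rw [ha', hb']
        rcases hE with hE | hE
        · have := hle (by omega)
          linarith
        · have := hlf (by omega)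
          linarith
      · by_cases hC : c + 1 < N ∨ d + 1 < N
        · have he1 : N ≤ e + 1 := by omega
          have hf1 : N ≤ f + 1 := by omega
          have ge : (N : ℝ) ≤ e + 1 := by exact_mod_cast he1
          have gf : (N : ℝ) ≤ f + 1 := by exact_mod_cast hf1
          refine le_trans ?_ (add_le_add_left (le_max_right _ _) 6)
          rw [ha', hb']
          rcases hC with hC | hC
          · have := hlc (by omega)
            linarith
          · have := hld (by omega)
            linarith
        · push Not at hE hC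
          have ge : (N : ℝ) ≤ e + 1 := by exact_mod_cast hE.1
          have gf : (N : ℝ) ≤ f + 1 := by exact_mod_cast hE.2
          have gc : (N : ℝ) ≤ c + 1 := by exact_mod_cast hC.1
          have gd : (N : ℝ) ≤ d + 1 := by exact_mod_cast hC.2
          rw [ha', hb']
          rcases hf with hf | hf
          · refine le_trans ?_ (add_le_add_left (le_max_left _ _) 6)
            linarith
          · refine le_trans ?_ (add_le_add_left (le_max_right _ _) 6)
            linarith

include hG in
theorem hb_four : FourPt G 9 := by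
  intro p q r s
  obtain ⟨N, hN, hu, hb⟩ : ∃ N : ℕ, (H p ≤ N ∧ H q ≤ N ∧ H r ≤ N ∧ H s ≤ N) ∧
      (∃ u, N ≤ H u) ∧ ((∀ u, H u ≤ N) ∨ (D X p q < 2 ^ N ∧ D X r s < 2 ^ N ∧
        D X p r < 2 ^ N ∧ D X q s < 2 ^ N ∧ D X p s < 2 ^ N ∧ D X q r < 2 ^ N)) := by
    by_cases hbd : ∃ B, ∀ u, H u ≤ B
    · classical
      obtain ⟨N, hN, hmin⟩ : ∃ N, (∀ u, H u ≤ N) ∧ ∀ M, M < N → ¬ ∀ u, H u ≤ M :=
        ⟨Nat.find hbd, Nat.find_spec hbd, fun M hM => Nat.find_min hbd hM⟩
      refine ⟨N, ⟨hN p, hN q, hN r, hN s⟩, ?_, Or.inl hN⟩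
      rcases N with _ | N
      · exact ⟨p, Nat.zero_le _⟩
      · have := hmin N (by omega)
        push Not at this
        obtain ⟨u, hu⟩ := this
        exact ⟨u, hu⟩
    · push Not at hbd
      have key : ∀ x y : V, ∃ n : ℕ, ∀ N, n ≤ N → D X x y < 2 ^ N := by
        intro x y
        refine ⟨(X x - X y).natAbs, fun N hN => ?_⟩
        unfold D
        have : (X x - X y).natAbs < 2 ^ N := lt_of_le_of_lt hN Nat.lt_two_pow_self
        exact_mod_cast this
      obtain ⟨n1, k1⟩ := key p q
      obtain ⟨n2, k2⟩ := key r s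
      obtain ⟨n3, k3⟩ := key p r
      obtain ⟨n4, k4⟩ := key q s
      obtain ⟨n5, k5⟩ := key p s
      obtain ⟨n6, k6⟩ := key q r
      obtain ⟨N, hN⟩ : ∃ N : ℕ, N = H p + H q + H r + H s + n1 + n2 + n3 + n4 + n5 + n6 :=
        ⟨_, rfl⟩
      obtain ⟨u, hu⟩ := hbd N
      exact ⟨N, by omega, ⟨u, hu.le⟩, Or.inr ⟨k1 N (by omega), k2 N (by omega), k3 N (by omega),
        k4 N (by omega), k5 N (by omega), k6 N (by omega)⟩⟩
  obtain ⟨hp, hq, hr, hs⟩ := hN
  have A1 := (approx hG hp hq hu (hb.imp id fun h => h.1)).1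
  have A2 := (approx hG hr hs hu (hb.imp id fun h => h.2.1)).1
  have A3 := (approx hG hp hr hu (hb.imp id fun h => h.2.2.1)).2
  have A4 := (approx hG hq hs hu (hb.imp id fun h => h.2.2.2.1)).2
  have A5 := (approx hG hp hs hu (hb.imp id fun h => h.2.2.2.2.1)).2
  have A6 := (approx hG hq hr hu (hb.imp id fun h => h.2.2.2.2.2)).2
  have pN : (0 : ℝ) < 2 ^ N := by positivity
  have tri : ∀ u v w : V, D X u w / 2 ^ N ≤ D X u v / 2 ^ N + D X v w / 2 ^ N := by
    intro u v w
    rw [← add_div]
    exact div_le_div_of_nonneg_right (D_tri u v w) pN.le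
  have nn : ∀ u v : V, 0 ≤ D X u v / 2 ^ N := fun u v => div_nonneg (D_nonneg u v) pN.le
  have key := four_arith (N := N) (a := U X H N p q) (b := U X H N r s) (c := U X H N p r)
    (d := U X H N q s) (e := U X H N p s) (f := U X H N q r) (la := D X p q / 2 ^ N)
    (lb := D X r s / 2 ^ N) (lc := D X p r / 2 ^ N) (ld := D X q s / 2 ^ N)
    (le := D X p s / 2 ^ N) (lf := D X q r / 2 ^ N) (U_le hp hq) (U_le hr hs) (U_le hp hr)
    (U_le hq hs) (U_le hp hs) (U_le hq hr)
    (by have := U_tri (X := X) (H := H) N p r q; rwa [U_comm N r q] at this)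
    (by have := U_tri (X := X) (H := H) N p s q; rwa [U_comm N s q] at this)
    (by have := U_tri (X := X) (H := H) N r p s; rwa [U_comm N r p] at this)
    (by have := U_tri (X := X) (H := H) N r q s; rwa [U_comm N r q] at this)
    (nn _ _) (nn _ _) (nn _ _) (nn _ _) (nn _ _) (nn _ _)
    D_lt D_lt D_lt D_lt D_lt D_lt
    (by have := tri p r q; rwa [D_comm r q] at this)
    (by have := tri p s q; rwa [D_comm s q] at this)
    (by have := tri r p s; rwa [D_comm r p] at this)
    (by have := tri r q s; rwa [D_comm r q] at this)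
    (by have := tri q s r; rw [D_comm s r] at this; linarith)
    (by have := tri q r s; linarith)
    (by have := tri p s r; rw [D_comm s r] at this; linarith)
    (by have := tri p r s; linarith)
    (by have := tri q p r; rw [D_comm q p] at this; linarith)
    (by have := tri p q r; linarith)
    (by have := tri q p s; rw [D_comm q p] at this; linarith)
    (by have := tri p q s; linarith)
    (by
      rw [← add_div, ← add_div, ← add_div]
      rcases D_four (X := X) p q r s with h | h
      · left; exact div_le_div_of_nonneg_right h pN.le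
      · right; exact div_le_div_of_nonneg_right h pN.le)
  rcases le_total ((2 * (U X H N p r : ℝ) + D X p r / 2 ^ N) + (2 * U X H N q s + D X q s / 2 ^ N))
    ((2 * (U X H N p s : ℝ) + D X p s / 2 ^ N) + (2 * U X H N q r + D X q r / 2 ^ N)) with h | h
  · rw [max_eq_right h] at key
    refine le_trans ?_ (add_le_add_left (le_max_right _ _) _)
    linarith
  · rw [max_eq_left h] at key
    refine le_trans ?_ (add_le_add_left (le_max_left _ _) _)
    linarith

end Pool.Agent.R640.Horo
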