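import Pool.Agent.R640.Horo2

set_option autoImplicit false

/-! Horoball-like graphs with unbounded heights are not quasi-isometric to trees. -/

namespace Pool.Agent.R640.Horo

open SimpleGraph

section tree

variable {T : Type} {τ : SimpleGraph T}

theorem tree_mid (hτ : τ.IsTree) (a b : T) : ∃ m : T, τ.dist a b ≤ 2 * τ.dist a m + 1 ∧
    τ.dist a b ≤ 2 * τ.dist b m + 1 ∧ ∀ q : τ.Walk a b, m ∈ q.support := by
  classical
  obtain ⟨P, hP, hl⟩ := hτ.connected.exists_path_of_dist a b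
  set ℓ := τ.dist a b with hℓ
  refine ⟨P.getVert (ℓ / 2), ?_, ?_, ?_⟩
  · have h1 : τ.dist (P.getVert (ℓ / 2)) b ≤ ℓ - ℓ / 2 := by
      have := dist_le (P.drop (ℓ / 2))
      rw [Walk.drop_length, hl] at this
      exact this
    have h2 := hτ.connected.dist_triangle (u := a) (v := P.getVert (ℓ / 2)) (w := b)
    omega
  · have h1 : τ.dist a (P.getVert (ℓ / 2)) ≤ ℓ / 2 := by
      have := dist_le (P.take (ℓ / 2))
      rw [Walk.take_length] at this
      omega
    have h2 := hτ.connected.dist_triangle (u := a) (v := P.getVert (ℓ / 2)) (w := b)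
    rw [dist_comm (u := P.getVert (ℓ / 2))] at h2
    omega
  · intro q
    have h1 : (⟨P, hP⟩ : τ.Path a b) = q.toPath := (hτ.isAcyclic.subsingleton_path a b).elim _ _
    have h2 : P = (q.toPath : τ.Walk a b) := congrArg Subtype.val h1
    have h3 := P.getVert_mem_support (ℓ / 2)
    rw [h2] at h3 ⊢
    exact q.support_toPath_subset_support h3

variable {V : Type} {G : SimpleGraph V}

theorem tree_cross (hτ : τ.IsTree) (φ : V → T) (L : ℝ) (hL : 0 ≤ L)
    (hφ : ∀ x y, G.Adj x y → (τ.dist (φ x) (φ y) : ℝ) ≤ L) (m : T) :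
    ∀ {x y : V} (p : G.Walk x y), (∀ z ∈ p.support, L < τ.dist (φ z) m) →
      ∃ q : τ.Walk (φ x) (φ y), m ∉ q.support
  | x, _, .nil, h => by
    refine ⟨.nil, ?_⟩
    intro hm
    have h1 := h x (by simp)
    rw [Walk.support_nil, List.mem_singleton] at hm
    rw [hm, dist_self, Nat.cast_zero] at h1
    linarith
  | x, y, .cons (v := x') hx p, h => by
    classical
    obtain ⟨q, hq⟩ := tree_cross hτ φ L hL hφ m p fun z hz => h z (by simp [hz])
    obtain ⟨q1, hq1⟩ := hτ.connected.exists_walk_length_eq_dist (φ x) (φ x')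
    refine ⟨q1.append q, ?_⟩
    rw [Walk.mem_support_append_iff]
    rintro (hm | hm)
    · have h1 := h x (by simp)
      have h2 := dist_le (q1.takeUntil m hm)
      have h3 := q1.length_takeUntil_le_length hm
      have h4 := hφ x x' hx
      have h5 : (τ.dist (φ x) m : ℝ) ≤ τ.dist (φ x) (φ x') := by
        exact_mod_cast h2.trans (h3.trans hq1.le)
      linarith
    · exact hq hm

end tree

variable {V : Type} {G : SimpleGraph V} {X : V → ℤ} {H : V → ℕ} (hG : HB G X H)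

include hG in
theorem hor_walk' : ∀ (n : ℕ) (v : V), ∃ (v' : V) (p : G.Walk v v'), H v' = H v ∧
    X v' = X v + n * 2 ^ H v ∧ ∀ z ∈ p.support, H z = H v
  | 0, v => ⟨v, .nil, rfl, by simp, by simp⟩
  | n + 1, v => by
    obtain ⟨u, h1, h2, h3⟩ := hG.hor v
    obtain ⟨v', p, g1, g2, g3⟩ := hor_walk' n u
    refine ⟨v', .cons h1 p, by omega, ?_, ?_⟩
    · rw [g2, h3, h2]
      push_cast
      ring
    · intro z hz
      rw [Walk.support_cons, List.mem_cons] at hz
      rcases hz with rfl | hz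
      · rfl
      · rw [g3 z hz, h2]

include hG in
theorem hor_walk'' (v v' : V) (h : H v = H v') : ∃ p : G.Walk v v', ∀ z ∈ p.support, H z = H v := by
  obtain ⟨c, hc⟩ := hG.cls v v' h
  rcases le_total 0 c with h0 | h0
  · obtain ⟨n, rfl⟩ := Int.eq_ofNat_of_zero_le h0
    obtain ⟨u, p, h1, h2, h3⟩ := hor_walk' hG n v'
    have : u = v := hG.inj _ _ (by rw [h2, ← h]; linarith) (by omega)
    subst this
    exact ⟨p.reverse, fun z hz => by rw [h3 z (by simpa using hz), h]⟩
  · obtain ⟨n, hn⟩ := Int.eq_ofNat_of_zero_le (neg_nonneg.2 h0)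
    obtain ⟨u, p, h1, h2, h3⟩ := hor_walk' hG n v
    have : u = v' := by
      apply hG.inj
      · rw [h2, ← hn]
        linarith
      · omega
    subst this
    exact ⟨p, h3⟩

include hG in
theorem up_walk' : ∀ (i : ℕ) (v u : V), H v + i ≤ H u → ∃ (v' : V) (p : G.Walk v v'),
    H v' = H v + i ∧ ∀ z ∈ p.support, H v + G.dist v z ≤ H z
  | 0, v, u, _ => ⟨v, .nil, rfl, by simp⟩
  | i + 1, v, u, h => by
    obtain ⟨v', h1, h2, h3⟩ := hG.up v u (by omega)
    obtain ⟨v'', p, g1, g2⟩ := up_walk' i v' u (by omega)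
    refine ⟨v'', .cons h1 p, by omega, ?_⟩
    intro z hz
    rw [Walk.support_cons, List.mem_cons] at hz
    rcases hz with rfl | hz
    · simp
    · have h4 := dist_adj (u := z) hG.conn h1
      have h5 := g2 z hz
      omega

include hG in
/-- The height is a Lipschitz function. -/
theorem H_lip (v v' : V) : H v ≤ H v' + G.dist v v' := by
  obtain ⟨p, hp⟩ := hG.conn.exists_walk_length_eq_dist v v'
  rw [← hp]
  clear hp
  induction p with
  | nil => simp
  | cons h p ih =>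
    rw [Walk.length_cons]
    rcases hG.adj _ _ h with ⟨h1, -⟩ | ⟨h1, -⟩ | ⟨h1, -⟩ <;> omega

include hG in
theorem dist_shift (v v' : V) (r : ℕ) (h : H v' = H v) (hX : X v' = X v + 2 ^ r * 2 ^ H v) :
    r ≤ G.dist v v' + 2 := by
  obtain ⟨m, h1, h2, -, h3⟩ := dist_lower hG v v'
  obtain ⟨i, rfl⟩ : ∃ i, m = H v + i := ⟨m - H v, by omega⟩
  have h4 : |X v - X v'| = 2 ^ r * 2 ^ H v := by
    rw [hX, sub_add_cancel_left, abs_neg, abs_of_pos (by positivity)]
  rw [h4, h] at h3
  have h5 : (2 * ((H v + i : ℕ) : ℤ) - H v - H v) = 2 * i := by push_cast; ring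
  rw [h5] at h3
  by_contra hr
  push Not at hr
  have p : (0 : ℤ) < 2 ^ (H v + i) := by positivity
  rcases Nat.lt_or_ge i r with hi | hi
  · obtain ⟨j, rfl⟩ : ∃ j, r = i + j := ⟨r - i, by omega⟩
    have e1 : (2 : ℤ) ^ (i + j) * 2 ^ H v = 2 ^ j * 2 ^ (H v + i) := by ring
    rw [e1, ← add_mul] at h3
    have h6 := le_of_mul_le_mul_right h3 p
    have h7 : (j : ℤ) < 2 ^ j := by exact_mod_cast Nat.lt_two_pow_self
    omega
  · have h6 : (2 * i : ℤ) * 2 ^ (H v + i) ≤ (G.dist v v' + 2) * 2 ^ (H v + i) := by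
      have : (0 : ℤ) < 2 ^ r * 2 ^ H v := by positivity
      linarith
    have h7 := le_of_mul_le_mul_right h6 p
    omega

include hG in
theorem not_qi_tree (hunb : ∀ N, ∃ u, N ≤ H u) {T : Type} {τ : SimpleGraph T} (hτ : τ.IsTree)
    (φ : V → T) (k K c : ℝ) (hk : 0 < k) (hK : 0 < K)
    (hφ : ∀ x y, k * G.dist x y - c ≤ τ.dist (φ x) (φ y) ∧
      τ.dist (φ x) (φ y) ≤ K * G.dist x y + c) : False := by
  obtain ⟨x⟩ := hG.conn.nonempty
  have hc : 0 ≤ c := by
    have := (hφ x x).1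
    rw [dist_self, dist_self, Nat.cast_zero, mul_zero] at this
    linarith
  set L : ℝ := K + c with hL
  have hL0 : 0 ≤ L := by positivity
  set D1 : ℝ := (2 * L + c) / k with hD1
  have hadj : ∀ x y, G.Adj x y → (τ.dist (φ x) (φ y) : ℝ) ≤ L := by
    intro x y h
    have := (hφ x y).2
    rw [dist_eq_one_iff_adj.2 h, Nat.cast_one, mul_one] at this
    exact this
  obtain ⟨r, hr1, hr2⟩ : ∃ r : ℕ, D1 < r ∧ 2 * (K * D1 + c + L) + 1 + c + 2 * k < k * r := by
    obtain ⟨r1, h1⟩ := exists_nat_gt D1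
    obtain ⟨r2, h2⟩ := exists_nat_gt ((2 * (K * D1 + c + L) + 1 + c + 2 * k) / k)
    rw [div_lt_iff₀ hk] at h2
    refine ⟨max r1 r2, ?_, ?_⟩
    · push_cast
      exact lt_max_of_lt_left h1
    · push_cast
      have : (r2 : ℝ) ≤ max (r1 : ℝ) r2 := le_max_right _ _
      nlinarith
  obtain ⟨y, p1, hy1, hy2, hy3⟩ := hor_walk' hG (2 ^ r) x
  obtain ⟨u, hu⟩ := hunb (H x + r)
  obtain ⟨x', px, hx1, hx2⟩ := up_walk' hG r x u hu
  obtain ⟨y', py, hy'1, hy'2⟩ := up_walk' hG r y u (by omega)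
  obtain ⟨pt, hpt⟩ := hor_walk'' hG x' y' (by omega)
  obtain ⟨m, hm1, hm2, hm3⟩ := tree_mid hτ (φ x) (φ y)
  have near : ∀ p : G.Walk x y, ∃ z ∈ p.support, (τ.dist (φ z) m : ℝ) ≤ L := by
    intro p
    by_contra hcon
    push Not at hcon
    obtain ⟨q, hq⟩ := tree_cross hτ φ L hL0 hadj m p hcon
    exact hq (hm3 q)
  obtain ⟨z1, hz1, hd1⟩ := near p1
  obtain ⟨z2, hz2, hd2⟩ := near (px.append (pt.append py.reverse))
  have hH1 := hy3 z1 hz1
  have hdz : (G.dist z2 z1 : ℝ) ≤ D1 := by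
    have h1 := (hφ z2 z1).1
    have h2 : (τ.dist (φ z2) (φ z1) : ℝ) ≤ τ.dist (φ z2) m + τ.dist (φ z1) m := by
      have := hτ.connected.dist_triangle (u := φ z2) (v := m) (w := φ z1)
      rw [dist_comm (u := m)] at this
      exact_mod_cast this
    rw [hD1, le_div_iff₀ hk]
    linarith
  have hH2 := H_lip hG z2 z1
  have hH3 : (H z2 : ℝ) ≤ H x + D1 := by
    have : (H z2 : ℝ) ≤ H z1 + G.dist z2 z1 := by exact_mod_cast hH2
    rw [hH1] at this
    linarith
  have hxy := dist_shift hG x y r (by omega) (by rw [hy2]; push_cast; ring)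
  have hxy' : (r : ℝ) ≤ G.dist x y + 2 := by exact_mod_cast hxy
  have hℓ := (hφ x y).1
  have fin : ∀ w : V, (τ.dist (φ x) (φ y) : ℝ) ≤ 2 * τ.dist (φ w) m + 1 →
      (G.dist w z2 : ℝ) ≤ D1 → False := by
    intro w hw1 hw2
    have h1 := (hφ w z2).2
    have h2 : (τ.dist (φ w) m : ℝ) ≤ τ.dist (φ w) (φ z2) + τ.dist (φ z2) m := by
      exact_mod_cast hτ.connected.dist_triangle
    have h3 : K * G.dist w z2 ≤ K * D1 := mul_le_mul_of_nonneg_left hw2 hK.le
    have h4 : k * r ≤ k * (G.dist x y + 2) := mul_le_mul_of_nonneg_left hxy' hk.le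
    linarith
  rw [Walk.mem_support_append_iff, Walk.mem_support_append_iff] at hz2
  rcases hz2 with hz | hz | hz
  · refine fin x (by exact_mod_cast hm1) ?_
    have h1 := hx2 z2 hz
    have h2 : (H x : ℝ) + G.dist x z2 ≤ H z2 := by exact_mod_cast h1
    linarith
  · have h1 := hpt z2 hz
    have h2 : (H z2 : ℝ) = H x + r := by
      have : H z2 = H x + r := by omega
      exact_mod_cast this
    linarith
  · refine fin y (by exact_mod_cast hm2) ?_
    have h1 := hy'2 z2 (by simpa using hz)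
    rw [hy1] at h1
    have h2 : (H x : ℝ) + G.dist y z2 ≤ H z2 := by exact_mod_cast h1
    linarith

end Pool.Agent.R640.Horo
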