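import Pool.Agent.R640.Horo3

set_option autoImplicit false

/-! The hyperbolic plane has no quasi-isometric embedding into a horoball-like graph. -/

namespace Pool.Agent.R640.Horo

open SimpleGraph

/-- Exponentials grow faster than linear functions. -/
theorem exists_big (a b k : ℝ) (hk : 0 < k) : ∃ t0 : ℕ, ∀ t : ℕ, t0 ≤ t →
    a * t + b < k * 2 ^ t := by
  have h1 := (isLittleO_pow_const_const_pow_of_one_lt (R := ℝ) 1 (r := 2) (by norm_num)).def
    (show 0 < k / (4 * (|a| + 1)) by positivity)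
  have h2 : ∀ᶠ t : ℕ in Filter.atTop, |b| / (k / 4) < (2 : ℝ) ^ t :=
    (tendsto_pow_atTop_atTop_of_one_lt (by norm_num : (1 : ℝ) < 2)).eventually_gt_atTop _
  obtain ⟨t0, ht⟩ := Filter.eventually_atTop.1 (h1.and h2)
  refine ⟨t0, fun t h => ?_⟩
  obtain ⟨h3, h4⟩ := ht t h
  simp only [pow_one, Real.norm_natCast, norm_pow, Real.norm_ofNat] at h3
  rw [div_lt_iff₀ (by positivity)] at h4
  have p : (0 : ℝ) < 2 ^ t := by positivity
  have h5 : a * t ≤ k / 4 * 2 ^ t := by
    calc a * t ≤ (|a| + 1) * t := by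
          apply mul_le_mul_of_nonneg_right _ (Nat.cast_nonneg t)
          linarith [le_abs_self a]
      _ ≤ (|a| + 1) * (k / (4 * (|a| + 1)) * 2 ^ t) :=
          mul_le_mul_of_nonneg_left h3 (by positivity)
      _ = k / 4 * 2 ^ t := by field_simp
  have h6 := le_abs_self b
  nlinarith

variable {V : Type} {G : SimpleGraph V} {X : V → ℤ} {H : V → ℕ} (hG : HB G X H)

include hG in
theorem adj_X {v v' : V} (h : G.Adj v v') : |X v - X v'| ≤ 2 ^ H v := by
  have p3 : (0 : ℤ) < 2 ^ H v := by positivity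
  have p4 : (0 : ℤ) < 2 ^ H v' := by positivity
  rcases hG.adj v v' h with ⟨h1, h2⟩ | ⟨h1, h2⟩ | ⟨h1, h2⟩
  · rw [h2]
  · rcases h2 with h2 | h2 <;> rw [h2]
    · simp
    · rw [sub_sub_cancel, abs_of_pos p3]
  · have e1 : (2 : ℤ) ^ H v = 2 * 2 ^ H v' := by rw [h1]; ring
    rw [e1]
    rcases h2 with h2 | h2 <;> rw [h2]
    · simp
    · rw [sub_sub_cancel_left, abs_neg, abs_of_pos p4]
      linarith

include hG in
/-- Positions change at most exponentially. -/
theorem X_lip (v v' : V) : |X v - X v'| ≤ G.dist v v' * 2 ^ (H v + G.dist v v') := by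
  obtain ⟨p, hp⟩ := hG.conn.exists_walk_length_eq_dist v v'
  rw [← hp]
  clear hp
  induction p with
  | nil => simp
  | @cons a b c h p ih =>
    rw [Walk.length_cons]
    have h1 := adj_X hG h
    have h2 : H b ≤ H a + 1 := by
      rcases hG.adj _ _ h with ⟨h1, -⟩ | ⟨h1, -⟩ | ⟨h1, -⟩ <;> omega
    have h3 : (2 : ℤ) ^ (H b + p.length) ≤ 2 ^ (H a + (p.length + 1)) :=
      pow_le_pow_right₀ (by norm_num) (by omega)
    have h4 : (2 : ℤ) ^ H a ≤ 2 ^ (H a + (p.length + 1)) :=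
      pow_le_pow_right₀ (by norm_num) (by omega)
    have tri : |X a - X c| ≤ |X a - X b| + |X b - X c| := abs_sub_le _ _ _
    have h5 : (p.length : ℤ) * 2 ^ (H b + p.length) ≤ p.length * 2 ^ (H a + (p.length + 1)) :=
      mul_le_mul_of_nonneg_left h3 (Nat.cast_nonneg _)
    push_cast
    linarith

include hG in
/-- The upper bound for the distance of two vertices which are not far apart. -/
theorem dist_le_log (hunb : ∀ N, ∃ u, N ≤ H u) (v v' : V) (B s : ℕ) (h : H v ≤ B) (h' : H v' ≤ B)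
    (hX : |X v - X v'| ≤ 2 ^ s * 2 ^ B) : G.dist v v' + H v + H v' ≤ 2 * B + 2 * s + 2 := by
  obtain ⟨u, hu⟩ := hunb (B + s)
  have h1 := dist_upper hG v v' u (B + s) (by omega) (by omega) hu
  have e : (2 : ℤ) ^ s * 2 ^ B = 2 ^ (B + s) := by ring
  rw [e] at hX
  have p : (0 : ℤ) < 2 ^ (B + s) := by positivity
  have h2 : (G.dist v v' : ℤ) * 2 ^ (B + s) ≤
      ((2 * ((B + s : ℕ) : ℤ) - H v - H v' + 1) + 1) * 2 ^ (B + s) := by
    rw [add_mul _ (1 : ℤ)]
    linarith
  have h3 := le_of_mul_le_mul_right h2 p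
  push_cast at h3
  omega

include hG in
/-- Positions along a path of bounded height. -/
theorem X_path (g : ℕ → V) (L B : ℕ) (hL : ∀ i, G.dist (g i) (g (i + 1)) ≤ L) : ∀ n : ℕ,
    (∀ i < n, H (g i) ≤ B) → |X (g 0) - X (g n)| ≤ n * (L * 2 ^ (B + L))
  | 0, _ => by simp
  | n + 1, h => by
    have ih := X_path g L B hL n fun i hi => h i (by omega)
    have h1 := X_lip hG (g n) (g (n + 1))
    have h2 := hL n
    have h3 := h n (by omega)
    have h4 : (2 : ℤ) ^ (H (g n) + G.dist (g n) (g (n + 1))) ≤ 2 ^ (B + L) :=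
      pow_le_pow_right₀ (by norm_num) (by omega)
    have h5 : (G.dist (g n) (g (n + 1)) : ℤ) ≤ L := by exact_mod_cast h2
    have h6 : (G.dist (g n) (g (n + 1)) : ℤ) * 2 ^ (H (g n) + G.dist (g n) (g (n + 1))) ≤
        L * 2 ^ (B + L) := mul_le_mul h5 h4 (by positivity) (by positivity)
    have tri : |X (g 0) - X (g (n + 1))| ≤ |X (g 0) - X (g n)| + |X (g n) - X (g (n + 1))| :=
      abs_sub_le _ _ _
    push_cast
    linarith

/-- The numerical bound for the positions along a path. -/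
theorem num_bound (n L B t : ℕ) (hn : n ≤ 2 ^ t) :
    (n : ℤ) * (L * 2 ^ (B + L)) ≤ 2 ^ (t + 2 * L) * 2 ^ B := by
  have h1 : (n : ℤ) ≤ 2 ^ t := by exact_mod_cast hn
  have h2 : (L : ℤ) ≤ 2 ^ L := by exact_mod_cast Nat.lt_two_pow_self.le
  calc (n : ℤ) * (L * 2 ^ (B + L)) ≤ 2 ^ t * (2 ^ L * 2 ^ (B + L)) :=
        mul_le_mul h1 (mul_le_mul_of_nonneg_right h2 (by positivity)) (by positivity)
          (by positivity)
    _ = 2 ^ (t + 2 * L) * 2 ^ B := by ring

include hG in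
/-- A quasi-geodesic ray has unbounded height. -/
theorem ray_unbounded (hunb : ∀ N, ∃ u, N ≤ H u) (g : ℕ → V) (k c : ℝ) (L : ℕ) (hk : 0 < k)
    (hg : ∀ n, k * n - c ≤ G.dist (g 0) (g n)) (hL : ∀ i, G.dist (g i) (g (i + 1)) ≤ L) (B : ℕ) :
    ∃ n, B ≤ H (g n) := by
  by_contra hcon
  push Not at hcon
  obtain ⟨t, ht⟩ := exists_big 2 (2 * B + 4 * L + 2 + c) k hk
  have h1 := ht t le_rfl
  have h2 := X_path hG g L B hL (2 ^ t) fun i _ => (hcon i).le
  have h3 := h2.trans (num_bound (2 ^ t) L B t le_rfl)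
  have h4 := dist_le_log hG hunb (g 0) (g (2 ^ t)) B (t + 2 * L) (hcon 0).le (hcon _).le h3
  have h5 := hg (2 ^ t)
  have h6 : (G.dist (g 0) (g (2 ^ t)) : ℝ) ≤ 2 * B + 2 * (t + 2 * L) + 2 := by
    have : G.dist (g 0) (g (2 ^ t)) ≤ 2 * B + 2 * (t + 2 * L) + 2 := by omega
    exact_mod_cast this
  push_cast at h5
  linarith

include hG in
/-- There is no bi-infinite quasi-geodesic if the heights are unbounded. -/
theorem no_line (hunb : ∀ N, ∃ u, N ≤ H u) (g : ℤ → V) (k c : ℝ) (L : ℕ) (hk : 0 < k)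
    (hg : ∀ m n : ℤ, k * |(m : ℝ) - n| - c ≤ G.dist (g m) (g n))
    (hL : ∀ i, G.dist (g i) (g (i + 1)) ≤ L) : False := by
  classical
  -- the number of steps
  obtain ⟨t0, ht0⟩ := exists_big 4 (12 * L + 4 + 2 * c) k hk
  -- the height to be reached
  obtain ⟨B, hB⟩ : ∃ B, B = H (g 0) + (L * 2 ^ t0 + 1) := ⟨_, rfl⟩
  have hr : ∃ n : ℕ, B ≤ H (g n) := ray_unbounded hG hunb (fun n : ℕ => g n) k c L hk
    (fun n => by
      have := hg 0 n
      simpa using this) (fun i => by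
      have := hL i
      simpa using this) B
  have hl : ∃ n : ℕ, B ≤ H (g (-n)) := ray_unbounded hG hunb (fun n : ℕ => g (-n)) k c L hk
    (fun n => by
      have := hg 0 (-n)
      simpa using this) (fun i => by
      have := hL (-(i : ℤ) - 1)
      rw [dist_comm] at this
      have e : (-(i : ℤ) - 1) + 1 = -i := by ring
      rw [e] at this
      have e' : -((i + 1 : ℕ) : ℤ) = -(i : ℤ) - 1 := by push_cast; ring
      simp only [e']
      exact this) B
  obtain ⟨a, ha, ha'⟩ : ∃ a : ℕ, B ≤ H (g a) ∧ ∀ i < a, H (g i) < B :=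
    ⟨Nat.find hr, Nat.find_spec hr, fun i hi => not_le.1 (Nat.find_min hr hi)⟩
  obtain ⟨b, hb, hb'⟩ : ∃ b : ℕ, B ≤ H (g (-b)) ∧ ∀ i < b, H (g (-(i : ℕ))) < B :=
    ⟨Nat.find hl, Nat.find_spec hl, fun i hi => not_le.1 (Nat.find_min hl hi)⟩
  have ha0 : a ≠ 0 := by
    rintro rfl
    simp only [Nat.cast_zero] at ha
    omega
  have hb0 : b ≠ 0 := by
    rintro rfl
    simp only [Nat.cast_zero, neg_zero] at hb
    omega
  -- the heights at the ends
  have hHa : H (g a) ≤ B + L := by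
    have h1 := H_lip hG (g a) (g ((a - 1 : ℕ) : ℤ))
    have h2 := hL ((a - 1 : ℕ) : ℤ)
    have e : (((a - 1 : ℕ) : ℤ) + 1) = a := by omega
    rw [e, dist_comm] at h2
    have := ha' (a - 1) (by omega)
    omega
  have hHb : H (g (-b)) ≤ B + L := by
    have h1 := H_lip hG (g (-b)) (g (-((b - 1 : ℕ) : ℤ)))
    have h2 := hL (-(b : ℤ))
    have e : (-(b : ℤ) + 1) = -((b - 1 : ℕ) : ℤ) := by omega
    rw [e] at h2
    have := hb' (b - 1) (by omega)
    omega
  -- the heights in between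
  have hmid : ∀ i : ℕ, i < a + b → H (g (-(b : ℤ) + i)) ≤ B + L := by
    intro i hi
    rcases Nat.lt_or_ge i b with h | h
    · rcases Nat.eq_zero_or_pos i with rfl | h0
      · simpa using hHb
      · have h1 := hb' (b - i) (by omega)
        have e : -(((b - i : ℕ) : ℤ)) = -(b : ℤ) + i := by omega
        rw [e] at h1
        omega
    · have h1 := ha' (i - b) (by omega)
      have e : ((i - b : ℕ) : ℤ) = -(b : ℤ) + i := by omega
      rw [e] at h1
      omega
  -- many steps are needed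
  have hmany : 2 ^ t0 < a := by
    have h1 : ∀ n : ℕ, H (g n) ≤ H (g 0) + n * L := by
      intro n
      induction n with
      | zero => simp
      | succ n ih =>
        have h2 := H_lip hG (g ((n + 1 : ℕ) : ℤ)) (g n)
        have h3 := hL n
        rw [dist_comm] at h2
        push_cast at h2 ⊢
        rw [add_mul, one_mul]
        omega
    have h2 := h1 a
    by_contra hcon
    push Not at hcon
    have h3 : a * L ≤ 2 ^ t0 * L := Nat.mul_le_mul_right _ hcon
    rw [mul_comm (2 ^ t0) L] at h3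
    omega
  set n := a + b with hn
  obtain ⟨t, ht1, ht2⟩ : ∃ t : ℕ, n ≤ 2 ^ t ∧ 2 ^ t ≤ 2 * n := by
    refine ⟨Nat.log 2 n + 1, (Nat.lt_pow_succ_log_self (by norm_num) n).le, ?_⟩
    rw [pow_succ, mul_comm]
    exact Nat.mul_le_mul_left 2 (Nat.pow_log_le_self 2 (by omega))
  have htt : t0 ≤ t := by
    by_contra hcon
    push Not at hcon
    have : 2 ^ t ≤ 2 ^ t0 := Nat.pow_le_pow_right (by norm_num) hcon.le
    omega
  have h1 := X_path hG (fun i : ℕ => g (-(b : ℤ) + i)) L (B + L) (fun i => by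
    have := hL (-(b : ℤ) + i)
    have e : -(b : ℤ) + i + 1 = -(b : ℤ) + ((i + 1 : ℕ) : ℤ) := by push_cast; ring
    rw [e] at this
    exact this) n hmid
  have h2 := h1.trans (num_bound n L (B + L) t ht1)
  have e0 : -(b : ℤ) + ((0 : ℕ) : ℤ) = -(b : ℤ) := by simp
  have en : -(b : ℤ) + (n : ℤ) = a := by rw [hn]; push_cast; ring
  simp only [e0, en] at h2
  have h3 := dist_le_log hG hunb (g (-b)) (g a) (B + L) (t + 2 * L) hHb hHa h2
  have h4 : G.dist (g (-b)) (g a) ≤ 2 * t + 6 * L + 2 := by omega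
  have h5 : (G.dist (g (-b)) (g a) : ℝ) ≤ 2 * t + 6 * L + 2 := by exact_mod_cast h4
  have h6 := hg (-b) a
  have h7 : |((-(b : ℤ) : ℤ) : ℝ) - ((a : ℤ) : ℝ)| = n := by
    push_cast
    rw [abs_of_neg (by
      have : (0 : ℝ) < a := by exact_mod_cast Nat.pos_of_ne_zero ha0
      have : (0 : ℝ) ≤ b := Nat.cast_nonneg b
      linarith), hn]
    push_cast
    ring
  rw [h7] at h6
  have h8 : (2 : ℝ) ^ t ≤ 2 * n := by exact_mod_cast ht2
  have h9 := ht0 t htt
  nlinarith

end Pool.Agent.R640.Horo
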