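import Mathlib

set_option autoImplicit false

/-! A criterion for a graph to be quasi-isometric to a tree, with respect to a base point. -/

namespace Pool.Agent.R640.QT

open Relation

universe u

variable {V : Type u} (G : SimpleGraph V) (o : V)

/-- `x` and `y` are joined by a path which stays at distance at least `n` from `o`. -/
def R (n : ℕ) : V → V → Prop :=
  ReflTransGen fun a b => G.Adj a b ∧ n ≤ G.dist o a ∧ n ≤ G.dist o b

theorem R_mono {m n : ℕ} (h : m ≤ n) {x y : V} (hxy : R G o n x y) : R G o m x y := by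
  induction hxy with
  | refl => exact ReflTransGen.refl
  | tail _ hab ih => exact ReflTransGen.tail ih ⟨hab.1, h.trans hab.2.1, h.trans hab.2.2⟩

theorem R_symm {n : ℕ} {x y : V} (h : R G o n x y) : R G o n y x := by
  induction h with
  | refl => exact ReflTransGen.refl
  | tail _ hab ih => exact ReflTransGen.head ⟨hab.1.symm, hab.2.2, hab.2.1⟩ ih

theorem R_trans {n : ℕ} {x y z : V} (h : R G o n x y) (h' : R G o n y z) : R G o n x z :=
  ReflTransGen.trans h h'

/-- Equivalent points are at the same distance from `o` and in the same component of the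
complement of the ball. -/
def st : Setoid V where
  r x y := G.dist o x = G.dist o y ∧ R G o (G.dist o x) x y
  iseqv := {
    refl := fun _ => ⟨rfl, ReflTransGen.refl⟩
    symm := fun h => ⟨h.1.symm, by rw [← h.1]; exact R_symm G o h.2⟩
    trans := fun h h' => ⟨h.1.trans h'.1, R_trans G o h.2 (by rw [h.1]; exact h'.2)⟩ }

/-- The vertices of the tree. -/
def T : Type u := Quotient (st G o)

/-- The projection to the tree. -/
def pr (x : V) : T G o := Quotient.mk (st G o) x

theorem pr_surj : Function.Surjective (pr G o) := Quotient.mk_surjective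

theorem pr_eq {x y : V} : pr G o x = pr G o y ↔
    G.dist o x = G.dist o y ∧ R G o (G.dist o x) x y :=
  ⟨fun h => Quotient.exact h, fun h => Quotient.sound h⟩

/-- The level of a vertex. -/
noncomputable def lev : T G o → ℕ := Quotient.lift (fun x => G.dist o x) fun _ _ h => h.1

theorem lev_pr (x : V) : lev G o (pr G o x) = G.dist o x := rfl

/-- `a` is the parent of `b`. -/
def E (a b : T G o) : Prop :=
  ∃ x y, pr G o x = a ∧ pr G o y = b ∧ G.dist o y = G.dist o x + 1 ∧ R G o (G.dist o x) x y

theorem E_lev {a b : T G o} (h : E G o a b) : lev G o b = lev G o a + 1 := by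
  obtain ⟨x, y, rfl, rfl, h1, -⟩ := h
  rw [lev_pr, lev_pr, h1]

theorem E_iff {x y : V} : E G o (pr G o x) (pr G o y) ↔
    G.dist o y = G.dist o x + 1 ∧ R G o (G.dist o x) x y := by
  constructor
  · rintro ⟨x', y', hx, hy, h1, h2⟩
    rw [pr_eq] at hx hy
    obtain ⟨hx1, hx2⟩ := hx
    obtain ⟨hy1, hy2⟩ := hy
    refine ⟨by omega, ?_⟩
    rw [← hx1]
    refine R_trans G o (R_symm G o hx2) (R_trans G o h2 ?_)
    exact R_mono G o (by omega) hy2
  · rintro ⟨h1, h2⟩
    exact ⟨x, y, rfl, rfl, h1, h2⟩

theorem E_unique {a a' b : T G o} (h : E G o a b) (h' : E G o a' b) : a = a' := by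
  obtain ⟨x, rfl⟩ := pr_surj G o a
  obtain ⟨x', rfl⟩ := pr_surj G o a'
  obtain ⟨y, rfl⟩ := pr_surj G o b
  rw [E_iff] at h h'
  rw [pr_eq]
  have h1 : G.dist o x = G.dist o x' := by omega
  refine ⟨h1, R_trans G o h.2 ?_⟩
  rw [h1]
  exact R_symm G o h'.2

/-- The tree. -/
def tree : SimpleGraph (T G o) where
  Adj a b := E G o a b ∨ E G o b a
  symm := ⟨fun _ _ h => h.symm⟩
  loopless := ⟨fun a h => by
    rcases h with h | h <;>
    · have := E_lev G o h
      omega⟩

variable {G o}

theorem exists_pred (hG : G.Connected) {x : V} {n : ℕ} (h : G.dist o x = n + 1) :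
    ∃ x', G.Adj x' x ∧ G.dist o x' = n := by
  obtain ⟨w, hw⟩ := hG.exists_walk_length_eq_dist x o
  rw [SimpleGraph.dist_comm, h] at hw
  cases w with
  | nil => simp at hw
  | cons hadj p =>
    rename_i x'
    refine ⟨x', hadj.symm, ?_⟩
    have h1 := SimpleGraph.dist_le p
    rw [SimpleGraph.Walk.length_cons] at hw
    have h2 := hG.dist_triangle (u := o) (v := x') (w := x)
    have h3 : G.dist x' x = 1 := SimpleGraph.dist_eq_one_iff_adj.2 hadj.symm
    rw [SimpleGraph.dist_comm] at h1
    omega

theorem adj_pr {x x' : V} (hadj : G.Adj x' x) {n : ℕ} (h : G.dist o x = n + 1)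
    (h' : G.dist o x' = n) : E G o (pr G o x') (pr G o x) := by
  rw [E_iff]
  refine ⟨by omega, ReflTransGen.single ⟨hadj, by omega, by omega⟩⟩

theorem reach_root (hG : G.Connected) (n : ℕ) : ∀ x : V, G.dist o x = n →
    (tree G o).Reachable (pr G o x) (pr G o o) := by
  induction n with
  | zero =>
    intro x hx
    rw [hG.dist_eq_zero_iff] at hx
    rw [hx]
  | succ n ih =>
    intro x hx
    obtain ⟨x', hadj, hx'⟩ := exists_pred hG hx
    have h1 : (tree G o).Adj (pr G o x) (pr G o x') := Or.inr (adj_pr hadj hx hx')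
    exact h1.reachable.trans (ih x' hx')

theorem tree_isTree (hG : G.Connected) : (tree G o).IsTree := by
  have hconn : (tree G o).Connected := by
    have : Nonempty (T G o) := ⟨pr G o o⟩
    refine SimpleGraph.Connected.mk ?_
    intro a b
    obtain ⟨x, rfl⟩ := pr_surj G o a
    obtain ⟨y, rfl⟩ := pr_surj G o b
    exact (reach_root hG _ x rfl).trans (reach_root hG _ y rfl).symm
  refine ⟨hconn, ?_⟩
  intro a c hc
  classical
  obtain ⟨b, hb, hmax⟩ : ∃ b ∈ c.support, ∀ b' ∈ c.support, lev G o b' ≤ lev G o b := by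
    have h1 : c.support.toFinset.Nonempty := ⟨a, by simp⟩
    obtain ⟨b, hb, h2⟩ := Finset.exists_max_image c.support.toFinset (lev G o) h1
    exact ⟨b, by simpa using hb, fun b' hb' => h2 b' (by simpa using hb')⟩
  have hc' := hc.rotate hb
  set c' := c.rotate b hb with hcc
  have hmax' : ∀ b' ∈ c'.support, lev G o b' ≤ lev G o b := by
    intro b' hb'
    apply hmax
    rwa [hcc, SimpleGraph.Walk.mem_support_rotate_iff] at hb'
  have hnil : ¬ c'.Nil := hc'.not_nil
  have h1 : (tree G o).Adj b c'.snd := c'.adj_snd hnil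
  have h2 : (tree G o).Adj c'.penultimate b := c'.adj_penultimate hnil
  have h3 := hmax' _ (c'.getVert_mem_support 1)
  have h4 := hmax' _ (c'.getVert_mem_support (c'.length - 1))
  change lev G o c'.snd ≤ _ at h3
  change lev G o c'.penultimate ≤ _ at h4
  apply hc'.snd_ne_penultimate
  rcases h1 with h1 | h1
  · have := E_lev G o h1
    omega
  · rcases h2 with h2 | h2
    · exact E_unique G o h1 h2
    · have := E_lev G o h2
      omega

theorem dist_tree_le (hG : G.Connected) (x y : V) :
    (tree G o).dist (pr G o x) (pr G o y) ≤ G.dist x y := by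
  have hT := (tree_isTree (o := o) hG).1
  have key : ∀ x y : V, ∀ (w : G.Walk x y),
      (tree G o).dist (pr G o x) (pr G o y) ≤ w.length := by
    intro x y w
    induction w with
    | nil => simp
    | @cons x z y hadj p ih =>
      have h0 : (tree G o).dist (pr G o x) (pr G o z) ≤ 1 := by
        have h1 := hG.dist_triangle (u := o) (v := x) (w := z)
        have h2 := hG.dist_triangle (u := o) (v := z) (w := x)
        have h3 : G.dist x z = 1 := SimpleGraph.dist_eq_one_iff_adj.2 hadj
        rw [SimpleGraph.dist_comm (u := z), h3] at h2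
        rw [h3] at h1
        rcases lt_trichotomy (G.dist o x) (G.dist o z) with h | h | h
        · have h4 : (tree G o).Adj (pr G o x) (pr G o z) :=
            Or.inl (adj_pr hadj (n := G.dist o x) (by omega) rfl)
          exact (SimpleGraph.dist_eq_one_iff_adj.2 h4).le
        · have h4 : pr G o x = pr G o z := by
            rw [pr_eq]
            exact ⟨h, ReflTransGen.single ⟨hadj, le_rfl, h.le⟩⟩
          rw [h4]
          simp
        · have h4 : (tree G o).Adj (pr G o x) (pr G o z) :=
            Or.inr (adj_pr hadj.symm (n := G.dist o z) (by omega) rfl)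
          exact (SimpleGraph.dist_eq_one_iff_adj.2 h4).le
      have h1 := hT.dist_triangle (u := pr G o x) (v := pr G o z) (w := pr G o y)
      rw [SimpleGraph.Walk.length_cons]
      omega
  obtain ⟨w, hw⟩ := hG.exists_walk_length_eq_dist x y
  rw [← hw]
  exact key x y w

theorem walk_meet {a b : T G o} (w : (tree G o).Walk a b) : ∀ x y : V, pr G o x = a →
    pr G o y = b → ∃ k, k ≤ G.dist o x ∧ k ≤ G.dist o y ∧ R G o k x y ∧
      G.dist o x + G.dist o y ≤ 2 * k + w.length := by
  induction w with
  | nil =>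
    intro x y hx hy
    have h : pr G o x = pr G o y := hx.trans hy.symm
    rw [pr_eq] at h
    exact ⟨G.dist o x, le_rfl, h.1.le, h.2, by simp; omega⟩
  | @cons a c b hadj p ih =>
    intro x y hx hy
    obtain ⟨z, hz⟩ := pr_surj G o c
    obtain ⟨k, h1, h2, h3, h4⟩ := ih z y hz hy
    rw [SimpleGraph.Walk.length_cons]
    rcases hadj with hE | hE
    · rw [← hx, ← hz, E_iff] at hE
      obtain ⟨h5, h6⟩ := hE
      by_cases hk : k ≤ G.dist o x
      · exact ⟨k, hk, h2, R_trans G o (R_mono G o hk h6) h3, by omega⟩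
      · exact ⟨G.dist o x, le_rfl, by omega, R_trans G o h6 (R_mono G o (by omega) h3), by omega⟩
    · rw [← hx, ← hz, E_iff] at hE
      obtain ⟨h5, h6⟩ := hE
      exact ⟨k, by omega, h2, R_trans G o (R_symm G o (R_mono G o h1 h6)) h3, by omega⟩

/-- The criterion. -/
theorem qi_tree (hG : G.Connected) (C : ℕ)
    (h : ∀ (n : ℕ) (x y : V), n ≤ G.dist o x → n ≤ G.dist o y → R G o n x y →
      2 * n + G.dist x y ≤ G.dist o x + G.dist o y + C) :
    ∃ (T : Type u) (τ : SimpleGraph T) (φ : V → T), τ.IsTree ∧ Function.Surjective φ ∧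
      ∀ x y, τ.dist (φ x) (φ y) ≤ G.dist x y ∧ G.dist x y ≤ τ.dist (φ x) (φ y) + C := by
  have hT := tree_isTree (o := o) hG
  refine ⟨T G o, tree G o, pr G o, hT, pr_surj G o, fun x y => ⟨dist_tree_le hG x y, ?_⟩⟩
  obtain ⟨w, hw⟩ := hT.1.exists_walk_length_eq_dist (pr G o x) (pr G o y)
  obtain ⟨k, h1, h2, h3, h4⟩ := walk_meet w x y rfl rfl
  have h5 := h k x y h1 h2 h3
  omega

end Pool.Agent.R640.QT
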