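import Pool.Agent.R640.InvMon
import Pool.Agent.R640.QITree

set_option autoImplicit false

/-! Basic facts on inverse monoids given by generators and relations. -/

namespace Pool.Agent.R640.IM

variable {A : Type} {R : Set (List (A × Bool) × List (A × Bool))}

theorem inv_append (u v : List (A × Bool)) : inv (u ++ v) = inv v ++ inv u := by
  simp [inv]

theorem inv_inv (u : List (A × Bool)) : inv (inv u) = u := by
  simp [inv, Function.comp_def]

theorem inv_length (u : List (A × Bool)) : (inv u).length = u.length := by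
  simp [inv]

theorem val_append (u v : List (A × Bool)) : val R (u ++ v) = val R u * val R v := by
  unfold val
  rw [FreeMonoid.ofList_append]
  exact map_mul _ _ _

theorem val_nil : val R [] = 1 := map_one _

theorem val_surj (s : InvMon R) : ∃ u, val R u = s := by
  obtain ⟨u, hu⟩ := PresentedMonoid.surjective_mk s
  exact ⟨u.toList, hu⟩

theorem val_reg (u : List (A × Bool)) : val R u * val R (inv u) * val R u = val R u := by
  rw [← val_append, ← val_append]
  exact PresentedMonoid.mk_eq_mk_of_rel (Rel.regular u)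

theorem val_comm (u v : List (A × Bool)) :
    val R u * val R (inv u) * (val R v * val R (inv v)) =
      val R v * val R (inv v) * (val R u * val R (inv u)) := by
  simp only [← val_append]
  exact PresentedMonoid.mk_eq_mk_of_rel (Rel.commute u v)

theorem val_rel {r s : List (A × Bool)} (h : (r, s) ∈ R) : val R r = val R s :=
  PresentedMonoid.mk_eq_mk_of_rel (Rel.rel r s h)

theorem val_reg' (u : List (A × Bool)) :
    val R (inv u) * val R u * val R (inv u) = val R (inv u) := by
  have := val_reg (R := R) (inv u)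
  rwa [inv_inv] at this

theorem val_idem (u : List (A × Bool)) :
    val R (u ++ inv u) * val R (u ++ inv u) = val R (u ++ inv u) := by
  rw [val_append, ← mul_assoc, val_reg]

/-- Going back along a word. -/
theorem back {s m : InvMon R} {b : List (A × Bool)} (h : s * val R b * m = s) :
    s * val R b * val R (inv b) = s := by
  obtain ⟨σ, rfl⟩ := val_surj s
  set s := val R σ with hs
  set B := val R b * val R (inv b) with hB
  have h1 : s * B = s * B * val R (inv σ) * s := by
    have h2 := val_comm (R := R) (inv σ) b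
    rw [inv_inv, ← hs, ← hB] at h2
    calc s * B = s * val R (inv σ) * s * B := by rw [hs, val_reg]
      _ = s * (val R (inv σ) * s * B) := by simp only [mul_assoc]
      _ = s * (B * (val R (inv σ) * s)) := by rw [h2]
      _ = s * B * val R (inv σ) * s := by simp only [mul_assoc]
  have h2 : s = s * B * val R (inv σ) * s := by
    calc s = s * val R b * m := h.symm
      _ = s * (B * val R b) * m := by rw [hB, val_reg]
      _ = s * B * val R b * m := by simp only [mul_assoc]
      _ = s * B * val R (inv σ) * s * val R b * m := by rw [← h1]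
      _ = s * B * val R (inv σ) * (s * val R b * m) := by simp only [mul_assoc]
      _ = s * B * val R (inv σ) * s := by rw [h]
  rw [mul_assoc, ← hB, h1, ← h2]

variable {w : List (A × Bool)}

theorem base_mul (x : Vert R w) : val R (w ++ inv w) * x.1 = x.1 := by
  obtain ⟨m, hm⟩ := x.2.1
  rw [← hm, ← mul_assoc, val_idem]

/-- The base vertex. -/
def base (R : Set (List (A × Bool) × List (A × Bool))) (w : List (A × Bool)) : Vert R w :=
  ⟨val R (w ++ inv w), ⟨1, mul_one _⟩, ⟨1, mul_one _⟩⟩

theorem vert_of_between {x y : Vert R w} {m m' : InvMon R} (h : x.1 * m * m' = y.1) :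
    (∃ n, val R (w ++ inv w) * n = x.1 * m) ∧ ∃ n, x.1 * m * n = val R (w ++ inv w) := by
  obtain ⟨n, hn⟩ := x.2.1
  obtain ⟨n', hn'⟩ := y.2.2
  refine ⟨⟨n * m, by rw [← mul_assoc, hn]⟩, ⟨m' * n', by rw [← mul_assoc, h, hn']⟩⟩

theorem back_vert {x y : Vert R w} {b : List (A × Bool)} (h : x.1 * val R b = y.1) :
    y.1 * val R (inv b) = x.1 := by
  obtain ⟨n, hn⟩ := x.2.1
  obtain ⟨n', hn'⟩ := y.2.2
  have h1 : x.1 * val R b * (n' * n) = x.1 := by
    rw [h, ← mul_assoc, hn', hn]
  rw [← h]
  exact back h1

theorem adj_iff {x y : Vert R w} : (schutz R w).Adj x y ↔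
    x ≠ y ∧ ∃ a : A × Bool, x.1 * val R [a] = y.1 := by
  constructor
  · rintro ⟨h, ⟨a, ha⟩ | ⟨a, ha⟩⟩
    · exact ⟨h, a, ha⟩
    · exact ⟨h, (a.1, !a.2), back_vert ha⟩
  · rintro ⟨h, a, ha⟩
    exact ⟨h, Or.inl ⟨a, ha⟩⟩

/-- A word leading from `x` to `y` gives a path. -/
theorem exists_walk : ∀ (u : List (A × Bool)) (x y : Vert R w), x.1 * val R u = y.1 →
    ∃ p : (schutz R w).Walk x y, p.length ≤ u.length := by
  intro u
  induction u with
  | nil =>
    intro x y h
    rw [val_nil, mul_one] at h
    obtain rfl : x = y := Subtype.ext h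
    exact ⟨SimpleGraph.Walk.nil, by simp⟩
  | cons a u ih =>
    intro x y h
    have e1 : val R (a :: u) = val R [a] * val R u := val_append [a] u
    rw [e1, ← mul_assoc] at h
    let z : Vert R w := ⟨x.1 * val R [a], vert_of_between h⟩
    obtain ⟨p, hp⟩ := ih z y h
    by_cases hxz : x = z
    · rw [hxz]
      exact ⟨p, by simp; omega⟩
    · have hadj : (schutz R w).Adj x z := adj_iff.2 ⟨hxz, a, rfl⟩
      exact ⟨SimpleGraph.Walk.cons hadj p, by simp [hp]⟩

theorem connected : (schutz R w).Connected := by
  have : Nonempty (Vert R w) := ⟨base R w⟩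
  refine SimpleGraph.Connected.mk ?_
  have key : ∀ x : Vert R w, (schutz R w).Reachable (base R w) x := by
    intro x
    obtain ⟨m, hm⟩ := x.2.1
    obtain ⟨u, rfl⟩ := val_surj m
    obtain ⟨p, -⟩ := exists_walk u (base R w) x hm
    exact ⟨p⟩
  exact fun x y => (key x).symm.trans (key y)

theorem dist_le {u : List (A × Bool)} {x y : Vert R w} (h : x.1 * val R u = y.1) :
    (schutz R w).dist x y ≤ u.length := by
  obtain ⟨p, hp⟩ := exists_walk u x y h
  exact (SimpleGraph.dist_le p).trans hp

/-- The word along a path. -/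
theorem exists_word {x y : Vert R w} (p : (schutz R w).Walk x y) :
    ∃ u : List (A × Bool), u.length = p.length ∧
      ∀ i, x.1 * val R (u.take i) = (p.getVert i).1 := by
  induction p with
  | nil =>
    refine ⟨[], rfl, fun i => ?_⟩
    rw [List.take_nil, val_nil, mul_one]
    rfl
  | cons hadj p ih =>
    obtain ⟨u, hu, hu'⟩ := ih
    obtain ⟨-, a, ha⟩ := adj_iff.1 hadj
    refine ⟨a :: u, by simp [hu], fun i => ?_⟩
    cases i with
    | zero =>
      rw [List.take_zero, val_nil, mul_one, SimpleGraph.Walk.getVert_zero]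
    | succ i =>
      rw [List.take_succ_cons, SimpleGraph.Walk.getVert_cons_succ, ← hu']
      have e1 : val R (a :: u.take i) = val R [a] * val R (u.take i) := val_append [a] _
      rw [e1, ← mul_assoc, ha]

open Relation in
/-- Points joined outside of a ball are joined by a path outside of the ball. -/
theorem R_walk {V : Type*} {G : SimpleGraph V} {o : V} {n : ℕ} {x y : V}
    (hx : n ≤ G.dist o x) (h : QT.R G o n x y) :
    ∃ p : G.Walk x y, ∀ v ∈ p.support, n ≤ G.dist o v := by
  induction h with
  | refl => exact ⟨SimpleGraph.Walk.nil, by simpa using hx⟩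
  | tail _ hab ih =>
    obtain ⟨p, hp⟩ := ih
    refine ⟨p.concat hab.1, fun v hv => ?_⟩
    rw [SimpleGraph.Walk.support_concat, List.mem_append] at hv
    rcases hv with hv | hv
    · exact hp v hv
    · rw [List.mem_singleton] at hv
      rw [hv]
      exact hab.2.2

/-- The criterion for Schützenberger graphs. -/
theorem qiTree_of {V : Type} {G : SimpleGraph V} (hG : G.Connected) (o : V) (C : ℕ)
    (h : ∀ (n : ℕ) (x y : V) (p : G.Walk x y), (∀ v ∈ p.support, n ≤ G.dist o v) →
      2 * n + G.dist x y ≤ G.dist o x + G.dist o y + C) : QITree G := by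
  refine ⟨hG, ?_⟩
  obtain ⟨T, τ, φ, h1, h2, h3⟩ := QT.qi_tree (o := o) hG C (fun n x y hx _ hR => by
    obtain ⟨p, hp⟩ := R_walk hx hR
    exact h n x y p hp)
  refine ⟨T, τ, φ, 1, 1, C, h1, one_pos, one_pos, fun x y => ?_, fun t => ?_⟩
  · obtain ⟨h4, h5⟩ := h3 x y
    have h6 : (τ.dist (φ x) (φ y) : ℝ) ≤ G.dist x y := by exact_mod_cast h4
    have h7 : (G.dist x y : ℝ) ≤ τ.dist (φ x) (φ y) + C := by exact_mod_cast h5
    have h8 : (0 : ℝ) ≤ C := Nat.cast_nonneg _
    constructor <;> linarith
  · obtain ⟨x, hx⟩ := h2 t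
    refine ⟨x, ?_⟩
    rw [hx, SimpleGraph.dist_self]
    simp

end Pool.Agent.R640.IM
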