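import Mathlib

set_option autoImplicit false

/-! Finitely presented inverse monoids and their Schützenberger graphs. -/

namespace Pool.Agent.R640.IM

variable {A : Type}

/-- The formal inverse of a word; `(a, true)` stands for `a` and `(a, false)` for `a⁻¹`. -/
def inv (u : List (A × Bool)) : List (A × Bool) := (u.map fun p => (p.1, !p.2)).reverse

/-- The defining relations of the inverse monoid `Inv⟨A ∣ R⟩`. -/
inductive Rel (R : Set (List (A × Bool) × List (A × Bool))) :
    FreeMonoid (A × Bool) → FreeMonoid (A × Bool) → Prop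
  | regular (u : List (A × Bool)) :
    Rel R (FreeMonoid.ofList (u ++ inv u ++ u)) (FreeMonoid.ofList u)
  | commute (u v : List (A × Bool)) :
    Rel R (FreeMonoid.ofList (u ++ inv u ++ (v ++ inv v)))
      (FreeMonoid.ofList (v ++ inv v ++ (u ++ inv u)))
  | rel (r s : List (A × Bool)) : (r, s) ∈ R → Rel R (FreeMonoid.ofList r) (FreeMonoid.ofList s)

/-- The inverse monoid `Inv⟨A ∣ R⟩`: the monoid of words over `A ∪ A⁻¹` modulo the relations
`u u⁻¹ u = u`, `u u⁻¹ v v⁻¹ = v v⁻¹ u u⁻¹` for all words `u`, `v` and `r = s` for `(r, s) ∈ R`. -/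
def InvMon (R : Set (List (A × Bool) × List (A × Bool))) : Type := PresentedMonoid (Rel R)

instance (R : Set (List (A × Bool) × List (A × Bool))) : Monoid (InvMon R) :=
  (inferInstance : Monoid (PresentedMonoid (Rel R)))

/-- The element represented by a word. -/
def val (R : Set (List (A × Bool) × List (A × Bool))) (u : List (A × Bool)) : InvMon R :=
  PresentedMonoid.mk (Rel R) (FreeMonoid.ofList u)

/-- The vertices of the Schützenberger graph of `w`, which is the strongly connected component
of `w w⁻¹` in the Cayley graph: the elements which can be reached from `w w⁻¹` and from which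
`w w⁻¹` can be reached. -/
def Vert (R : Set (List (A × Bool) × List (A × Bool))) (w : List (A × Bool)) : Type :=
  {s : InvMon R // (∃ m, val R (w ++ inv w) * m = s) ∧ ∃ m, s * m = val R (w ++ inv w)}

/-- The Schützenberger graph of `w`. -/
def schutz (R : Set (List (A × Bool) × List (A × Bool))) (w : List (A × Bool)) :
    SimpleGraph (Vert R w) :=
  SimpleGraph.fromRel fun x y => ∃ a : A × Bool, x.1 * val R [a] = y.1

/-- The connected graph `G` is quasi-isometric to a tree. -/
def QITree {V : Type} (G : SimpleGraph V) : Prop :=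
  G.Connected ∧ ∃ (T : Type) (τ : SimpleGraph T) (φ : V → T) (k K c : ℝ), τ.IsTree ∧ 0 < k ∧
    0 < K ∧ (∀ x y, k * G.dist x y - c ≤ τ.dist (φ x) (φ y) ∧
      τ.dist (φ x) (φ y) ≤ K * G.dist x y + c) ∧ ∀ t, ∃ x, (τ.dist (φ x) t : ℝ) ≤ c

/-- The inverse monoid `Inv⟨A ∣ R⟩` is tree-like. -/
def TreeLike (R : Set (List (A × Bool) × List (A × Bool))) : Prop :=
  ∀ w, QITree (schutz R w)

/-- The language of the Schützenberger automaton of `w`: the words `u` with `u ≥ w` for the
natural partial order of the inverse monoid. -/
def lang (R : Set (List (A × Bool) × List (A × Bool))) (w : List (A × Bool)) :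
    Language (A × Bool) :=
  {u | ∃ f : InvMon R, f * f = f ∧ val R w = f * val R u}

end Pool.Agent.R640.IM
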