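import Mathlib

set_option autoImplicit false

/-! Word lengths and Gromov products with respect to arbitrary generating sets of a group. -/

namespace Pool.Agent.R640

open Pointwise

variable {G : Type*} [Group G]

/-- The word length of `g` with respect to `S`. -/
noncomputable def len (S : Set G) (g : G) : ℕ := sInf {n : ℕ | g ∈ (S ∪ S⁻¹) ^ n}

/-- The Gromov product of `a` and `b` with base point `1` for the word metric of `S`. -/
noncomputable def gp (S : Set G) (a b : G) : ℝ :=
  ((len S a : ℝ) + (len S b : ℝ) - (len S (a⁻¹ * b) : ℝ)) / 2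

theorem len_le_of_mem {S : Set G} {g : G} {n : ℕ} (h : g ∈ (S ∪ S⁻¹) ^ n) : len S g ≤ n :=
  Nat.sInf_le h

theorem len_one (S : Set G) : len S (1 : G) = 0 := by
  have : len S (1 : G) ≤ 0 := len_le_of_mem (by simp)
  omega

theorem exists_mem_pow {S : Set G} (hS : Subgroup.closure S = ⊤) (g : G) :
    ∃ n : ℕ, g ∈ (S ∪ S⁻¹) ^ n := by
  have hg : g ∈ (Subgroup.closure S).toSubmonoid := by rw [hS]; trivial
  rw [Subgroup.closure_toSubmonoid] at hg
  obtain ⟨l, hl, rfl⟩ := Submonoid.exists_list_of_mem_closure hg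
  refine ⟨l.length, ?_⟩
  clear hg
  induction l with
  | nil => simp
  | cons a l ih =>
    rw [List.prod_cons, List.length_cons, pow_succ']
    exact Set.mul_mem_mul (hl a List.mem_cons_self)
      (ih fun y hy => hl y (List.mem_cons_of_mem _ hy))

theorem mem_pow_len {S : Set G} (hS : Subgroup.closure S = ⊤) (g : G) :
    g ∈ (S ∪ S⁻¹) ^ len S g :=
  Nat.sInf_mem (exists_mem_pow hS g)

theorem len_mul_le {S : Set G} (hS : Subgroup.closure S = ⊤) (g h : G) :
    len S (g * h) ≤ len S g + len S h := by
  apply len_le_of_mem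
  rw [pow_add]
  exact Set.mul_mem_mul (mem_pow_len hS g) (mem_pow_len hS h)

theorem len_inv_le {S : Set G} (hS : Subgroup.closure S = ⊤) (g : G) :
    len S g⁻¹ ≤ len S g := by
  apply len_le_of_mem
  have h := mem_pow_len hS g
  have h1 : (S ∪ S⁻¹) ^ len S g = ((S ∪ S⁻¹) ^ len S g)⁻¹ := by
    rw [← inv_pow]
    congr 1
    rw [Set.union_inv, inv_inv, Set.union_comm]
  rw [h1]
  exact Set.inv_mem_inv.2 h

theorem len_inv {S : Set G} (hS : Subgroup.closure S = ⊤) (g : G) :
    len S g⁻¹ = len S g := by
  apply le_antisymm (len_inv_le hS g)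
  have := len_inv_le hS g⁻¹
  rwa [inv_inv] at this

theorem len_le_one {S : Set G} {x : G} (hx : x ∈ S) : len S x ≤ 1 :=
  len_le_of_mem (by rw [pow_one]; exact Or.inl hx)

theorem len_pow_le {S : Set G} (hS : Subgroup.closure S = ⊤) (g : G) (n : ℕ) :
    len S (g ^ n) ≤ n * len S g := by
  induction n with
  | zero => simp [len_one]
  | succ n ih =>
    rw [pow_succ]
    have := len_mul_le hS (g ^ n) g
    calc len S (g ^ n * g) ≤ len S (g ^ n) + len S g := this
      _ ≤ n * len S g + len S g := by omega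
      _ = (n + 1) * len S g := by ring

theorem le_len_of_lip {S : Set G} (hS : Subgroup.closure S = ⊤) (f : G → ℤ) (h1 : f 1 ≤ 0)
    (h : ∀ g x, x ∈ S ∪ S⁻¹ → f (g * x) ≤ f g + 1) (g : G) : f g ≤ len S g := by
  have key : ∀ (n : ℕ) (g : G), g ∈ (S ∪ S⁻¹) ^ n → f g ≤ n := by
    intro n
    induction n with
    | zero =>
      intro g hg
      rw [pow_zero, Set.mem_one] at hg
      rw [hg]
      simpa using h1
    | succ n ih =>
      intro g hg
      rw [pow_succ] at hg
      obtain ⟨a, ha, x, hx, rfl⟩ := Set.mem_mul.1 hg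
      have h2 := h a x hx
      have h3 := ih a ha
      push_cast
      omega
  exact key _ g (mem_pow_len hS g)

theorem len_le_mul {X Y : Set G} (hX : Subgroup.closure X = ⊤) (hY : Subgroup.closure Y = ⊤)
    {C : ℕ} (h : ∀ y ∈ Y, len X y ≤ C) (g : G) : len X g ≤ C * len Y g := by
  have key : ∀ (n : ℕ) (g : G), g ∈ (Y ∪ Y⁻¹) ^ n → len X g ≤ C * n := by
    intro n
    induction n with
    | zero =>
      intro g hg
      rw [pow_zero, Set.mem_one] at hg
      rw [hg, len_one]
      exact Nat.zero_le _
    | succ n ih =>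
      intro g hg
      rw [pow_succ] at hg
      obtain ⟨a, ha, x, hx, rfl⟩ := Set.mem_mul.1 hg
      have h2 : len X x ≤ C := by
        rcases hx with hx | hx
        · exact h x hx
        · rw [← len_inv hX]
          exact h _ hx
      have h3 := ih a ha
      calc len X (a * x) ≤ len X a + len X x := len_mul_le hX _ _
        _ ≤ C * n + C := by omega
        _ = C * (n + 1) := by ring
  exact key _ g (mem_pow_len hY g)

end Pool.Agent.R640
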