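import Pool.Agent.R640.InvMon

set_option autoImplicit false

/-! Membership problems for inverse monoids. -/

namespace Pool.Agent.R640.IM

variable {A : Type}

/-- A run on the word `u` from the state `p` to the state `q` of the finite automaton with the
list of transitions `T`. -/
def Run (T : List (ℕ × (A × Bool) × ℕ)) : ℕ → List (A × Bool) → ℕ → Prop
  | p, [], q => p = q
  | p, a :: u, q => ∃ r, (p, a, r) ∈ T ∧ Run T r u q

variable (R : Set (List (A × Bool) × List (A × Bool)))

/-- The word `w` represents an element of the image of the language of the finite automaton with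
transitions `T`, initial states `I` and final states `F`. -/
def RatMem (T : List (ℕ × (A × Bool) × ℕ)) (I F : List ℕ) (w : List (A × Bool)) : Prop :=
  ∃ p ∈ I, ∃ q ∈ F, ∃ u, Run T p u q ∧ val R u = val R w

/-- The word `w` represents an element of the submonoid generated by the words in `X`. -/
def SubMem (X : List (List (A × Bool))) (w : List (A × Bool)) : Prop :=
  ∀ H : Submonoid (InvMon R), (∀ u ∈ X, val R u ∈ H) → val R w ∈ H

/-- The submonoid `H` is an inverse submonoid. -/
def IsInv (H : Submonoid (InvMon R)) : Prop := ∀ u, val R u ∈ H → val R (inv u) ∈ H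

/-- The word `w` represents an element of the inverse submonoid generated by the words in `X`. -/
def InvMem (X : List (List (A × Bool))) (w : List (A × Bool)) : Prop :=
  ∀ H : Submonoid (InvMon R), IsInv R H → (∀ u ∈ X, val R u ∈ H) → val R w ∈ H

/-- The submonoid `H` is closed: `h ∈ H` and `h ≤ m`, i.e. `h = f m` for an idempotent `f`,
imply `m ∈ H`. -/
def IsCl (H : Submonoid (InvMon R)) : Prop :=
  ∀ h ∈ H, ∀ m f : InvMon R, f * f = f → h = f * m → m ∈ H

/-- The word `w` represents an element of the smallest closed inverse submonoid which contains the
elements given by the words in `X`. -/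
def ClMem (X : List (List (A × Bool))) (w : List (A × Bool)) : Prop :=
  ∀ H : Submonoid (InvMon R), IsInv R H → IsCl R H → (∀ u ∈ X, val R u ∈ H) → val R w ∈ H

end Pool.Agent.R640.IM
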