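import Pool.Agent.R640.MemPres

set_option autoImplicit false

/-! The Schützenberger graphs of the inverse monoid of a queue machine are finite. -/

namespace Pool.Agent.R640.IM

namespace Mem

/-- A finite connected graph is quasi-isometric to a tree. -/
theorem qiTree_finite {V : Type} [Finite V] {G : SimpleGraph V} (hG : G.Connected) : QITree G := by
  refine ⟨hG, Unit, ⊥, fun _ => (), 1, 1, ?_⟩
  obtain ⟨c, hc⟩ : ∃ c : ℕ, ∀ p : V × V, G.dist p.1 p.2 ≤ c := by
    obtain ⟨c, hc⟩ := (Set.finite_range (fun p : V × V => G.dist p.1 p.2)).bddAbove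
    exact ⟨c, fun p => hc ⟨p, rfl⟩⟩
  refine ⟨c, ?_, one_pos, one_pos, ?_, ?_⟩
  · rw [SimpleGraph.isTree_iff_existsUnique_path]
    refine ⟨inferInstance, fun v w => ?_⟩
    cases v
    cases w
    exact ⟨SimpleGraph.Walk.nil, SimpleGraph.Walk.IsPath.nil, fun p hp => by
      cases p with
      | nil => rfl
      | cons h _ => exact absurd h (by simp)⟩
  · intro x y
    have h1 : (G.dist x y : ℝ) ≤ c := by exact_mod_cast hc (x, y)
    have h2 : (0 : ℝ) ≤ G.dist x y := Nat.cast_nonneg _
    have h3 : (0 : ℝ) ≤ c := Nat.cast_nonneg _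
    rw [SimpleGraph.dist_self, Nat.cast_zero]
    constructor <;> linarith
  · intro t
    obtain ⟨x⟩ := hG.nonempty
    refine ⟨x, ?_⟩
    rw [SimpleGraph.dist_self, Nat.cast_zero]
    exact Nat.cast_nonneg _

section machine

variable {A S : Type} (e : A ≃ Option (Option S)) (P : S → S → Option (List S))

/-- The level change of a letter. -/
def lv (a : A × Bool) : ℤ :=
  match e a.1 with
  | some none => if a.2 then 1 else -1
  | _ => 0

/-- The level change of a word. -/
def lev (u : List (A × Bool)) : ℤ := (u.map (lv e)).sum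

theorem lv_neg (a : A) (b : Bool) : lv e (a, !b) = - lv e (a, b) := by
  unfold lv
  rcases h : e a with _ | _ | s <;> cases b <;> simp

theorem lev_append (u v : List (A × Bool)) : lev e (u ++ v) = lev e u + lev e v := by
  simp [lev]

theorem lv_abs (a : A × Bool) : |lv e a| ≤ 1 := by
  obtain ⟨a, b⟩ := a
  unfold lv
  rcases h : e a with _ | _ | s <;> cases b <;> simp

theorem lev_abs : ∀ u : List (A × Bool), |lev e u| ≤ u.length
  | [] => by simp [lev]
  | a :: u => by
    have h1 : lev e (a :: u) = lv e a + lev e u := by simp [lev]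
    have h2 := lev_abs u
    have h3 := lv_abs e a
    have h4 := abs_add_le (lv e a) (lev e u)
    rw [h1, List.length_cons]
    push_cast
    linarith

theorem lev_word (l : List S) : lev e (l.map (lt e)) = 0 := by
  unfold lev
  rw [List.map_map]
  have : (lv e ∘ lt e) = fun _ : S => (0 : ℤ) := by
    funext s
    simp [lv, lt]
  rw [this]
  simp

theorem lv_lt (s : S) : lv e (lt e s) = 0 := by simp [lv, lt]

theorem lv_rh (b : Bool) : lv e (rh e b) = if b then 1 else -1 := by simp [lv, rh]

variable (w : List (A × Bool))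

/-- The vertices of the path labelled by `w` at a given level. -/
def Bs (c : ℤ) : Set (InvMon (QR e P)) :=
  {s | ∃ k ≤ w.length, lev e (w.take k) = c ∧
    s = val (QR e P) (w ++ inv w) * val (QR e P) (w.take k)}

theorem Bs_finite (c : ℤ) : (Bs e P w c).Finite := by
  refine ((Finset.range (w.length + 1)).finite_toSet.image
    (fun k => val (QR e P) (w ++ inv w) * val (QR e P) (w.take k))).subset ?_
  rintro s ⟨k, hk, -, rfl⟩
  exact ⟨k, by simp only [Finset.coe_range, Set.mem_Iio]; omega, rfl⟩

/-- The vertices at the levels counted from the lowest one. -/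
def Zs : ℕ → Set (InvMon (QR e P))
  | 0 => Bs e P w (-w.length)
  | n + 1 => Bs e P w (-w.length + (n + 1)) ∪ {s | ∃ r ∈ Zs n, ∃ x y l k, P x y = some l ∧
      k ≤ l.length ∧ s = r * val (QR e P) [rh e true] * val (QR e P) ((l.map (lt e)).take k)}

theorem Zs_finite [Finite S] : ∀ n, (Zs e P w n).Finite
  | 0 => Bs_finite e P w _
  | n + 1 => by
    refine (Bs_finite e P w _).union ?_
    have h : (⋃ r ∈ Zs e P w n, ⋃ x : S, ⋃ y : S,
        ⋃ k ∈ (Finset.range (((P x y).getD []).length + 1) : Set ℕ),
          {r * val (QR e P) [rh e true] *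
            val (QR e P) ((((P x y).getD []).map (lt e)).take k)}).Finite := by
      refine (Zs_finite n).biUnion fun r _ => ?_
      refine Set.finite_iUnion fun x => Set.finite_iUnion fun y => ?_
      exact (Finset.finite_toSet _).biUnion fun k _ => Set.finite_singleton _
    refine h.subset ?_
    rintro s ⟨r, hr, x, y, l, k, hl, hk, rfl⟩
    simp only [Set.mem_iUnion]
    refine ⟨r, hr, x, y, k, ?_, ?_⟩
    · rw [hl, Option.getD_some]
      simp only [Finset.coe_range, Set.mem_Iio]
      omega
    · rw [hl, Option.getD_some]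
      rfl

/-- The vertices with their levels. -/
def Ys : Set (InvMon (QR e P) × ℤ) :=
  {p | ∃ n ≤ 2 * w.length, p.1 ∈ Zs e P w n ∧ p.2 = -w.length + n}

theorem Ys_finite [Finite S] : (Ys e P w).Finite := by
  have h : (⋃ n ∈ (Finset.range (2 * w.length + 1) : Set ℕ),
      Zs e P w n ×ˢ {(-w.length + n : ℤ)}).Finite :=
    (Finset.finite_toSet _).biUnion fun n _ => (Zs_finite e P w n).prod (Set.finite_singleton _)
  refine h.subset ?_
  rintro ⟨s, c⟩ ⟨n, hn, hs, hc⟩
  simp only [Set.mem_iUnion]
  refine ⟨n, ?_, hs, hc⟩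
  simp only [Finset.coe_range, Set.mem_Iio]
  omega

theorem mem_Ys_base {k : ℕ} (hk : k ≤ w.length) :
    (val (QR e P) (w ++ inv w) * val (QR e P) (w.take k), lev e (w.take k)) ∈ Ys e P w := by
  have h1 := lev_abs e (w.take k)
  rw [List.length_take, abs_le] at h1
  obtain ⟨n, hn⟩ : ∃ n : ℕ, (n : ℤ) = lev e (w.take k) + w.length := by
    refine ⟨(lev e (w.take k) + w.length).toNat, Int.toNat_of_nonneg ?_⟩
    have := h1.1
    push_cast at this
    omega
  refine ⟨n, ?_, ?_, by simp only; omega⟩
  · have := h1.2
    push_cast at this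
    omega
  · rcases n with _ | n
    · exact ⟨k, hk, by push_cast at hn; omega, rfl⟩
    · exact Or.inl ⟨k, hk, by push_cast at hn; omega, rfl⟩

/-- The edges of the graph of vertices with levels. -/
def Ez (p : InvMon (QR e P) × ℤ) (a : A × Bool) (q : InvMon (QR e P) × ℤ) : Prop :=
  p ∈ Ys e P w ∧ q ∈ Ys e P w ∧ p.1 ≠ val (QR e P) [ze e] ∧ q.1 ≠ val (QR e P) [ze e] ∧
    p.1 * val (QR e P) [a] = q.1 ∧ q.1 * val (QR e P) [(a.1, !a.2)] = p.1 ∧ q.2 = p.2 + lv e a

theorem ez_ig : IG (Ez e P w) := by
  constructor
  · rintro p a b q ⟨h1, h2, h3, h4, h5, h6, h7⟩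
    refine ⟨h2, h1, h4, h3, h6, ?_, ?_⟩
    · simp only [Bool.not_not]
      exact h5
    · rw [lv_neg, h7]
      ring
  · rintro p a q q' ⟨-, -, -, -, h5, -, h7⟩ ⟨-, -, -, -, h5', -, h7'⟩
    exact Prod.ext (h5.symm.trans h5') (h7.trans h7'.symm)

theorem ez_path : ∀ (u : List (A × Bool)) (p q : InvMon (QR e P) × ℤ),
    Pa (Ez e P w) p u q → q.1 = p.1 * val (QR e P) u ∧ q.2 = p.2 + lev e u ∧
      (p ∈ Ys e P w → q ∈ Ys e P w)
  | [], p, q, h => by
    have h : p = q := h
    subst h
    refine ⟨by rw [val_nil, mul_one], by simp [lev], id⟩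
  | a :: u, p, q, ⟨r, h, h'⟩ => by
    obtain ⟨h1, h2, h3⟩ := ez_path u r q h'
    obtain ⟨g1, g2, g3, g4, g5, g6, g7⟩ := h
    have e1 : val (QR e P) (a :: u) = val (QR e P) [a] * val (QR e P) u := by
      rw [← val_append]; rfl
    have e2 : lev e (a :: u) = lv e a + lev e u := by simp [lev]
    refine ⟨by rw [h1, ← g5, e1, mul_assoc], by rw [h2, g7, e2]; ring, fun _ => h3 g2⟩

theorem ez_of : ∀ (u : List (A × Bool)) (s m : InvMon (QR e P)) (c : ℤ),
    s ≠ val (QR e P) [ze e] → s * val (QR e P) u * m = s →
    (∀ k ≤ u.length, (s * val (QR e P) (u.take k), c + lev e (u.take k)) ∈ Ys e P w) →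
    Pa (Ez e P w) (s, c) u (s * val (QR e P) u, c + lev e u)
  | [], s, m, c, _, _, _ => by
    change (s, c) = _
    rw [val_nil, mul_one]
    simp [lev]
  | a :: u, s, m, c, hs, hm, h => by
    have e1 : ∀ u, val (QR e P) (a :: u) = val (QR e P) [a] * val (QR e P) u := by
      intro u
      rw [← val_append]; rfl
    have e2 : ∀ u, lev e (a :: u) = lv e a + lev e u := by
      intro u
      simp [lev]
    have h1 : s * val (QR e P) [a] * (val (QR e P) u * m) = s := by
      rw [e1] at hm
      simpa only [mul_assoc] using hm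
    have h2 : s * val (QR e P) [a] ≠ val (QR e P) [ze e] := by
      intro h2
      rw [h2, val_ze_mul] at h1
      exact hs h1.symm
    have h3 := ez_of u (s * val (QR e P) [a]) (m * val (QR e P) [a]) (c + lv e a) h2 (by
      rw [e1] at hm
      calc s * val (QR e P) [a] * val (QR e P) u * (m * val (QR e P) [a])
          = s * (val (QR e P) [a] * val (QR e P) u) * m * val (QR e P) [a] := by
            simp only [mul_assoc]
        _ = s * val (QR e P) [a] := by rw [hm]) (by
      intro k hk
      have := h (k + 1) (by simp only [List.length_cons]; omega)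
      rw [List.take_succ_cons, e1, e2, ← mul_assoc, ← add_assoc] at this
      exact this)
    refine ⟨(s * val (QR e P) [a], c + lv e a), ⟨?_, ?_, hs, h2, rfl, ?_, rfl⟩, ?_⟩
    · have := h 0 (by omega)
      rw [List.take_zero, val_nil, mul_one] at this
      simpa [lev] using this
    · have := h 1 (by simp)
      rw [List.take_succ_cons, List.take_zero] at this
      simpa [lev] using this
    · exact back h1
    · rw [e1 u, e2 u, ← mul_assoc, ← add_assoc]
      exact h3

theorem ez_rel (r s : List (A × Bool)) (h : (r, s) ∈ QR e P) (p q : InvMon (QR e P) × ℤ) :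
    Pa (Ez e P w) p r q ↔ Pa (Ez e P w) p s q := by
  have hze : ∀ p q, ¬ Ez e P w p (ze e) q := by
    rintro p q ⟨-, -, -, h4, h5, -, -⟩
    rw [mul_val_ze] at h5
    exact h4 h5.symm
  rcases h with ⟨⟨x, y⟩, hxy⟩ | ⟨a, ha⟩ | ⟨a, ha⟩
  · simp only [rl] at hxy
    rcases hl : P x y with _ | l
    · rw [hl] at hxy
      obtain ⟨rfl, rfl⟩ := Prod.mk.inj hxy
      constructor
      · intro h
        exfalso
        have h1 := (ez_path e P w _ _ _ h).1
        rw [val_lhs_none e P hl, mul_val_ze] at h1
        obtain ⟨z1, -, z2, -, z3, ⟨-, -, -, h4, -, -, -⟩, h5⟩ := h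
        have h5 : z3 = q := h5
        rw [h5] at h4
        exact h4 h1
      · rintro ⟨z, h, -⟩
        exact absurd h (hze _ _)
    · rw [hl] at hxy
      obtain ⟨rfl, rfl⟩ := Prod.mk.inj hxy
      apply pa_le (ez_ig e P w)
      intro p q h
      have h0 := h
      obtain ⟨h1, h2, -⟩ := ez_path e P w _ _ _ h
      have h3 := (ez_path e P w _ _ _ (pa_inv (ez_ig e P w) _ _ _ h)).1
      obtain ⟨z1, ⟨k1, k2, k3, k4, k5, k6, k7⟩, -⟩ := h
      obtain ⟨n', hn', g1', g2'⟩ := k1
      obtain ⟨n, hn, g1, g2⟩ := k2
      have hlr : lv e (rh e false) = -1 := by rw [lv_rh]; rfl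
      have hnn : n' = n + 1 := by
        rw [hlr] at k7
        omega
      have h4 : p.1 * val (QR e P) (l.map (lt e) ++ [rh e false]) = q.1 := by
        have h5 : (lhs e x y, lhs e x y ++ inv (lhs e x y) ++ (l.map (lt e) ++ [rh e false])) ∈
            QR e P := by
          refine Or.inl ⟨(x, y), ?_⟩
          simp only [rl]
          rw [hl]
        have h6 := val_rel h5
        rw [val_append _ (l.map (lt e) ++ [rh e false]), val_append (lhs e x y)] at h6
        calc p.1 * val (QR e P) (l.map (lt e) ++ [rh e false])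
            = q.1 * val (QR e P) (inv (lhs e x y)) *
                val (QR e P) (l.map (lt e) ++ [rh e false]) := by rw [← h3]
          _ = p.1 * val (QR e P) (lhs e x y) * val (QR e P) (inv (lhs e x y)) *
                val (QR e P) (l.map (lt e) ++ [rh e false]) := by rw [h1]
          _ = p.1 * (val (QR e P) (lhs e x y) * val (QR e P) (inv (lhs e x y)) *
                val (QR e P) (l.map (lt e) ++ [rh e false])) := by simp only [mul_assoc]
          _ = p.1 * val (QR e P) (lhs e x y) := by rw [← h6]
          _ = q.1 := h1.symm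
      have h5 : lev e (lhs e x y) = -1 := by
        simp [lev, lhs, lv_lt, lv_rh]
      have h6 : lev e (l.map (lt e) ++ [rh e false]) = -1 := by
        rw [lev_append, lev_word]
        simp [lev, lv_rh]
      have h7 := ez_of e P w (l.map (lt e) ++ [rh e false]) p.1
        (val (QR e P) (inv (lhs e x y))) p.2 k3 (by rw [h4]; exact h3.symm) (by
          intro k hk
          rw [List.length_append, List.length_map, List.length_singleton] at hk
          rcases Nat.lt_or_ge l.length k with hk' | hk'
          · have e1 : k = l.length + 1 := by omega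
            have e2 : (l.map (lt e) ++ [rh e false]).take k = l.map (lt e) ++ [rh e false] := by
              apply List.take_of_length_le
              rw [List.length_append, List.length_map, List.length_singleton]
              omega
            rw [e2, h4, h6, ← h5, ← h2]
            exact (ez_path e P w _ _ _ h0).2.2 ⟨n', hn', g1', g2'⟩
          · have e2 : (l.map (lt e) ++ [rh e false]).take k = (l.map (lt e)).take k := by
              rw [List.take_append_of_le_length (by rw [List.length_map]; exact hk')]
            rw [e2]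
            have e3 : lev e ((l.map (lt e)).take k) = 0 := by
              rw [← List.map_take, lev_word]
            rw [e3, add_zero]
            refine ⟨n', hn', ?_, g2'⟩
            rw [hnn]
            refine Or.inr ⟨z1.1, g1, x, y, l, k, hl, hk', ?_⟩
            have k6 : z1.1 * val (QR e P) [rh e true] = p.1 := k6
            simp only
            rw [k6])
      rw [h4, h6, ← h5, ← h2] at h7
      exact h7
  · obtain ⟨rfl, rfl⟩ := Prod.mk.inj ha
    constructor
    · rintro ⟨z, h, -⟩
      exact absurd h (hze _ _)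
    · rintro ⟨z, h, -⟩
      exact absurd h (hze _ _)
  · obtain ⟨rfl, rfl⟩ := Prod.mk.inj ha
    constructor
    · rintro ⟨z, -, z', h, -⟩
      exact absurd h (hze _ _)
    · rintro ⟨z, h, -⟩
      exact absurd h (hze _ _)

/-- The Schützenberger graphs are finite. -/
theorem vert_finite [Finite S] : Finite (Vert (QR e P) w) := by
  by_cases hw : val (QR e P) (w ++ inv w) = val (QR e P) [ze e]
  · have : Subsingleton (Vert (QR e P) w) := by
      constructor
      intro a b
      apply Subtype.ext
      obtain ⟨m, hm⟩ := a.2.1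
      obtain ⟨m', hm'⟩ := b.2.1
      rw [← hm, ← hm', hw, val_ze_mul, val_ze_mul]
    infer_instance
  · have h0 : Pa (Ez e P w) (val (QR e P) (w ++ inv w), 0) (w ++ inv w)
        (val (QR e P) (w ++ inv w), 0) := by
      rw [pa_reg (ez_ig e P w)]
      refine ⟨rfl, _, ez_of e P w w (val (QR e P) (w ++ inv w))
        (val (QR e P) (inv w)) 0 hw ?_ ?_⟩
      · rw [mul_assoc, ← val_append]
        exact val_idem w
      · intro k hk
        rw [zero_add]
        exact mem_Ys_base e P w hk
    have h00 : (val (QR e P) (w ++ inv w), (0 : ℤ)) ∈ Ys e P w := by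
      have := mem_Ys_base e P w (Nat.zero_le w.length)
      rw [List.take_zero, val_nil, mul_one] at this
      simpa [lev] using this
    have h1 : {s : InvMon (QR e P) | (∃ m, val (QR e P) (w ++ inv w) * m = s) ∧
        ∃ m, s * m = val (QR e P) (w ++ inv w)} ⊆ Prod.fst '' Ys e P w := by
      rintro s ⟨⟨m, rfl⟩, m', hm'⟩
      obtain ⟨u, rfl⟩ := val_surj m
      obtain ⟨u', rfl⟩ := val_surj m'
      have h2 : val (QR e P) (w ++ inv w ++ (u ++ u')) = val (QR e P) (w ++ inv w) := by
        rw [val_append, val_append u, ← mul_assoc, hm']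
      have h3 := (pa_congr (ez_ig e P w) (ez_rel e P w) h2 _ _).2 h0
      rw [pa_append] at h3
      obtain ⟨p, h4, h5⟩ := h3
      obtain ⟨rfl, -⟩ := (pa_reg (ez_ig e P w) _ _ _).1 h4
      rw [pa_append] at h5
      obtain ⟨q, h6, -⟩ := h5
      obtain ⟨h7, -, h8⟩ := ez_path e P w _ _ _ h6
      exact ⟨q, h8 h00, h7⟩
    exact (((Ys_finite e P w).image Prod.fst).subset h1).to_subtype

theorem treeLike [Finite S] : TreeLike (QR e P) := by
  intro w
  have := vert_finite e P w
  exact qiTree_finite connected

end machine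

end Mem

end Pool.Agent.R640.IM
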