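import Pool.Agent.R640.InvLem

set_option autoImplicit false

/-! Representations of inverse monoids by graphs whose edges come in inverse pairs. -/

namespace Pool.Agent.R640.IM

variable {A V : Type}

/-- The word `u` labels a path from `x` to `y` in the graph with labelled edges `E`. -/
def Pa (E : V → A × Bool → V → Prop) : V → List (A × Bool) → V → Prop
  | x, [], y => x = y
  | x, a :: u, y => ∃ z, E x a z ∧ Pa E z u y

/-- A deterministic graph whose edges come in inverse pairs. -/
structure IG (E : V → A × Bool → V → Prop) : Prop where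
  /-- edges come in inverse pairs -/
  symm : ∀ x a b y, E x (a, b) y → E y (a, !b) x
  /-- determinism -/
  det : ∀ x a y z, E x a y → E x a z → y = z

variable {E : V → A × Bool → V → Prop}

theorem pa_append : ∀ (u v : List (A × Bool)) (x y : V),
    Pa E x (u ++ v) y ↔ ∃ z, Pa E x u z ∧ Pa E z v y
  | [], v, x, y => by
    constructor
    · intro h
      exact ⟨x, rfl, h⟩
    · rintro ⟨z, rfl, h⟩
      exact h
  | a :: u, v, x, y => by
    constructor
    · rintro ⟨z, hz, h⟩
      obtain ⟨t, ht, h⟩ := (pa_append u v z y).1 h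
      exact ⟨t, ⟨z, hz, ht⟩, h⟩
    · rintro ⟨t, ⟨z, hz, ht⟩, h⟩
      exact ⟨z, hz, (pa_append u v z y).2 ⟨t, ht, h⟩⟩

theorem pa_det (hE : IG E) : ∀ (u : List (A × Bool)) (x y z : V),
    Pa E x u y → Pa E x u z → y = z
  | [], x, y, z, h, h' => by
    have h1 : x = y := h
    have h2 : x = z := h'
    rw [← h1, ← h2]
  | a :: u, x, y, z, ⟨t, ht, h⟩, ⟨t', ht', h'⟩ => by
    have := hE.det _ _ _ _ ht ht'
    subst this
    exact pa_det hE u t y z h h'

theorem pa_inv (hE : IG E) : ∀ (u : List (A × Bool)) (x y : V), Pa E x u y → Pa E y (inv u) x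
  | [], x, y, h => by
    have h1 : x = y := h
    subst h1
    rfl
  | (a, b) :: u, x, y, ⟨t, ht, h⟩ => by
    have e : inv ((a, b) :: u) = inv u ++ [(a, !b)] := by simp [inv]
    rw [e, pa_append]
    exact ⟨t, pa_inv hE u t y h, x, hE.symm _ _ _ _ ht, rfl⟩

theorem pa_reg (hE : IG E) (u : List (A × Bool)) (x y : V) :
    Pa E x (u ++ inv u) y ↔ x = y ∧ ∃ z, Pa E x u z := by
  rw [pa_append]
  constructor
  · rintro ⟨z, hz, h⟩
    have h1 := pa_inv hE _ _ _ hz
    exact ⟨pa_det hE _ _ _ _ h1 h, z, hz⟩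
  · rintro ⟨rfl, z, hz⟩
    exact ⟨z, hz, pa_inv hE _ _ _ hz⟩

/-- Two words which define the same element of the inverse monoid label the same paths. -/
theorem pa_congr (hE : IG E) {R : Set (List (A × Bool) × List (A × Bool))}
    (hR : ∀ r s, (r, s) ∈ R → ∀ x y, Pa E x r y ↔ Pa E x s y) {u v : List (A × Bool)}
    (h : val R u = val R v) (x y : V) : Pa E x u y ↔ Pa E x v y := by
  let c : Con (FreeMonoid (A × Bool)) :=
    { r := fun u v => ∀ x y, Pa E x u.toList y ↔ Pa E x v.toList y
      iseqv := ⟨fun _ _ _ => Iff.rfl, fun h x y => (h x y).symm,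
        fun h h' x y => (h x y).trans (h' x y)⟩
      mul' := by
        intro a b c d h h' x y
        rw [FreeMonoid.toList_mul, FreeMonoid.toList_mul, pa_append, pa_append]
        constructor
        · rintro ⟨z, h1, h2⟩
          exact ⟨z, (h _ _).1 h1, (h' _ _).1 h2⟩
        · rintro ⟨z, h1, h2⟩
          exact ⟨z, (h _ _).2 h1, (h' _ _).2 h2⟩ }
  have hc : conGen (Rel R) ≤ c := by
    refine Con.conGen_le.2 ?_
    rintro _ _ (u | ⟨u, v⟩ | ⟨r, s, hrs⟩)
    · intro x y
      rw [FreeMonoid.toList_ofList, FreeMonoid.toList_ofList, pa_append]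
      constructor
      · rintro ⟨z, h1, h2⟩
        rw [pa_reg hE] at h1
        rw [h1.1]
        exact h2
      · intro h
        exact ⟨x, (pa_reg hE _ _ _).2 ⟨rfl, y, h⟩, h⟩
    · intro x y
      rw [FreeMonoid.toList_ofList, FreeMonoid.toList_ofList, pa_append, pa_append]
      constructor
      · rintro ⟨z, h1, h2⟩
        have e := ((pa_reg hE _ _ _).1 h1).1
        subst e
        have e := ((pa_reg hE _ _ _).1 h2).1
        subst e
        exact ⟨x, h2, h1⟩
      · rintro ⟨z, h1, h2⟩
        have e := ((pa_reg hE _ _ _).1 h1).1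
        subst e
        have e := ((pa_reg hE _ _ _).1 h2).1
        subst e
        exact ⟨x, h2, h1⟩
    · intro x y
      rw [FreeMonoid.toList_ofList, FreeMonoid.toList_ofList]
      exact hR r s hrs x y
  have h1 : conGen (Rel R) (FreeMonoid.ofList u) (FreeMonoid.ofList v) :=
    (Con.eq (conGen (Rel R))).1 h
  exact hc h1 x y

/-- The one-sided relation `u ≤ v` in the form `u = u u⁻¹ v`. -/
theorem pa_le (hE : IG E) {u v : List (A × Bool)} (h : ∀ x y, Pa E x u y → Pa E x v y) (x y : V) :
    Pa E x u y ↔ Pa E x (u ++ inv u ++ v) y := by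
  rw [pa_append]
  constructor
  · intro hu
    exact ⟨x, (pa_reg hE _ _ _).2 ⟨rfl, y, hu⟩, h _ _ hu⟩
  · rintro ⟨z, h1, h2⟩
    obtain ⟨e, t, ht⟩ := (pa_reg hE _ _ _).1 h1
    subst e
    have := pa_det hE _ _ _ _ (h _ _ ht) h2
    subst this
    exact ht

end Pool.Agent.R640.IM
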