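import Pool.Agent.R640.MemPres
import Pool.Agent.Helper247.Elem.Family

set_option autoImplicit false

/-! A queue machine with undecidable halting problem. -/

namespace Pool.Agent.R640.IM

namespace Mem

open Pool.Agent.Helper247.Queue Pool.Agent.Helper247 Turing Relation

section sim

variable {Γ Λ : Type} [Inhabited Γ] [Inhabited Λ] (M : TM0.Machine Γ Λ)

open Classical in
/-- The queue machine which simulates `M` and stops when a killing symbol appears. -/
noncomputable def PP (x y : Sym Γ Λ) : Option (List (Sym Γ Λ)) :=
  if Sym.kill ∈ x :: y :: prod M x y then none else some (prod M x y)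

theorem PP_length {x y : Sym Γ Λ} {l : List (Sym Γ Λ)} (h : PP M x y = some l) :
    2 ≤ l.length := by
  unfold PP at h
  split_ifs at h with h1
  obtain rfl := Option.some.inj h
  rcases prod_length M x y with h2 | h2
  · exact h2
  · exact absurd (by rw [h2]; simp) h1

/-- Words with one head. -/
def OneH (z : List (Sym Γ Λ)) : Prop :=
  ∃ u v q s, z = u ++ .head q s :: v ∧ (∀ x ∈ u, Plain x) ∧ ∀ x ∈ v, Plain x

/-- Words with one killing symbol. -/
def OneK (z : List (Sym Γ Λ)) : Prop :=
  ∃ u v, z = u ++ .kill :: v ∧ (∀ x ∈ u, Plain x) ∧ ∀ x ∈ v, Plain x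

omit [Inhabited Γ] [Inhabited Λ] in
theorem plain_ne_kill {x : Sym Γ Λ} (h : Plain x) : x ≠ .kill := by
  rintro rfl
  exact h

omit [Inhabited Γ] [Inhabited Λ] in
theorem OneH.kill {z : List (Sym Γ Λ)} (h : OneH z) : Sym.kill ∉ z := by
  obtain ⟨u, v, q, s, rfl, hu, hv⟩ := h
  intro h
  rw [List.mem_append, List.mem_cons] at h
  rcases h with h | h | h
  · exact plain_ne_kill (hu _ h) rfl
  · cases h
  · exact plain_ne_kill (hv _ h) rfl

theorem prod_one {x y : Sym Γ Λ} (h : (∃ q s, x = .head q s ∧ Plain y) ∨
    ∃ q s, y = .head q s ∧ Plain x) : OneH (prod M x y) ∨ OneK (prod M x y) := by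
  rcases h with ⟨q, s, rfl, hy⟩ | ⟨q, s, rfl, hx⟩
  · rcases hM : M q s with _ | ⟨q', d | b⟩
    · right
      refine ⟨[], [y], ?_, by simp, by simpa using hy⟩
      simp [prod, hM]
    · rcases d with _ | _
      · left
        refine ⟨[], [y], q, s, ?_, by simp, by simpa using hy⟩
        simp [prod, hM]
      · left
        rcases y with b | ⟨r, b⟩ | _ | _
        · refine ⟨[.cell s], [], q', b, ?_, by simp [Plain], by simp⟩
          simp [prod, hM]
        · exact absurd hy (by simp [Plain])
        · refine ⟨[.cell s], [.cell default, .mark], q', default, ?_, by simp [Plain], ?_⟩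
          · simp [prod, hM]
          · intro x hx
            simp only [List.mem_cons, List.not_mem_nil, or_false] at hx
            rcases hx with rfl | rfl <;> simp [Plain]
        · exact absurd hy (by simp [Plain])
    · left
      refine ⟨[], [y], q', b, ?_, by simp, by simpa using hy⟩
      simp [prod, hM]
  · rcases hM : M q s with _ | ⟨q', d | b⟩
    · right
      refine ⟨[x], [], ?_, by simpa using hx, by simp⟩
      rcases x with c | ⟨r, c⟩ | _ | _ <;> simp_all [prod, Plain]
    · rcases d with _ | _
      · left
        rcases x with b | ⟨r, b⟩ | _ | _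
        · refine ⟨[], [.cell s], q', b, ?_, by simp, by simp [Plain]⟩
          simp [prod, hM]
        · exact absurd hx (by simp [Plain])
        · refine ⟨[.mark, .cell default], [.cell s], q', default, ?_, ?_, by simp [Plain]⟩
          · simp [prod, hM]
          · intro x hx
            simp only [List.mem_cons, List.not_mem_nil, or_false] at hx
            rcases hx with rfl | rfl <;> simp [Plain]
        · exact absurd hx (by simp [Plain])
      · left
        refine ⟨[x], [], q, s, ?_, by simpa using hx, by simp⟩
        rcases x with c | ⟨r, c⟩ | _ | _ <;> simp_all [prod, Plain]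
    · left
      refine ⟨[x], [], q', b, ?_, by simpa using hx, by simp⟩
      rcases x with c | ⟨r, c⟩ | _ | _ <;> simp_all [prod, Plain]

theorem step_one {x y : Sym Γ Λ} {t : List (Sym Γ Λ)} (h : OneH (x :: y :: t)) :
    OneH (t ++ prod M x y) ∨ OneK (t ++ prod M x y) := by
  obtain ⟨u, v, q, s, h, hu, hv⟩ := h
  have key : ((∃ q s, x = .head q s ∧ Plain y) ∨ ∃ q s, y = .head q s ∧ Plain x) →
      (∀ z ∈ t, Plain z) → OneH (t ++ prod M x y) ∨ OneK (t ++ prod M x y) := by
    intro h1 h2
    rcases prod_one M h1 with ⟨u, v, q, s, h, hu, hv⟩ | ⟨u, v, h, hu, hv⟩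
    · left
      refine ⟨t ++ u, v, q, s, by rw [h]; simp, ?_, hv⟩
      intro z hz
      rw [List.mem_append] at hz
      rcases hz with hz | hz
      · exact h2 z hz
      · exact hu z hz
    · right
      refine ⟨t ++ u, v, by rw [h]; simp, ?_, hv⟩
      intro z hz
      rw [List.mem_append] at hz
      rcases hz with hz | hz
      · exact h2 z hz
      · exact hu z hz
  match u, h, hu with
  | [], h, _ =>
    simp only [List.nil_append, List.cons.injEq] at h
    obtain ⟨rfl, rfl⟩ := h
    exact key (Or.inl ⟨q, s, rfl, hv y (by simp)⟩) fun z hz => hv z (by simp [hz])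
  | [a], h, hu =>
    simp only [List.cons_append, List.nil_append, List.cons.injEq] at h
    obtain ⟨rfl, rfl, rfl⟩ := h
    exact key (Or.inr ⟨q, s, rfl, hu x (by simp)⟩) fun z hz => hv z hz
  | a :: b :: u', h, hu =>
    simp only [List.cons_append, List.cons.injEq] at h
    obtain ⟨rfl, rfl, rfl⟩ := h
    left
    rw [prod_plain M (hu x (by simp)) (hu y (by simp))]
    refine ⟨u', v ++ [x, y], q, s, by simp, fun z hz => hu z (by simp [hz]), ?_⟩
    intro z hz
    simp only [List.mem_append, List.mem_cons, List.not_mem_nil, or_false] at hz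
    rcases hz with hz | rfl | rfl
    · exact hv z hz
    · exact hu z (by simp)
    · exact hu z (by simp)

theorem OneK.reach {z : List (Sym Γ Λ)} (h : OneK z) : QReach (prod M) z [.kill] := by
  obtain ⟨u, v, rfl, hu, hv⟩ := h
  exact kill_phase M _ _ u v rfl rfl hu hv

theorem halts_kill {z : List (Sym Γ Λ)} (h : Halts (PP M) z) (hz : OneH z) :
    QReach (prod M) z [.kill] := by
  induction h with
  | stop x y t h =>
    have h1 : Sym.kill ∉ x :: y :: t := hz.kill
    have h2 : Sym.kill ∈ prod M x y := by
      unfold PP at h
      split_ifs at h with h3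
      rw [List.mem_cons, List.mem_cons] at h3
      rcases h3 with h3 | h3 | h3
      · exact absurd (by rw [h3]; simp) h1
      · exact absurd (by rw [h3]; simp) h1
      · exact h3
    refine ReflTransGen.head (QStep.mk x y t) ?_
    rcases step_one M hz with h4 | h4
    · exact absurd (List.mem_append.2 (Or.inr h2)) h4.kill
    · exact h4.reach M
  | step x y t l h _ ih =>
    unfold PP at h
    split_ifs at h with h3
    obtain rfl := Option.some.inj h
    refine ReflTransGen.head (QStep.mk x y t) (ih ?_)
    rcases step_one M hz with h4 | h4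
    · exact h4
    · exfalso
      have h1 : Sym.kill ∉ x :: y :: t := hz.kill
      obtain ⟨u, v, h5, -, -⟩ := h4
      have h6 : Sym.kill ∈ t ++ prod M x y := by rw [h5]; simp
      rw [List.mem_append] at h6
      rcases h6 with h6 | h6
      · exact h1 (by simp [h6])
      · exact h3 (by simp [h6])

theorem kill_halts {z : List (Sym Γ Λ)} (h : QReach (prod M) z [.kill]) (hz : Sym.kill ∉ z) :
    Halts (PP M) z := by
  induction h using ReflTransGen.head_induction_on with
  | refl => exact absurd (by simp) hz
  | @head a b hab _ ih =>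
    cases hab with
    | mk x y t =>
      rcases hp : PP M x y with _ | l
      · exact Halts.stop x y t hp
      · have hp' := hp
        unfold PP at hp
        split_ifs at hp with h3
        obtain rfl := Option.some.inj hp
        refine Halts.step x y t _ hp' (ih ?_)
        rw [List.mem_append]
        rintro (h | h)
        · exact hz (by simp [h])
        · exact h3 (by simp [h])

theorem halts_iff {c : TM0.Cfg Γ Λ} {z : List (Sym Γ Λ)} (h : Rep c z) :
    Halts (PP M) z ↔ (StateTransition.eval (TM0.step M) c).Dom := by
  rw [← rep_halts M h]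
  have h1 : OneH z := by
    obtain ⟨u, v, l, r, h1, h2, -⟩ := h
    have h3 : ∀ x ∈ v ++ u, Plain x := by
      rw [h2]
      exact ring_plain _ _
    exact ⟨u, v, _, _, h1, fun x hx => h3 x (by simp [hx]), fun x hx => h3 x (by simp [hx])⟩
  exact ⟨fun h => halts_kill M h h1, fun h => kill_halts M h h1.kill⟩

end sim

/-- A queue machine and a computable sequence of inputs for which halting is undecidable. -/
theorem queue_undecidable : ∃ (S : Type) (_ : Finite S) (P : S → S → Option (List S))
    (z : ℕ → List S), (∀ φ : S → List ℕ, Computable fun n => (z n).flatMap φ) ∧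
      (∀ x y l, P x y = some l → 2 ≤ l.length) ∧ (∀ n, 2 ≤ (z n).length) ∧
      ¬ ComputablePred fun n => Halts P (z n) := by
  classical
  obtain ⟨Λ, i1, i2, M, hM⟩ := Univ.exists_machine
  have fK : Finite PartrecToTM2.K' := by
    refine Finite.of_injective (fun k : PartrecToTM2.K' => match k with
      | .main => (0 : Fin 4)
      | .rev => 1
      | .aux => 2
      | .stack => 3) ?_
    intro a b h
    cases a <;> cases b <;> simp_all
  have fG : Finite (TM2to1.Γ' PartrecToTM2.K' (fun _ => PartrecToTM2.Γ')) :=
    inferInstanceAs (Finite (Bool × (PartrecToTM2.K' → Option PartrecToTM2.Γ')))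
  refine ⟨Queue.Sym (TM2to1.Γ' PartrecToTM2.K' (fun _ => PartrecToTM2.Γ')) Λ,
    inferInstanceAs (Finite (Queue.Sym _ _)), PP M, fun n => initWord (Elem.tape n), ?_, ?_, ?_, ?_⟩
  · intro φ
    exact Elem.init_computable φ
  · intro x y l
    exact PP_length M
  · intro n
    exact initWord_length _
  · intro h
    refine Univ.u_not_computable ?_
    have : (fun n => (Univ.u n).Dom) = fun n => Halts (PP M) (initWord (Elem.tape n)) := by
      funext n
      apply propext
      rw [← hM n]
      have hrep : Rep (TM0.init (Elem.tape n) : TM0.Cfg _ Λ) (initWord (Elem.tape n)) :=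
        rep_init (Elem.tape n) (by simp [Elem.tape])
      change (StateTransition.eval (TM0.step M) (TM0.init (Elem.tape n))).Dom ↔ _
      rw [halts_iff M hrep]
    rw [this]
    exact h

end Mem

end Pool.Agent.R640.IM
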