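import Pool.Agent.R640.MemPres

set_option autoImplicit false

/-! A representation of the inverse monoid of a queue machine which does not halt. -/

namespace Pool.Agent.R640.IM

namespace Mem

section machine

variable {A S : Type} (e : A ≃ Option (Option S)) (P : S → S → Option (List S))

section run

variable (X Y : ℕ → S) (T L : ℕ → List S)

/-- The trace of the run in which the queue at time `n` is `X n :: Y n :: T n` and the word `L n`
is appended to it. -/
def tr (p : ℕ) : S := if p % 2 = 0 then X (p / 2) else Y (p / 2)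

/-- The position of the end of the queue. -/
def en (n : ℕ) : ℕ := 2 * n + 2 + (T n).length

variable (hT : ∀ n, X (n + 1) :: Y (n + 1) :: T (n + 1) = T n ++ L n)

include hT in
theorem get_tr : ∀ (i n : ℕ) (h : i < (X n :: Y n :: T n).length),
    (X n :: Y n :: T n)[i] = tr X Y (2 * n + i) := by
  intro i
  induction i using Nat.strong_induction_on with
  | _ i ih =>
    intro n h
    rcases i with _ | _ | i
    · simp [tr]
    · have h1 : (2 * n + 1) % 2 = 1 := by omega
      have h2 : (2 * n + 1) / 2 = n := by omega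
      simp [tr, h1, h2]
    · have h1 : i < (T n).length := by
        simp only [List.length_cons] at h
        omega
      have h2 : i < (T n ++ L n).length := by
        rw [List.length_append]; omega
      have h3 : i < (X (n + 1) :: Y (n + 1) :: T (n + 1)).length := by rw [hT]; exact h2
      have h4 := ih i (by omega) (n + 1) h3
      have h5 : (X (n + 1) :: Y (n + 1) :: T (n + 1))[i] = (T n ++ L n)[i] := by
        simp only [hT n]
      rw [h5, List.getElem_append_left h1] at h4
      simp only [List.getElem_cons_succ]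
      rw [h4]
      congr 1
      omega

include hT in
theorem en_succ (n : ℕ) : en T (n + 1) = en T n + (L n).length := by
  have h := congrArg List.length (hT n)
  simp only [List.length_cons, List.length_append] at h
  unfold en
  omega

include hT in
theorem get_L (n i : ℕ) (h : i < (L n).length) : (L n)[i] = tr X Y (en T n + i) := by
  have h1 : (T n).length + i < (T n ++ L n).length := by
    rw [List.length_append]; omega
  have h2 : (T n).length + i < (X (n + 1) :: Y (n + 1) :: T (n + 1)).length := by
    rw [hT]; exact h1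
  have h3 := get_tr X Y T L hT _ (n + 1) h2
  have h4 : (X (n + 1) :: Y (n + 1) :: T (n + 1))[(T n).length + i] =
      (T n ++ L n)[(T n).length + i] := by
    simp only [hT n]
  rw [h4, List.getElem_append_right (by omega)] at h3
  simp only [Nat.add_sub_cancel_left] at h3
  rw [h3]
  congr 1
  unfold en
  omega

include hT in
theorem en_strictMono (hL : ∀ n, L n ≠ []) : StrictMono (en T) := by
  apply strictMono_nat_of_lt_succ
  intro n
  rw [en_succ X Y T L hT]
  have := List.length_pos_of_ne_nil (hL n)
  omega

/-- The edge relation for a positive letter. -/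
def F (p : ℕ) (a : A) (q : ℕ) : Prop :=
  match e a with
  | none => False
  | some none => ∃ n, p = 2 * n ∧ q = en T n
  | some (some s) => q = p + 1 ∧ tr X Y p = s

/-- The graph of the run. -/
def Ed (p : ℕ) (a : A × Bool) (q : ℕ) : Prop :=
  if a.2 then F e X Y T p a.1 q else F e X Y T q a.1 p

include hT in
theorem ed_ig (hL : ∀ n, L n ≠ []) : IG (Ed e X Y T) := by
  constructor
  · rintro x a (_ | _) y h
    · simpa [Ed] using h
    · simpa [Ed] using h
  · rintro x ⟨a, (_ | _)⟩ y z h h'
    · simp only [Ed, F, Bool.false_eq_true, if_false] at h h'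
      rcases ha : e a with _ | _ | s
      · simp [ha] at h
      · simp only [ha] at h h'
        obtain ⟨n, rfl, h1⟩ := h
        obtain ⟨m, rfl, h2⟩ := h'
        have := (en_strictMono X Y T L hT hL).injective (h1.symm.trans h2)
        rw [this]
      · simp only [ha] at h h'
        omega
    · simp only [Ed, F, if_true] at h h'
      rcases ha : e a with _ | _ | s
      · simp [ha] at h
      · simp only [ha] at h h'
        obtain ⟨n, rfl, h1⟩ := h
        obtain ⟨m, h3, h2⟩ := h'
        have : n = m := by omega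
        rw [h1, h2, this]
      · simp only [ha] at h h'
        omega

theorem ed_lt (p q : ℕ) (s : S) : Ed e X Y T p (lt e s) q ↔ q = p + 1 ∧ tr X Y p = s := by
  simp [Ed, F, lt]

theorem ed_rh (p q : ℕ) : Ed e X Y T p (rh e false) q ↔ ∃ n, q = 2 * n ∧ p = en T n := by
  simp [Ed, F, rh]

theorem ed_ze (p q : ℕ) : ¬ Ed e X Y T p (ze e) q := by
  simp [Ed, F, ze]

theorem pa_word : ∀ (l : List S) (p : ℕ), (∀ (i : ℕ) (h : i < l.length), l[i] = tr X Y (p + i)) →
    Pa (Ed e X Y T) p (l.map (lt e)) (p + l.length)
  | [], p, _ => rfl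
  | s :: l, p, h => by
    refine ⟨p + 1, (ed_lt e X Y T _ _ _).2 ⟨rfl, (h 0 (by simp)).symm⟩, ?_⟩
    have h1 := pa_word l (p + 1) (by
      intro i hi
      have h2 := h (i + 1) (by simp only [List.length_cons]; omega)
      rw [List.getElem_cons_succ] at h2
      rw [h2]
      congr 1
      omega)
    have h2 : p + (s :: l).length = p + 1 + l.length := by
      simp only [List.length_cons]; omega
    rw [h2]
    exact h1

variable (hP : ∀ n, P (X n) (Y n) = some (L n))

include hT in
theorem pa_lhs (p q : ℕ) (x y : S) (h : Pa (Ed e X Y T) p (lhs e x y) q) :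
    ∃ n, p = en T n ∧ q = 2 * (n + 1) ∧ X n = x ∧ Y n = y := by
  obtain ⟨z1, h1, z2, h2, z3, h3, h4⟩ := h
  have h4 : z3 = q := h4
  subst h4
  rw [ed_rh] at h1
  rw [ed_lt] at h2 h3
  obtain ⟨n, rfl, rfl⟩ := h1
  obtain ⟨rfl, h2⟩ := h2
  obtain ⟨rfl, h3⟩ := h3
  refine ⟨n, rfl, by ring, ?_, ?_⟩
  · have := get_tr X Y T L hT 0 n (by simp)
    simp only [List.getElem_cons_zero, add_zero] at this
    rw [this, h2]
  · have := get_tr X Y T L hT 1 n (by simp)
    simp only [List.getElem_cons_succ, List.getElem_cons_zero] at this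
    rw [this, h3]

include hT hP in
theorem ed_rel (hL : ∀ n, L n ≠ []) (r s : List (A × Bool)) (h : (r, s) ∈ QR e P) (p q : ℕ) :
    Pa (Ed e X Y T) p r q ↔ Pa (Ed e X Y T) p s q := by
  rcases h with ⟨⟨x, y⟩, hxy⟩ | ⟨a, ha⟩ | ⟨a, ha⟩
  · simp only [rl] at hxy
    rcases hl : P x y with _ | l
    · rw [hl] at hxy
      obtain ⟨rfl, rfl⟩ := Prod.mk.inj hxy
      constructor
      · intro h
        obtain ⟨n, -, -, rfl, rfl⟩ := pa_lhs e X Y T L hT p q x y h
        rw [hP] at hl
        exact absurd hl (by simp)
      · rintro ⟨z, h, -⟩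
        exact absurd h (ed_ze e X Y T _ _)
    · rw [hl] at hxy
      obtain ⟨rfl, rfl⟩ := Prod.mk.inj hxy
      apply pa_le (ed_ig e X Y T L hT hL)
      intro p q h
      obtain ⟨n, rfl, rfl, rfl, rfl⟩ := pa_lhs e X Y T L hT p q x y h
      rw [hP] at hl
      obtain rfl := Option.some.inj hl
      rw [pa_append]
      refine ⟨en T n + (L n).length, pa_word e X Y T _ _ fun i hi => get_L X Y T L hT n i hi, ?_⟩
      refine ⟨2 * (n + 1), (ed_rh e X Y T _ _).2 ⟨n + 1, rfl, (en_succ X Y T L hT n).symm⟩, rfl⟩
  · obtain ⟨rfl, rfl⟩ := Prod.mk.inj ha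
    constructor
    · rintro ⟨z, h, -⟩
      exact absurd h (ed_ze e X Y T _ _)
    · rintro ⟨z, h, -⟩
      exact absurd h (ed_ze e X Y T _ _)
  · obtain ⟨rfl, rfl⟩ := Prod.mk.inj ha
    constructor
    · rintro ⟨z, -, z', h, -⟩
      exact absurd h (ed_ze e X Y T _ _)
    · rintro ⟨z, h, -⟩
      exact absurd h (ed_ze e X Y T _ _)

end run

/-- A representation of the inverse monoid of a queue machine which does not halt on `z`. -/
theorem exists_rep (hP : ∀ x y l, P x y = some l → 2 ≤ l.length) {z : List S}
    (hz : 2 ≤ z.length) (h : ¬ Halts P z) :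
    ∃ E : ℕ → A × Bool → ℕ → Prop, IG E ∧
      (∀ r s, (r, s) ∈ QR e P → ∀ x y, Pa E x r y ↔ Pa E x s y) ∧
      Pa E 0 (code e z) 0 ∧ ∀ x y, ¬ Pa E x [ze e] y := by
  classical
  let next : List S → List S := fun q => match q with
    | x :: y :: t => t ++ (P x y).getD []
    | _ => []
  have h0 : ∀ n : ℕ, 2 ≤ (next^[n] z).length ∧ ¬ Halts P (next^[n] z) := by
    intro n
    induction n with
    | zero => exact ⟨hz, h⟩
    | succ n ih =>
      rw [Function.iterate_succ_apply']
      obtain ⟨h1, h2⟩ := ih
      match hq : next^[n] z, h1, h2 with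
      | x :: y :: t, h1, h2 =>
        rcases hl : P x y with _ | l
        · exact absurd (Halts.stop x y t hl) h2
        · have e1 : next (x :: y :: t) = t ++ l := by
            simp only [next, hl, Option.getD_some]
          rw [e1]
          refine ⟨?_, fun h3 => h2 (Halts.step x y t l hl h3)⟩
          have := hP x y l hl
          rw [List.length_append]
          omega
  have h1 : ∀ n : ℕ, ∃ x y t l, next^[n] z = x :: y :: t ∧ P x y = some l ∧
      next^[n + 1] z = t ++ l := by
    intro n
    obtain ⟨h2, h3⟩ := h0 n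
    rw [Function.iterate_succ_apply']
    match hq : next^[n] z, h2, h3 with
    | x :: y :: t, h2, h3 =>
      rcases hl : P x y with _ | l
      · exact absurd (Halts.stop x y t hl) h3
      · exact ⟨x, y, t, l, rfl, hl, by simp only [next, hl, Option.getD_some]⟩
  choose X Y T L hq hPn hn using h1
  have hT : ∀ n, X (n + 1) :: Y (n + 1) :: T (n + 1) = T n ++ L n := by
    intro n
    rw [← hq (n + 1), hn n]
  have hL : ∀ n, L n ≠ [] := by
    intro n hn
    have := hP _ _ _ (hPn n)
    rw [hn] at this
    simp at this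
  refine ⟨Ed e X Y T, ed_ig e X Y T L hT hL, ed_rel e P X Y T L hT hPn hL, ?_, ?_⟩
  · have e1 : z = X 0 :: Y 0 :: T 0 := hq 0
    unfold code
    rw [pa_append]
    refine ⟨0 + z.length, pa_word e X Y T z 0 ?_, ?_⟩
    · intro i hi
      have := get_tr X Y T L hT i 0 (by rw [← e1]; exact hi)
      simp only [← e1] at this
      rw [this, mul_zero]
    · refine ⟨0, (ed_rh e X Y T _ _).2 ⟨0, rfl, ?_⟩, rfl⟩
      unfold en
      rw [e1]
      simp only [List.length_cons]
      omega
  · rintro x y ⟨z, h, -⟩
    exact ed_ze e X Y T _ _ h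

end machine

end Mem

end Pool.Agent.R640.IM
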