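import Pool.Agent.R640.MemDefs
import Pool.Agent.R640.MemRep
import Pool.Agent.R640.MemFin
import Pool.Agent.R640.MemQueue

set_option autoImplicit false

/-! The membership problems are undecidable. -/

namespace Pool.Agent.R640.IM

namespace Mem

section auto

variable {A : Type}

/-- The transitions of the automaton of the powers of `x`. -/
def aut (d : A × Bool) (x : List (A × Bool)) : List (ℕ × (A × Bool) × ℕ) :=
  (List.range x.length).map fun i => (i, x.getD i d, if i + 1 = x.length then 0 else i + 1)

theorem mem_aut {d : A × Bool} {x : List (A × Bool)} {i r : ℕ} {a : A × Bool} :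
    (i, a, r) ∈ aut d x ↔ i < x.length ∧ x.getD i d = a ∧
      (if i + 1 = x.length then 0 else i + 1) = r := by
  simp only [aut, List.mem_map, List.mem_range, Prod.mk.injEq]
  constructor
  · rintro ⟨j, hj, rfl, rfl, rfl⟩
    exact ⟨hj, rfl, rfl⟩
  · rintro ⟨hj, rfl, rfl⟩
    exact ⟨i, hj, rfl, rfl, rfl⟩

theorem run_append (T : List (ℕ × (A × Bool) × ℕ)) : ∀ (u v : List (A × Bool)) (p q r : ℕ),
    Run T p u q → Run T q v r → Run T p (u ++ v) r
  | [], v, p, q, r, h, h' => by
    have h : p = q := h
    subst h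
    exact h'
  | a :: u, v, p, q, r, ⟨s, hs, h⟩, h' => ⟨s, hs, run_append T u v s q r h h'⟩

theorem run_drop (d : A × Bool) (x : List (A × Bool)) : ∀ (j i : ℕ), i + j + 1 = x.length →
    Run (aut d x) i (x.drop i) 0
  | 0, i, h => by
    have h1 : i < x.length := by omega
    rw [List.drop_eq_getElem_cons h1, List.drop_of_length_le (by omega : x.length ≤ i + 1)]
    refine ⟨0, mem_aut.2 ⟨h1, ?_, ?_⟩, rfl⟩
    · exact List.getD_eq_getElem _ _ h1
    · rw [if_pos (by omega)]
  | j + 1, i, h => by
    have h1 : i < x.length := by omega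
    rw [List.drop_eq_getElem_cons h1]
    refine ⟨i + 1, mem_aut.2 ⟨h1, ?_, ?_⟩, run_drop d x j (i + 1) (by omega)⟩
    · exact List.getD_eq_getElem _ _ h1
    · rw [if_neg (by omega)]

theorem run_pow (d : A × Bool) (x : List (A × Bool)) (hx : x ≠ []) : ∀ m : ℕ,
    Run (aut d x) 0 (List.replicate m x).flatten 0
  | 0 => rfl
  | m + 1 => by
    rw [List.replicate_succ, List.flatten_cons]
    refine run_append _ _ _ 0 0 0 ?_ (run_pow d x hx m)
    have h1 := List.length_pos_of_ne_nil hx
    have := run_drop d x (x.length - 1) 0 (by omega)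
    rwa [List.drop_zero] at this

theorem val_pow (R : Set (List (A × Bool) × List (A × Bool))) (x : List (A × Bool)) : ∀ m : ℕ,
    val R (List.replicate m x).flatten = val R x ^ m
  | 0 => by rw [List.replicate_zero, List.flatten_nil, val_nil, pow_zero]
  | m + 1 => by rw [List.replicate_succ, List.flatten_cons, val_append, val_pow R x m, pow_succ']

theorem run_pa {V : Type} {E : V → A × Bool → V → Prop} (hE : IG E) (d : A × Bool)
    (x : List (A × Bool)) (o : V) (ho : Pa E o x o) : ∀ (u : List (A × Bool)) (i : ℕ),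
    Run (aut d x) i u 0 → ∀ v, Pa E o (x.take i) v → Pa E v u o
  | [], i, h, v, hv => by
    have h : i = 0 := h
    subst h
    rw [List.take_zero] at hv
    have hv : o = v := hv
    exact hv.symm
  | a :: u, i, ⟨r, hr, h⟩, v, hv => by
    obtain ⟨hi, ha, hr⟩ := mem_aut.1 hr
    rw [List.getD_eq_getElem _ _ hi] at ha
    have h1 : x = x.take i ++ a :: x.drop (i + 1) := by
      conv_lhs => rw [← List.take_append_drop i x, List.drop_eq_getElem_cons hi, ha]
    have h2 : Pa E o (x.take i ++ a :: x.drop (i + 1)) o := h1 ▸ ho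
    rw [pa_append] at h2
    obtain ⟨v1, h3, v', h4, h5⟩ := h2
    obtain rfl := pa_det hE _ _ _ _ hv h3
    refine ⟨v', h4, run_pa hE d x o ho u r h v' ?_⟩
    split_ifs at hr with h6
    · subst hr
      rw [List.drop_of_length_le (by omega)] at h5
      have h5 : v' = o := h5
      rw [h5, List.take_zero]
      rfl
    · subst hr
      rw [List.take_succ_eq_append_getElem hi, pa_append, ha]
      exact ⟨v, hv, v', h4, rfl⟩

end auto

/-- The elements which fix a vertex form a closed inverse submonoid. -/
theorem exists_stab {A V : Type} {R : Set (List (A × Bool) × List (A × Bool))}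
    {E : V → A × Bool → V → Prop} (hE : IG E)
    (hR : ∀ r s, (r, s) ∈ R → ∀ x y, Pa E x r y ↔ Pa E x s y) (o : V) :
    ∃ H : Submonoid (InvMon R), IsInv R H ∧ IsCl R H ∧ ∀ u, val R u ∈ H ↔ Pa E o u o := by
  let H : Submonoid (InvMon R) :=
    { carrier := {s | ∃ u, val R u = s ∧ Pa E o u o}
      one_mem' := ⟨[], val_nil, rfl⟩
      mul_mem' := by
        rintro _ _ ⟨u, rfl, hu⟩ ⟨v, rfl, hv⟩
        exact ⟨u ++ v, val_append _ _, (pa_append _ _ _ _).2 ⟨o, hu, hv⟩⟩ }
  have key : ∀ u, val R u ∈ H ↔ Pa E o u o := by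
    intro u
    constructor
    · rintro ⟨v, hv, h⟩
      exact (pa_congr hE hR hv _ _).1 h
    · intro h
      exact ⟨u, rfl, h⟩
  refine ⟨H, ?_, ?_, key⟩
  · intro u hu
    rw [key] at hu ⊢
    exact pa_inv hE _ _ _ hu
  · intro h hh m f hf hm
    obtain ⟨v, rfl⟩ := val_surj m
    obtain ⟨t, rfl⟩ := val_surj f
    rw [hm, ← val_append, key, pa_append] at hh
    obtain ⟨q, h1, h2⟩ := hh
    have h3 : val R (t ++ t) = val R t := by rw [val_append, hf]
    have h4 := (pa_congr hE hR h3 _ _).2 h1
    rw [pa_append] at h4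
    obtain ⟨q', h5, h6⟩ := h4
    obtain rfl := pa_det hE _ _ _ _ h1 h5
    obtain rfl := pa_det hE _ _ _ _ (pa_inv hE _ _ _ h1) (pa_inv hE _ _ _ h6)
    exact (key _).2 h2

section machine

variable {A S : Type} (e : A ≃ Option (Option S)) (P : S → S → Option (List S))
  (hP : ∀ x y l, P x y = some l → 2 ≤ l.length) {z : List S} (hz : 2 ≤ z.length)

include hP hz

theorem not_halts (h : ¬ Halts P z) : ∃ H : Submonoid (InvMon (QR e P)), IsInv (QR e P) H ∧
    IsCl (QR e P) H ∧ val (QR e P) (code e z) ∈ H ∧ val (QR e P) [ze e] ∉ H := by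
  obtain ⟨E, h1, h2, h3, h4⟩ := exists_rep e P hP hz h
  obtain ⟨H, g1, g2, g3⟩ := exists_stab h1 h2 0
  exact ⟨H, g1, g2, (g3 _).2 h3, fun h => h4 0 0 ((g3 _).1 h)⟩

theorem sub_iff : Halts P z ↔ SubMem (QR e P) [code e z] [ze e] := by
  constructor
  · intro h H hH
    obtain ⟨n, hn⟩ := nilpotent e P h
    rw [← hn]
    exact H.pow_mem (hH _ (by simp)) n
  · intro h
    by_contra hn
    obtain ⟨H, h1, h2, h3, h4⟩ := not_halts e P hP hz hn
    exact h4 (h H (by simpa using h3))

theorem inv_iff : Halts P z ↔ InvMem (QR e P) [code e z] [ze e] := by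
  constructor
  · intro h H _ hH
    exact (sub_iff e P hP hz).1 h H hH
  · intro h
    by_contra hn
    obtain ⟨H, h1, h2, h3, h4⟩ := not_halts e P hP hz hn
    exact h4 (h H h1 (by simpa using h3))

theorem cl_iff : Halts P z ↔ ClMem (QR e P) [code e z] [ze e] := by
  constructor
  · intro h H _ _ hH
    exact (sub_iff e P hP hz).1 h H hH
  · intro h
    by_contra hn
    obtain ⟨H, h1, h2, h3, h4⟩ := not_halts e P hP hz hn
    exact h4 (h H h1 h2 (by simpa using h3))

theorem rat_iff : Halts P z ↔
    RatMem (QR e P) (aut (ze e) (code e z)) [0] [0] [ze e] := by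
  constructor
  · intro h
    obtain ⟨n, hn⟩ := nilpotent e P h
    refine ⟨0, by simp, 0, by simp, _, run_pow (ze e) (code e z) (by simp [code]) n, ?_⟩
    rw [val_pow, hn]
  · rintro ⟨p, hp, q, hq, u, hu, hv⟩
    rw [List.mem_singleton] at hp hq
    subst hp hq
    by_contra hn
    obtain ⟨E, h1, h2, h3, h4⟩ := exists_rep e P hP hz hn
    have h5 := run_pa h1 (ze e) (code e z) 0 h3 u 0 hu 0 (by rw [List.take_zero]; rfl)
    exact h4 0 0 ((pa_congr h1 h2 hv 0 0).1 h5)

end machine

/-- The membership problems of a finitely presented inverse monoid with finite Schützenberger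
graphs can be undecidable. -/
theorem undecidable : ∃ (k : ℕ) (R : Set (List (Fin k × Bool) × List (Fin k × Bool))),
    R.Finite ∧ (∀ w, Finite (Vert R w)) ∧ TreeLike R ∧
    (¬ ComputablePred fun p : (List (ℕ × (Fin k × Bool) × ℕ) × List ℕ × List ℕ) ×
      List (Fin k × Bool) => RatMem R p.1.1 p.1.2.1 p.1.2.2 p.2) ∧
    (¬ ComputablePred fun p : List (List (Fin k × Bool)) × List (Fin k × Bool) =>
      SubMem R p.1 p.2) ∧
    (¬ ComputablePred fun p : List (List (Fin k × Bool)) × List (Fin k × Bool) =>
      InvMem R p.1 p.2) ∧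
    (¬ ComputablePred fun p : List (List (Fin k × Bool)) × List (Fin k × Bool) =>
      ClMem R p.1 p.2) := by
  obtain ⟨S, hS, P, z, hc, hP, hz, hu⟩ := queue_undecidable
  obtain ⟨k, ⟨e'⟩⟩ := Finite.exists_equiv_fin (Option (Option S))
  let e : Fin k ≃ Option (Option S) := e'.symm
  have hx : Computable fun n => code e (z n) := by
    have h1 := hc fun s => [Encodable.encode (lt e s)]
    have h2 : Primrec fun c : ℕ => ((Encodable.decode c : Option (Fin k × Bool)).getD (ze e)) :=
      Primrec.option_getD.comp Primrec.decode (Primrec.const _)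
    have h3 : Primrec fun l : List ℕ => l.map fun c =>
        ((Encodable.decode c : Option (Fin k × Bool)).getD (ze e)) :=
      Primrec.list_map Primrec.id (h2.comp Primrec.snd).to₂
    have h4 := h3.to_comp.comp h1
    have h5 : (fun n => (((z n).flatMap fun s => [Encodable.encode (lt e s)]).map fun c =>
        ((Encodable.decode c : Option (Fin k × Bool)).getD (ze e)))) =
        fun n => (z n).map (lt e) := by
      funext n
      rw [List.map_flatMap]
      induction z n with
      | nil => rfl
      | cons s l ih =>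
        rw [List.flatMap_cons, ih, List.map_cons]
        simp
    rw [h5] at h4
    exact Computable.list_append.comp h4 (Computable.const _)
  have hX : Computable fun n => ([code e (z n)], [ze e]) :=
    Computable.pair (Computable.list_cons.comp hx (Computable.const [])) (Computable.const _)
  have hA : Computable fun n => ((aut (ze e) (code e (z n)), [0], [0]), [ze e]) := by
    have h1 : Primrec fun x : List (Fin k × Bool) => aut (ze e) x := by
      unfold aut
      refine Primrec.list_map (Primrec.list_range.comp Primrec.list_length) ?_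
      have h2 : Primrec fun p : List (Fin k × Bool) × ℕ => p.1.getD p.2 (ze e) :=
        Primrec.list_getD (ze e)
      have h3 : Primrec fun p : List (Fin k × Bool) × ℕ =>
          if p.2 + 1 = p.1.length then 0 else p.2 + 1 :=
        Primrec.ite (PrimrecRel.comp Primrec.eq (Primrec.succ.comp Primrec.snd)
          (Primrec.list_length.comp Primrec.fst)) (Primrec.const 0)
          (Primrec.succ.comp Primrec.snd)
      exact (Primrec.pair Primrec.snd (Primrec.pair h2 h3)).to₂
    exact Computable.pair (Computable.pair (h1.to_comp.comp hx)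
      (Computable.const ([0], [0]))) (Computable.const _)
  refine ⟨k, QR e P, QR_finite e P, fun w => vert_finite e P w, treeLike e P, ?_, ?_, ?_, ?_⟩
  · intro h
    exact hu (ComputablePred.computable_of_manyOneReducible
      ⟨_, hA, fun n => rat_iff e P hP (hz n)⟩ h)
  · intro h
    exact hu (ComputablePred.computable_of_manyOneReducible
      ⟨_, hX, fun n => sub_iff e P hP (hz n)⟩ h)
  · intro h
    exact hu (ComputablePred.computable_of_manyOneReducible
      ⟨_, hX, fun n => inv_iff e P hP (hz n)⟩ h)
  · intro h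
    exact hu (ComputablePred.computable_of_manyOneReducible
      ⟨_, hX, fun n => cl_iff e P hP (hz n)⟩ h)

end Mem

end Pool.Agent.R640.IM
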