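import Pool.Agent.R640.MemGraph

set_option autoImplicit false

/-! The inverse monoid of a queue machine. -/

namespace Pool.Agent.R640.IM

namespace Mem

section order

variable {A : Type} {R : Set (List (A × Bool) × List (A × Bool))}

/-- The inverse of an idempotent. -/
theorem idem_inv {φ : List (A × Bool)} (h : val R φ * val R φ = val R φ) :
    val R (inv φ) = val R φ := by
  set f := val R φ with hf
  set g := val R (inv φ) with hg
  have h1 : f * g * f = f := val_reg φ
  have h2 : g * f * g = g := val_reg' φ
  have h3 : g * f * (f * g) = f * g * (g * f) := by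
    have := val_comm (R := R) (inv φ) φ
    rwa [inv_inv] at this
  have h4 : g = f * g * (g * f) := by
    calc g = g * f * g := h2.symm
      _ = g * (f * f) * g := by rw [h]
      _ = g * f * (f * g) := by simp only [mul_assoc]
      _ = f * g * (g * f) := h3
  calc g = f * g * (g * f) := h4
    _ = (f * f) * g * (g * (f * f)) := by rw [h]
    _ = f * (f * g * (g * f)) * f := by simp only [mul_assoc]
    _ = f * g * f := by rw [← h4]
    _ = f := h1

theorem idem_comm {s t : InvMon R} (hs : s * s = s) (ht : t * t = t) : s * t = t * s := by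
  obtain ⟨φ, rfl⟩ := val_surj s
  obtain ⟨ψ, rfl⟩ := val_surj t
  have h := val_comm (R := R) φ ψ
  rwa [idem_inv hs, idem_inv ht, hs, ht] at h

/-- The natural partial order. -/
def Le (s t : InvMon R) : Prop := ∃ f, f * f = f ∧ s = f * t

theorem Le.refl (s : InvMon R) : Le s s := ⟨1, one_mul _, (one_mul _).symm⟩

theorem Le.mul {s t s' t' : InvMon R} (h : Le s t) (h' : Le s' t') : Le (s * s') (t * t') := by
  obtain ⟨f, hf, rfl⟩ := h
  obtain ⟨f', hf', rfl⟩ := h'
  obtain ⟨τ, rfl⟩ := val_surj t
  have h1 : (val R (inv τ) * val R τ) * (val R (inv τ) * val R τ) = val R (inv τ) * val R τ := by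
    rw [mul_assoc, ← mul_assoc (val R τ), val_reg]
  have h2 := idem_comm hf' h1
  set T := val R τ
  set T' := val R (inv τ)
  have h3 : T * f' = T * f' * T' * T := by
    calc T * f' = T * T' * T * f' := by rw [val_reg]
      _ = T * ((T' * T) * f') := by simp only [mul_assoc]
      _ = T * (f' * (T' * T)) := by rw [h2]
      _ = T * f' * T' * T := by simp only [mul_assoc]
  have h4 : (T * f' * T') * (T * f' * T') = T * f' * T' := by
    calc (T * f' * T') * (T * f' * T') = T * f' * T' * T * f' * T' := by simp only [mul_assoc]
      _ = T * f' * f' * T' := by rw [← h3]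
      _ = T * (f' * f') * T' := by simp only [mul_assoc]
      _ = T * f' * T' := by rw [hf']
  refine ⟨f * (T * f' * T'), ?_, ?_⟩
  · have := idem_comm hf h4
    calc f * (T * f' * T') * (f * (T * f' * T'))
        = f * ((T * f' * T') * f) * (T * f' * T') := by simp only [mul_assoc]
      _ = f * (f * (T * f' * T')) * (T * f' * T') := by rw [this]
      _ = (f * f) * ((T * f' * T') * (T * f' * T')) := by simp only [mul_assoc]
      _ = f * (T * f' * T') := by rw [hf, h4]
  · calc f * T * (f' * t') = f * (T * f') * t' := by simp only [mul_assoc]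
      _ = f * (T * f' * T' * T) * t' := by rw [← h3]
      _ = f * (T * f' * T') * (T * t') := by simp only [mul_assoc]

theorem Le.pow {s t : InvMon R} (h : Le s t) : ∀ n : ℕ, Le (s ^ n) (t ^ n)
  | 0 => by
    rw [pow_zero, pow_zero]
    exact Le.refl _
  | n + 1 => by
    rw [pow_succ, pow_succ]
    exact (Le.pow h n).mul h

end order

section machine

variable {A S : Type} (e : A ≃ Option (Option S)) (P : S → S → Option (List S))

/-- The letter of a symbol. -/
def lt (s : S) : A × Bool := (e.symm (some (some s)), true)

/-- The letter `ρ` or its inverse. -/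
def rh (b : Bool) : A × Bool := (e.symm (some none), b)

/-- The letter `0`. -/
def ze : A × Bool := (e.symm none, true)

/-- The word `ρ⁻¹ x y`. -/
def lhs (x y : S) : List (A × Bool) := [rh e false, lt e x, lt e y]

/-- The relation of a pair of symbols: `ρ⁻¹ x y ≤ P(x, y) ρ⁻¹` or `ρ⁻¹ x y = 0`. -/
def rl (x y : S) : List (A × Bool) × List (A × Bool) :=
  match P x y with
  | some l => (lhs e x y, lhs e x y ++ inv (lhs e x y) ++ (l.map (lt e) ++ [rh e false]))
  | none => (lhs e x y, [ze e])

/-- The relations of the queue machine. -/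
def QR : Set (List (A × Bool) × List (A × Bool)) :=
  Set.range (fun p : S × S => rl e P p.1 p.2) ∪
    (Set.range (fun a : A × Bool => ([ze e, a], [ze e])) ∪
      Set.range (fun a : A × Bool => ([a, ze e], [ze e])))

/-- The queue machine halts. -/
inductive Halts : List S → Prop
  | stop (x y : S) (t : List S) : P x y = none → Halts (x :: y :: t)
  | step (x y : S) (t l : List S) : P x y = some l → Halts (t ++ l) → Halts (x :: y :: t)

theorem QR_finite [Finite A] [Finite S] : (QR e P).Finite :=
  (Set.finite_range _).union ((Set.finite_range _).union (Set.finite_range _))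

theorem val_ze_mul (s : InvMon (QR e P)) : val (QR e P) [ze e] * s = val (QR e P) [ze e] := by
  obtain ⟨u, rfl⟩ := val_surj s
  induction u with
  | nil => rw [val_nil, mul_one]
  | cons a u ih =>
    have h : val (QR e P) (a :: u) = val (QR e P) [a] * val (QR e P) u := by
      rw [← val_append]; rfl
    have h1 : val (QR e P) [ze e, a] = val (QR e P) [ze e] :=
      val_rel (Or.inr (Or.inl ⟨a, rfl⟩))
    have h2 : val (QR e P) [ze e, a] = val (QR e P) [ze e] * val (QR e P) [a] := by
      rw [← val_append]; rfl
    rw [h, ← mul_assoc, ← h2, h1, ih]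

theorem mul_val_ze (s : InvMon (QR e P)) : s * val (QR e P) [ze e] = val (QR e P) [ze e] := by
  obtain ⟨u, rfl⟩ := val_surj s
  induction u with
  | nil => rw [val_nil, one_mul]
  | cons a u ih =>
    have h : val (QR e P) (a :: u) = val (QR e P) [a] * val (QR e P) u := by
      rw [← val_append]; rfl
    have h1 : val (QR e P) [a, ze e] = val (QR e P) [ze e] :=
      val_rel (Or.inr (Or.inr ⟨a, rfl⟩))
    have h2 : val (QR e P) [a, ze e] = val (QR e P) [a] * val (QR e P) [ze e] := by
      rw [← val_append]; rfl
    rw [h, mul_assoc, ih, ← h2, h1]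

/-- The word `z ρ⁻¹` of a queue word `z`. -/
def code (z : List S) : List (A × Bool) := z.map (lt e) ++ [rh e false]

theorem val_lhs_some {x y : S} {l : List S} (h : P x y = some l) :
    Le (val (QR e P) (lhs e x y)) (val (QR e P) (l.map (lt e) ++ [rh e false])) := by
  have h1 : (lhs e x y, lhs e x y ++ inv (lhs e x y) ++ (l.map (lt e) ++ [rh e false])) ∈
      QR e P := by
    refine Or.inl ⟨(x, y), ?_⟩
    simp only [rl]
    rw [h]
  have h2 := val_rel h1
  exact ⟨val (QR e P) (lhs e x y ++ inv (lhs e x y)), val_idem _, by rw [← val_append]; exact h2⟩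

theorem val_lhs_none {x y : S} (h : P x y = none) :
    val (QR e P) (lhs e x y) = val (QR e P) [ze e] := by
  have h1 : (lhs e x y, [ze e]) ∈ QR e P := by
    refine Or.inl ⟨(x, y), ?_⟩
    simp only [rl]
    rw [h]
  exact val_rel h1

/-- If the machine halts then the element is nilpotent. -/
theorem nilpotent {z : List S} (h : Halts P z) :
    ∃ n : ℕ, val (QR e P) (code e z) ^ n = val (QR e P) [ze e] := by
  induction h with
  | stop x y t h =>
    refine ⟨2, ?_⟩
    have h1 : val (QR e P) (code e (x :: y :: t)) ^ 2 =
        val (QR e P) ((x :: y :: t).map (lt e)) * val (QR e P) (lhs e x y) *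
          val (QR e P) (t.map (lt e) ++ [rh e false]) := by
      rw [pow_two, ← val_append, ← val_append, ← val_append]
      simp [code, lhs]
    rw [h1, val_lhs_none e P h, mul_val_ze, val_ze_mul]
  | step x y t l h _ ih =>
    obtain ⟨n, hn⟩ := ih
    refine ⟨n + 1, ?_⟩
    have h0 : val (QR e P) (code e (x :: y :: t)) = val (QR e P) [lt e x, lt e y] *
        val (QR e P) (t.map (lt e)) * val (QR e P) [rh e false] := by
      rw [← val_append, ← val_append]
      simp [code]
    have h1 : ∀ n : ℕ, val (QR e P) (code e (x :: y :: t)) ^ (n + 1) =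
        val (QR e P) [lt e x, lt e y] * (val (QR e P) (t.map (lt e)) *
          val (QR e P) (lhs e x y)) ^ n * (val (QR e P) (t.map (lt e)) *
            val (QR e P) [rh e false]) := by
      intro n
      have h2 : val (QR e P) (lhs e x y) = val (QR e P) [rh e false] *
          val (QR e P) [lt e x, lt e y] := by
        rw [← val_append]; rfl
      induction n with
      | zero =>
        rw [zero_add, pow_one, pow_zero, mul_one, h0, mul_assoc]
      | succ n ih =>
        rw [pow_succ, ih, h0, pow_succ, h2]
        simp only [mul_assoc]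
    have h3 : Le (val (QR e P) (t.map (lt e)) * val (QR e P) (lhs e x y))
        (val (QR e P) (code e (t ++ l))) := by
      have h4 : val (QR e P) (code e (t ++ l)) = val (QR e P) (t.map (lt e)) *
          val (QR e P) (l.map (lt e) ++ [rh e false]) := by
        rw [← val_append]
        simp [code]
      rw [h4]
      exact (Le.refl _).mul (val_lhs_some e P h)
    obtain ⟨f, hf, h5⟩ := h3.pow n
    rw [h1, h5, hn, mul_val_ze, mul_val_ze, val_ze_mul]

end machine

end Mem

end Pool.Agent.R640.IM
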