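import Pool.Agent.R640.Len

set_option autoImplicit false

/-! Quasi-parabolic hyperbolic structures on a group and their poset. -/

namespace Pool.Agent.R640

open Pointwise

variable {G : Type*} [Group G]

/-- `g` is loxodromic for the action of `G` on the Cayley graph with respect to `S`: the lengths
of its powers grow linearly. -/
def Lox (S : Set G) (g : G) : Prop := ∃ c : ℝ, 0 < c ∧ ∀ n : ℕ, c * n ≤ len S (g ^ n)

/-- The Gromov products of the members of the sequences `x` and `y` tend to infinity. For
`x = y` this says that `x` converges to a point of the Gromov boundary of the Cayley graph; two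
sequences which converge in this way have the same limit if and only if this holds for them. -/
def SamePoint (S : Set G) (x y : ℕ → G) : Prop :=
  ∀ K : ℝ, ∃ N : ℕ, ∀ n m : ℕ, N ≤ n → N ≤ m → K ≤ gp S (x n) (y m)

/-- `S` is a generating set of `G` and the Cayley graph with respect to `S` is Gromov hyperbolic
(as the word metric is invariant under left multiplication, base point `1` is enough). -/
def HypGen (S : Set G) : Prop :=
  Subgroup.closure S = ⊤ ∧ ∃ δ : ℝ, ∀ x y z : G, min (gp S x y) (gp S y z) - δ ≤ gp S x z

/-- `S` is a generating set with hyperbolic Cayley graph such that the action of `G` on the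
Cayley graph by left multiplication is quasi-parabolic: some element is loxodromic, `G` fixes a
point of the Gromov boundary (the limit of the sequence `x`), and the limit set of `G` is infinite
(the orbit `G` has infinitely many limit points, the limits of the sequences `y i`). -/
def QuasiParabolic (S : Set G) : Prop :=
  HypGen S ∧ (∃ g : G, Lox S g) ∧
  (∃ x : ℕ → G, SamePoint S x x ∧ ∀ g : G, SamePoint S (fun n => g * x n) x) ∧
  ∃ y : ℕ → ℕ → G, (∀ i, SamePoint S (y i) (y i)) ∧ ∀ i j, i ≠ j → ¬ SamePoint S (y i) (y j)

/-- The quasi-parabolic generating sets of `G`. -/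
def QPGen (G : Type*) [Group G] : Type _ := {S : Set G // QuasiParabolic S}

/-- `X ≤ Y` if the word lengths of the elements of `Y` with respect to `X` are bounded. -/
instance (G : Type*) [Group G] : Preorder (QPGen G) where
  le X Y := ∃ C : ℕ, ∀ y ∈ Y.1, len X.1 y ≤ C
  le_refl X := ⟨1, fun _ hy => len_le_one hy⟩
  le_trans X Y Z := by
    rintro ⟨C, hC⟩ ⟨D, hD⟩
    refine ⟨C * D, fun z hz => ?_⟩
    exact (len_le_mul X.2.1.1 Y.2.1.1 hC z).trans (Nat.mul_le_mul_left _ (hD z hz))

/-- The poset of quasi-parabolic hyperbolic structures on `G`: the generating sets `X`, `Y` with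
quasi-parabolic actions are identified if `X ≤ Y` and `Y ≤ X`. -/
def Hqp (G : Type*) [Group G] : Type _ := Antisymmetrization (QPGen G) (· ≤ ·)

instance (G : Type*) [Group G] : PartialOrder (Hqp G) :=
  (inferInstance : PartialOrder (Antisymmetrization (QPGen G) (· ≤ ·)))

end Pool.Agent.R640
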