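import Pool.Agent.R640.Asc
import Pool.Agent.R640.QPDefs

set_option autoImplicit false

/-! Ascending HNN extensions give quasi-parabolic structures. -/

namespace Pool.Agent.R640

open Pointwise

namespace Asc

variable {G : Type*} [Group G] (A : Asc G)

theorem lox_iff (g : G) : Lox A.X g ↔ A.e g ≠ 0 := by
  constructor
  · rintro ⟨c, hc, h⟩ he
    obtain ⟨C, hC⟩ := A.bounded_of_e_zero he
    obtain ⟨n, hn⟩ := exists_nat_gt (C / c)
    have h1 := h n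
    have h2 : (len A.X (g ^ n) : ℝ) ≤ C := by exact_mod_cast hC n
    rw [div_lt_iff₀ hc] at hn
    nlinarith
  · intro h
    refine ⟨1, one_pos, fun n => ?_⟩
    rw [one_mul]
    exact_mod_cast A.lox_of_ne h n

theorem same_of_tendsto {x y : ℕ → G} (hx : ∀ K : ℤ, ∃ N, ∀ n, N ≤ n → A.e (x n) ≤ -K)
    (hy : ∀ K : ℤ, ∃ N, ∀ n, N ≤ n → A.e (y n) ≤ -K) : SamePoint A.X x y := by
  intro K
  obtain ⟨N₁, h1⟩ := hx (⌈K⌉ + 1)
  obtain ⟨N₂, h2⟩ := hy (⌈K⌉ + 1)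
  refine ⟨max N₁ N₂, fun n m hn hm => ?_⟩
  have h3 := A.same_of_neg (h1 n (le_trans (le_max_left _ _) hn))
    (h2 m (le_trans (le_max_right _ _) hm))
  have h4 := Int.le_ceil K
  push_cast at h3
  linarith

theorem same_pow {g h : G} (hg : A.e g < 0) (hh : A.e h < 0) :
    SamePoint A.X (fun n => g ^ n) (fun n => h ^ n) := by
  have key : ∀ g : G, A.e g < 0 → ∀ K : ℤ, ∃ N : ℕ, ∀ n, N ≤ n → A.e (g ^ n) ≤ -K := by
    intro g hg K
    refine ⟨K.toNat, fun n hn => ?_⟩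
    rw [e_pow]
    have h1 : K ≤ n := by omega
    nlinarith
  exact A.same_of_tendsto (key g hg) (key h hh)

theorem fixed_point : ∃ x : ℕ → G, SamePoint A.X x x ∧
    ∀ g : G, SamePoint A.X (fun n => g * x n) x := by
  have key : ∀ (g : G) (K : ℤ), ∃ N : ℕ, ∀ n : ℕ, N ≤ n → A.e (g * (A.t ^ n)⁻¹) ≤ -K := by
    intro g K
    refine ⟨(K + A.e g).toNat, fun n hn => ?_⟩
    simp only [e_mul, e_inv, e_pow, e_t, mul_one]
    omega
  refine ⟨fun n => (A.t ^ n)⁻¹, ?_, fun g => ?_⟩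
  · exact A.same_of_tendsto (by simpa using key 1) (by simpa using key 1)
  · exact A.same_of_tendsto (key g) (by simpa using key 1)

section Proper

variable {b : G} (hb : b ∈ A.B) (hb' : A.t⁻¹ * b * A.t ∉ A.B)

include hb' in
theorem not_mem_conj (k : ℕ) (hk : 1 ≤ k) : (A.t ^ k)⁻¹ * b * A.t ^ k ∉ A.B := by
  intro h
  apply hb'
  have h1 := A.conj_pow (k - 1) h
  convert h1 using 1
  obtain ⟨j, rfl⟩ : ∃ j, k = j + 1 := ⟨k - 1, by omega⟩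
  rw [Nat.add_sub_cancel, pow_succ']
  group

include hb hb' in
theorem M_far (i j : ℕ) (hij : i < j) (n m : ℕ) :
    0 ≤ A.M ((A.t ^ i)⁻¹ * b * A.t ^ i * A.t ^ n) ((A.t ^ j)⁻¹ * b * A.t ^ j * A.t ^ m) := by
  by_contra hlt
  push Not at hlt
  obtain ⟨-, -, h3⟩ := (A.M_le_iff (m := (i : ℤ))).1 (hlt.le.trans (Int.natCast_nonneg i))
  simp only [e_mul, e_inv, e_pow, e_t, A.e_B hb] at h3
  apply A.not_mem_conj hb' (j - i) (by omega)
  have h4 := A.B.mul_mem hb h3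
  convert h4 using 1
  obtain ⟨k, rfl⟩ : ∃ k, j = i + k := ⟨j - i, by omega⟩
  rw [Nat.add_sub_cancel_left]
  have e1 : (i : ℤ) + (-(i * 1) + 0 + i * 1 + n * 1) = ((i + n : ℕ) : ℤ) := by push_cast; ring
  have e2 : (i : ℤ) + (-(((i + k : ℕ) : ℤ) * 1) + 0 + ((i + k : ℕ) : ℤ) * 1 + m * 1) =
    ((i + m : ℕ) : ℤ) := by push_cast; ring
  rw [e1, e2, zpow_natCast, zpow_natCast, pow_add, pow_add, pow_add]
  group

include hb in
theorem M_one_le (i n : ℕ) : A.M 1 ((A.t ^ i)⁻¹ * b * A.t ^ i * A.t ^ n) ≤ i := by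
  apply A.M_le
  rw [P_one_iff]
  simp only [e_mul, e_inv, e_pow, e_t, A.e_B hb]
  refine ⟨by omega, by omega, ?_⟩
  convert hb using 1
  have e1 : (i : ℤ) + (-(i * 1) + 0 + i * 1 + n * 1) = ((i + n : ℕ) : ℤ) := by push_cast; ring
  rw [e1, zpow_natCast, zpow_natCast, pow_add]
  group

theorem M_close (a : G) (ha : A.e a = 0) (n m : ℕ) (h : n ≤ m) :
    A.M (a * A.t ^ n) (a * A.t ^ m) ≤ -n := by
  rw [M_left, ha, sub_zero]
  apply A.M_le
  refine ⟨by simp, by simp; omega, ?_⟩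
  simp only [e_pow, e_t, mul_one]
  have e1 : -(n : ℤ) + n = 0 := by ring
  have e2 : -(n : ℤ) + m = ((m - n : ℕ) : ℤ) := by omega
  rw [e1, e2, zpow_natCast]
  obtain ⟨k, rfl⟩ : ∃ k, m = n + k := ⟨m - n, by omega⟩
  rw [Nat.add_sub_cancel_left, pow_add]
  have : A.t ^ (0 : ℤ) * (A.t ^ n)⁻¹ * (A.t ^ n * A.t ^ k) * (A.t ^ k)⁻¹ = 1 := by group
  rw [this]
  exact A.B.one_mem

include hb hb' in
theorem boundary_infinite : ∃ y : ℕ → ℕ → G, (∀ i, SamePoint A.X (y i) (y i)) ∧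
    ∀ i j, i ≠ j → ¬ SamePoint A.X (y i) (y j) := by
  refine ⟨fun i n => (A.t ^ i)⁻¹ * b * A.t ^ i * A.t ^ n, ?_, ?_⟩
  · intro i K
    refine ⟨⌈K⌉.toNat + 1, fun n m hn hm => ?_⟩
    have h0 : A.e ((A.t ^ i)⁻¹ * b * A.t ^ i) = 0 := by simp [A.e_B hb]
    have h1 : (min n m : ℤ) ≤ A.Q ((A.t ^ i)⁻¹ * b * A.t ^ i * A.t ^ n)
        ((A.t ^ i)⁻¹ * b * A.t ^ i * A.t ^ m) := by
      unfold Q
      have h2 := A.M_one_nonneg ((A.t ^ i)⁻¹ * b * A.t ^ i * A.t ^ n)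
      have h3 := A.M_one_nonneg ((A.t ^ i)⁻¹ * b * A.t ^ i * A.t ^ m)
      rcases le_total n m with h | h
      · have h4 := A.M_close _ h0 n m h
        omega
      · have h4 := A.M_close _ h0 m n h
        rw [A.M_symm] at h4
        omega
    have h2 := A.le_gp ((A.t ^ i)⁻¹ * b * A.t ^ i * A.t ^ n) ((A.t ^ i)⁻¹ * b * A.t ^ i * A.t ^ m)
    have h3 : (⌈K⌉ + 1 : ℤ) ≤ A.Q ((A.t ^ i)⁻¹ * b * A.t ^ i * A.t ^ n)
        ((A.t ^ i)⁻¹ * b * A.t ^ i * A.t ^ m) := by omega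
    have h4 : ((⌈K⌉ + 1 : ℤ) : ℝ) ≤ A.Q ((A.t ^ i)⁻¹ * b * A.t ^ i * A.t ^ n)
        ((A.t ^ i)⁻¹ * b * A.t ^ i * A.t ^ m) := by exact_mod_cast h3
    have h5 := Int.le_ceil K
    push_cast at h4
    linarith
  · intro i j hij h
    obtain ⟨N, hN⟩ := h (i + j + 2)
    have h1 := hN N N le_rfl le_rfl
    have h2 := A.gp_le ((A.t ^ i)⁻¹ * b * A.t ^ i * A.t ^ N) ((A.t ^ j)⁻¹ * b * A.t ^ j * A.t ^ N)
    have h3 : A.Q ((A.t ^ i)⁻¹ * b * A.t ^ i * A.t ^ N) ((A.t ^ j)⁻¹ * b * A.t ^ j * A.t ^ N) ≤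
        i + j := by
      unfold Q
      have h4 := A.M_one_le hb i N
      have h5 := A.M_one_le hb j N
      rcases Nat.lt_or_gt_of_ne hij with h | h
      · have h6 := A.M_far hb hb' i j h N N
        omega
      · have h6 := A.M_far hb hb' j i h N N
        rw [A.M_symm] at h6
        omega
    have h4 : (A.Q ((A.t ^ i)⁻¹ * b * A.t ^ i * A.t ^ N) ((A.t ^ j)⁻¹ * b * A.t ^ j * A.t ^ N) : ℝ)
      ≤ i + j := by exact_mod_cast h3
    linarith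

include hb hb' in
theorem quasiParabolic : QuasiParabolic A.X :=
  ⟨⟨A.closure_X, A.hyp⟩, ⟨A.t, (A.lox_iff _).2 (by simp)⟩, A.fixed_point,
    A.boundary_infinite hb hb'⟩

end Proper

end Asc

end Pool.Agent.R640
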