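import Pool.Agent.R640.QP

set_option autoImplicit false

/-! A criterion for an ascending HNN extension to have a unique quasi-parabolic structure. -/

namespace Pool.Agent.R640

open Pointwise

variable {G : Type*} [Group G]

/-- The positive powers of `a` and `b` converge to the same end. -/
def SameEnd (S : Set G) (a b : G) : Prop :=
  ∀ K : ℝ, ∃ N : ℕ, ∀ n m : ℕ, N ≤ n → N ≤ m → K ≤ gp S (a ^ n) (b ^ m)

/-- A quasi-parabolic generating set, described with loxodromic elements. -/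
def QPs (S : Set G) : Prop :=
  Subgroup.closure S = ⊤ ∧
  (∃ δ : ℝ, ∀ x y z : G, min (gp S x y) (gp S y z) - δ ≤ gp S x z) ∧
  (∃ g h : G, Lox S g ∧ Lox S h ∧
    ¬ ((SameEnd S g h ∧ SameEnd S g⁻¹ h⁻¹) ∨ (SameEnd S g h⁻¹ ∧ SameEnd S g⁻¹ h))) ∧
  (∀ g h : G, Lox S g → Lox S h →
    (SameEnd S g h ∨ SameEnd S g h⁻¹ ∨ SameEnd S g⁻¹ h ∨ SameEnd S g⁻¹ h⁻¹))

theorem gp_symm {S : Set G} (hS : Subgroup.closure S = ⊤) (a b : G) : gp S a b = gp S b a := by
  unfold gp
  have h1 : len S (a⁻¹ * b) = len S (b⁻¹ * a) := by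
    rw [← len_inv hS (a⁻¹ * b)]
    congr 1
    group
  rw [h1]
  ring

/-- Powers of a loxodromic element converge. -/
theorem lox_conv {S : Set G} (hS : Subgroup.closure S = ⊤) {δ : ℝ}
    (hδ : ∀ x y z : G, min (gp S x y) (gp S y z) - δ ≤ gp S x z) {u : G} {c : ℝ} (hc : 0 < c)
    (hu : ∀ n : ℕ, c * n ≤ len S (u ^ n)) : SameEnd S u u := by
  obtain ⟨p, hp⟩ := exists_nat_gt ((len S u : ℝ) / c)
  rw [div_lt_iff₀ hc] at hp
  have hδ0 : 0 ≤ δ := by
    have h1 := hδ 1 1 1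
    have h2 : gp S (1 : G) 1 = 0 := by
      unfold gp
      simp [len_one]
    rw [h2] at h1
    simp only [min_self] at h1
    linarith
  have hp0 : 0 < p := by
    rcases Nat.eq_zero_or_pos p with h | h
    · rw [h] at hp
      have : (0 : ℝ) ≤ len S u := Nat.cast_nonneg _
      simp at hp
      linarith
    · exact h
  -- the direct estimate
  have direct : ∀ a b : ℕ, a ≤ b → (b - a) * p ≤ a → c / 2 * a ≤ gp S (u ^ a) (u ^ b) := by
    intro a b hab h
    have h1 := hu a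
    have h2 := hu b
    have e1 : (u ^ a)⁻¹ * u ^ b = u ^ (b - a) := by
      obtain ⟨k, rfl⟩ := Nat.exists_eq_add_of_le hab
      rw [Nat.add_sub_cancel_left, pow_add, inv_mul_cancel_left]
    have h3 : (len S (u ^ (b - a)) : ℝ) ≤ (b - a : ℕ) * len S u := by
      exact_mod_cast len_pow_le hS u (b - a)
    unfold gp
    rw [e1]
    have h4 : ((b - a : ℕ) : ℝ) * len S u ≤ ((b - a : ℕ) : ℝ) * (p * c) :=
      mul_le_mul_of_nonneg_left hp.le (Nat.cast_nonneg _)
    have h5 : ((b - a : ℕ) : ℝ) * p ≤ a := by exact_mod_cast h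
    have h6 : ((b - a : ℕ) : ℝ) * (p * c) ≤ a * c := by
      rw [← mul_assoc]
      exact mul_le_mul_of_nonneg_right h5 hc.le
    have h7 : (a : ℝ) ≤ b := by exact_mod_cast hab
    have h8 : c * a ≤ c * b := mul_le_mul_of_nonneg_left h7 hc.le
    linarith
  obtain ⟨q, hq⟩ := exists_nat_gt (4 * δ / c)
  rw [div_lt_iff₀ hc] at hq
  set a₀ := p * (q + 1) with ha₀
  have main : ∀ d a b : ℕ, a₀ ≤ a → a ≤ b → b - a ≤ d → c / 4 * a ≤ gp S (u ^ a) (u ^ b) := by
    intro d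
    induction d with
    | zero =>
      intro a b _ hab hd
      have h1 := direct a b hab (by
        have : b - a = 0 := by omega
        rw [this, zero_mul]
        exact Nat.zero_le _)
      have h2 : 0 ≤ c * a := by positivity
      linarith
    | succ d ih =>
      intro a b ha hab hd
      by_cases h : (b - a) * p ≤ a
      · have h1 := direct a b hab h
        have h2 : 0 ≤ c * a := by positivity
        linarith
      · push Not at h
        set s := a / p with hs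
        have hsp : s * p ≤ a := Nat.div_mul_le_self a p
        have hs1 : q + 1 ≤ s := by
          rw [hs, Nat.le_div_iff_mul_le hp0, mul_comm]
          exact ha
        have hsb : a + s ≤ b := by
          by_contra hlt
          push Not at hlt
          have h1 : b - a ≤ s := by omega
          have h2 : (b - a) * p ≤ s * p := Nat.mul_le_mul_right p h1
          omega
        have h1 := direct a (a + s) (by omega) (by rwa [Nat.add_sub_cancel_left])
        have h2 := ih (a + s) b (by omega) hsb (by omega)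
        have h3 := hδ (u ^ a) (u ^ (a + s)) (u ^ b)
        have h4 : (q : ℝ) + 1 ≤ s := by exact_mod_cast hs1
        have h5 : c * (q + 1) ≤ c * s := mul_le_mul_of_nonneg_left h4 hc.le
        have h6 : c * (q + 1) ≤ c * a := by
          apply mul_le_mul_of_nonneg_left _ hc.le
          have : q + 1 ≤ a := by
            have : a₀ ≥ q + 1 := by
              rw [ha₀]
              exact Nat.le_mul_of_pos_left _ hp0
            omega
          exact_mod_cast this
        push_cast at h2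
        have h7 : c / 4 * a + δ ≤ min (gp S (u ^ a) (u ^ (a + s))) (gp S (u ^ (a + s)) (u ^ b)) := by
          apply le_min
          · nlinarith
          · nlinarith
        linarith
  intro K
  obtain ⟨N, hN⟩ := exists_nat_gt (K / (c / 4))
  rw [div_lt_iff₀ (by positivity)] at hN
  refine ⟨max N a₀, fun n m hn hm => ?_⟩
  have key : ∀ n m : ℕ, max N a₀ ≤ n → n ≤ m → K ≤ gp S (u ^ n) (u ^ m) := by
    intro n m hn hnm
    have h1 := main (m - n) n m (le_trans (le_max_right _ _) hn) hnm le_rfl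
    have h2 : (N : ℝ) ≤ n := by exact_mod_cast le_trans (le_max_left _ _) hn
    have h3 : c / 4 * N ≤ c / 4 * n := mul_le_mul_of_nonneg_left h2 (by positivity)
    linarith
  rcases le_total n m with h | h
  · exact key n m hn h
  · rw [gp_symm hS]
    exact key m n hm h

namespace Asc

variable (A : Asc G)

/-- The conditions which imply uniqueness. -/
structure Rigid : Prop where
  /-- Length functions are bounded on the base group. -/
  P1 : ∀ L : G → ℕ, (∀ a b, L (a * b) ≤ L a + L b) → (∀ a, L a⁻¹ ≤ L a) →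
    ∃ C, ∀ b ∈ A.B, L b ≤ C
  /-- Length functions are bounded or proper on the kernel of `χ`. -/
  P2 : ∀ L : G → ℕ, (∀ a b, L (a * b) ≤ L a + L b) → (∀ a, L a⁻¹ ≤ L a) →
    (∃ C, ∀ g, A.e g = 0 → L g ≤ C) ∨
    ∀ C, ∃ k : ℕ, ∀ g, A.e g = 0 → L g ≤ C → A.t ^ k * g * (A.t ^ k)⁻¹ ∈ A.B

variable {A}

theorem level_pow {g : G} {j k : ℕ} (h : A.t ^ k * (g * (A.t ^ j)⁻¹) * (A.t ^ k)⁻¹ ∈ A.B)
    (m : ℕ) : A.t ^ k * (g ^ m * (A.t ^ (j * m))⁻¹) * (A.t ^ k)⁻¹ ∈ A.B := by
  induction m with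
  | zero => simp
  | succ m ih =>
    have h1 := A.conj_pow (j * m) h
    have h2 := A.B.mul_mem ih h1
    convert h2 using 1
    have e1 : j * (m + 1) = j * m + j := by ring
    have e2 : A.t ^ (j * m) * A.t ^ k = A.t ^ k * A.t ^ (j * m) := by
      rw [← pow_add, ← pow_add, add_comm]
    have e3 : (A.t ^ (j * m + j))⁻¹ = (A.t ^ j)⁻¹ * (A.t ^ (j * m))⁻¹ := by
      rw [pow_add, mul_inv_rev]
    rw [e1, e3, pow_succ]
    have e4 : A.t ^ (j * m) * (A.t ^ k * (g * (A.t ^ j)⁻¹) * (A.t ^ k)⁻¹) * (A.t ^ (j * m))⁻¹ =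
        (A.t ^ (j * m) * A.t ^ k) * (g * (A.t ^ j)⁻¹) * (A.t ^ (j * m) * A.t ^ k)⁻¹ := by
      group
    rw [e4, e2]
    group

section

variable (hR : A.Rigid) {Y : Set G} (hY : Subgroup.closure Y = ⊤)

include hR hY in
theorem level_bdd (k : ℕ) : ∃ C : ℕ, ∀ g, A.t ^ k * g * (A.t ^ k)⁻¹ ∈ A.B → len Y g ≤ C := by
  obtain ⟨C, hC⟩ := hR.P1 (len Y) (len_mul_le hY) (fun a => (len_inv hY a).le)
  refine ⟨C + 2 * len Y (A.t ^ k), fun g hg => ?_⟩
  have h1 := hC _ hg
  have e1 : g = (A.t ^ k)⁻¹ * (A.t ^ k * g * (A.t ^ k)⁻¹) * A.t ^ k := by group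
  have h2 := len_mul_le hY ((A.t ^ k)⁻¹ * (A.t ^ k * g * (A.t ^ k)⁻¹)) (A.t ^ k)
  have h3 := len_mul_le hY (A.t ^ k)⁻¹ (A.t ^ k * g * (A.t ^ k)⁻¹)
  rw [← e1] at h2
  rw [len_inv hY] at h3
  omega

include hR hY in
theorem pow_bdd {g : G} {j : ℕ} (hj : A.e g = j) :
    ∃ C : ℕ, ∀ m : ℕ, len Y (g ^ m) ≤ len Y (A.t ^ (j * m)) + C ∧
      len Y (A.t ^ (j * m)) ≤ len Y (g ^ m) + C := by
  obtain ⟨k, hk⟩ := A.exh (g * (A.t ^ j)⁻¹) (A.chi_of_e (by simp [hj]))
  obtain ⟨C, hC⟩ := level_bdd hR hY k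
  refine ⟨C, fun m => ?_⟩
  have h1 := hC _ (level_pow hk m)
  constructor
  · have h2 := len_mul_le hY (g ^ m * (A.t ^ (j * m))⁻¹) (A.t ^ (j * m))
    rw [inv_mul_cancel_right] at h2
    omega
  · have h2 := len_mul_le hY (g ^ m * (A.t ^ (j * m))⁻¹)⁻¹ (g ^ m)
    have e1 : (g ^ m * (A.t ^ (j * m))⁻¹)⁻¹ * g ^ m = A.t ^ (j * m) := by group
    rw [e1, len_inv hY] at h2
    omega

/-- Linear growth up to an additive error is linear growth. -/
theorem fekete {u : G} {c : ℝ} {C : ℕ} (hY : Subgroup.closure Y = ⊤)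
    (h : ∀ m : ℕ, c * m ≤ len Y (u ^ m) + C) (m : ℕ) : c * m ≤ len Y (u ^ m) := by
  by_contra hlt
  push Not at hlt
  obtain ⟨r, hr⟩ := exists_nat_gt ((C : ℝ) / (c * m - len Y (u ^ m)))
  rw [div_lt_iff₀ (by linarith)] at hr
  have h1 := h (m * r)
  have h2 : (len Y (u ^ (m * r)) : ℝ) ≤ r * len Y (u ^ m) := by
    rw [pow_mul]
    exact_mod_cast len_pow_le hY (u ^ m) r
  push_cast at h1
  linarith

theorem lox_inv {g : G} (hY : Subgroup.closure Y = ⊤) (h : Lox Y g) : Lox Y g⁻¹ := by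
  obtain ⟨c, hc, h1⟩ := h
  refine ⟨c, hc, fun n => ?_⟩
  rw [inv_pow, len_inv hY]
  exact h1 n

include hR hY in
theorem lox_ne {g : G} (h : Lox Y g) : A.e g ≠ 0 := by
  intro h0
  obtain ⟨C, hC⟩ := pow_bdd hR hY (g := g) (j := 0) (by rw [h0]; rfl)
  obtain ⟨c, hc, h1⟩ := h
  obtain ⟨n, hn⟩ := exists_nat_gt ((C : ℝ) / c)
  rw [div_lt_iff₀ hc] at hn
  have h2 := (hC n).1
  rw [zero_mul, pow_zero, len_one] at h2
  have h3 : (len Y (g ^ n) : ℝ) ≤ C := by exact_mod_cast (by omega : len Y (g ^ n) ≤ C)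
  have h4 := h1 n
  linarith

include hR hY in
theorem lox_t_pos {g : G} (h : Lox Y g) (hg : 0 < A.e g) :
    ∃ c : ℝ, 0 < c ∧ ∀ n : ℕ, c * n ≤ len Y (A.t ^ n) := by
  obtain ⟨j, hj⟩ := Int.eq_ofNat_of_zero_le hg.le
  obtain ⟨C, hC⟩ := pow_bdd hR hY hj
  obtain ⟨c, hc, h1⟩ := h
  have hj0 : (0 : ℝ) < j := by
    have : 0 < j := by omega
    exact_mod_cast this
  refine ⟨c / j, by positivity, fun m => fekete hY (C := C) (fun m => ?_) m⟩
  have h2 := h1 m
  have h3 : (len Y (g ^ m) : ℝ) ≤ len Y (A.t ^ (j * m)) + C := by exact_mod_cast (hC m).1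
  have h4 : (len Y (A.t ^ (j * m)) : ℝ) ≤ j * len Y (A.t ^ m) := by
    rw [mul_comm, pow_mul]
    exact_mod_cast len_pow_le hY (A.t ^ m) j
  have h5 : c * m ≤ j * len Y (A.t ^ m) + C := by linarith
  have h6 : (C : ℝ) ≤ j * C := by
    have : (1 : ℝ) ≤ j := by
      have : 1 ≤ j := by omega
      exact_mod_cast this
    nlinarith [Nat.cast_nonneg (α := ℝ) C]
  have h7 : c / j * m = c * m / j := by ring
  rw [h7, div_le_iff₀ hj0]
  nlinarith

include hR hY in
theorem lox_t {g : G} (h : Lox Y g) : ∃ c : ℝ, 0 < c ∧ ∀ n : ℕ, c * n ≤ len Y (A.t ^ n) := by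
  rcases lt_trichotomy (A.e g) 0 with h1 | h1 | h1
  · exact lox_t_pos hR hY (lox_inv hY h) (by rw [e_inv]; omega)
  · exact absurd h1 (lox_ne hR hY h)
  · exact lox_t_pos hR hY h h1

include hR hY in
theorem e_le_len {c : ℝ} (ht : ∀ n : ℕ, c * n ≤ len Y (A.t ^ n)) (g : G) :
    c * |(A.e g : ℝ)| ≤ len Y g := by
  have key : ∀ g : G, 0 ≤ A.e g → c * (A.e g : ℝ) ≤ len Y g := by
    intro g hg
    obtain ⟨j, hj⟩ := Int.eq_ofNat_of_zero_le hg
    obtain ⟨C, hC⟩ := pow_bdd hR hY hj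
    rw [hj]
    have h1 : ∀ m : ℕ, (c * j) * m ≤ len Y (g ^ m) + C := by
      intro m
      have h2 := ht (j * m)
      have h3 : (len Y (A.t ^ (j * m)) : ℝ) ≤ len Y (g ^ m) + C := by exact_mod_cast (hC m).2
      push_cast at h2
      linarith
    have h2 := fekete hY h1 1
    simpa using h2
  rcases le_total 0 (A.e g) with h | h
  · have h1 : |(A.e g : ℝ)| = A.e g := abs_of_nonneg (by exact_mod_cast h)
    rw [h1]
    exact key g h
  · have h1 : |(A.e g : ℝ)| = -A.e g := abs_of_nonpos (by exact_mod_cast h)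
    rw [h1]
    have h2 := key g⁻¹ (by rw [e_inv]; omega)
    rw [e_inv, len_inv hY] at h2
    push_cast at h2
    exact h2

/-- If the length function is bounded on the kernel, then elements with the same sign of `e`
have the same ends. -/
theorem same_of_bdd {δ : ℝ} (hY : Subgroup.closure Y = ⊤)
    (hδ : ∀ x y z : G, min (gp Y x y) (gp Y y z) - δ ≤ gp Y x z) {u : G} {c : ℝ} (hc : 0 < c)
    (hu : ∀ n : ℕ, c * n ≤ len Y (u ^ n)) {C : ℕ} (hC : ∀ g, A.e g = 0 → len Y g ≤ C)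
    {g h : G} {a b : ℕ} (ha : 0 < a) (hb : 0 < b) (hg : A.e g = a * A.e u)
    (hh : A.e h = b * A.e u) : SameEnd Y g h := by
  intro K
  obtain ⟨N, hN⟩ := lox_conv hY hδ hc hu (K + 3 * C / 2)
  refine ⟨N, fun n m hn hm => ?_⟩
  have h0 := hN (a * n) (b * m) (hn.trans (Nat.le_mul_of_pos_left _ ha))
    (hm.trans (Nat.le_mul_of_pos_left _ hb))
  have h1 : len Y (u ^ (a * n)) ≤ len Y (g ^ n) + C := by
    have h2 := hC (u ^ (a * n) * (g ^ n)⁻¹) (by simp [hg]; ring)
    have h3 := len_mul_le hY (u ^ (a * n) * (g ^ n)⁻¹) (g ^ n)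
    rw [inv_mul_cancel_right] at h3
    omega
  have h2 : len Y (u ^ (b * m)) ≤ len Y (h ^ m) + C := by
    have h2 := hC (u ^ (b * m) * (h ^ m)⁻¹) (by simp [hh]; ring)
    have h3 := len_mul_le hY (u ^ (b * m) * (h ^ m)⁻¹) (h ^ m)
    rw [inv_mul_cancel_right] at h3
    omega
  have h3 : len Y ((g ^ n)⁻¹ * h ^ m) ≤ len Y ((u ^ (a * n))⁻¹ * u ^ (b * m)) + C := by
    have h2 := hC ((g ^ n)⁻¹ * h ^ m * ((u ^ (a * n))⁻¹ * u ^ (b * m))⁻¹)
      (by simp [hg, hh]; ring)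
    have h3 := len_mul_le hY ((g ^ n)⁻¹ * h ^ m * ((u ^ (a * n))⁻¹ * u ^ (b * m))⁻¹)
      ((u ^ (a * n))⁻¹ * u ^ (b * m))
    rw [inv_mul_cancel_right] at h3
    omega
  unfold gp at h0 ⊢
  have h4 : (len Y (u ^ (a * n)) : ℝ) ≤ len Y (g ^ n) + C := by exact_mod_cast h1
  have h5 : (len Y (u ^ (b * m)) : ℝ) ≤ len Y (h ^ m) + C := by exact_mod_cast h2
  have h6 : (len Y ((g ^ n)⁻¹ * h ^ m) : ℝ) ≤ len Y ((u ^ (a * n))⁻¹ * u ^ (b * m)) + C := by
    exact_mod_cast h3
  linarith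

include hR in
/-- The length function of a quasi-parabolic generating set is not bounded on the kernel. -/
theorem not_bdd (hQ : QPs Y) : ¬ ∃ C : ℕ, ∀ g, A.e g = 0 → len Y g ≤ C := by
  rintro ⟨C, hC⟩
  obtain ⟨hY, ⟨δ, hδ⟩, ⟨g, h, hg, hh, hn⟩, -⟩ := hQ
  obtain ⟨c, hc, ht⟩ := lox_t hR hY hg
  have pos : ∀ g h : G, 0 < A.e g → 0 < A.e h → SameEnd Y g h := by
    intro g h hg hh
    obtain ⟨a, ha⟩ := Int.eq_ofNat_of_zero_le hg.le
    obtain ⟨b, hb⟩ := Int.eq_ofNat_of_zero_le hh.le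
    exact same_of_bdd hY hδ hc ht hC (a := a) (b := b) (by omega) (by omega) (by simp [ha])
      (by simp [hb])
  have neg : ∀ g h : G, A.e g < 0 → A.e h < 0 → SameEnd Y g h := by
    intro g h hg hh
    obtain ⟨a, ha⟩ := Int.eq_ofNat_of_zero_le (a := -A.e g) (by omega)
    obtain ⟨b, hb⟩ := Int.eq_ofNat_of_zero_le (a := -A.e h) (by omega)
    have ht' : ∀ n : ℕ, c * n ≤ len Y (A.t⁻¹ ^ n) := by
      intro n
      rw [inv_pow, len_inv hY]
      exact ht n
    exact same_of_bdd hY hδ hc ht' hC (a := a) (b := b) (by omega) (by omega)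
      (by simp; omega) (by simp; omega)
  have ng := lox_ne hR hY hg
  have nh := lox_ne hR hY hh
  apply hn
  rcases lt_or_gt_of_ne ng with h1 | h1 <;> rcases lt_or_gt_of_ne nh with h2 | h2
  · exact Or.inl ⟨neg _ _ h1 h2, pos _ _ (by rw [e_inv]; omega) (by rw [e_inv]; omega)⟩
  · exact Or.inr ⟨neg _ _ h1 (by rw [e_inv]; omega), pos _ _ (by rw [e_inv]; omega) h2⟩
  · exact Or.inr ⟨pos _ _ h1 (by rw [e_inv]; omega), neg _ _ (by rw [e_inv]; omega) h2⟩
  · exact Or.inl ⟨pos _ _ h1 h2, neg _ _ (by rw [e_inv]; omega) (by rw [e_inv]; omega)⟩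

include hR in
/-- Uniqueness of the quasi-parabolic structure. -/
theorem unique (hQ : QPs Y) :
    (∃ C : ℕ, ∀ y ∈ Y, len A.X y ≤ C) ∧ (∃ C : ℕ, ∀ x ∈ A.X, len Y x ≤ C) := by
  have hnb := not_bdd hR hQ
  obtain ⟨hY, -, ⟨g, h, hg, -, -⟩, -⟩ := hQ
  obtain ⟨c, hc, ht⟩ := lox_t hR hY hg
  constructor
  · have h2 := (hR.P2 (len Y) (len_mul_le hY) (fun a => (len_inv hY a).le)).resolve_left hnb
    obtain ⟨E, hE⟩ := exists_nat_gt (1 / c)
    rw [div_lt_iff₀ hc] at hE
    have hE' : ∀ y ∈ Y, (A.e y).natAbs ≤ E := by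
      intro y hy
      have h7 : |A.e y| ≤ E → (A.e y).natAbs ≤ E := by
        rw [Int.abs_eq_natAbs]
        intro h
        exact_mod_cast h
      apply h7
      have h3 := e_le_len hR hY ht y
      have h4 : (len Y y : ℝ) ≤ 1 := by exact_mod_cast len_le_one hy
      have h5 : c * |(A.e y : ℝ)| ≤ c * E := by linarith
      have h6 := le_of_mul_le_mul_left h5 hc
      exact_mod_cast h6
    obtain ⟨k, hk⟩ := h2 (1 + E * len Y A.t)
    refine ⟨2 * k + 1 + E, fun y hy => ?_⟩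
    have h3 : len Y (A.t ^ (A.e y)) ≤ E * len Y A.t := by
      have h4 : len Y (A.t ^ (A.e y)) ≤ (A.e y).natAbs * len Y A.t := by
        rcases Int.natAbs_eq (A.e y) with h | h
        · conv_lhs => rw [h]
          rw [zpow_natCast]
          exact len_pow_le hY _ _
        · conv_lhs => rw [h]
          rw [zpow_neg, zpow_natCast, len_inv hY]
          exact len_pow_le hY _ _
      refine h4.trans (Nat.mul_le_mul_right _ ?_)
      have := hE' y hy
      omega
    have h4 : len Y (y * (A.t ^ (A.e y))⁻¹) ≤ 1 + E * len Y A.t := by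
      refine (len_mul_le hY _ _).trans ?_
      rw [len_inv hY]
      exact add_le_add (len_le_one hy) h3
    have h5 : A.e (y * (A.t ^ (A.e y))⁻¹) = 0 := by simp
    have h6 := hk _ h5 h4
    have h7 : A.P 1 (y * (A.t ^ (A.e y))⁻¹) k := by
      rw [P_one_iff, h5, add_zero, zpow_natCast]
      exact ⟨by omega, by omega, h6⟩
    have h8 := A.len_le_of_P h7
    rw [h5] at h8
    have h9 := A.len_zpow_t (A.e y)
    have h10 := len_mul_le A.closure_X (y * (A.t ^ (A.e y))⁻¹) (A.t ^ (A.e y))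
    rw [inv_mul_cancel_right] at h10
    have h11 := hE' y hy
    omega
  · obtain ⟨C, hC⟩ := hR.P1 (len Y) (len_mul_le hY) (fun a => (len_inv hY a).le)
    refine ⟨C + len Y A.t, ?_⟩
    rintro x (hx | hx)
    · exact (hC x hx).trans (Nat.le_add_right _ _)
    · rw [Set.mem_singleton_iff] at hx
      rw [hx]
      exact Nat.le_add_left _ _

end

/-- The generating set `A.X` is quasi-parabolic. -/
theorem qps_X {b : G} (hb : b ∈ A.B) (hb' : A.t⁻¹ * b * A.t ∉ A.B) : QPs A.X := by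
  refine ⟨A.closure_X, A.hyp, ⟨A.t, b * A.t * b⁻¹, (A.lox_iff _).2 (by simp),
    (A.lox_iff _).2 (by simp), ?_⟩, ?_⟩
  · have hM : ∀ n : ℕ, A.M 1 (A.t ^ n) ≤ 0 := by
      intro n
      apply A.M_le
      rw [P_one_iff]
      simp [A.B.one_mem]
    rintro (⟨h, -⟩ | ⟨h, -⟩)
    · obtain ⟨N, hN⟩ := h 2
      have h1 := hN (N + 1) (N + 1) (by omega) (by omega)
      have h2 := A.gp_le (A.t ^ (N + 1)) ((b * A.t * b⁻¹) ^ (N + 1))
      rw [_root_.conj_pow] at h1 h2
      have h3 : A.Q (A.t ^ (N + 1)) (b * A.t ^ (N + 1) * b⁻¹) ≤ 0 := by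
        unfold Q
        have h4 := hM (N + 1)
        have h5 : A.M 1 (b * A.t ^ (N + 1) * b⁻¹) ≤ 0 := by
          apply A.M_le
          rw [P_one_iff]
          refine ⟨le_rfl, by simp [A.e_B hb]; omega, ?_⟩
          have h6 := A.conj_pow (N + 1) (A.B.inv_mem hb)
          have h7 := A.B.mul_mem hb h6
          convert h7 using 1
          have e1 : (0 : ℤ) + A.e (b * A.t ^ (N + 1) * b⁻¹) = ((N + 1 : ℕ) : ℤ) := by
            simp [A.e_B hb]
          rw [e1, zpow_natCast]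
          group
        have h6 : 0 ≤ A.M (A.t ^ (N + 1)) (b * A.t ^ (N + 1) * b⁻¹) := by
          by_contra hlt
          push Not at hlt
          obtain ⟨-, -, h8⟩ := (A.M_le_iff (m := -1)).1 (by omega :
            A.M (A.t ^ (N + 1)) (b * A.t ^ (N + 1) * b⁻¹) ≤ -1)
          apply hb'
          have h9 := A.conj_pow N hb
          have h10 := A.B.mul_mem h8 h9
          convert h10 using 1
          have e1 : (-1 : ℤ) + A.e (A.t ^ (N + 1)) = (N : ℤ) := by simp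
          have e2 : (-1 : ℤ) + A.e (b * A.t ^ (N + 1) * b⁻¹) = (N : ℤ) := by
            simp [A.e_B hb]
          rw [e1, e2, zpow_natCast, pow_succ]
          group
        omega
      have h4 : (A.Q (A.t ^ (N + 1)) (b * A.t ^ (N + 1) * b⁻¹) : ℝ) ≤ 0 := by exact_mod_cast h3
      linarith
    · obtain ⟨N, hN⟩ := h 2
      have h1 := hN N N le_rfl le_rfl
      have h2 := A.gp_le (A.t ^ N) ((b * A.t * b⁻¹)⁻¹ ^ N)
      have e0 : (b * A.t * b⁻¹)⁻¹ ^ N = b * (A.t ^ N)⁻¹ * b⁻¹ := by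
        rw [inv_pow, _root_.conj_pow]
        group
      rw [e0] at h1 h2
      have h3 : A.Q (A.t ^ N) (b * (A.t ^ N)⁻¹ * b⁻¹) ≤ 0 := by
        unfold Q
        have h4 := hM N
        have h5 : A.M 1 (b * (A.t ^ N)⁻¹ * b⁻¹) ≤ N := by
          apply A.M_le
          rw [P_one_iff]
          have e1 : (N : ℤ) + A.e (b * (A.t ^ N)⁻¹ * b⁻¹) = 0 := by
            simp [A.e_B hb]
          refine ⟨by omega, by rw [e1], ?_⟩
          rw [e1, zpow_natCast, zpow_zero, inv_one, mul_one]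
          have h6 := A.conj_pow N hb
          have h7 := A.B.mul_mem h6 (A.B.inv_mem hb)
          convert h7 using 1
          group
        have h6 := A.neg_e_le_right (A.t ^ N) (b * (A.t ^ N)⁻¹ * b⁻¹)
        have e1 : A.e (b * (A.t ^ N)⁻¹ * b⁻¹) = -N := by
          simp [A.e_B hb]
        rw [e1] at h6
        omega
      have h4 : (A.Q (A.t ^ N) (b * (A.t ^ N)⁻¹ * b⁻¹) : ℝ) ≤ 0 := by exact_mod_cast h3
      linarith
  · intro g h hg hh
    have ng := (A.lox_iff _).1 hg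
    have nh := (A.lox_iff _).1 hh
    rcases lt_or_gt_of_ne ng with h1 | h1 <;> rcases lt_or_gt_of_ne nh with h2 | h2
    · exact Or.inl (A.same_pow h1 h2)
    · exact Or.inr (Or.inl (A.same_pow h1 (by rw [e_inv]; omega)))
    · exact Or.inr (Or.inr (Or.inl (A.same_pow (by rw [e_inv]; omega) h2)))
    · exact Or.inr (Or.inr (Or.inr (A.same_pow (by rw [e_inv]; omega) (by rw [e_inv]; omega))))

end Asc

end Pool.Agent.R640
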