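import Pool.Agent.R640.TreeEE

set_option autoImplicit false

/-! The group `SL₂(ℚ)`. -/

namespace Pool.Agent.R640.Tr

open Matrix

/-- The group `SL₂(ℚ)`. -/
abbrev SLQ : Type := SpecialLinearGroup (Fin 2) ℚ

/-- Diagonal matrices. -/
def dg : ℚˣ →* SLQ where
  toFun u := ⟨!![(u : ℚ), 0; 0, ((u⁻¹ : ℚˣ) : ℚ)], by simp [det_fin_two]⟩
  map_one' := by
    ext i j
    fin_cases i <;> fin_cases j <;> simp
  map_mul' u v := by
    ext i j
    fin_cases i <;> fin_cases j <;> simp [Matrix.mul_apply, Fin.sum_univ_two, mul_comm]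

/-- Upper triangular elementary matrices. -/
def eU (x : ℚ) : SLQ := ⟨!![1, x; 0, 1], by simp [det_fin_two]⟩

/-- Lower triangular elementary matrices. -/
def eL (x : ℚ) : SLQ := ⟨!![1, 0; x, 1], by simp [det_fin_two]⟩

/-- The diagonal matrix with entries `2`, `1/2`. -/
def d2 : SLQ := dg (Units.mk0 2 two_ne_zero)

theorem d2_zpow (n : ℤ) (h : d2 ^ n = 1) : n = 0 := by
  have h1 : dg ((Units.mk0 2 two_ne_zero) ^ n) = 1 := by rw [map_zpow]; exact h
  have h2 := congrArg (fun m : SLQ => m.1 0 0) h1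
  have h3 : (2 : ℚ) ^ n = 1 := by
    simpa [dg] using h2
  exact (zpow_eq_one_iff_right₀ (by norm_num) (by norm_num)).1 h3

theorem eU_cm (x : ℚ) : eU x = cm (eU (-x / 3)) d2 := by
  unfold cm eU d2 dg
  ext i j
  fin_cases i <;> fin_cases j <;>
    (simp [Matrix.mul_apply, Fin.sum_univ_two, Matrix.adjugate_fin_two]; try ring)

theorem eL_cm (x : ℚ) : eL x = cm (eL (4 * x / 3)) d2 := by
  unfold cm eL d2 dg
  ext i j
  fin_cases i <;> fin_cases j <;>
    (simp [Matrix.mul_apply, Fin.sum_univ_two, Matrix.adjugate_fin_two]; try ring)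

theorem four_elem (g : SLQ) : ∃ x y z w, g = eU x * eL y * eU z * eL w := by
  have hdet : g.1 0 0 * g.1 1 1 - g.1 0 1 * g.1 1 0 = 1 := by
    have := g.2
    rwa [det_fin_two] at this
  set p := g.1 0 0 with hp
  set q := g.1 0 1 with hq
  set r := g.1 1 0 with hr
  set s := g.1 1 1 with hs
  obtain ⟨w, hw⟩ : ∃ w, r - s * w ≠ 0 := by
    by_cases h : r = 0
    · refine ⟨1, ?_⟩
      rw [h] at hdet ⊢
      intro h1
      have : s = 0 := by linarith
      rw [this] at hdet
      norm_num at hdet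
    · exact ⟨0, by simpa using h⟩
  set t := r - s * w with ht
  have e1 : (p - q * w - 1) / t * t = p - q * w - 1 := div_mul_cancel₀ _ hw
  have e2 : t * ((s - 1) / t) = s - 1 := mul_div_cancel₀ _ hw
  have e3 : (s - 1) / t * (p - q * w) + (p - q * w - 1) / t = q := by
    field_simp
    rw [ht]
    linear_combination hdet
  set x := (p - q * w - 1) / t with hx
  set z := (s - 1) / t with hz
  have f : g.1 = !![p, q; r, s] := by
    ext i j
    fin_cases i <;> fin_cases j <;> rfl
  refine ⟨x, t, z, w, ?_⟩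
  apply Subtype.ext
  rw [f]
  unfold eU eL
  ext i j
  fin_cases i <;> fin_cases j
  · simp [Matrix.mul_apply, Fin.sum_univ_two]
    linear_combination -e1 - w * e3 - w * z * e1
  · simp [Matrix.mul_apply, Fin.sum_univ_two]
    linear_combination -e3 - z * e1
  · simp [Matrix.mul_apply, Fin.sum_univ_two]
    linear_combination -w * e2 - ht
  · simp [Matrix.mul_apply, Fin.sum_univ_two]
    linear_combination -e2

theorem good_SLQ : Good SLQ d2 := by
  refine ⟨d2_zpow, fun p => ?_⟩
  obtain ⟨x, y, z, w, rfl⟩ := four_elem p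
  refine ⟨![eU (-x / 3), eL (4 * y / 3), eU (-z / 3), eL (4 * w / 3)], ?_⟩
  rw [eU_cm x, eL_cm y, eU_cm z, eL_cm w]
  rfl

end Pool.Agent.R640.Tr
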