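import Mathlib

set_option autoImplicit false

/-! The group of automorphisms of a regular tree with labels in a group `P`, fixing an end. -/

namespace Pool.Agent.R640.Tr

variable {P : Type} [Group P]

theorem ais {α : Type*} (g : Equiv.Perm α) (x : α) : g (g⁻¹ x) = x := g.apply_symm_apply x

theorem isa {α : Type*} (g : Equiv.Perm α) (x : α) : g⁻¹ (g x) = x := g.symm_apply_apply x

/-- The leaves of the tree: sequences in `P` which are eventually trivial. -/
structure T (P : Type) [Group P] : Type where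
  /-- The sequence. -/
  co : ℤ → P
  /-- It is eventually trivial. -/
  ev : ∃ k : ℤ, ∀ n, k ≤ n → co n = 1

instance : CoeFun (T P) (fun _ => ℤ → P) := ⟨T.co⟩

theorem T.ext {x y : T P} (h : ∀ n, x n = y n) : x = y := by
  cases x
  cases y
  congr 1
  exact funext h

/-- The sequences agree above `n`. -/
def Agr (n : ℤ) (x y : T P) : Prop := ∀ m, n < m → x m = y m

theorem Agr.symm {n : ℤ} {x y : T P} (h : Agr n x y) : Agr n y x := fun m hm => (h m hm).symm

theorem Agr.trans {n : ℤ} {x y z : T P} (h : Agr n x y) (h' : Agr n y z) : Agr n x z :=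
  fun m hm => (h m hm).trans (h' m hm)

theorem Agr.mono {n m : ℤ} {x y : T P} (h : Agr n x y) (hm : n ≤ m) : Agr m x y :=
  fun k hk => h k (lt_of_le_of_lt hm hk)

/-- The defining property of automorphisms. -/
def IsAut (g : Equiv.Perm (T P)) : Prop :=
  ∀ x y : T P, ∀ n, Agr n x y → (g x) n * (x n)⁻¹ = (g y) n * (y n)⁻¹

theorem IsAut.agr {g : Equiv.Perm (T P)} (hg : IsAut g) {x y : T P} {n : ℤ} (h : Agr n x y) :
    Agr n (g x) (g y) := by
  intro m hm
  have h1 := hg x y m (h.mono hm.le)
  rw [h m hm] at h1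
  exact mul_right_cancel h1

theorem IsAut.agr_of {g : Equiv.Perm (T P)} (hg : IsAut g) {x y : T P} {n : ℤ}
    (h : Agr n (g x) (g y)) : Agr n x y := by
  obtain ⟨k₁, h1⟩ := x.ev
  obtain ⟨k₂, h2⟩ := y.ev
  have key : ∀ j : ℕ, n ≤ max (max k₁ k₂) n - j → Agr (max (max k₁ k₂) n - j) x y := by
    intro j
    induction j with
    | zero =>
      intro _ m hm
      rw [h1 m (by omega), h2 m (by omega)]
    | succ j ih =>
      intro hj m hm
      have h3 := ih (by push_cast at hj; omega)
      by_cases h4 : m = max (max k₁ k₂) n - j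
      · rw [h4]
        have h5 := hg x y _ h3
        rw [h _ (by push_cast at hj; omega)] at h5
        exact inv_injective (mul_left_cancel h5)
      · apply h3
        push_cast at hm
        omega
  have h3 := key (max (max k₁ k₂) n - n).toNat (by omega)
  convert h3 using 1
  omega

/-- The group of automorphisms. -/
def Aut (P : Type) [Group P] : Subgroup (Equiv.Perm (T P)) where
  carrier := {g | IsAut g}
  one_mem' := by
    intro x y n _
    simp
  mul_mem' := by
    intro g h hg hh x y n hxy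
    have h1 := hh x y n hxy
    have h2 := hg (h x) (h y) n (IsAut.agr hh hxy)
    have h3 : ∀ z : T P, ((g * h) z) n * (z n)⁻¹ =
        ((g (h z)) n * ((h z) n)⁻¹) * ((h z) n * (z n)⁻¹) := by
      intro z
      rw [Equiv.Perm.mul_apply]
      group
    rw [h3, h3, h1, h2]
  inv_mem' := by
    intro g hg x y n hxy
    have h1 : Agr n (g⁻¹ x) (g⁻¹ y) := by
      apply IsAut.agr_of hg
      rwa [ais, ais]
    have h2 := hg _ _ n h1
    rw [ais, ais] at h2
    have h3 := congrArg (·⁻¹) h2
    simpa using h3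

theorem isAut (g : Aut P) : IsAut g.1 := g.2

theorem Aut.ext {g h : Aut P} (H : ∀ x, g.1 x = h.1 x) : g = h :=
  Subtype.ext (Equiv.ext H)

/-- The trivial sequence. -/
def e0 : T P := ⟨fun _ => 1, 0, fun _ _ => rfl⟩

@[simp] theorem e0_apply (n : ℤ) : (e0 : T P) n = 1 := rfl

/-- The block of sequences which are trivial from `k` on. -/
def D (P : Type) [Group P] (k : ℤ) : Set (T P) := {x | ∀ n, k ≤ n → x n = 1}

theorem e0_mem (k : ℤ) : (e0 : T P) ∈ D P k := fun _ _ => rfl

theorem D_mono {k l : ℤ} (h : k ≤ l) : D P k ⊆ D P l := fun _ hx n hn => hx n (h.trans hn)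

/-- The stabiliser of the block `D k`. -/
def St (P : Type) [Group P] (k : ℤ) : Subgroup (Aut P) where
  carrier := {g | g.1 e0 ∈ D P k}
  one_mem' := e0_mem k
  mul_mem' := by
    intro g h hg hh n hn
    have h1 : Agr (n - 1) (h.1 e0) e0 := by
      intro m hm
      rw [hh m (by omega)]
      rfl
    have h2 := (isAut g).agr h1 n (by omega)
    change (g.1 (h.1 e0)) n = 1
    rw [h2]
    exact hg n hn
  inv_mem' := by
    intro g hg n hn
    have h1 : Agr (n - 1) (g.1 (g.1⁻¹ e0)) (g.1 e0) := by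
      intro m hm
      rw [ais]
      exact (hg m (by omega)).symm
    exact (isAut g).agr_of h1 n (by omega)

theorem mem_St {g : Aut P} {k : ℤ} : g ∈ St P k ↔ g.1 e0 ∈ D P k := Iff.rfl

theorem St_mono {k l : ℤ} (h : k ≤ l) : St P k ≤ St P l := fun _ hg => D_mono h hg

theorem exists_St (g : Aut P) : ∃ k : ℕ, g ∈ St P k := by
  obtain ⟨k, hk⟩ := (g.1 e0).ev
  exact ⟨k.toNat, fun n hn => hk n (by omega)⟩

/-- Elements of the stabiliser do not change the coordinates above which the sequence is
trivial. -/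
theorem St_apply {g : Aut P} {k : ℤ} (hg : g ∈ St P k) {x : T P} {n : ℤ} (hn : k ≤ n)
    (hx : ∀ m, n < m → x m = 1) : (g.1 x) n = x n := by
  have h1 : Agr n x e0 := fun m hm => hx m hm
  have h2 := isAut g x e0 n h1
  rw [hg n hn, e0_apply, mul_inv_cancel] at h2
  exact mul_inv_eq_one.1 h2

theorem St_D {g : Aut P} {k l : ℤ} (hg : g ∈ St P k) (hl : k ≤ l) {x : T P} (hx : x ∈ D P l) :
    g.1 x ∈ D P l := by
  intro n hn
  rw [St_apply hg (hl.trans hn) (fun m hm => hx m (hn.trans hm.le))]
  exact hx n hn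

theorem St_D_iff {g : Aut P} {k l : ℤ} (hg : g ∈ St P k) (hl : k ≤ l) {x : T P} :
    g.1 x ∈ D P l ↔ x ∈ D P l := by
  constructor
  · intro h
    have h1 := St_D ((St P k).inv_mem hg) hl h
    have h2 : (g⁻¹).1 (g.1 x) = x := by
      change g.1⁻¹ (g.1 x) = x
      rw [isa]
    rwa [h2] at h1
  · exact St_D hg hl

theorem disj_of_not_mem {g : Aut P} {k : ℤ} (hg : g ∉ St P k) {x : T P} (hx : x ∈ D P k) :
    g.1 x ∉ D P k := by
  intro h
  apply hg
  intro n hn
  have h1 : Agr (n - 1) e0 x := by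
    intro m hm
    rw [hx m (by omega)]
    rfl
  rw [(isAut g).agr h1 n (by omega)]
  exact h n hn

/-- The elements supported in `U`. -/
def Ris (U : Set (T P)) : Subgroup (Aut P) where
  carrier := {g | ∀ x, x ∉ U → g.1 x = x}
  one_mem' := fun _ _ => rfl
  mul_mem' := by
    intro g h hg hh x hx
    change g.1 (h.1 x) = x
    rw [hh x hx, hg x hx]
  inv_mem' := by
    intro g hg x hx
    change g.1⁻¹ x = x
    rw [Equiv.Perm.inv_eq_iff_eq]
    exact (hg x hx).symm

theorem mem_Ris {U : Set (T P)} {g : Aut P} : g ∈ Ris U ↔ ∀ x, x ∉ U → g.1 x = x := Iff.rfl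

theorem Ris_mono {U V : Set (T P)} (h : U ⊆ V) : Ris U ≤ Ris V :=
  fun _ hg x hx => hg x fun hxU => hx (h hxU)

theorem Ris_apply_mem {U : Set (T P)} {g : Aut P} (hg : g ∈ Ris U) {x : T P} (hx : x ∈ U) :
    g.1 x ∈ U := by
  by_contra h
  have h1 := hg _ h
  have h2 := g.1.injective h1
  rw [h2] at h
  exact h hx

section Glue

variable {ι : Type} (V : ι → Set (T P))

open Classical in
/-- The common extension of elements with disjoint supports. -/
noncomputable def glueFun (f : ∀ i, Ris (V i)) (x : T P) : T P :=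
  if h : ∃ i, x ∈ V i then (f h.choose).1.1 x else x

variable (hV : ∀ i j x, x ∈ V i → x ∈ V j → i = j)

include hV in
theorem glueFun_of_mem (f : ∀ i, Ris (V i)) {x : T P} {i : ι} (hx : x ∈ V i) :
    glueFun V f x = (f i).1.1 x := by
  have h : ∃ i, x ∈ V i := ⟨i, hx⟩
  rw [glueFun, dif_pos h]
  have h1 := hV _ _ x h.choose_spec hx
  rw [h1]

theorem glueFun_of_not_mem (f : ∀ i, Ris (V i)) {x : T P} (hx : ∀ i, x ∉ V i) :
    glueFun V f x = x := by
  rw [glueFun, dif_neg]
  rintro ⟨i, hi⟩
  exact hx i hi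

include hV in
theorem glueFun_mul (f g : ∀ i, Ris (V i)) (x : T P) :
    glueFun V (f * g) x = glueFun V f (glueFun V g x) := by
  by_cases h : ∃ i, x ∈ V i
  · obtain ⟨i, hi⟩ := h
    rw [glueFun_of_mem V hV _ hi, glueFun_of_mem V hV _ hi,
      glueFun_of_mem V hV _ (Ris_apply_mem (g i).2 hi)]
    rfl
  · push Not at h
    rw [glueFun_of_not_mem V _ h, glueFun_of_not_mem V _ h, glueFun_of_not_mem V _ h]

theorem glueFun_one (x : T P) : glueFun V 1 x = x := by
  rw [glueFun]
  split_ifs with h
  · rfl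
  · rfl

/-- The common extension as a permutation. -/
noncomputable def gluePerm (f : ∀ i, Ris (V i)) : Equiv.Perm (T P) where
  toFun := glueFun V f
  invFun := glueFun V f⁻¹
  left_inv x := by rw [← glueFun_mul V hV, inv_mul_cancel, glueFun_one]
  right_inv x := by rw [← glueFun_mul V hV, mul_inv_cancel, glueFun_one]

theorem gluePerm_isAut (f : ∀ i, Ris (V i)) : IsAut (gluePerm V hV f) := by
  intro x y n hxy
  change (glueFun V f x) n * (x n)⁻¹ = (glueFun V f y) n * (y n)⁻¹
  have key : ∀ (x y : T P), Agr n x y → ∀ i, x ∈ V i →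
      (glueFun V f x) n * (x n)⁻¹ = (glueFun V f y) n * (y n)⁻¹ := by
    intro x y hxy i hi
    rw [glueFun_of_mem V hV _ hi]
    by_cases hy : y ∈ V i
    · rw [glueFun_of_mem V hV _ hy]
      exact isAut (f i).1 x y n hxy
    · have h1 := isAut (f i).1 x y n hxy
      rw [(f i).2 y hy, mul_inv_cancel] at h1
      rw [h1]
      by_cases h2 : ∃ j, y ∈ V j
      · obtain ⟨j, hj⟩ := h2
        rw [glueFun_of_mem V hV _ hj]
        have hxj : x ∉ V j := by
          intro hxj
          have := hV _ _ x hi hxj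
          rw [this] at hy
          exact hy hj
        have h3 := isAut (f j).1 x y n hxy
        rw [(f j).2 x hxj, mul_inv_cancel] at h3
        exact h3
      · push Not at h2
        rw [glueFun_of_not_mem V _ h2, mul_inv_cancel]
  by_cases h : ∃ i, x ∈ V i
  · obtain ⟨i, hi⟩ := h
    exact key x y hxy i hi
  · by_cases h' : ∃ i, y ∈ V i
    · obtain ⟨i, hi⟩ := h'
      exact (key y x hxy.symm i hi).symm
    · push Not at h h'
      rw [glueFun_of_not_mem V _ h, glueFun_of_not_mem V _ h', mul_inv_cancel, mul_inv_cancel]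

/-- The common extension, as a homomorphism. -/
noncomputable def glue : (∀ i, Ris (V i)) →* Aut P where
  toFun f := ⟨gluePerm V hV f, gluePerm_isAut V hV f⟩
  map_one' := Aut.ext (glueFun_one V)
  map_mul' f g := Aut.ext (glueFun_mul V hV f g)

theorem glue_of_mem (f : ∀ i, Ris (V i)) {x : T P} {i : ι} (hx : x ∈ V i) :
    (glue V hV f).1 x = (f i).1.1 x := glueFun_of_mem V hV f hx

theorem glue_of_not_mem (f : ∀ i, Ris (V i)) {x : T P} (hx : ∀ i, x ∉ V i) :
    (glue V hV f).1 x = x := glueFun_of_not_mem V f hx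

theorem glue_single [DecidableEq ι] (i : ι) (a : Ris (V i)) :
    glue V hV (Pi.mulSingle i a) = a.1 := by
  apply Aut.ext
  intro x
  by_cases h : ∃ j, x ∈ V j
  · obtain ⟨j, hj⟩ := h
    rw [glue_of_mem V hV _ hj]
    by_cases hij : j = i
    · subst hij
      rw [Pi.mulSingle_eq_same]
    · rw [Pi.mulSingle_eq_of_ne hij]
      have hx : x ∉ V i := fun hi => hij (hV _ _ x hj hi)
      rw [a.2 x hx]
      rfl
  · push Not at h
    rw [glue_of_not_mem V hV _ h, a.2 x (h i)]

theorem glue_mem (f : ∀ i, Ris (V i)) : glue V hV f ∈ Ris (⋃ i, V i) := by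
  intro x hx
  apply glue_of_not_mem
  intro i hi
  exact hx (Set.mem_iUnion.2 ⟨i, hi⟩)

end Glue

section Rest

open Classical in
/-- The restriction of an element to an invariant set `U`. -/
noncomputable def restPerm (U : Set (T P)) (g : Equiv.Perm (T P)) (h : ∀ x, g x ∈ U ↔ x ∈ U) :
    Equiv.Perm (T P) where
  toFun x := if x ∈ U then g x else x
  invFun x := if x ∈ U then g⁻¹ x else x
  left_inv x := by
    by_cases hx : x ∈ U
    · simp [hx, h]
    · simp [hx]
  right_inv x := by
    by_cases hx : x ∈ U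
    · have h1 : g⁻¹ x ∈ U := by
        rw [← h, ais]
        exact hx
      simp only [hx, if_true, h1, ais]
    · simp [hx]

/-- The condition for the restriction to be an automorphism. -/
def Restr (U : Set (T P)) (g : Aut P) : Prop :=
  (∀ x, g.1 x ∈ U ↔ x ∈ U) ∧ ∀ x y n, x ∈ U → y ∉ U → Agr n x y → (g.1 x) n = x n

theorem restPerm_isAut {U : Set (T P)} {g : Aut P} (h : Restr U g) :
    IsAut (restPerm U g.1 h.1) := by
  intro x y n hxy
  simp only [restPerm, Equiv.coe_fn_mk]
  by_cases hx : x ∈ U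
  · by_cases hy : y ∈ U
    · rw [if_pos hx, if_pos hy]
      exact isAut g x y n hxy
    · rw [if_pos hx, if_neg hy, h.2 x y n hx hy hxy, mul_inv_cancel, mul_inv_cancel]
  · by_cases hy : y ∈ U
    · rw [if_neg hx, if_pos hy, h.2 y x n hy hx hxy.symm, mul_inv_cancel, mul_inv_cancel]
    · rw [if_neg hx, if_neg hy, mul_inv_cancel, mul_inv_cancel]

/-- The restriction of an element to an invariant set `U`. -/
noncomputable def rest {U : Set (T P)} {g : Aut P} (h : Restr U g) : Ris U :=
  ⟨⟨restPerm U g.1 h.1, restPerm_isAut h⟩, fun _ hx => if_neg hx⟩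

theorem rest_of_mem {U : Set (T P)} {g : Aut P} (h : Restr U g) {x : T P} (hx : x ∈ U) :
    (rest h).1.1 x = g.1 x := if_pos hx

theorem rest_of_not_mem {U : Set (T P)} {g : Aut P} (h : Restr U g) {x : T P} (hx : x ∉ U) :
    (rest h).1.1 x = x := if_neg hx

end Rest

end Pool.Agent.R640.Tr
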