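import Pool.Agent.R640.Tree
import Pool.Agent.R640.Diag

set_option autoImplicit false

/-! The rigid stabilisers of the blocks satisfy `EE`. -/

namespace Pool.Agent.R640.Tr

variable {P : Type} [Group P]

open Classical in
/-- Multiplication of the coordinate `j` by `p` on the block `D (j + 1)`. -/
noncomputable def rhoFun (j : ℤ) (p : P) (x : T P) : T P :=
  ⟨fun n => if n = j ∧ x ∈ D P (j + 1) then p * x n else x n, by
    obtain ⟨k, hk⟩ := x.ev
    refine ⟨max k (j + 1), fun n hn => ?_⟩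
    rw [if_neg]
    · exact hk n (by omega)
    · rintro ⟨h1, -⟩
      omega⟩

theorem rhoFun_ne {j n : ℤ} (h : n ≠ j) (p : P) (x : T P) : (rhoFun j p x) n = x n :=
  if_neg fun h' => h h'.1

theorem rhoFun_not {j : ℤ} {x : T P} (h : x ∉ D P (j + 1)) (p : P) : rhoFun j p x = x :=
  T.ext fun _ => if_neg fun h' => h h'.2

theorem rhoFun_self {j : ℤ} {x : T P} (h : x ∈ D P (j + 1)) (p : P) :
    (rhoFun j p x) j = p * x j := if_pos ⟨rfl, h⟩

theorem rhoFun_mem {j k : ℤ} (hk : j < k) {x : T P} {p : P} :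
    rhoFun j p x ∈ D P k ↔ x ∈ D P k := by
  constructor
  · intro h n hn
    rw [← h n hn, rhoFun_ne (by omega)]
  · intro h n hn
    rw [← h n hn, rhoFun_ne (by omega)]

theorem rhoFun_mul (j : ℤ) (p q : P) (x : T P) :
    rhoFun j (p * q) x = rhoFun j p (rhoFun j q x) := by
  by_cases h : x ∈ D P (j + 1)
  · apply T.ext
    intro n
    by_cases hn : n = j
    · subst hn
      rw [rhoFun_self h, rhoFun_self ((rhoFun_mem (by omega)).2 h), rhoFun_self h, mul_assoc]
    · rw [rhoFun_ne hn, rhoFun_ne hn, rhoFun_ne hn]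
  · rw [rhoFun_not h, rhoFun_not h, rhoFun_not h]

theorem rhoFun_one (j : ℤ) (x : T P) : rhoFun j (1 : P) x = x := by
  by_cases h : x ∈ D P (j + 1)
  · apply T.ext
    intro n
    by_cases hn : n = j
    · subst hn
      rw [rhoFun_self h, one_mul]
    · rw [rhoFun_ne hn]
  · rw [rhoFun_not h]

/-- Multiplication of the coordinate `j` as a permutation. -/
noncomputable def rhoPerm (j : ℤ) (p : P) : Equiv.Perm (T P) where
  toFun := rhoFun j p
  invFun := rhoFun j p⁻¹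
  left_inv x := by rw [← rhoFun_mul, inv_mul_cancel, rhoFun_one]
  right_inv x := by rw [← rhoFun_mul, mul_inv_cancel, rhoFun_one]

theorem rhoPerm_isAut (j : ℤ) (p : P) : IsAut (rhoPerm j p) := by
  intro x y n hxy
  change (rhoFun j p x) n * (x n)⁻¹ = (rhoFun j p y) n * (y n)⁻¹
  by_cases hn : n = j
  · subst hn
    have h1 : x ∈ D P (n + 1) ↔ y ∈ D P (n + 1) := by
      constructor
      · intro h m hm
        rw [← hxy m (by omega)]
        exact h m hm
      · intro h m hm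
        rw [hxy m (by omega)]
        exact h m hm
    by_cases h : x ∈ D P (n + 1)
    · rw [rhoFun_self h, rhoFun_self (h1.1 h), mul_inv_cancel_right, mul_inv_cancel_right]
    · rw [rhoFun_not h, rhoFun_not (fun h' => h (h1.2 h')), mul_inv_cancel, mul_inv_cancel]
  · rw [rhoFun_ne hn, rhoFun_ne hn, mul_inv_cancel, mul_inv_cancel]

/-- Multiplication of the coordinate `j`, as a homomorphism. -/
noncomputable def rho (j : ℤ) : P →* Aut P where
  toFun p := ⟨rhoPerm j p, rhoPerm_isAut j p⟩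
  map_one' := Aut.ext (rhoFun_one j)
  map_mul' p q := Aut.ext (rhoFun_mul j p q)

theorem rho_ne {j n : ℤ} (h : n ≠ j) (p : P) (x : T P) : ((rho j p).1 x) n = x n :=
  rhoFun_ne h p x

theorem rho_self {j : ℤ} {x : T P} (h : x ∈ D P (j + 1)) (p : P) :
    ((rho j p).1 x) j = p * x j := rhoFun_self h p

theorem rho_mem {j k : ℤ} (hk : j < k) {x : T P} {p : P} :
    (rho j p).1 x ∈ D P k ↔ x ∈ D P k := rhoFun_mem hk

theorem rho_Ris (j : ℤ) (p : P) : rho j p ∈ Ris (D P (j + 1)) := fun _ h => rhoFun_not h p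

/-- The blocks of level `j`. -/
def U (j : ℤ) (i : P) : Set (T P) := {x | x ∈ D P (j + 1) ∧ x j = i}

theorem U_disj (j : ℤ) (i i' : P) (x : T P) (h : x ∈ U j i) (h' : x ∈ U j i') : i = i' :=
  h.2.symm.trans h'.2

theorem D_eq_U (j : ℤ) : D P j = U j 1 := by
  ext x
  constructor
  · intro h
    exact ⟨fun n hn => h n (by omega), h j le_rfl⟩
  · rintro ⟨h1, h2⟩ n hn
    by_cases h : n = j
    · rw [h, h2]
    · exact h1 n (by omega)

theorem D_succ_eq (j : ℤ) : D P (j + 1) = ⋃ i, U j i := by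
  ext x
  constructor
  · intro h
    exact Set.mem_iUnion.2 ⟨x j, h, rfl⟩
  · intro h
    obtain ⟨i, hi⟩ := Set.mem_iUnion.1 h
    exact hi.1

theorem rho_U {j : ℤ} {p i : P} {x : T P} : (rho j p).1 x ∈ U j (p * i) ↔ x ∈ U j i := by
  constructor
  · rintro ⟨h1, h2⟩
    have h3 := (rho_mem (by omega)).1 h1
    rw [rho_self h3] at h2
    exact ⟨h3, mul_left_cancel h2⟩
  · rintro ⟨h1, h2⟩
    refine ⟨(rho_mem (by omega)).2 h1, ?_⟩
    rw [rho_self h1, h2]

/-- Conjugation as an isomorphism between rigid stabilisers. -/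
def risConj (g : Aut P) {V W : Set (T P)} (h : ∀ x, g.1 x ∈ W ↔ x ∈ V) : Ris V ≃* Ris W where
  toFun a := ⟨g * a.1 * g⁻¹, by
    intro x hx
    change g.1 (a.1.1 (g.1⁻¹ x)) = x
    rw [a.2 (g.1⁻¹ x), ais]
    intro h'
    rw [← h, ais] at h'
    exact hx h'⟩
  invFun a := ⟨g⁻¹ * a.1 * g, by
    intro x hx
    change g.1⁻¹ (a.1.1 (g.1 x)) = x
    rw [a.2 (g.1 x), isa]
    intro h'
    exact hx ((h x).1 h')⟩
  left_inv a := by
    apply Subtype.ext
    change g⁻¹ * (g * a.1 * g⁻¹) * g = a.1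
    group
  right_inv a := by
    apply Subtype.ext
    change g * (g⁻¹ * a.1 * g) * g⁻¹ = a.1
    group
  map_mul' a b := by
    apply Subtype.ext
    change g * (a.1 * b.1) * g⁻¹ = (g * a.1 * g⁻¹) * (g * b.1 * g⁻¹)
    group

theorem risConj_coe (g : Aut P) {V W : Set (T P)} (h : ∀ x, g.1 x ∈ W ↔ x ∈ V) (a : Ris V) :
    (risConj g h a).1 = g * a.1 * g⁻¹ := rfl

theorem restr_D {j : ℤ} {g : Aut P} (h : ∀ x, g.1 x ∈ D P j ↔ x ∈ D P j) : Restr (D P j) g := by
  refine ⟨h, ?_⟩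
  intro x y n hx hy hxy
  have hn : j ≤ n := by
    by_contra hlt
    push Not at hlt
    apply hy
    intro m hm
    rw [← hxy m (by omega)]
    exact hx m hm
  rw [hx n hn, (h x).2 hx n hn]

/-- An element of the rigid stabiliser of `D (j + 1)` which preserves the blocks of level `j` is
a commutator with `rho j d`. -/
theorem exists_cm {d : P} (hd : ∀ n : ℤ, d ^ n = 1 → n = 0) {j : ℤ} {f : Aut P}
    (hf : f ∈ Ris (D P (j + 1))) (hf' : ∀ x ∈ D P (j + 1), (f.1 x) j = x j) :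
    ∃ y ∈ Ris (D P (j + 1)), f = cm y (rho j d) := by
  have hfU : ∀ x i, f.1 x ∈ U j i ↔ x ∈ U j i := by
    intro x i
    constructor
    · rintro ⟨h1, h2⟩
      have h3 : x ∈ D P (j + 1) := by
        by_contra h3
        rw [hf x h3] at h1
        exact h3 h1
      exact ⟨h3, by rw [← hf' x h3, h2]⟩
    · rintro ⟨h1, h2⟩
      exact ⟨Ris_apply_mem hf h1, by rw [hf' x h1, h2]⟩
  have hR : ∀ i : P, Restr (D P j) ((rho j (d * i))⁻¹ * f * rho j (d * i)) := by
    intro i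
    apply restr_D
    intro x
    rw [D_eq_U]
    have e1 : ∀ z, ((rho j (d * i))⁻¹ * f * rho j (d * i)).1 z =
      (rho j (d * i))⁻¹.1 (f.1 ((rho j (d * i)).1 z)) := fun z => rfl
    rw [e1]
    have e2 : (rho j (d * i))⁻¹ = rho j (d * i)⁻¹ := (map_inv _ _).symm
    rw [e2]
    have e3 : (1 : P) = (d * i)⁻¹ * (d * i) := (inv_mul_cancel _).symm
    conv_lhs => rw [e3]
    rw [rho_U, hfU]
    have e4 := rho_U (j := j) (p := d * i) (i := 1) (x := x)
    rwa [mul_one] at e4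
  obtain ⟨w, hw⟩ := cocycle d hd (fun i => rest (hR i))
  have hc : ∀ (i : P) (x : T P), (rho j i).1 x ∈ U j i ↔ x ∈ D P j := by
    intro i x
    rw [D_eq_U, ← rho_U (p := i) (i := 1), mul_one]
  set y : Aut P := glue (U j) (U_disj j) (fun i => risConj (rho j i) (hc i) (w i)) with hy
  have hyU : ∀ (i : P) (z : T P), z ∈ D P j →
      y.1 ((rho j i).1 z) = (rho j i).1 ((w i).1.1 z) := by
    intro i z hz
    rw [hy, glue_of_mem _ _ _ ((hc i z).2 hz), risConj_coe]
    change (rho j i).1 ((w i).1.1 ((rho j i).1⁻¹ ((rho j i).1 z))) = _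
    rw [isa]
  have hyR : y ∈ Ris (D P (j + 1)) := by
    rw [D_succ_eq]
    exact glue_mem _ _ _
  refine ⟨y, hyR, ?_⟩
  have key : f * (rho j d * y) = y * rho j d := by
    apply Aut.ext
    intro x
    change f.1 ((rho j d).1 (y.1 x)) = y.1 ((rho j d).1 x)
    by_cases hx : x ∈ D P (j + 1)
    · obtain ⟨i, z, hz, rfl⟩ : ∃ i z, z ∈ D P j ∧ x = (rho j i).1 z := by
        refine ⟨x j, (rho j (x j)⁻¹).1 x, ?_, ?_⟩
        · rw [D_eq_U, ← inv_mul_cancel (x j), rho_U]
          exact ⟨hx, rfl⟩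
        · rw [map_inv]
          exact (ais _ _).symm
      rw [hyU i z hz]
      have e1 : ∀ u, (rho j d).1 ((rho j i).1 u) = (rho j (d * i)).1 u := by
        intro u
        rw [map_mul]
        rfl
      rw [e1, e1, hyU (d * i) z hz, hw]
      have hz' : (w i).1.1 z ∈ D P j := Ris_apply_mem (w i).2 hz
      have e2 : (rest (hR i) * w i).1.1 z = (rest (hR i)).1.1 ((w i).1.1 z) := rfl
      rw [e2, rest_of_mem (hR i) hz']
      change _ = (rho j (d * i)).1 ((rho j (d * i)).1⁻¹ (f.1 ((rho j (d * i)).1 ((w i).1.1 z))))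
      rw [ais]
    · have h1 : (rho j d).1 x = x := rho_Ris j d x hx
      rw [h1, hyR x hx, h1, hf x hx]
  rw [cm, ← key]
  group

/-- The condition on the group `P`. -/
def Good (P : Type) [Group P] (d : P) : Prop :=
  (∀ n : ℤ, d ^ n = 1 → n = 0) ∧
    ∀ p : P, ∃ x : Fin 4 → P, p = cm (x 0) d * cm (x 1) d * cm (x 2) d * cm (x 3) d

theorem EE_D {d : P} (hd : Good P d) (j : ℤ) : EE (Ris (D P j)) := by
  obtain ⟨k, rfl⟩ : ∃ k, j = k + 1 := ⟨j - 1, by ring⟩
  refine ⟨⟨rho k d, rho_Ris k d⟩, ?_⟩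
  rintro ⟨a, ha⟩
  set π : P := (a.1 e0) k with hπ
  have h1 : ∀ x ∈ D P (k + 1), (a.1 x) k = π * x k := by
    intro x hx
    have h2 : Agr k x e0 := fun m hm => hx m (by omega)
    have h3 := isAut a x e0 k h2
    rw [e0_apply, inv_one, mul_one] at h3
    rw [hπ, ← h3, inv_mul_cancel_right]
  have h2 : a * (rho k π)⁻¹ ∈ Ris (D P (k + 1)) :=
    mul_mem ha (inv_mem (rho_Ris k π))
  have h3 : ∀ x ∈ D P (k + 1), ((a * (rho k π)⁻¹).1 x) k = x k := by
    intro x hx
    rw [← map_inv]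
    change (a.1 ((rho k π⁻¹).1 x)) k = x k
    rw [h1 _ ((rho_mem (by omega)).2 hx), rho_self hx, mul_inv_cancel_left]
  obtain ⟨y, hy, hfy⟩ := exists_cm hd.1 h2 h3
  obtain ⟨x, hx⟩ := hd.2 π
  refine ⟨![⟨y, hy⟩, ⟨rho k (x 0), rho_Ris _ _⟩, ⟨rho k (x 1), rho_Ris _ _⟩,
    ⟨rho k (x 2), rho_Ris _ _⟩, ⟨rho k (x 3), rho_Ris _ _⟩], ?_⟩
  apply Subtype.ext
  change a = cm y (rho k d) * cm (rho k (x 0)) (rho k d) * cm (rho k (x 1)) (rho k d) *
    cm (rho k (x 2)) (rho k d) * cm (rho k (x 3)) (rho k d)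
  rw [← hfy]
  have h4 : rho k π = cm (rho k (x 0)) (rho k d) * cm (rho k (x 1)) (rho k d) *
      cm (rho k (x 2)) (rho k d) * cm (rho k (x 3)) (rho k d) := by
    conv_lhs => rw [hx]
    simp only [map_mul, map_cm]
  rw [h4]
  group

end Pool.Agent.R640.Tr
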