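import Pool.Agent.R640.TreeLen
import Pool.Agent.R640.QPUniq

set_option autoImplicit false

/-! The extension of the automorphism group of the tree by the shift. -/

namespace Pool.Agent.R640.Tr

variable (P : Type) [Group P]

/-- The action of `ℤ`. -/
def act : Multiplicative ℤ →* MulAut (Aut P) := zpowersHom (MulAut (Aut P)) tau

/-- The group. -/
def GG : Type := Aut P ⋊[act P] Multiplicative ℤ

instance : Group (GG P) :=
  (inferInstance : Group (Aut P ⋊[act P] Multiplicative ℤ))

/-- The inclusion of the automorphism group. -/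
def inA : Aut P →* GG P := SemidirectProduct.inl

/-- The projection to `ℤ`. -/
def prZ : GG P →* Multiplicative ℤ := SemidirectProduct.rightHom

/-- The shift. -/
def tt : GG P := (SemidirectProduct.inr (Multiplicative.ofAdd 1) :
  Aut P ⋊[act P] Multiplicative ℤ)

variable {P}

theorem tt_conj (a : Aut P) : tt P * inA P a * (tt P)⁻¹ = inA P (tau a) := by
  have h : (act P (Multiplicative.ofAdd 1)) a = tau a := by
    rw [act, zpowersHom_apply]
    simp
  rw [← h]
  have h1 := (SemidirectProduct.inl_aut (φ := act P) (Multiplicative.ofAdd 1) a).symm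
  rw [map_inv] at h1
  exact h1

theorem tt_conj_pow (k : ℕ) (a : Aut P) :
    tt P ^ k * inA P a * (tt P ^ k)⁻¹ = inA P ((tau ^ k) a) := by
  induction k with
  | zero => simp
  | succ k ih =>
    have e1 : tt P ^ (k + 1) * inA P a * (tt P ^ (k + 1))⁻¹ =
        tt P * (tt P ^ k * inA P a * (tt P ^ k)⁻¹) * (tt P)⁻¹ := by
      rw [pow_succ']
      group
    rw [e1, ih, tt_conj, pow_succ']
    rfl

theorem tau_pow_St (k : ℕ) {g : Aut P} : (tau ^ k) g ∈ St P 0 ↔ g ∈ St P k := by
  induction k generalizing g with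
  | zero => simp
  | succ k ih =>
    rw [pow_succ, MulAut.mul_apply, ih, tau_St]
    push_cast
    rfl

theorem exists_inA {g : GG P} (h : prZ P g = 1) : ∃ a, g = inA P a := by
  refine ⟨SemidirectProduct.left (φ := act P) g, ?_⟩
  have h1 : SemidirectProduct.right (φ := act P) g = 1 := h
  apply SemidirectProduct.ext
  · exact (SemidirectProduct.left_inl _).symm
  · rw [h1]
    exact (SemidirectProduct.right_inl _).symm

variable (P) in
/-- The structure of an ascending HNN extension. -/
noncomputable def asc : Asc (GG P) where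
  χ := prZ P
  t := tt P
  B := (St P 0).map (inA P)
  χt := SemidirectProduct.rightHom_inr _
  χB := by
    rintro _ ⟨b, hb, rfl⟩
    exact SemidirectProduct.rightHom_inl _
  conj := by
    rintro _ ⟨b, hb, rfl⟩
    rw [tt_conj]
    exact ⟨tau b, tau_St.2 (St_mono (by omega) hb), rfl⟩
  exh := by
    intro g hg
    obtain ⟨a, rfl⟩ := exists_inA hg
    obtain ⟨k, hk⟩ := exists_St a
    refine ⟨k, ?_⟩
    rw [tt_conj_pow]
    exact ⟨_, (tau_pow_St k).2 hk, rfl⟩

theorem mem_asc_B {a : Aut P} : inA P a ∈ (asc P).B ↔ a ∈ St P 0 := by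
  constructor
  · rintro ⟨b, hb, h⟩
    have h1 : b = a := SemidirectProduct.inl_injective h
    rw [← h1]
    exact hb
  · intro h
    exact ⟨a, h, rfl⟩

theorem rigid [Nontrivial P] {d : P} (hd : Good P d) : (asc P).Rigid := by
  have hτ : ∀ L : GG P → ℕ, (∀ a b, L (a * b) ≤ L a + L b) → (∀ a, L a⁻¹ ≤ L a) →
      ∀ a, L (inA P (tau a)) ≤ L (inA P a) + 2 * L (tt P) := by
    intro L hmul hinv a
    rw [← tt_conj]
    have h1 := hmul (tt P * inA P a) (tt P)⁻¹
    have h2 := hmul (tt P) (inA P a)
    have h3 := hinv (tt P)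
    omega
  constructor
  · intro L hmul hinv
    obtain ⟨C, hC⟩ := bdd_St (fun a => L (inA P a))
      (fun a b => by
        rw [map_mul]
        exact hmul _ _)
      (fun a => by
        rw [map_inv]
        exact hinv _) (hτ L hmul hinv) hd
    refine ⟨C, ?_⟩
    rintro _ ⟨b, hb, rfl⟩
    exact hC b hb
  · intro L hmul hinv
    have h1 := dichotomy (fun a => L (inA P a))
      (fun a b => by
        rw [map_mul]
        exact hmul _ _)
      (fun a => by
        rw [map_inv]
        exact hinv _) (hτ L hmul hinv) hd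
    rcases h1 with ⟨C, hC⟩ | h1
    · left
      refine ⟨C, fun g hg => ?_⟩
      obtain ⟨a, rfl⟩ := exists_inA ((asc P).chi_of_e hg)
      exact hC a
    · right
      intro C
      obtain ⟨k, hk⟩ := h1 C
      refine ⟨k, fun g hg hL => ?_⟩
      obtain ⟨a, rfl⟩ := exists_inA ((asc P).chi_of_e hg)
      have h2 := hk a hL
      change tt P ^ k * inA P a * (tt P ^ k)⁻¹ ∈ (asc P).B
      rw [tt_conj_pow, mem_asc_B, tau_pow_St]
      exact h2

theorem exists_proper [Nontrivial P] :
    ∃ b ∈ (asc P).B, (asc P).t⁻¹ * b * (asc P).t ∉ (asc P).B := by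
  obtain ⟨i, hi⟩ := exists_ne (1 : P)
  refine ⟨inA P (tau (rho 0 i)), ?_, ?_⟩
  · rw [mem_asc_B, tau_St, mem_St, zero_add]
    exact (rho_mem (j := 0) (k := 1) (by omega)).2 (e0_mem 1)
  · change (tt P)⁻¹ * inA P (tau (rho 0 i)) * tt P ∉ _
    have e1 : (tt P)⁻¹ * inA P (tau (rho 0 i)) * tt P = inA P (rho 0 i) := by
      rw [← tt_conj]
      group
    rw [e1, mem_asc_B, mem_St]
    intro h
    have h1 := h 0 le_rfl
    rw [rho_self (e0_mem _), e0_apply, mul_one] at h1
    exact hi h1

end Pool.Agent.R640.Tr
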