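import Pool.Agent.R640.TreeEE

set_option autoImplicit false

/-! Length functions on the automorphism group of the tree. -/

namespace Pool.Agent.R640.Tr

variable {P : Type} [Group P]

/-- The shift. -/
def sh : Equiv.Perm (T P) where
  toFun x := ⟨fun n => x (n + 1), by
    obtain ⟨k, hk⟩ := x.ev
    exact ⟨k, fun n hn => hk (n + 1) (by omega)⟩⟩
  invFun x := ⟨fun n => x (n - 1), by
    obtain ⟨k, hk⟩ := x.ev
    exact ⟨k + 1, fun n hn => hk (n - 1) (by omega)⟩⟩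
  left_inv x := T.ext fun n => by
    change x (n - 1 + 1) = x n
    rw [sub_add_cancel]
  right_inv x := T.ext fun n => by
    change x (n + 1 - 1) = x n
    rw [add_sub_cancel_right]

theorem sh_apply (x : T P) (n : ℤ) : (sh x) n = x (n + 1) := rfl

theorem sh_inv_apply (x : T P) (n : ℤ) : (sh⁻¹ x) n = x (n - 1) := rfl

theorem sh_D {k : ℤ} {x : T P} : sh x ∈ D P k ↔ x ∈ D P (k + 1) := by
  constructor
  · intro h n hn
    have := h (n - 1) (by omega)
    rwa [sh_apply, sub_add_cancel] at this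
  · intro h n hn
    rw [sh_apply]
    exact h (n + 1) (by omega)

theorem sh_isAut {g : Equiv.Perm (T P)} (hg : IsAut g) : IsAut (sh * g * sh⁻¹) := by
  intro x y n hxy
  have h1 : Agr (n + 1) (sh⁻¹ x) (sh⁻¹ y) := by
    intro m hm
    rw [sh_inv_apply, sh_inv_apply]
    exact hxy (m - 1) (by omega)
  have h2 := hg _ _ _ h1
  rw [sh_inv_apply, sh_inv_apply, add_sub_cancel_right] at h2
  exact h2

theorem sh_inv_isAut {g : Equiv.Perm (T P)} (hg : IsAut g) : IsAut (sh⁻¹ * g * sh) := by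
  intro x y n hxy
  have h1 : Agr (n - 1) (sh x) (sh y) := by
    intro m hm
    rw [sh_apply, sh_apply]
    exact hxy (m + 1) (by omega)
  have h2 := hg _ _ _ h1
  rw [sh_apply, sh_apply, sub_add_cancel] at h2
  exact h2

/-- Conjugation with the shift. -/
def tau : MulAut (Aut P) where
  toFun g := ⟨sh * g.1 * sh⁻¹, sh_isAut g.2⟩
  invFun g := ⟨sh⁻¹ * g.1 * sh, sh_inv_isAut g.2⟩
  left_inv g := by
    apply Subtype.ext
    change sh⁻¹ * (sh * g.1 * sh⁻¹) * sh = g.1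
    group
  right_inv g := by
    apply Subtype.ext
    change sh * (sh⁻¹ * g.1 * sh) * sh⁻¹ = g.1
    group
  map_mul' g h := by
    apply Subtype.ext
    change sh * (g.1 * h.1) * sh⁻¹ = (sh * g.1 * sh⁻¹) * (sh * h.1 * sh⁻¹)
    group

theorem tau_apply (g : Aut P) (x : T P) : (tau g).1 x = sh (g.1 (sh⁻¹ x)) := rfl

theorem tau_inv_apply (g : Aut P) (x : T P) : (tau⁻¹ g).1 x = sh⁻¹ (g.1 (sh x)) := rfl

theorem tau_St {g : Aut P} {k : ℤ} : tau g ∈ St P k ↔ g ∈ St P (k + 1) := by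
  rw [mem_St, mem_St, tau_apply, sh_D]
  have : sh⁻¹ (e0 : T P) = e0 := T.ext fun n => rfl
  rw [this]

/-- The layers `D (k + 1) \ D k` for `k` in `S`. -/
def Wl (P : Type) [Group P] (S : Set ℕ) : Set (T P) :=
  {x | ∃ k ∈ S, x ∈ D P (k + 1) ∧ x k ≠ 1}

theorem Wl_mono {S S' : Set ℕ} (h : S ⊆ S') : Wl P S ⊆ Wl P S' := by
  rintro x ⟨k, hk, h1⟩
  exact ⟨k, h hk, h1⟩

theorem layer_unique {x : T P} {k l : ℕ} (h1 : x ∈ D P (k + 1)) (h2 : x k ≠ 1)
    (h3 : x ∈ D P (l + 1)) (h4 : x l ≠ 1) : k = l := by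
  rcases lt_trichotomy k l with h | h | h
  · exact absurd (h1 l (by omega)) h4
  · exact h
  · exact absurd (h3 k (by omega)) h2

theorem exists_layer {x : T P} (h : x ∉ D P 0) : ∃ k : ℕ, x ∈ D P (k + 1) ∧ x k ≠ 1 := by
  classical
  have h1 : ∃ k : ℕ, x ∈ D P k := by
    obtain ⟨k, hk⟩ := x.ev
    exact ⟨k.toNat, fun n hn => hk n (by omega)⟩
  have h2 := Nat.find_spec h1
  have h3 : Nat.find h1 ≠ 0 := by
    intro h0
    rw [h0] at h2
    exact h h2
  obtain ⟨m, hm⟩ := Nat.exists_eq_succ_of_ne_zero h3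
  refine ⟨m, ?_, ?_⟩
  · rw [hm] at h2
    push_cast at h2
    exact h2
  · intro h4
    have h5 : ¬ x ∈ D P (m : ℤ) := Nat.find_min h1 (by omega)
    apply h5
    intro n hn
    by_cases hnm : n = m
    · rw [hnm, h4]
    · rw [hm] at h2
      push_cast at h2
      exact h2 n (by omega)

theorem not_D0_of_layer {x : T P} {k : ℕ} (h : x k ≠ 1) : x ∉ D P 0 :=
  fun h' => h (h' k (by omega))

theorem Wl_univ : Wl P Set.univ = (D P 0)ᶜ := by
  ext x
  constructor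
  · rintro ⟨k, -, h1, h2⟩
    exact not_D0_of_layer h2
  · intro h
    obtain ⟨k, h1, h2⟩ := exists_layer h
    exact ⟨k, trivial, h1, h2⟩

theorem St_of_Ris {g : Aut P} (hg : g ∈ Ris (Wl P Set.univ)) : g ∈ St P 0 := by
  rw [mem_St, hg e0 (by rw [Wl_univ]; exact fun h => h (e0_mem 0))]
  exact e0_mem 0

/-- An element of `St 0` preserves the layers and their blocks. -/
theorem layer_iff {g : Aut P} (hg : g ∈ St P 0) {x : T P} {k : ℕ} :
    g.1 x ∈ D P (k + 1) ↔ x ∈ D P (k + 1) := St_D_iff hg (by omega)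

theorem layer_apply {g : Aut P} (hg : g ∈ St P 0) {x : T P} {k : ℕ} (h : x ∈ D P (k + 1))
    {n : ℤ} (hn : k ≤ n) : (g.1 x) n = x n :=
  St_apply hg (by omega) (fun m hm => h m (by omega))

theorem restr_Wl {g : Aut P} (hg : g ∈ St P 0) (S : Set ℕ) : Restr (Wl P S) g := by
  constructor
  · intro x
    constructor
    · rintro ⟨k, hk, h1, h2⟩
      have h3 := (layer_iff hg).1 h1
      exact ⟨k, hk, h3, by rwa [layer_apply hg h3 le_rfl] at h2⟩
    · rintro ⟨k, hk, h1, h2⟩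
      exact ⟨k, hk, (layer_iff hg).2 h1, by rwa [layer_apply hg h1 le_rfl]⟩
  · rintro x y n ⟨k, hk, h1, h2⟩ hy hxy
    apply layer_apply hg h1
    by_contra hlt
    push Not at hlt
    apply hy
    refine ⟨k, hk, ?_, ?_⟩
    · intro m hm
      rw [← hxy m (by omega)]
      exact h1 m hm
    · rw [← hxy k hlt]
      exact h2

/-- The index set of the blocks outside of `D 0`. -/
def Ix (P : Type) [Group P] : Type := {p : ℕ × P // p.2 ≠ 1}

/-- The blocks outside of `D 0`. -/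
def V (i : Ix P) : Set (T P) := U (i.1.1 : ℤ) i.1.2

theorem V_disj (i j : Ix P) (x : T P) (hi : x ∈ V i) (hj : x ∈ V j) : i = j := by
  have h1 : i.1.1 = j.1.1 := layer_unique hi.1 (by rw [hi.2]; exact i.2) hj.1
    (by rw [hj.2]; exact j.2)
  apply Subtype.ext
  apply Prod.ext h1
  have h2 := hi.2
  rw [h1] at h2
  exact h2.symm.trans hj.2

theorem restr_V {g : Aut P} (hg : g ∈ St P 0) (i : Ix P) : Restr (V i) g := by
  constructor
  · intro x
    constructor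
    · rintro ⟨h1, h2⟩
      have h3 := (layer_iff hg).1 h1
      exact ⟨h3, by rwa [layer_apply hg h3 le_rfl] at h2⟩
    · rintro ⟨h1, h2⟩
      exact ⟨(layer_iff hg).2 h1, by rwa [layer_apply hg h1 le_rfl]⟩
  · rintro x y n ⟨h1, h2⟩ hy hxy
    apply layer_apply hg h1
    by_contra hlt
    push Not at hlt
    apply hy
    refine ⟨?_, ?_⟩
    · intro m hm
      rw [← hxy m (by omega)]
      exact h1 m hm
    · rw [← hxy _ hlt]
      exact h2

theorem glue_rest {g : Aut P} (hg : g ∈ Ris (Wl P Set.univ)) :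
    glue V V_disj (fun i => rest (restr_V (St_of_Ris hg) i)) = g := by
  apply Aut.ext
  intro x
  by_cases hx : x ∈ D P 0
  · rw [glue_of_not_mem, hg x (by rw [Wl_univ]; exact fun h => h hx)]
    intro i hi
    exact not_D0_of_layer (by rw [hi.2]; exact i.2) hx
  · obtain ⟨k, h1, h2⟩ := exists_layer hx
    have h3 : x ∈ V ⟨(k, x k), h2⟩ := ⟨h1, rfl⟩
    rw [glue_of_mem V V_disj _ h3, rest_of_mem _ h3]

variable (L : Aut P → ℕ) (hmul : ∀ a b, L (a * b) ≤ L a + L b) (hinv : ∀ a, L a⁻¹ ≤ L a)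

theorem rho_V {i : Ix P} {x : T P} : (rho i.1.1 i.1.2).1 x ∈ V i ↔ x ∈ D P i.1.1 := by
  rw [D_eq_U, ← rho_U (p := i.1.2) (i := 1), mul_one]
  rfl

theorem EE_V {d : P} (hd : Good P d) (i : Ix P) : EE (Ris (V i)) :=
  EE.congr (risConj (rho i.1.1 i.1.2) (fun _ => rho_V)) (EE_D hd _)

include hmul hinv in
theorem bdd_family {d : P} (hd : Good P d) (ν : ℕ → ℕ) :
    ∃ n C : ℕ, ∀ g ∈ Ris (Wl P {k | ν k = n}), L g ≤ C := by
  obtain ⟨n, C, h⟩ := diag L hmul hinv (fun i : Ix P => Ris (V i)) (EE_V hd)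
    (glue V V_disj) (fun i => ν i.1.1)
  refine ⟨n, C, fun g hg => ?_⟩
  have hg' : g ∈ Ris (Wl P Set.univ) := Ris_mono (Wl_mono (Set.subset_univ _)) hg
  rw [← glue_rest hg']
  apply h
  intro i hi
  apply Subtype.ext
  apply Aut.ext
  intro x
  by_cases hx : x ∈ V i
  · rw [rest_of_mem _ hx, hg x]
    · rfl
    · rintro ⟨k, hk, h1, h2⟩
      have h3 : k = i.1.1 := layer_unique h1 h2 hx.1 (by rw [hx.2]; exact i.2)
      rw [h3] at hk
      exact hi hk
  · rw [rest_of_not_mem _ hx]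
    rfl

/-- The ruler function takes each value on a syndetic set. -/
theorem exists_ruler : ∃ ν : ℕ → ℕ, ∀ n, ∃ R, ∀ k, ∃ r, r < R ∧ ν (k + r) = n := by
  refine ⟨fun k => padicValNat 2 (k + 1), fun n => ⟨2 ^ n * 4, fun k => ?_⟩⟩
  set q := (k + 1) / 2 ^ (n + 1) with hq
  have h1 := Nat.div_add_mod (k + 1) (2 ^ (n + 1))
  have h2 := Nat.mod_lt (k + 1) (show 0 < 2 ^ (n + 1) by positivity)
  rw [← hq] at h1
  have h3 : 2 ^ (n + 1) = 2 * 2 ^ n := by ring
  rw [h3] at h1 h2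
  have h0 : 0 < 2 ^ n := by positivity
  have h5 : 2 ^ n * (2 * (q + 1) + 1) = 2 * 2 ^ n * q + 3 * 2 ^ n := by ring
  refine ⟨2 ^ n * (2 * (q + 1) + 1) - (k + 1), by omega, ?_⟩
  have h6 : k + (2 ^ n * (2 * (q + 1) + 1) - (k + 1)) + 1 = 2 ^ n * (2 * (q + 1) + 1) := by
    omega
  change padicValNat 2 (k + (2 ^ n * (2 * (q + 1) + 1) - (k + 1)) + 1) = n
  rw [h6, padicValNat.mul (by positivity) (by omega), padicValNat.prime_pow,
    padicValNat.eq_zero_of_not_dvd (by omega), add_zero]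

theorem tau_inv_Ris {S S' : Set ℕ} (h : ∀ k ∈ S, k + 1 ∈ S') {g : Aut P}
    (hg : g ∈ Ris (Wl P S)) : tau⁻¹ g ∈ Ris (Wl P S') := by
  intro x hx
  rw [tau_inv_apply, hg (sh x), isa]
  rintro ⟨k, hk, h1, h2⟩
  apply hx
  refine ⟨k + 1, h k hk, ?_, ?_⟩
  · rw [sh_D] at h1
    push_cast
    exact h1
  · rw [sh_apply] at h2
    push_cast
    exact h2

variable {c : ℕ} (hτ : ∀ a, L (tau a) ≤ L a + c)

include hmul hinv hτ in
theorem bdd_Fix {d : P} (hd : Good P d) : ∃ C, ∀ g ∈ Ris (Wl P Set.univ), L g ≤ C := by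
  obtain ⟨ν, hν⟩ := exists_ruler
  obtain ⟨n, C, hC⟩ := bdd_family L hmul hinv hd ν
  obtain ⟨R, hR⟩ := hν n
  have h1 : ∀ r, ∀ g ∈ Ris (Wl P {k | ν (k + r) = n}), L g ≤ C + c * r := by
    intro r
    induction r with
    | zero => simpa using hC
    | succ r ih =>
      intro g hg
      have h2 : tau⁻¹ g ∈ Ris (Wl P {k | ν (k + r) = n}) := by
        apply tau_inv_Ris _ hg
        intro k hk
        change ν (k + 1 + r) = n
        have h3 : ν (k + (r + 1)) = n := hk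
        rwa [add_comm r 1, ← add_assoc] at h3
      have h3 := ih _ h2
      have h4 := hτ (tau⁻¹ g)
      rw [MulAut.apply_inv_self] at h4
      rw [Nat.mul_succ]
      omega
  have h2 : ∀ m, ∃ C', ∀ g ∈ Ris (Wl P {k | ∃ r < m, ν (k + r) = n}), L g ≤ C' := by
    intro m
    induction m with
    | zero =>
      refine ⟨L 1, fun g hg => ?_⟩
      have : g = 1 := by
        apply Aut.ext
        intro x
        rw [hg x]
        · rfl
        · rintro ⟨k, ⟨r, hr, -⟩, -⟩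
          omega
      rw [this]
    | succ m ih =>
      obtain ⟨C', hC'⟩ := ih
      refine ⟨C + c * m + C', fun g hg => ?_⟩
      have hg' : g ∈ St P 0 := St_of_Ris (Ris_mono (Wl_mono (Set.subset_univ _)) hg)
      set g' := rest (restr_Wl hg' {k | ν (k + m) = n}) with hgr
      have h5 : g'.1⁻¹ * g ∈ Ris (Wl P {k | ∃ r < m, ν (k + r) = n}) := by
        intro x hx
        change (g'.1).1⁻¹ (g.1 x) = x
        rw [Equiv.Perm.inv_eq_iff_eq]
        by_cases hx' : x ∈ Wl P {k | ν (k + m) = n}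
        · rw [hgr, rest_of_mem _ hx']
        · rw [hgr, rest_of_not_mem _ hx', hg x]
          rintro ⟨k, ⟨r, hr, hk⟩, h7⟩
          by_cases hrm : r = m
          · rw [hrm] at hk
            exact hx' ⟨k, hk, h7⟩
          · exact hx ⟨k, ⟨r, by omega, hk⟩, h7⟩
      have h6 := hC' _ h5
      have h7 := h1 m g'.1 g'.2
      have h8 := hmul g'.1 (g'.1⁻¹ * g)
      rw [mul_inv_cancel_left] at h8
      omega
  obtain ⟨C', hC'⟩ := h2 R
  refine ⟨C', fun g hg => hC' g ?_⟩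
  have : {k | ∃ r < R, ν (k + r) = n} = Set.univ := by
    ext k
    simp only [Set.mem_ofPred_eq, Set.mem_univ, iff_true]
    exact hR k
  rwa [this]

include hmul hinv in
theorem bdd_D0 [Nontrivial P] {d : P} (hd : Good P d) : ∃ C, ∀ g ∈ Ris (D P 0), L g ≤ C := by
  obtain ⟨ν, hν⟩ := exists_ruler
  obtain ⟨n, C, hC⟩ := bdd_family L hmul hinv hd ν
  obtain ⟨R, hR⟩ := hν n
  obtain ⟨k, -, hk⟩ := hR 0
  rw [zero_add] at hk
  obtain ⟨i, hi⟩ := exists_ne (1 : P)
  refine ⟨C + 2 * L (rho k i), fun g hg => ?_⟩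
  have h1 : rho (k : ℤ) i * g * (rho k i)⁻¹ ∈ Ris (Wl P {k | ν k = n}) := by
    have hg' : g ∈ Ris (D P k) := Ris_mono (D_mono (by omega)) hg
    intro x hx
    change (rho k i).1 (g.1 ((rho k i)⁻¹.1 x)) = x
    rw [hg' _, ]
    · change (rho k i).1 ((rho k i).1⁻¹ x) = x
      rw [ais]
    · intro h
      apply hx
      refine ⟨k, hk, ?_⟩
      have h2 : (rho k i).1 ((rho k i)⁻¹.1 x) ∈ U k (i * 1) := by
        rw [rho_U, ← D_eq_U]
        exact h
      have h3 : (rho k i).1 ((rho k i)⁻¹.1 x) = x := ais _ _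
      rw [h3, mul_one] at h2
      exact ⟨h2.1, by rw [h2.2]; exact hi⟩
  have h2 := hC _ h1
  have h3 : g = (rho (k : ℤ) i)⁻¹ * (rho k i * g * (rho k i)⁻¹) * rho k i := by group
  have h4 := hmul ((rho (k : ℤ) i)⁻¹ * (rho k i * g * (rho k i)⁻¹)) (rho k i)
  have h5 := hmul (rho (k : ℤ) i)⁻¹ (rho k i * g * (rho k i)⁻¹)
  have h6 := hinv (rho (k : ℤ) i)
  rw [← h3] at h4
  omega

/-- The element decomposes as a product of an element of `Ris (D k)` and an element fixing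
`D k`. -/
theorem decomp {k : ℤ} (hk : 0 ≤ k) {g : Aut P} (hg : g ∈ St P k) :
    ∃ a ∈ Ris (D P k), ∃ b ∈ Ris (Wl P Set.univ), g = a * b := by
  have h1 : ∀ x, g.1 x ∈ D P k ↔ x ∈ D P k := fun x => St_D_iff hg le_rfl
  refine ⟨(rest (restr_D h1)).1, (rest (restr_D h1)).2, (rest (restr_D h1)).1⁻¹ * g, ?_, by group⟩
  rw [Wl_univ]
  intro x hx
  have hx' : x ∈ D P k := by
    simp only [Set.mem_compl_iff, not_not] at hx
    exact D_mono hk hx
  change (rest (restr_D h1)).1.1⁻¹ (g.1 x) = x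
  rw [Equiv.Perm.inv_eq_iff_eq, rest_of_mem _ hx']

include hmul hinv hτ in
theorem bdd_St [Nontrivial P] {d : P} (hd : Good P d) : ∃ C, ∀ g ∈ St P 0, L g ≤ C := by
  obtain ⟨C₁, h1⟩ := bdd_Fix L hmul hinv hτ hd
  obtain ⟨C₂, h2⟩ := bdd_D0 L hmul hinv hd
  refine ⟨C₂ + C₁, fun g hg => ?_⟩
  obtain ⟨a, ha, b, hb, rfl⟩ := decomp le_rfl hg
  exact (hmul a b).trans (add_le_add (h2 a ha) (h1 b hb))

include hmul hinv hτ in
theorem dichotomy {d : P} (hd : Good P d) :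
    (∃ C, ∀ g, L g ≤ C) ∨ ∀ C, ∃ k : ℕ, ∀ g, L g ≤ C → g ∈ St P k := by
  by_contra hcon
  push Not at hcon
  obtain ⟨h1, C, h2⟩ := hcon
  obtain ⟨C₁, h3⟩ := bdd_Fix L hmul hinv hτ hd
  obtain ⟨g, hg⟩ := h1 (2 * C + 2 * C₁)
  obtain ⟨k, hk⟩ := exists_St g
  obtain ⟨a, ha, ha'⟩ := h2 k
  obtain ⟨b', hb', b'', hb'', rfl⟩ := decomp (Int.natCast_nonneg k) hk
  have h4 : a * b' * a⁻¹ ∈ Ris (Wl P Set.univ) := by
    rw [Wl_univ]
    intro x hx
    have hx' : x ∈ D P (k : ℤ) := by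
      simp only [Set.mem_compl_iff, not_not] at hx
      exact D_mono (Int.natCast_nonneg k) hx
    change a.1 (b'.1 (a⁻¹.1 x)) = x
    rw [hb' _]
    · exact ais _ _
    · exact disj_of_not_mem (fun h => ha' ((inv_mem_iff (H := St P k)).1 h)) hx'
  have h5 := h3 _ h4
  have h6 := h3 _ hb''
  have h7 := hmul b' b''
  have h8 : b' = a⁻¹ * (a * b' * a⁻¹) * a := by group
  have h9 := hmul (a⁻¹ * (a * b' * a⁻¹)) a
  have h10 := hmul a⁻¹ (a * b' * a⁻¹)
  have h11 := hinv a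
  rw [← h8] at h9
  omega

end Pool.Agent.R640.Tr
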