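import Mathlib

set_option autoImplicit false

/-! The restricted wreath product of a group with the infinite cyclic group. -/

namespace Pool.Agent.R640

variable {A : Type*} [Group A]

theorem supp_mul {f g : ℤ → A} (hf : {n | f n ≠ 1}.Finite) (hg : {n | g n ≠ 1}.Finite) :
    {n | (f * g) n ≠ 1}.Finite := by
  refine (hf.union hg).subset fun n hn => ?_
  by_contra h
  have h1 : f n = 1 := by
    by_contra h1
    exact h (Or.inl h1)
  have h2 : g n = 1 := by
    by_contra h2
    exact h (Or.inr h2)
  exact hn (by rw [Pi.mul_apply, h1, h2, one_mul])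

theorem supp_one : {n | (1 : ℤ → A) n ≠ 1}.Finite := by simp

theorem supp_inv {f : ℤ → A} (hf : {n | f n ≠ 1}.Finite) : {n | f⁻¹ n ≠ 1}.Finite := by
  simpa using hf

theorem supp_shift (k : ℤ) {f : ℤ → A} (hf : {n | f n ≠ 1}.Finite) :
    {n | f (n - k) ≠ 1}.Finite := by
  refine (hf.image (fun n => n + k)).subset fun n hn => ?_
  exact ⟨n - k, hn, by simp⟩

/-- The direct sum of copies of `A` indexed by `ℤ`: the functions `ℤ → A` with finite support. -/
def DSum (A : Type*) [Group A] : Subgroup (ℤ → A) where
  carrier := {f | {n | f n ≠ 1}.Finite}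
  one_mem' := supp_one
  mul_mem' := supp_mul
  inv_mem' := supp_inv

/-- Shifting the coordinates by `k`. -/
def shiftFun (k : ℤ) (f : DSum A) : DSum A := ⟨fun n => f.1 (n - k), supp_shift k f.2⟩

theorem shiftFun_add (j k : ℤ) (f : DSum A) :
    shiftFun (j + k) f = shiftFun j (shiftFun k f) := by
  apply Subtype.ext
  funext n
  change f.1 (n - (j + k)) = f.1 (n - j - k)
  rw [sub_sub]

theorem shiftFun_zero (f : DSum A) : shiftFun 0 f = f := by
  apply Subtype.ext
  funext n
  change f.1 (n - 0) = f.1 n
  rw [sub_zero]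

theorem shiftFun_neg (k : ℤ) (f : DSum A) : shiftFun (-k) (shiftFun k f) = f := by
  rw [← shiftFun_add, neg_add_cancel, shiftFun_zero]

theorem shiftFun_neg' (k : ℤ) (f : DSum A) : shiftFun k (shiftFun (-k) f) = f := by
  rw [← shiftFun_add, add_neg_cancel, shiftFun_zero]

theorem shiftFun_mul (k : ℤ) (f g : DSum A) :
    shiftFun k (f * g) = shiftFun k f * shiftFun k g := rfl

/-- Shifting the coordinates by `k` is an automorphism of the direct sum. -/
def shiftEquiv (A : Type*) [Group A] (k : ℤ) : MulAut (DSum A) :=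
  ⟨⟨shiftFun k, shiftFun (-k), shiftFun_neg k, shiftFun_neg' k⟩, shiftFun_mul k⟩

theorem shiftEquiv_mul (A : Type*) [Group A] (j k : Multiplicative ℤ) :
    shiftEquiv A (j * k).toAdd = shiftEquiv A j.toAdd * shiftEquiv A k.toAdd := by
  apply MulEquiv.ext
  intro f
  exact shiftFun_add j.toAdd k.toAdd f

/-- The action of `ℤ` on the direct sum by shifting the coordinates. -/
def shift (A : Type*) [Group A] : Multiplicative ℤ →* MulAut (DSum A) :=
  MonoidHom.mk' (fun k => shiftEquiv A k.toAdd) (shiftEquiv_mul A)

/-- The restricted wreath product `A ≀ ℤ` (transparent form, for the proofs). -/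
abbrev WrS (A : Type*) [Group A] : Type _ := DSum A ⋊[shift A] Multiplicative ℤ

/-- The restricted wreath product `A ≀ ℤ`: the semidirect product of the direct sum of copies of
`A` indexed by `ℤ` and the infinite cyclic group, acting by shifts. -/
def Wr (A : Type*) [Group A] : Type _ := DSum A ⋊[shift A] Multiplicative ℤ

instance (A : Type*) [Group A] : Group (Wr A) :=
  (inferInstance : Group (DSum A ⋊[shift A] Multiplicative ℤ))

end Pool.Agent.R640
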