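import Pool.Agent.R640.QP
import Pool.Agent.R640.Wr

set_option autoImplicit false

/-! A chain of quasi-parabolic structures on `A ≀ ℤ`, order-isomorphic to the real line. -/

namespace Pool.Agent.R640

open SemidirectProduct

variable {A : Type*} [Group A] (H : ℕ → Subgroup A)

/-- The functions `f : ℤ → A` of finite support with `f (-j) ∈ H (w j)` for all `j ≥ 0`. -/
def KK (w : ℕ → ℕ) : Subgroup (DSum A) where
  carrier := {f | ∀ j : ℕ, f.1 (-(j : ℤ)) ∈ H (w j)}
  one_mem' := fun j => (H (w j)).one_mem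
  mul_mem' := fun hf hg j => (H (w j)).mul_mem (hf j) (hg j)
  inv_mem' := fun hf j => (H (w j)).inv_mem (hf j)

theorem mem_KK (w : ℕ → ℕ) (f : DSum A) : f ∈ KK H w ↔ ∀ j : ℕ, f.1 (-(j : ℤ)) ∈ H (w j) :=
  Iff.rfl

theorem shift_apply (k : ℤ) (f : DSum A) (n : ℤ) :
    (shift A (Multiplicative.ofAdd k) f).1 n = f.1 (n - k) := rfl

theorem conj_inl (k : ℤ) (f : DSum A) :
    (inr (Multiplicative.ofAdd k) : WrS A) * inl f * (inr (Multiplicative.ofAdd k))⁻¹ =
      inl (shift A (Multiplicative.ofAdd k) f) := by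
  rw [SemidirectProduct.inl_aut, map_inv]

theorem t_zpow (k : ℤ) : (inr (Multiplicative.ofAdd 1) : WrS A) ^ k =
    inr (Multiplicative.ofAdd k) := by
  rw [← map_zpow, ← ofAdd_zsmul]
  simp

theorem t_pow (k : ℕ) : (inr (Multiplicative.ofAdd 1) : WrS A) ^ k =
    inr (Multiplicative.ofAdd (k : ℤ)) := by
  rw [← zpow_natCast, t_zpow]

variable {H} (hH : StrictAnti H)

/-- The ascending structure of a weight function. -/
def asc (w : ℕ → ℕ) (hw : Monotone w) : Asc (WrS A) where
  χ := rightHom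
  t := inr (Multiplicative.ofAdd 1)
  B := (KK H w).map inl
  χt := by simp
  χB := by
    rintro _ ⟨f, -, rfl⟩
    simp
  conj := by
    rintro _ ⟨f, hf, rfl⟩
    rw [conj_inl]
    refine ⟨_, ?_, rfl⟩
    intro j
    rw [shift_apply]
    have h1 := hf (j + 1)
    have e1 : -(j : ℤ) - 1 = -((j + 1 : ℕ) : ℤ) := by push_cast; ring
    rw [e1]
    exact hH.antitone (hw (Nat.le_succ j)) h1
  exh := by
    intro g hg
    have hg1 : g = inl g.left := by
      ext1
      · simp
      · simpa using hg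
    obtain ⟨L, hL⟩ := g.left.2.bddBelow
    refine ⟨(-L + 1).toNat, ?_⟩
    rw [hg1, t_pow, conj_inl]
    refine ⟨_, ?_, rfl⟩
    intro j
    rw [shift_apply]
    have h1 : g.left.1 (-(j : ℤ) - ((-L + 1).toNat : ℤ)) = 1 := by
      by_contra h
      have := hL h
      omega
    rw [h1]
    exact (H (w j)).one_mem

theorem asc_P {w : ℕ → ℕ} {hw : Monotone w} (f : DSum A) (m : ℤ) :
    (asc hH w hw).P 1 (inl f) m ↔ 0 ≤ m ∧ shift A (Multiplicative.ofAdd m) f ∈ KK H w := by
  have e0 : (asc hH w hw).e (inl f) = 0 := by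
    simp [Asc.e, asc]
  rw [Asc.P_one_iff, e0, add_zero]
  have e1 : (asc hH w hw).t ^ m * inl f * ((asc hH w hw).t ^ m)⁻¹ =
      inl (shift A (Multiplicative.ofAdd m) f) := by
    change (inr (Multiplicative.ofAdd 1) : WrS A) ^ m * inl f *
      ((inr (Multiplicative.ofAdd 1) : WrS A) ^ m)⁻¹ = _
    rw [t_zpow, conj_inl]
  rw [e1]
  constructor
  · rintro ⟨h1, -, f', hf', h⟩
    exact ⟨h1, by rwa [← SemidirectProduct.inl_injective h]⟩
  · rintro ⟨h1, h2⟩
    exact ⟨h1, h1, _, h2, rfl⟩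

/-- The function with the value `a` at `n` and trivial elsewhere. -/
def sg (n : ℤ) (a : A) : DSum A :=
  ⟨fun m => if m = n then a else 1, (Set.finite_singleton n).subset fun m hm => by
    by_contra h
    exact hm (if_neg h)⟩

theorem sg_same (n : ℤ) (a : A) : (sg n a).1 n = a := if_pos rfl

theorem sg_ne {n m : ℤ} (h : m ≠ n) (a : A) : (sg n a).1 m = 1 := if_neg h

include hH in
theorem exists_elt (n : ℕ) : ∃ a ∈ H n, a ∉ H (n + 1) := by
  by_contra h
  push Not at h
  exact absurd (hH (Nat.lt_succ_self n)) (not_lt_of_ge h)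

theorem asc_qp {w : ℕ → ℕ} (hw : Monotone w) (j : ℕ) (hj : w j < w (j + 1)) :
    QuasiParabolic (asc hH w hw).X := by
  obtain ⟨a, ha, ha'⟩ := exists_elt hH (w j)
  apply Asc.quasiParabolic (b := inl (sg (-(j : ℤ)) a))
  · refine ⟨_, ?_, rfl⟩
    intro i
    by_cases h : i = j
    · rw [h, sg_same]
      exact ha
    · rw [sg_ne (by omega)]
      exact (H (w i)).one_mem
  · rintro ⟨f, hf, h⟩
    have e1 : (asc hH w hw).t⁻¹ * inl (sg (-(j : ℤ)) a) * (asc hH w hw).t =
        inl (shift A (Multiplicative.ofAdd (-1)) (sg (-(j : ℤ)) a)) := by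
      rw [← conj_inl]
      simp [asc]
    rw [e1] at h
    have h1 := SemidirectProduct.inl_injective h
    rw [h1] at hf
    have h2 := hf (j + 1)
    rw [shift_apply] at h2
    have e2 : -((j + 1 : ℕ) : ℤ) - -1 = -(j : ℤ) := by push_cast; ring
    rw [e2, sg_same] at h2
    exact ha' (hH.antitone (Nat.succ_le_of_lt hj) h2)

theorem asc_len {w : ℕ → ℕ} (hw : Monotone w) (a : A) (n : ℕ) (ha : a ∉ H (n + 1)) (j m : ℕ)
    (hm : m ≤ j) (hn : n + 1 ≤ w (j - m)) :
    2 * m < len (asc hH w hw).X (inl (sg (-(j : ℤ)) a)) := by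
  have h1 := (asc hH w hw).F_le_len (inl (sg (-(j : ℤ)) a))
  have e0 : (asc hH w hw).e (inl (sg (-(j : ℤ)) a)) = 0 := by
    simp [Asc.e, asc]
  unfold Asc.F at h1
  rw [e0, add_zero] at h1
  have h2 : ¬ (asc hH w hw).M 1 (inl (sg (-(j : ℤ)) a)) ≤ m := by
    rw [Asc.M_le_iff, asc_P]
    rintro ⟨-, h⟩
    have h3 := h (j - m)
    rw [shift_apply] at h3
    have e2 : -((j - m : ℕ) : ℤ) - m = -(j : ℤ) := by omega
    rw [e2, sg_same] at h3
    exact ha (hH.antitone hn h3)
  omega

/-- The weight functions. -/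
noncomputable def wt (s : ℝ) (j : ℕ) : ℕ := ⌊Real.exp s * j⌋₊

theorem wt_mono (s : ℝ) : Monotone (wt s) := by
  intro i j h
  apply Nat.floor_mono
  have : (i : ℝ) ≤ j := by exact_mod_cast h
  have := Real.exp_pos s
  gcongr

theorem wt_mono_left {s s' : ℝ} (h : s ≤ s') (j : ℕ) : wt s j ≤ wt s' j := by
  apply Nat.floor_mono
  have := Real.exp_le_exp.2 h
  gcongr

theorem wt_jump (s : ℝ) : ∃ j, wt s j < wt s (j + 1) := by
  by_contra h
  push Not at h
  have h1 : ∀ j, wt s j = 0 := by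
    intro j
    induction j with
    | zero => simp [wt]
    | succ j ih => have := h j; omega
  obtain ⟨j, hj⟩ := exists_nat_gt (1 / Real.exp s)
  have h2 := h1 j
  rw [wt, Nat.floor_eq_zero] at h2
  rw [div_lt_iff₀ (Real.exp_pos s)] at hj
  linarith

theorem wt_gap {s s' : ℝ} (h : s' < s) (m : ℕ) : ∃ j, m ≤ j ∧ wt s' j + 1 ≤ wt s (j - m) := by
  have h0 : 0 < Real.exp s - Real.exp s' := sub_pos.2 (Real.exp_lt_exp.2 h)
  obtain ⟨j, hj⟩ := exists_nat_gt ((Real.exp s * m + 1) / (Real.exp s - Real.exp s'))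
  rw [div_lt_iff₀ h0] at hj
  have h1 := Real.exp_pos s
  have h2 := Real.exp_pos s'
  have hmj : m ≤ j := by
    have h3 : (m : ℝ) ≤ j := by
      by_contra h3
      push Not at h3
      have h4 : (j : ℝ) * (Real.exp s - Real.exp s') ≤ m * Real.exp s := by
        have h5 : (j : ℝ) * (Real.exp s - Real.exp s') ≤ j * Real.exp s := by
          have : (0 : ℝ) ≤ j := Nat.cast_nonneg j
          nlinarith
        nlinarith
      nlinarith
    exact_mod_cast h3
  refine ⟨j, hmj, ?_⟩
  apply Nat.le_floor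
  push_cast
  rw [Nat.cast_sub hmj]
  have h3 : (wt s' j : ℝ) ≤ Real.exp s' * j := Nat.floor_le (by positivity)
  nlinarith

/-- The chain of structures. -/
noncomputable def chainGen (s : ℝ) : QPGen (WrS A) :=
  ⟨(asc hH (wt s) (wt_mono s)).X, by
    obtain ⟨j, hj⟩ := wt_jump s
    exact asc_qp hH _ j hj⟩

theorem chain_le {s s' : ℝ} : chainGen hH s ≤ chainGen hH s' ↔ s ≤ s' := by
  constructor
  · rintro ⟨C, hC⟩
    by_contra h
    push Not at h
    obtain ⟨j, hj, hw⟩ := wt_gap h C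
    obtain ⟨a, ha, ha'⟩ := exists_elt hH (wt s' j)
    have h1 := asc_len hH (wt_mono s) a _ ha' j C hj hw
    have h2 := hC (inl (sg (-(j : ℤ)) a)) (by
      refine Or.inl ⟨_, ?_, rfl⟩
      intro i
      by_cases h : i = j
      · rw [h, sg_same]
        exact ha
      · rw [sg_ne (by omega)]
        exact (H _).one_mem)
    have h3 : 2 * C < len (asc hH (wt s) (wt_mono s)).X (inl (sg (-(j : ℤ)) a)) := h1
    have h4 : len (asc hH (wt s) (wt_mono s)).X (inl (sg (-(j : ℤ)) a)) ≤ C := h2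
    omega
  · intro h
    refine ⟨1, ?_⟩
    rintro y (⟨f, hf, rfl⟩ | hy)
    · apply len_le_one
      refine Or.inl ⟨f, ?_, rfl⟩
      intro j
      exact hH.antitone (wt_mono_left h j) (hf j)
    · apply len_le_one
      exact Or.inr hy

include hH in
/-- The poset of quasi-parabolic structures on `A ≀ ℤ` contains a copy of the real line if `A`
has an infinite strictly decreasing sequence of subgroups. -/
theorem chain_embedding : Nonempty (ℝ ↪o Hqp (Wr A)) :=
  ⟨(OrderEmbedding.ofMapLEIff (fun s => toAntisymmetrization (· ≤ ·) (chainGen hH s))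
    fun s s' => by
      rw [toAntisymmetrization_le_toAntisymmetrization_iff]
      exact chain_le hH : ℝ ↪o Antisymmetrization (QPGen (WrS A)) (· ≤ ·))⟩

end Pool.Agent.R640
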