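import Pool.Agent.R640.WrChain

set_option autoImplicit false

/-! The wreath product `A ≀ ℤ` is finitely generated if `A` is, and examples. -/

namespace Pool.Agent.R640

open SemidirectProduct

variable {A : Type*} [Group A]

/-- The inclusion of the coordinate `0`. -/
def sgHom (A : Type*) [Group A] : A →* DSum A where
  toFun := sg 0
  map_one' := by
    apply Subtype.ext
    funext m
    change (if m = 0 then (1 : A) else 1) = 1
    simp
  map_mul' a b := by
    apply Subtype.ext
    funext m
    change (if m = 0 then a * b else 1) = (if m = 0 then a else 1) * (if m = 0 then b else 1)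
    split_ifs <;> simp

theorem shift_sg (n : ℤ) (a : A) : shift A (Multiplicative.ofAdd n) (sg 0 a) = sg n a := by
  apply Subtype.ext
  funext m
  rw [shift_apply]
  change (if m - n = 0 then a else 1) = (if m = n then a else 1)
  simp [sub_eq_zero]

theorem mem_of_sg {K : Subgroup (DSum A)} (h : ∀ n a, sg n a ∈ K) (f : DSum A) : f ∈ K := by
  have key : ∀ (s : Finset ℤ) (f : DSum A), (∀ n, n ∉ s → f.1 n = 1) → f ∈ K := by
    intro s
    induction s using Finset.induction_on with
    | empty =>
      intro f hf
      have : f = 1 := by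
        apply Subtype.ext
        funext n
        exact hf n (Finset.notMem_empty n)
      rw [this]
      exact K.one_mem
    | insert m s hm ih =>
      intro f hf
      have h1 : (sg m (f.1 m))⁻¹ * f ∈ K := by
        apply ih
        intro n hn
        change ((sg m (f.1 m)).1 n)⁻¹ * f.1 n = 1
        by_cases h2 : n = m
        · rw [h2, sg_same, inv_mul_cancel]
        · rw [sg_ne h2, inv_one, one_mul]
          exact hf n (by simp [h2, hn])
      have h2 := K.mul_mem (h m (f.1 m)) h1
      rwa [mul_inv_cancel_left] at h2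
  refine key f.2.toFinset f fun n hn => ?_
  by_contra h1
  exact hn (f.2.mem_toFinset.2 h1)

theorem wrS_fg [Group.FG A] : Group.FG (WrS A) := by
  obtain ⟨S, hS⟩ := (Group.fg_def (G := A)).1 inferInstance
  rw [Group.fg_def]
  classical
  refine ⟨insert (inr (Multiplicative.ofAdd 1)) (S.image fun a => inl (sg 0 a)), ?_⟩
  set K := Subgroup.closure (((insert (inr (Multiplicative.ofAdd 1))
    (S.image fun a => inl (sg 0 a)) : Finset (WrS A))) : Set (WrS A)) with hK
  have ht : (inr (Multiplicative.ofAdd 1) : WrS A) ∈ K :=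
    Subgroup.subset_closure (by simp)
  have htn : ∀ n : ℤ, (inr (Multiplicative.ofAdd n) : WrS A) ∈ K := by
    intro n
    rw [← t_zpow]
    exact K.zpow_mem ht n
  have h0 : ∀ a : A, (inl (sg 0 a) : WrS A) ∈ K := by
    intro a
    have h1 : (⊤ : Subgroup A) ≤ K.comap (inl.comp (sgHom A)) := by
      rw [← hS, Subgroup.closure_le]
      intro s hs
      refine Subgroup.subset_closure ?_
      simp only [Finset.coe_insert, Finset.coe_image]
      exact Or.inr ⟨s, hs, rfl⟩
    exact h1 (Subgroup.mem_top a)
  have hn : ∀ (n : ℤ) (a : A), (inl (sg n a) : WrS A) ∈ K := by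
    intro n a
    rw [← shift_sg, ← conj_inl]
    exact K.mul_mem (K.mul_mem (htn n) (h0 a)) (K.inv_mem (htn n))
  rw [eq_top_iff]
  intro g _
  have h2 : (inl g.left : WrS A) ∈ K := by
    have := mem_of_sg (K := K.comap inl) hn g.left
    exact this
  have h3 := K.mul_mem h2 (htn g.right.toAdd)
  have h4 : (inl g.left : WrS A) * inr (Multiplicative.ofAdd g.right.toAdd) = g := by
    rw [ofAdd_toAdd]
    exact SemidirectProduct.inl_left_mul_inr_right g
  rwa [h4] at h3

theorem wr_fg [Group.FG A] : Group.FG (Wr A) := wrS_fg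

theorem range_uncountable {α : Type*} [PartialOrder α] (f : ℝ ↪o α) :
    IsChain (· ≤ ·) (Set.range f) ∧ ¬ (Set.range f).Countable := by
  constructor
  · rintro _ ⟨a, rfl⟩ _ ⟨b, rfl⟩ _
    rcases le_total a b with h | h
    · exact Or.inl (f.le_iff_le.2 h)
    · exact Or.inr (f.le_iff_le.2 h)
  · intro h
    have h1 : (Set.univ : Set ℝ).Countable := by
      have := h.preimage f.injective
      rwa [Set.preimage_range] at this
    exact Cardinal.not_countable_real h1

/-- The subgroups `2ⁱ ℤ` of the infinite cyclic group. -/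
def twoPow (i : ℕ) : Subgroup (Multiplicative ℤ) :=
  Subgroup.zpowers (Multiplicative.ofAdd ((2 : ℤ) ^ i))

theorem mem_twoPow (i : ℕ) (x : Multiplicative ℤ) : x ∈ twoPow i ↔ (2 : ℤ) ^ i ∣ x.toAdd := by
  unfold twoPow
  rw [Subgroup.mem_zpowers_iff]
  constructor
  · rintro ⟨k, rfl⟩
    exact ⟨k, by simp [mul_comm]⟩
  · rintro ⟨k, hk⟩
    refine ⟨k, ?_⟩
    apply Multiplicative.toAdd.injective
    rw [hk]
    simp [mul_comm]

theorem twoPow_strictAnti : StrictAnti twoPow := by
  apply strictAnti_nat_of_succ_lt
  intro i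
  refine lt_of_le_of_ne ?_ ?_
  · intro x hx
    rw [mem_twoPow] at hx ⊢
    exact (pow_dvd_pow 2 (Nat.le_succ i)).trans hx
  · intro h
    have h1 : Multiplicative.ofAdd ((2 : ℤ) ^ i) ∈ twoPow (i + 1) := by
      rw [h, mem_twoPow]
      simp
    rw [mem_twoPow] at h1
    have h2 : (2 : ℤ) ^ (i + 1) ∣ 2 ^ i := h1
    have h3 := Int.le_of_dvd (by positivity) h2
    rw [pow_succ] at h3
    have h4 : (0 : ℤ) < 2 ^ i := by positivity
    omega

end Pool.Agent.R640
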